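import Pool.Agent.LptT.CertPack

/-!
# Combination of valid rows, leaves and trees
-/

set_option autoImplicit false

namespace Pool.Agent.LptT.Cert

/-- PROOF: all sums are zero. -/
theorem VI_zero (m : ℕ) (x : ℕ → Bool) : VI m x (List.replicate (m + 1) 0) 0 := by
  refine ⟨by simp, fun c hc => ?_, ?_⟩
  · rw [List.eq_of_mem_replicate hc]
  · have h : ∀ i, (List.replicate (m + 1) 0).getD i 0 = 0 := by
      intro i
      by_cases hi : i < m + 1
      · rw [List.getD_eq_getElem _ _ (by simpa using hi), List.getElem_replicate]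
      · rw [List.getD_eq_default _ _ (by simpa using hi)]
    simp only [h]
    simp

private theorem CertComb_getD {V W : List ℕ} (h : V.length = W.length) (l i : ℕ) :
    (List.zipWith (fun a b => a + b) V (W.map (fun a => l * a))).getD i 0 =
      V.getD i 0 + l * W.getD i 0 := by
  by_cases hi : i < V.length
  · have hW : i < W.length := by omega
    rw [List.getD_eq_getElem _ _ (by simp; omega), List.getElem_zipWith, List.getElem_map,
      List.getD_eq_getElem _ _ hi, List.getD_eq_getElem _ _ hW]
  · rw [List.getD_eq_default _ _ (by simp; omega), List.getD_eq_default _ _ (by omega),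
      List.getD_eq_default _ _ (by omega)]
    simp

/-- PROOF.  The list is `zipWith (+) V (W.map (l * ·))`; its entries are `V i + l * W i` (`getD` of `zipWith` and
`map`, equal lengths), bounds `64 L + l * 64 = 64 (L + l)`; add the two inequalities (the second times `l`). -/
theorem VI_add {m : ℕ} {x : ℕ → Bool} {V W : List ℕ} {L : ℕ} (hV : VI m x V L) (hW : VI m x W 1) (l : ℕ) :
    VI m x (List.zipWith (fun a b => a + b) V (W.map (fun a => l * a))) (L + l) := by
  obtain ⟨v1, v2, v3⟩ := hV
  obtain ⟨w1, w2, w3⟩ := hW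
  have hlen : V.length = W.length := by omega
  refine ⟨by simp; omega, fun c hc => ?_, ?_⟩
  · obtain ⟨i, hi, rfl⟩ := List.getElem_of_mem hc
    rw [List.getElem_zipWith, List.getElem_map]
    simp only [List.length_zipWith, List.length_map] at hi
    have h1 := v2 (V[i]'(by omega)) (List.getElem_mem _)
    have h2 := w2 (W[i]'(by omega)) (List.getElem_mem _)
    calc V[i]'(by omega) + l * W[i]'(by omega) ≤ 64 * L + l * (64 * 1) :=
          Nat.add_le_add h1 (Nat.mul_le_mul_left l h2)
      _ = 64 * (L + l) := by ring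
  · have e : ∀ i, (((List.zipWith (fun a b => a + b) V (W.map (fun a => l * a))).getD i 0 : ℕ) : ℤ) -
        2 * ((L + l : ℕ) : ℤ) =
        ((V.getD i 0 : ℤ) - 2 * (L : ℤ)) + (l : ℤ) * ((W.getD i 0 : ℤ) - 2 * ((1 : ℕ) : ℤ)) := by
      intro i
      rw [CertComb_getD hlen]
      push_cast
      ring
    simp only [e]
    have h1 : ∑ i ∈ Finset.range m, (((V.getD i 0 : ℤ) - 2 * (L : ℤ)) +
        (l : ℤ) * ((W.getD i 0 : ℤ) - 2 * ((1 : ℕ) : ℤ))) * (if x i = true then 1 else 0) =
        ∑ i ∈ Finset.range m, ((V.getD i 0 : ℤ) - 2 * (L : ℤ)) * (if x i = true then 1 else 0) +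
        (l : ℤ) * ∑ i ∈ Finset.range m, ((W.getD i 0 : ℤ) - 2 * ((1 : ℕ) : ℤ)) *
          (if x i = true then 1 else 0) := by
      rw [Finset.mul_sum, ← Finset.sum_add_distrib]
      refine Finset.sum_congr rfl fun i _ => ?_
      ring
    rw [h1]
    have h2 : (l : ℤ) * ∑ i ∈ Finset.range m, ((W.getD i 0 : ℤ) - 2 * ((1 : ℕ) : ℤ)) *
          (if x i = true then 1 else 0) ≤ (l : ℤ) * ((W.getD m 0 : ℤ) - 2 * ((1 : ℕ) : ℤ)) :=
      mul_le_mul_of_nonneg_left w3 (by positivity)
    linarith

/-- Soundness of a leaf.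

PROOF.  Induction over the pool `ps` and the list `ls` (the recursion of `comb`), generalizing `V`, `L`.
In the step `(0, l)` the new accumulator `pk V + l * pk W` is `pk` of the list of `VI_add` (`pk_add`, `pk_smul`).
At the end (`ls = []`): the entries of `V` are at most `64 L < 2^24`, and `fin_sound` (with `L2 = 2 L`,
`accL = 0`, `accR = D (M + 1) + 2 L`) gives
`∑ (D w_i + 2 L - V_i) x_i + V_m < D (M + 1) + 2 L`; together with `VI`:
`D * ∑ w_i x_i < D (M + 1)`, so `∑ w_i x_i ≤ M`. -/
theorem comb_sound {m : ℕ} {x : ℕ → Bool} (M D : ℕ) (ws : List ℕ) (hm : ws.length = m) (inM outM : ℕ)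
    (hf : Fits x inM outM) : ∀ (ps : List ℕ) (ls : List (ℕ × ℕ)) (V : List ℕ) (L : ℕ),
    (∀ p ∈ ps, ∃ W, p = pk W ∧ VI m x W 1) → VI m x V L →
    comb M D ws inM outM ps ls (pk V) L = true →
    ∑ i ∈ Finset.range m, (if x i = true then ws.getD i 0 else 0) ≤ M := by
  have hend : ∀ (V : List ℕ) (L : ℕ), VI m x V L →
      (decide (64 * L < 16777216) && fin D (2 * L) ws (pk V) inM outM 0 (D * (M + 1) + 2 * L)) = true →
      ∑ i ∈ Finset.range m, (if x i = true then ws.getD i 0 else 0) ≤ M := by
    intro V L hV h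
    rw [Bool.and_eq_true, decide_eq_true_eq] at h
    obtain ⟨v1, v2, v3⟩ := hV
    have h1 := fin_sound D (2 * L) ws V x inM outM 0 (D * (M + 1) + 2 * L) (by rw [v1, hm])
      (fun c hc => lt_of_le_of_lt (v2 c hc) h.1) hf h.2
    rw [hm] at h1
    have h2 : ∑ i ∈ Finset.range m, (((D : ℤ) * (ws.getD i 0 : ℤ) + ((2 * L : ℕ) : ℤ)) -
        (V.getD i 0 : ℤ)) * (if x i = true then 1 else 0) =
        (D : ℤ) * ((∑ i ∈ Finset.range m, (if x i = true then ws.getD i 0 else 0) : ℕ) : ℤ) -
        ∑ i ∈ Finset.range m, ((V.getD i 0 : ℤ) - 2 * (L : ℤ)) *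
          (if x i = true then 1 else 0) := by
      rw [Nat.cast_sum, Finset.mul_sum, ← Finset.sum_sub_distrib]
      refine Finset.sum_congr rfl fun i _ => ?_
      split_ifs <;> push_cast <;> ring
    rw [h2] at h1
    push_cast at h1 v3
    have h3 : (D : ℤ) * ((∑ i ∈ Finset.range m, (if x i = true then ws.getD i 0 else 0) : ℕ) : ℤ) <
        (D : ℤ) * ((M : ℤ) + 1) := by
      push_cast
      linarith
    have h4 : D * (∑ i ∈ Finset.range m, (if x i = true then ws.getD i 0 else 0)) < D * (M + 1) := by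
      exact_mod_cast h3
    have h5 := lt_of_mul_lt_mul_left h4 (Nat.zero_le D)
    omega
  intro ps
  induction ps with
  | nil =>
    intro ls V L _ hV h
    rcases ls with _ | ⟨q, ls⟩
    · exact hend V L hV (by rw [comb] at h; exact h)
    · simp [comb] at h
  | cons p ps ih =>
    intro ls V L hp hV h
    have hp' : ∀ q ∈ ps, ∃ W, q = pk W ∧ VI m x W 1 := fun q hq => hp q (by simp [hq])
    rcases ls with _ | ⟨⟨g, l⟩, ls⟩
    · exact hend V L hV (by rw [comb] at h; exact h)
    · rcases g with _ | g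
      · obtain ⟨W, rfl, hW⟩ := hp p (by simp)
        rw [comb] at h
        have hlen : V.length = (W.map (fun a => l * a)).length := by
          rw [List.length_map, hV.1, hW.1]
        rw [← pk_smul, ← pk_add V (W.map (fun a => l * a)) hlen] at h
        exact ih ls _ _ hp' (VI_add hV hW l) h
      · rw [comb] at h
        exact ih ((g, l) :: ls) V L hp' hV h

private theorem CertComb_fit {x : ℕ → Bool} {inM outM : ℕ} (hf : Fits x inM outM) (e : ℕ) :
    (x e = true → Fits x (inM ||| 2 ^ e) outM) ∧ (x e = false → Fits x inM (outM ||| 2 ^ e)) := by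
  constructor
  · intro hx i
    refine ⟨fun h => ?_, (hf i).2⟩
    rw [Nat.testBit_or, Bool.or_eq_true, Nat.testBit_two_pow] at h
    rcases h with h | h
    · exact (hf i).1 h
    · have : e = i := by simpa using h
      rw [← this]
      exact hx
  · intro hx i
    refine ⟨(hf i).1, fun h => ?_⟩
    rw [Nat.testBit_or, Bool.or_eq_true, Nat.testBit_two_pow] at h
    rcases h with h | h
    · exact (hf i).2 h
    · have : e = i := by simpa using h
      rw [← this]
      exact hx

/-- Soundness of a tree.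

PROOF.  Induction on the tree.  Leaf: `comb_sound` with `V = replicate (m + 1) 0` (`pk` of it is 0), `VI_zero`.
Node: if `x e = true`, the masks `inM ||| 2 ^ e`, `outM` fit (`Nat.testBit_or`, `Nat.testBit_two_pow`), otherwise
`inM`, `outM ||| 2 ^ e`. -/
theorem chk_sound {m : ℕ} {x : ℕ → Bool} (M : ℕ) (ws : List ℕ) (hm : ws.length = m) (ps : List ℕ)
    (hp : ∀ p ∈ ps, ∃ W, p = pk W ∧ VI m x W 1) : ∀ (t : Tr) (inM outM : ℕ), Fits x inM outM →
    chk M ws ps t inM outM = true →
    ∑ i ∈ Finset.range m, (if x i = true then ws.getD i 0 else 0) ≤ M := by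
  intro t
  induction t with
  | lf D ls =>
    intro inM outM hf h
    rw [chk] at h
    refine comb_sound M D ws hm inM outM hf ps ls (List.replicate (m + 1) 0) 0 hp (VI_zero m x) ?_
    have h0 : ∀ k, pk (List.replicate k 0) = 0 := by
      intro k
      induction k with
      | zero => rfl
      | succ k ih => rw [List.replicate_succ, pk, ih]
    rw [h0]
    exact h
  | nd e l r ihl ihr =>
    intro inM outM hf h
    rw [chk, Bool.and_eq_true] at h
    rcases hx : x e with _ | _
    · exact ihr _ _ ((CertComb_fit hf e).2 hx) h.2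
    · exact ihl _ _ ((CertComb_fit hf e).1 hx) h.1

end Pool.Agent.LptT.Cert
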