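import Mathlib

/-!
# Branch and cut certificates for the maximum weight of a cycle through infinity
-/

set_option autoImplicit false

namespace Pool.Agent.LptT.Cert

/-- A list of edges: first end, second end, weight. -/
abbrev EL := List (ℕ × ℕ × ℕ)

/-- First end of the edge number `i`. -/
def e1 (es : EL) (i : ℕ) : ℕ := (es.getD i (0, 0, 0)).1
/-- Second end of the edge number `i`. -/
def e2 (es : EL) (i : ℕ) : ℕ := (es.getD i (0, 0, 0)).2.1
/-- Weight of the edge number `i`. -/
def ew (es : EL) (i : ℕ) : ℕ := (es.getD i (0, 0, 0)).2.2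

/-- The degree of the vertex `v` in the set of edges `x`. -/
def dg (es : EL) (x : ℕ → Bool) (v : ℕ) : ℕ :=
  ∑ i ∈ Finset.range es.length,
    ((if x i = true ∧ e1 es i = v then 1 else 0) + (if x i = true ∧ e2 es i = v then 1 else 0))

/-- The set of edges `x` is a cycle through the vertex `n` (infinity): all degrees are 0 or 2, the degree
of `n` is two, and every set of vertices without `n` which contains a visited vertex is left by an edge. -/
structure LCyc (n : ℕ) (es : EL) (x : ℕ → Bool) : Prop where
  deg : ∀ v, v < n → dg es x v = 0 ∨ dg es x v = 2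
  inf : dg es x n = 2
  conn : ∀ X : ℕ → Bool, X n = false → (∃ v, X v = true ∧ dg es x v ≠ 0) →
    ∃ i, i < es.length ∧ x i = true ∧ X (e1 es i) ≠ X (e2 es i)

/-- The rows (valid inequalities). -/
inductive Row where
  /-- degree of the vertex `v` at most two -/
  | dg (v : ℕ)
  /-- degree of infinity at least two -/
  | inf
  /-- blossom inequality for the vertex set (mask) `X` and the edge set (mask) `F` -/
  | bl (X F : ℕ)
  /-- connectivity: `2 x f ≤ x (δ X)` -/
  | sec (X f : ℕ)

/-- The edge `(a, b)` is in the cut of `X`. -/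
def cut (X a b : ℕ) : Bool := X.testBit a != X.testBit b

/-- Coefficient (plus two) of the edge number `i` with the ends `a, b` in a row. -/
def cf (n : ℕ) (r : Row) (i a b : ℕ) : ℕ :=
  match r with
  | .dg v => 2 + ((if a = v then 1 else 0) + (if b = v then 1 else 0))
  | .inf => 2 - (if b = n then 1 else 0)
  | .bl X F => if cut X a b = true then (if F.testBit i = true then 3 else 1) else 2
  | .sec X f => if i = f then 4 else (if cut X a b = true then 1 else 2)

/-- The list of the coefficients (plus two), the first edge has number `i`. -/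
def cfs (n : ℕ) (r : Row) : EL → ℕ → List ℕ
  | [], _ => []
  | e :: es, i => cf n r i e.1 e.2.1 :: cfs n r es (i + 1)

/-- The number of edges in the cut of `X` and in `F`. -/
def cntF (X F : ℕ) : EL → ℕ → ℕ
  | [], _ => 0
  | e :: es, i => (if cut X e.1 e.2.1 = true ∧ F.testBit i = true then 1 else 0) + cntF X F es (i + 1)

/-- Right hand side (plus two) of a row. -/
def rh (es : EL) (r : Row) : ℕ :=
  match r with
  | .dg _ => 4
  | .inf => 0
  | .bl X F => cntF X F es 0 + 1
  | .sec _ _ => 2

/-- Validity of a row. -/
def rok (n : ℕ) (es : EL) (r : Row) : Bool :=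
  match r with
  | .dg v => decide (v ≤ n)
  | .inf => true
  | .bl X F => (X.testBit n == false) && (cntF X F es 0 % 2 == 1) && decide (cntF X F es 0 ≤ 60)
  | .sec X f => (X.testBit n == false) && decide (f < es.length) && (X.testBit (e1 es f) == true) &&
      (X.testBit (e2 es f) == true)

/-- All ends are in the allowed range: the first end is a cubic vertex. -/
def eok (n : ℕ) (es : EL) : Bool := es.all (fun e => decide (e.1 < n) && decide (e.2.1 ≤ n))

/-- The row as a list of numbers: coefficients plus two, then right hand side plus two. -/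
def rowL (n : ℕ) (es : EL) (r : Row) : List ℕ := cfs n r es 0 ++ [rh es r]

/-- Packing of a list of numbers in base `2 ^ 24`. -/
def pk : List ℕ → ℕ
  | [] => 0
  | c :: l => c + 16777216 * pk l

/-- The packed pool. -/
def pool (n : ℕ) (es : EL) (rs : List Row) : List ℕ := rs.map (fun r => pk (rowL n es r))

/-- Final loop: `N` the packed combination (coefficients plus `L2 = 2 * Λ`), `D` the denominator. -/
def fin (D L2 : ℕ) : List ℕ → (N inM outM accL accR : ℕ) → Bool
  | [], N, _, _, accL, accR => decide (accL + N < accR)
  | w :: ws, N, inM, outM, accL, accR =>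
      if inM % 2 = 1 then
        fin D L2 ws (N / 16777216) (inM / 2) (outM / 2) (accL + (D * w + L2)) (accR + N % 16777216)
      else if outM % 2 = 1 then
        fin D L2 ws (N / 16777216) (inM / 2) (outM / 2) accL accR
      else
        fin D L2 ws (N / 16777216) (inM / 2) (outM / 2) (accL + ((D * w + L2) - N % 16777216)) accR

/-- Combination of the packed rows with the multipliers `ls`, given as pairs (gap, multiplier);
`N` and `L` accumulate the packed sum and the sum of the multipliers. -/
def comb (M D : ℕ) (ws : List ℕ) (inM outM : ℕ) : List ℕ → List (ℕ × ℕ) → (N L : ℕ) → Bool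
  | _, [], N, L => decide (64 * L < 16777216) && fin D (2 * L) ws N inM outM 0 (D * (M + 1) + 2 * L)
  | [], _ :: _, _, _ => false
  | p :: ps, (0, l) :: ls, N, L => comb M D ws inM outM ps ls (N + l * p) (L + l)
  | _ :: ps, (g + 1, l) :: ls, N, L => comb M D ws inM outM ps ((g, l) :: ls) N L

/-- `V` (a list of length `m + 1`, entries at most `64 * L`) is a valid inequality for `x`, with the offset `2 * L`
in all entries: `∑ i < m, (V i - 2 L) x i ≤ V m - 2 L`. -/
def VI (m : ℕ) (x : ℕ → Bool) (V : List ℕ) (L : ℕ) : Prop :=
  V.length = m + 1 ∧ (∀ c ∈ V, c ≤ 64 * L) ∧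
    ∑ i ∈ Finset.range m, ((V.getD i 0 : ℤ) - 2 * (L : ℤ)) * (if x i = true then 1 else 0) ≤
      (V.getD m 0 : ℤ) - 2 * (L : ℤ)

/-- `x` agrees with the masks of the edges fixed in and out. -/
def Fits (x : ℕ → Bool) (inM outM : ℕ) : Prop :=
  ∀ i, (inM.testBit i = true → x i = true) ∧ (outM.testBit i = true → x i = false)

/-- The tree of a certificate. -/
inductive Tr where
  /-- a leaf: denominator and multipliers -/
  | lf (D : ℕ) (ls : List (ℕ × ℕ))
  /-- branching on the edge `e`: first in, then out -/
  | nd (e : ℕ) (l r : Tr)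

/-- Checking a certificate. -/
def chk (M : ℕ) (ws : List ℕ) (ps : List ℕ) : Tr → (inM outM : ℕ) → Bool
  | .lf D ls, inM, outM => comb M D ws inM outM ps ls 0 0
  | .nd e l r, inM, outM => chk M ws ps l (inM ||| 2 ^ e) outM && chk M ws ps r inM (outM ||| 2 ^ e)

end Pool.Agent.LptT.Cert
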