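import Pool.Agent.LptT.CertPar

/-!
# Validity of the rows
-/

set_option autoImplicit false

namespace Pool.Agent.LptT.Cert

private theorem CertRowB_VI {n : ℕ} {es : EL} {x : ℕ → Bool} {r : Row}
    (h1 : ∀ i, i < es.length → cf n r i (e1 es i) (e2 es i) ≤ 64) (h2 : rh es r ≤ 64)
    (h3 : ∑ i ∈ Finset.range es.length, ((cf n r i (e1 es i) (e2 es i) : ℤ) - 2) *
      (if x i = true then 1 else 0) ≤ (rh es r : ℤ) - 2) :
    VI es.length x (rowL n es r) 1 := by
  obtain ⟨g1, g2, g3⟩ := rowL_getD n es r
  refine ⟨g1, fun c hc => ?_, ?_⟩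
  · obtain ⟨i, hi, rfl⟩ := List.getElem_of_mem hc
    rw [g1] at hi
    rcases Nat.lt_or_ge i es.length with h | h
    · have := g2 i h
      rw [List.getD_eq_getElem _ _ (by omega)] at this
      rw [this, mul_one]
      exact h1 i h
    · have h4 : i = es.length := by omega
      subst h4
      rw [List.getD_eq_getElem _ _ (by omega)] at g3
      rw [g3, mul_one]
      exact h2
  · rw [g3]
    have h4 : ∑ i ∈ Finset.range es.length, (((rowL n es r).getD i 0 : ℤ) - 2 * ((1 : ℕ) : ℤ)) *
        (if x i = true then 1 else 0) =
        ∑ i ∈ Finset.range es.length, ((cf n r i (e1 es i) (e2 es i) : ℤ) - 2) *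
        (if x i = true then 1 else 0) := by
      refine Finset.sum_congr rfl fun i hi => ?_
      rw [g2 i (Finset.mem_range.1 hi)]
      norm_num
    have h5 : (2 : ℤ) * ((1 : ℕ) : ℤ) = 2 := by norm_num
    rw [h4, h5]
    exact h3

/-- PROOF.  Let `c` be the number of edges in the cut and in `F` (`cntF_eq`), odd and at most 60 by `rok`.  The
inequality is `#(used, cut, F) - #(used, cut, not F) ≤ c - 1`.  If it fails, then all `c` edges of the cut in `F`
are used and no other edge of the cut is used, so the number of used edges in the cut is `c`, odd: contradiction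
to `cut_even` with `X = testBit X`.  Entries: `1, 2, 3` and `c + 1 ≤ 61`. -/
theorem VI_bl {n : ℕ} {es : EL} {x : ℕ → Bool} (he : eok n es = true) (hx : LCyc n es x) (X F : ℕ)
    (hr : rok n es (.bl X F) = true) : VI es.length x (rowL n es (.bl X F)) 1 := by
  simp only [rok, Bool.and_eq_true, beq_iff_eq, decide_eq_true_eq] at hr
  obtain ⟨⟨r1, r2⟩, r3⟩ := hr
  refine CertRowB_VI (fun i _ => ?_) (by simp only [rh]; omega) ?_
  · simp only [cf]
    split_ifs <;> omega
  · have hev := cut_even he hx (fun v => X.testBit v) r1
    have hc := cntF_eq X F es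
    -- three counts
    set A := ∑ i ∈ Finset.range es.length,
      (if x i = true ∧ cut X (e1 es i) (e2 es i) = true ∧ F.testBit i = true then 1 else 0) with hA
    set B := ∑ i ∈ Finset.range es.length,
      (if x i = true ∧ cut X (e1 es i) (e2 es i) = true ∧ F.testBit i = false then 1 else 0) with hB
    have h1 : ∑ i ∈ Finset.range es.length, ((cf n (.bl X F) i (e1 es i) (e2 es i) : ℤ) - 2) *
        (if x i = true then 1 else 0) = (A : ℤ) - (B : ℤ) := by
      rw [hA, hB, Nat.cast_sum, Nat.cast_sum, ← Finset.sum_sub_distrib]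
      refine Finset.sum_congr rfl fun i _ => ?_
      simp only [cf]
      rcases x i with _ | _ <;> rcases cut X (e1 es i) (e2 es i) with _ | _ <;>
        rcases F.testBit i with _ | _ <;> simp
    have h2 : ∑ i ∈ Finset.range es.length,
        (if x i = true ∧ X.testBit (e1 es i) ≠ X.testBit (e2 es i) then 1 else 0) = A + B := by
      rw [hA, hB, ← Finset.sum_add_distrib]
      refine Finset.sum_congr rfl fun i _ => ?_
      unfold cut
      rcases x i with _ | _ <;> rcases X.testBit (e1 es i) with _ | _ <;>
        rcases X.testBit (e2 es i) with _ | _ <;> rcases F.testBit i with _ | _ <;> simp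
    have h3 : A ≤ cntF X F es 0 := by
      rw [hc, hA]
      refine Finset.sum_le_sum fun i _ => ?_
      rcases x i with _ | _ <;> rcases cut X (e1 es i) (e2 es i) with _ | _ <;>
        rcases F.testBit i with _ | _ <;> simp
    have h4 : Even (A + B) := by
      rw [← h2]
      exact hev
    rw [h1]
    simp only [rh]
    have h5 : A + 1 ≤ cntF X F es 0 + B := by
      rcases Nat.lt_or_ge A (cntF X F es 0) with h6 | h6
      · omega
      · rcases Nat.eq_zero_or_pos B with h7 | h7
        · have h8 : A = cntF X F es 0 := by omega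
          rw [h7, h8, add_zero, Nat.even_iff] at h4
          omega
        · omega
    have h6 : (A : ℤ) + 1 ≤ (cntF X F es 0 : ℤ) + B := by exact_mod_cast h5
    push_cast
    linarith

end Pool.Agent.LptT.Cert
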