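import Pool.Agent.LptT.CertPar

/-!
# Validity of the rows
-/

set_option autoImplicit false

namespace Pool.Agent.LptT.Cert

private theorem CertRowC_VI {n : ℕ} {es : EL} {x : ℕ → Bool} {r : Row}
    (h1 : ∀ i, i < es.length → cf n r i (e1 es i) (e2 es i) ≤ 64) (h2 : rh es r ≤ 64)
    (h3 : ∑ i ∈ Finset.range es.length, ((cf n r i (e1 es i) (e2 es i) : ℤ) - 2) *
      (if x i = true then 1 else 0) ≤ (rh es r : ℤ) - 2) :
    VI es.length x (rowL n es r) 1 := by
  obtain ⟨g1, g2, g3⟩ := rowL_getD n es r
  refine ⟨g1, fun c hc => ?_, ?_⟩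
  · obtain ⟨i, hi, rfl⟩ := List.getElem_of_mem hc
    rw [g1] at hi
    rcases Nat.lt_or_ge i es.length with h | h
    · have := g2 i h
      rw [List.getD_eq_getElem _ _ (by omega)] at this
      rw [this, mul_one]
      exact h1 i h
    · have h4 : i = es.length := by omega
      subst h4
      rw [List.getD_eq_getElem _ _ (by omega)] at g3
      rw [g3, mul_one]
      exact h2
  · rw [g3]
    have h4 : ∑ i ∈ Finset.range es.length, (((rowL n es r).getD i 0 : ℤ) - 2 * ((1 : ℕ) : ℤ)) *
        (if x i = true then 1 else 0) =
        ∑ i ∈ Finset.range es.length, ((cf n r i (e1 es i) (e2 es i) : ℤ) - 2) *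
        (if x i = true then 1 else 0) := by
      refine Finset.sum_congr rfl fun i hi => ?_
      rw [g2 i (Finset.mem_range.1 hi)]
      norm_num
    have h5 : (2 : ℤ) * ((1 : ℕ) : ℤ) = 2 := by norm_num
    rw [h4, h5]
    exact h3

/-- PROOF.  The edge `f` has both ends in `X`, so it is not in the cut.  The inequality is
`2 x_f ≤ #(used, cut)` (the entry of `f` is 4, i.e. coefficient 2; the entries of the cut are 1, i.e. coefficient
-1; `f` is not in the cut; right side 2, i.e. 0).  If `x f` is false it is clear.  If `x f` is true: `e1 es f` is a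
visited vertex in `X` (`dg ≠ 0`), so `LCyc.conn` gives a used edge in the cut, and by `cut_even` there are at
least two. -/
theorem VI_sec {n : ℕ} {es : EL} {x : ℕ → Bool} (he : eok n es = true) (hx : LCyc n es x) (X f : ℕ)
    (hr : rok n es (.sec X f) = true) : VI es.length x (rowL n es (.sec X f)) 1 := by
  simp only [rok, Bool.and_eq_true, beq_iff_eq, decide_eq_true_eq] at hr
  obtain ⟨⟨⟨r1, r2⟩, r3⟩, r4⟩ := hr
  refine CertRowC_VI (fun i _ => ?_) (by simp [rh]) ?_
  · simp only [cf]
    split_ifs <;> omega
  · have hev := cut_even he hx (fun v => X.testBit v) r1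
    set A := ∑ i ∈ Finset.range es.length,
      (if x i = true ∧ X.testBit (e1 es i) ≠ X.testBit (e2 es i) then 1 else 0) with hA
    have hfc : cut X (e1 es f) (e2 es f) = false := by
      unfold cut
      rw [r3, r4]
      rfl
    have h1 : ∑ i ∈ Finset.range es.length, ((cf n (.sec X f) i (e1 es i) (e2 es i) : ℤ) - 2) *
        (if x i = true then 1 else 0) = 2 * (if x f = true then 1 else 0) - (A : ℤ) := by
      have h2 : ∑ i ∈ Finset.range es.length, ((cf n (.sec X f) i (e1 es i) (e2 es i) : ℤ) - 2) *
          (if x i = true then 1 else 0) =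
          ∑ i ∈ Finset.range es.length, ((if i = f then 2 * (if x i = true then 1 else 0) else 0) -
            (if x i = true ∧ X.testBit (e1 es i) ≠ X.testBit (e2 es i) then (1 : ℤ) else 0)) := by
        refine Finset.sum_congr rfl fun i _ => ?_
        simp only [cf]
        by_cases hif : i = f
        · subst hif
          rw [if_pos rfl, if_pos rfl, r3, r4]
          simp
        · rw [if_neg hif, if_neg hif]
          unfold cut
          rcases x i with _ | _ <;> rcases X.testBit (e1 es i) with _ | _ <;>
            rcases X.testBit (e2 es i) with _ | _ <;> simp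
      rw [h2, Finset.sum_sub_distrib, Finset.sum_ite_eq', if_pos (Finset.mem_range.2 r2), hA,
        Nat.cast_sum]
      congr 1
      refine Finset.sum_congr rfl fun i _ => ?_
      split_ifs <;> simp
    rw [h1]
    simp only [rh]
    have h3 : 2 * (if x f = true then 1 else 0) ≤ A := by
      by_cases hxf : x f = true
      · rw [if_pos hxf]
        have hd : dg es x (e1 es f) ≠ 0 := by
          unfold dg
          intro h4
          rw [Finset.sum_eq_zero_iff] at h4
          have h5 := h4 f (Finset.mem_range.2 r2)
          rw [if_pos ⟨hxf, rfl⟩] at h5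
          omega
        obtain ⟨i, hi, hxi, hci⟩ := hx.conn (fun v => X.testBit v) r1 ⟨e1 es f, r3, hd⟩
        have h4 : 1 ≤ A := by
          rw [hA]
          have h5 : (if x i = true ∧ X.testBit (e1 es i) ≠ X.testBit (e2 es i) then 1 else 0) ≤
              ∑ i ∈ Finset.range es.length,
                (if x i = true ∧ X.testBit (e1 es i) ≠ X.testBit (e2 es i) then 1 else 0) :=
            Finset.single_le_sum (f := fun i =>
              (if x i = true ∧ X.testBit (e1 es i) ≠ X.testBit (e2 es i) then 1 else 0))
              (fun _ _ => Nat.zero_le _) (Finset.mem_range.2 hi)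
          rw [if_pos ⟨hxi, hci⟩] at h5
          exact h5
        obtain ⟨k, hk⟩ := hev
        omega
      · rw [if_neg hxf]
        omega
    have h4 : (2 * (if x f = true then 1 else 0) : ℤ) ≤ (A : ℤ) := by
      have : ((2 * (if x f = true then 1 else 0) : ℕ) : ℤ) ≤ (A : ℤ) := by exact_mod_cast h3
      push_cast at this
      exact this
    push_cast
    linarith

end Pool.Agent.LptT.Cert
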