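import Pool.Agent.LptT.CertRowA
import Pool.Agent.LptT.CertRowB
import Pool.Agent.LptT.CertRowC
import Pool.Agent.LptT.CertComb

/-!
# Soundness of certificates
-/

set_option autoImplicit false

namespace Pool.Agent.LptT.Cert

/-- The members of the pool are valid.  PROOF: cases on the row, `VI_dg`, `VI_inf`, `VI_bl`, `VI_sec`. -/
theorem pool_ok {n : ℕ} {es : EL} {x : ℕ → Bool} (rs : List Row) (he : eok n es = true)
    (hr : rs.all (rok n es) = true) (hx : LCyc n es x) :
    ∀ p ∈ pool n es rs, ∃ W, p = pk W ∧ VI es.length x W 1 := by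
  intro p hp
  unfold pool at hp
  rw [List.mem_map] at hp
  obtain ⟨r, hr', rfl⟩ := hp
  have h1 := List.all_eq_true.1 hr r hr'
  refine ⟨_, rfl, ?_⟩
  cases r with
  | dg v => exact VI_dg he hx v h1
  | inf => exact VI_inf he hx
  | bl X F => exact VI_bl he hx X F h1
  | sec X f => exact VI_sec he hx X f h1

/-- **Soundness of a certificate.**  PROOF: `chk_sound` with `m = es.length`, `pool_ok`; `Fits x 0 0`
(`Nat.zero_testBit`); `ws.getD i 0 = ew es i`. -/
theorem cert_sound (n : ℕ) (es : EL) (rs : List Row) (tr : Tr) (M : ℕ) (ws : List ℕ)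
    (hws : ws = es.map (fun e => e.2.2)) (he : eok n es = true) (hr : rs.all (rok n es) = true)
    (hc : chk M ws (pool n es rs) tr 0 0 = true) :
    ∀ x : ℕ → Bool, LCyc n es x →
      ∑ i ∈ Finset.range es.length, (if x i = true then ew es i else 0) ≤ M := by
  intro x hx
  have hf : Fits x 0 0 := by
    intro i
    rw [Nat.zero_testBit]
    exact ⟨fun h => absurd h (by simp), fun h => absurd h (by simp)⟩
  have h := chk_sound (m := es.length) (x := x) M ws (by rw [hws, List.length_map])
    (pool n es rs) (pool_ok rs he hr hx) tr 0 0 hf hc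
  refine le_trans (le_of_eq ?_) h
  refine Finset.sum_congr rfl fun i _ => ?_
  have h2 : ws.getD i 0 = ew es i := by
    rw [hws]
    unfold ew
    rw [List.getD_eq_getElem?_getD, List.getD_eq_getElem?_getD, List.getElem?_map]
    rcases es[i]? with _ | e
    · rfl
    · rfl
  rw [h2]

end Pool.Agent.LptT.Cert
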