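import Pool.Agent.LptT.CertDefs

/-!
# Packed vectors and the final loop
-/

set_option autoImplicit false

namespace Pool.Agent.LptT.Cert

/-- PROOF: induction on the lists. -/
theorem pk_add : ∀ (l1 l2 : List ℕ), l1.length = l2.length →
    pk (List.zipWith (fun a b => a + b) l1 l2) = pk l1 + pk l2
  | [], [], _ => by simp [pk]
  | [], _ :: _, h => by simp at h
  | _ :: _, [], h => by simp at h
  | a :: l1, b :: l2, h => by
      have ih := pk_add l1 l2 (by simpa using h)
      simp only [List.zipWith_cons_cons, pk, ih]
      ring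

/-- PROOF: induction. -/
theorem pk_smul (c : ℕ) : ∀ l : List ℕ, pk (l.map (fun a => c * a)) = c * pk l
  | [] => by simp [pk]
  | a :: l => by
      have ih := pk_smul c l
      simp only [List.map_cons, pk, ih]
      ring

/-- PROOF: `omega` after unfolding `pk`. -/
theorem pk_digit (c : ℕ) (l : List ℕ) (h : c < 16777216) :
    pk (c :: l) % 16777216 = c ∧ pk (c :: l) / 16777216 = pk l := by
  simp only [pk]
  omega

private theorem CertPack_mask {x : ℕ → Bool} {inM outM : ℕ} (hf : Fits x inM outM) :
    Fits (fun i => x (i + 1)) (inM / 2) (outM / 2) ∧ (inM % 2 = 1 → x 0 = true) ∧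
      (outM % 2 = 1 → x 0 = false) := by
  refine ⟨fun i => ⟨fun h => ?_, fun h => ?_⟩, fun h => ?_, fun h => ?_⟩
  · rw [← Nat.testBit_succ] at h
    exact (hf (i + 1)).1 h
  · rw [← Nat.testBit_succ] at h
    exact (hf (i + 1)).2 h
  · refine (hf 0).1 ?_
    rw [Nat.testBit_zero]
    simpa using h
  · refine (hf 0).2 ?_
    rw [Nat.testBit_zero]
    simpa using h

/-- Soundness of the final loop.

PROOF.  Induction on `ws`, generalizing `V`, `x`, the masks and the accumulators; `V = c :: V'` with `c < 2^24`,
`pk_digit`; the tail uses `x' i = x (i + 1)` and the masks divided by two (`Fits` for them: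
`Nat.testBit_div_two` or `Nat.testBit_succ`), the bit number 0 is `inM % 2`.  `Finset.sum_range_succ'` splits the sum.
In the case in, `x 0 = true`; in the case out, `x 0 = false`; otherwise the natural subtraction is at least
`(D w + L2 - c) * x 0`.  For `ws = []`, `V = [c]`, `pk V = c`. -/
theorem fin_sound (D L2 : ℕ) : ∀ (ws V : List ℕ) (x : ℕ → Bool) (inM outM accL accR : ℕ),
    V.length = ws.length + 1 → (∀ c ∈ V, c < 16777216) → Fits x inM outM →
    fin D L2 ws (pk V) inM outM accL accR = true →
    (accL : ℤ) + ∑ i ∈ Finset.range ws.length,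
        (((D : ℤ) * (ws.getD i 0 : ℤ) + (L2 : ℤ)) - (V.getD i 0 : ℤ)) * (if x i = true then 1 else 0) +
      (V.getD ws.length 0 : ℤ) < (accR : ℤ) := by
  intro ws
  induction ws with
  | nil =>
    intro V x inM outM accL accR hV hc _ h
    obtain ⟨c, rfl⟩ : ∃ c, V = [c] := by
      rcases V with _ | ⟨c, _ | ⟨d, V⟩⟩
      · simp at hV
      · exact ⟨c, rfl⟩
      · simp at hV
    simp only [fin, decide_eq_true_eq, pk] at h
    simp only [List.length_nil, Finset.range_zero, Finset.sum_empty, add_zero,
      List.getD_cons_zero]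
    omega
  | cons w ws ih =>
    intro V x inM outM accL accR hV hc hf h
    rcases V with _ | ⟨c, V⟩
    · simp at hV
    · have hc0 : c < 16777216 := hc c (by simp)
      obtain ⟨d1, d2⟩ := pk_digit c V hc0
      obtain ⟨f1, f2, f3⟩ := CertPack_mask hf
      have hV' : V.length = ws.length + 1 := by simpa using hV
      have hc' : ∀ c ∈ V, c < 16777216 := fun a ha => hc a (by simp [ha])
      have e : ∑ i ∈ Finset.range (w :: ws).length,
          (((D : ℤ) * ((w :: ws).getD i 0 : ℤ) + (L2 : ℤ)) - ((c :: V).getD i 0 : ℤ)) *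
            (if x i = true then 1 else 0) =
          ∑ i ∈ Finset.range ws.length,
          (((D : ℤ) * (ws.getD i 0 : ℤ) + (L2 : ℤ)) - (V.getD i 0 : ℤ)) *
            (if x (i + 1) = true then 1 else 0) +
          (((D : ℤ) * (w : ℤ) + (L2 : ℤ)) - (c : ℤ)) * (if x 0 = true then 1 else 0) := by
        rw [List.length_cons, Finset.sum_range_succ']
        simp only [List.getD_cons_succ, List.getD_cons_zero]
      have e2 : (((c :: V).getD (w :: ws).length 0 : ℕ) : ℤ) = (V.getD ws.length 0 : ℤ) := by
        rw [List.length_cons, List.getD_cons_succ]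
      rw [e, e2]
      rw [fin] at h
      rw [d1, d2] at h
      split_ifs at h with h1 h2
      · have h3 := ih V (fun i => x (i + 1)) _ _ _ _ hV' hc' f1 h
        have h4 := f2 h1
        rw [if_pos h4]
        push_cast at h3
        linarith
      · have h3 := ih V (fun i => x (i + 1)) _ _ _ _ hV' hc' f1 h
        have h4 := f3 h2
        rw [h4]
        simp only [Bool.false_eq_true, if_false, mul_zero, add_zero]
        exact h3
      · have h3 := ih V (fun i => x (i + 1)) _ _ _ _ hV' hc' f1 h
        have h5 : (((D : ℤ) * (w : ℤ) + (L2 : ℤ)) - (c : ℤ)) * (if x 0 = true then 1 else 0) ≤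
            ((D * w + L2 - c : ℕ) : ℤ) := by
          have h6 : ((D : ℤ) * (w : ℤ) + (L2 : ℤ)) - (c : ℤ) ≤ ((D * w + L2 - c : ℕ) : ℤ) := by
            have h7 : D * w + L2 ≤ (D * w + L2 - c) + c := by omega
            have h8 : ((D * w + L2 : ℕ) : ℤ) ≤ (((D * w + L2 - c) + c : ℕ) : ℤ) := by
              exact_mod_cast h7
            push_cast at h8 ⊢
            linarith
          split_ifs
          · rw [mul_one]
            exact h6
          · rw [mul_zero]
            positivity
        push_cast at h3
        linarith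

end Pool.Agent.LptT.Cert
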