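import Pool.Agent.LptT.CertDefs

/-!
# Parity, coefficients
-/

set_option autoImplicit false

namespace Pool.Agent.LptT.Cert

private theorem CertPar_ends {n : ℕ} {es : EL} (he : eok n es = true) {i : ℕ}
    (hi : i < es.length) : e1 es i < n ∧ e2 es i ≤ n := by
  unfold eok at he
  rw [List.all_eq_true] at he
  have h := he (es[i]) (List.getElem_mem hi)
  rw [Bool.and_eq_true, decide_eq_true_eq, decide_eq_true_eq] at h
  unfold e1 e2
  rw [List.getD_eq_getElem _ _ hi]
  exact h

private theorem CertPar_one {n a : ℕ} {X : ℕ → Bool} (ha : a ≤ n) (hX : X n = false) (b : Bool) :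
    ∑ v ∈ (Finset.range n).filter (fun v => X v = true), (if b = true ∧ a = v then 1 else 0) =
      (if b = true ∧ X a = true then 1 else 0) := by
  rcases b with _ | _
  · simp
  · simp only [true_and]
    rw [Finset.sum_ite_eq]
    by_cases h : X a = true
    · have h1 : a < n := by
        rcases Nat.lt_or_ge a n with h2 | h2
        · exact h2
        · have : a = n := by omega
          rw [this, hX] at h
          exact absurd h (by simp)
      rw [if_pos h, if_pos (Finset.mem_filter.2 ⟨Finset.mem_range.2 h1, h⟩)]
    · have h1 : a ∉ (Finset.range n).filter (fun v => X v = true) :=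
        fun h2 => h (Finset.mem_filter.1 h2).2
      rw [if_neg h, if_neg h1]

/-- The number of used edges in the cut of a vertex set without infinity is even.

PROOF.  `∑ v ∈ (range n).filter X, dg es x v` is even (every summand is 0 or 2).  Exchange the sums: it equals
`∑ i < m, x_i * ([X (e1 i)] + [X (e2 i)])`, because `e1 i < n` and `e2 i ≤ n`, `X n = false` (`eok`: every member of
`es` has these properties, `List.getD_eq_getElem`).  `[X a] + [X b]` is odd iff `X a ≠ X b`. -/
theorem cut_even {n : ℕ} {es : EL} {x : ℕ → Bool} (he : eok n es = true) (hx : LCyc n es x)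
    (X : ℕ → Bool) (hX : X n = false) :
    Even (∑ i ∈ Finset.range es.length,
      (if x i = true ∧ X (e1 es i) ≠ X (e2 es i) then 1 else 0)) := by
  have hS : Even (∑ v ∈ (Finset.range n).filter (fun v => X v = true), dg es x v) := by
    apply Finset.even_sum
    intro v hv
    rcases hx.deg v (Finset.mem_range.1 (Finset.mem_filter.1 hv).1) with h | h
    · rw [h]
      exact ⟨0, rfl⟩
    · rw [h]
      exact ⟨1, rfl⟩
  have h1 : ∑ v ∈ (Finset.range n).filter (fun v => X v = true), dg es x v =
      ∑ i ∈ Finset.range es.length, ((if x i = true ∧ X (e1 es i) = true then 1 else 0) +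
        (if x i = true ∧ X (e2 es i) = true then 1 else 0)) := by
    unfold dg
    rw [Finset.sum_comm]
    refine Finset.sum_congr rfl fun i hi => ?_
    obtain ⟨h2, h3⟩ := CertPar_ends he (Finset.mem_range.1 hi)
    rw [Finset.sum_add_distrib, CertPar_one h2.le hX, CertPar_one h3 hX]
  have h2 : ∑ i ∈ Finset.range es.length, ((if x i = true ∧ X (e1 es i) = true then 1 else 0) +
        (if x i = true ∧ X (e2 es i) = true then 1 else 0)) =
      ∑ i ∈ Finset.range es.length,
        (if x i = true ∧ X (e1 es i) ≠ X (e2 es i) then 1 else 0) +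
      2 * ∑ i ∈ Finset.range es.length,
        (if x i = true ∧ X (e1 es i) = true ∧ X (e2 es i) = true then 1 else 0) := by
    rw [Finset.mul_sum, ← Finset.sum_add_distrib]
    refine Finset.sum_congr rfl fun i _ => ?_
    rcases x i with _ | _ <;> rcases X (e1 es i) with _ | _ <;> rcases X (e2 es i) with _ | _ <;>
      simp
  rw [h1, h2] at hS
  exact (Nat.even_add.1 hS).2 (even_two_mul _)

private theorem CertPar_cfs (n : ℕ) (r : Row) : ∀ (es : EL) (k : ℕ),
    (cfs n r es k).length = es.length ∧
    ∀ i, i < es.length → (cfs n r es k).getD i 0 = cf n r (k + i) (e1 es i) (e2 es i)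
  | [], k => by simp [cfs]
  | e :: es, k => by
      obtain ⟨h1, h2⟩ := CertPar_cfs n r es (k + 1)
      refine ⟨by simp [cfs, h1], fun i hi => ?_⟩
      rcases i with _ | i
      · simp [cfs, e1, e2]
      · have h3 := h2 i (by simpa using hi)
        rw [cfs, List.getD_cons_succ, h3]
        unfold e1 e2
        rw [List.getD_cons_succ]
        congr 1
        omega

/-- The entries of a row.  PROOF: `cfs n r es k` has length `es.length` and its entry number `i` is
`cf n r (k + i) (e1 es i) (e2 es i)` (induction on `es`), then `List.getD_append`. -/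
theorem rowL_getD (n : ℕ) (es : EL) (r : Row) :
    (rowL n es r).length = es.length + 1 ∧
    (∀ i, i < es.length → (rowL n es r).getD i 0 = cf n r i (e1 es i) (e2 es i)) ∧
    (rowL n es r).getD es.length 0 = rh es r := by
  obtain ⟨h1, h2⟩ := CertPar_cfs n r es 0
  refine ⟨by simp [rowL, h1], fun i hi => ?_, ?_⟩
  · have h3 := h2 i hi
    rw [Nat.zero_add] at h3
    rw [rowL, List.getD_append _ _ _ _ (by rw [h1]; exact hi), h3]
  · rw [rowL, List.getD_append_right _ _ _ _ (by rw [h1]), h1, Nat.sub_self,
      List.getD_cons_zero]

private theorem CertPar_cnt (X F : ℕ) : ∀ (es : EL) (k : ℕ),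
    cntF X F es k = ∑ i ∈ Finset.range es.length,
      (if cut X (e1 es i) (e2 es i) = true ∧ F.testBit (k + i) = true then 1 else 0)
  | [], k => by simp [cntF]
  | e :: es, k => by
      rw [cntF, CertPar_cnt X F es (k + 1), List.length_cons, Finset.sum_range_succ', add_comm]
      congr 1
      refine Finset.sum_congr rfl fun i _ => ?_
      unfold e1 e2
      rw [List.getD_cons_succ]
      have : k + 1 + i = k + (i + 1) := by omega
      rw [this]

/-- `cntF` as a sum.  PROOF: induction on `es` (generalize the start index). -/
theorem cntF_eq (X F : ℕ) (es : EL) :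
    cntF X F es 0 = ∑ i ∈ Finset.range es.length,
      (if cut X (e1 es i) (e2 es i) = true ∧ F.testBit i = true then 1 else 0) := by
  rw [CertPar_cnt]
  refine Finset.sum_congr rfl fun i _ => ?_
  rw [Nat.zero_add]

end Pool.Agent.LptT.Cert
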