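import Pool.Agent.LptT.CertPar

/-!
# Validity of the rows
-/

set_option autoImplicit false

namespace Pool.Agent.LptT.Cert

private theorem CertRowA_VI {n : ℕ} {es : EL} {x : ℕ → Bool} {r : Row}
    (h1 : ∀ i, i < es.length → cf n r i (e1 es i) (e2 es i) ≤ 64) (h2 : rh es r ≤ 64)
    (h3 : ∑ i ∈ Finset.range es.length, ((cf n r i (e1 es i) (e2 es i) : ℤ) - 2) *
      (if x i = true then 1 else 0) ≤ (rh es r : ℤ) - 2) :
    VI es.length x (rowL n es r) 1 := by
  obtain ⟨g1, g2, g3⟩ := rowL_getD n es r
  refine ⟨g1, fun c hc => ?_, ?_⟩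
  · obtain ⟨i, hi, rfl⟩ := List.getElem_of_mem hc
    rw [g1] at hi
    rcases Nat.lt_or_ge i es.length with h | h
    · have := g2 i h
      rw [List.getD_eq_getElem _ _ (by omega)] at this
      rw [this, mul_one]
      exact h1 i h
    · have h4 : i = es.length := by omega
      subst h4
      rw [List.getD_eq_getElem _ _ (by omega)] at g3
      rw [g3, mul_one]
      exact h2
  · rw [g3]
    have h4 : ∑ i ∈ Finset.range es.length, (((rowL n es r).getD i 0 : ℤ) - 2 * ((1 : ℕ) : ℤ)) *
        (if x i = true then 1 else 0) =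
        ∑ i ∈ Finset.range es.length, ((cf n r i (e1 es i) (e2 es i) : ℤ) - 2) *
        (if x i = true then 1 else 0) := by
      refine Finset.sum_congr rfl fun i hi => ?_
      rw [g2 i (Finset.mem_range.1 hi)]
      norm_num
    have h5 : (2 : ℤ) * ((1 : ℕ) : ℤ) = 2 := by norm_num
    rw [h4, h5]
    exact h3

private theorem CertRowA_ends {n : ℕ} {es : EL} (he : eok n es = true) {i : ℕ}
    (hi : i < es.length) : e1 es i < n ∧ e2 es i ≤ n := by
  unfold eok at he
  rw [List.all_eq_true] at he
  have h := he (es[i]) (List.getElem_mem hi)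
  rw [Bool.and_eq_true, decide_eq_true_eq, decide_eq_true_eq] at h
  unfold e1 e2
  rw [List.getD_eq_getElem _ _ hi]
  exact h

/-- PROOF.  By `rowL_getD` the inequality is `∑ ([a_i = v] + [b_i = v]) x_i ≤ 2`, i.e. `dg es x v ≤ 2`
(`LCyc.deg`, `LCyc.inf`; `v ≤ n` from `rok`).  The entries are at most `4 ≤ 64`. -/
theorem VI_dg {n : ℕ} {es : EL} {x : ℕ → Bool} (he : eok n es = true) (hx : LCyc n es x) (v : ℕ)
    (hr : rok n es (.dg v) = true) : VI es.length x (rowL n es (.dg v)) 1 := by
  have hv : v ≤ n := by simpa [rok] using hr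
  have hd : dg es x v ≤ 2 := by
    rcases Nat.lt_or_ge v n with h | h
    · rcases hx.deg v h with h1 | h1 <;> omega
    · have : v = n := by omega
      rw [this, hx.inf]
  refine CertRowA_VI (fun i _ => ?_) (by simp [rh]) ?_
  · simp only [cf]
    split_ifs <;> omega
  · have h1 : ∑ i ∈ Finset.range es.length, ((cf n (.dg v) i (e1 es i) (e2 es i) : ℤ) - 2) *
        (if x i = true then 1 else 0) = (dg es x v : ℤ) := by
      unfold dg
      rw [Nat.cast_sum]
      refine Finset.sum_congr rfl fun i _ => ?_
      simp only [cf]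
      rcases x i with _ | _
      · simp
      · simp only [if_true, mul_one, true_and]
        push_cast
        ring
    rw [h1]
    simp only [rh]
    have : (dg es x v : ℤ) ≤ 2 := by exact_mod_cast hd
    norm_num
    linarith

/-- PROOF.  The inequality is `- ∑ [b_i = n] x_i ≤ -2`; `dg es x n = ∑ [b_i = n] x_i` because the first ends are
`< n` (`eok`), and it is 2. -/
theorem VI_inf {n : ℕ} {es : EL} {x : ℕ → Bool} (he : eok n es = true) (hx : LCyc n es x) :
    VI es.length x (rowL n es .inf) 1 := by
  refine CertRowA_VI (fun i _ => ?_) (by simp [rh]) ?_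
  · simp only [cf]
    split_ifs <;> omega
  · have h1 : ∑ i ∈ Finset.range es.length, ((cf n .inf i (e1 es i) (e2 es i) : ℤ) - 2) *
        (if x i = true then 1 else 0) = -(dg es x n : ℤ) := by
      unfold dg
      rw [Nat.cast_sum, ← Finset.sum_neg_distrib]
      refine Finset.sum_congr rfl fun i hi => ?_
      have h2 := (CertRowA_ends he (Finset.mem_range.1 hi)).1
      have h3 : ¬ (x i = true ∧ e1 es i = n) := fun h => by omega
      rw [if_neg h3]
      simp only [cf]
      rcases x i with _ | _
      · simp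
      · by_cases h4 : e2 es i = n
        · simp [h4]
        · simp [h4]
    rw [h1, hx.inf]
    simp [rh]

end Pool.Agent.LptT.Cert
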