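import Pool.Agent.LptT.Nb

/-!
# How a path meets a chain
-/

set_option autoImplicit false

namespace Pool.Agent.LptT

private theorem ChainA_nbU {P : Pat} {u v : P.VG} {S : Finset P.VG} {U : P.VG → P.VG → Prop}
    (h : PathLike P.gr u v S U) (c' : P.CV) (hc : Sum.inr c' ∈ S)
    (hu : Sum.inr c' ≠ u) (hv : Sum.inr c' ≠ v) (y : P.VG) (hy : P.gr.Adj (Sum.inr c') y) :
    U (Sum.inr c') y := by
  have h1 : {y | U (Sum.inr c') y}.ncard = 2 := h.two _ hc hu hv
  have h2 : {y | P.gr.Adj (Sum.inr c') y}.ncard ≤ 2 := P.nb_two c'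
  have h3 : {y | U (Sum.inr c') y} ⊆ {y | P.gr.Adj (Sum.inr c') y} := fun z hz => h.adj _ _ hz
  have h4 := Set.eq_of_subset_of_ncard_le h3 (by omega) (Set.toFinite _)
  have h5 : y ∈ {y | P.gr.Adj (Sum.inr c') y} := hy
  rw [← h4] at h5
  exact h5

/-- If a path meets a chain which contains none of its two ends, then the edge is not an exit, the path
contains the whole chain and uses all edges at the vertices of the chain.

PROOF.  (1) For a vertex `inr c'` of the chain in `S`, `two` gives exactly two `U`-neighbours, `adj` says they are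
neighbours in the graph, and `nb_two` says that there are at most two neighbours; so every neighbour is a
`U`-neighbour (`Set.eq_of_subset_of_ncard_le`, finite sets).  (2) Hence if `⟨e, i⟩` is in `S`, so are
`⟨e, i+1⟩` and `⟨e, i-1⟩` if they exist (`symm`, `mem`), and by induction the whole chain is in `S`.
(3) If the edge were an exit, the last vertex of the chain would have two `U`-neighbours and at most one
neighbour (`nb_one`): contradiction. -/
theorem chain_full {P : Pat} {u v : P.VG} {S : Finset P.VG} {U : P.VG → P.VG → Prop}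
    (h : PathLike P.gr u v S U) (c : P.CV) (hc : Sum.inr c ∈ S)
    (hu : ∀ c' : P.CV, u = Sum.inr c' → c'.1 ≠ c.1) (hv : ∀ c' : P.CV, v = Sum.inr c' → c'.1 ≠ c.1) :
    P.b c.1 ≠ none ∧ (∀ c' : P.CV, c'.1 = c.1 → Sum.inr c' ∈ S) ∧
      ∀ c' : P.CV, c'.1 = c.1 → ∀ y, P.gr.Adj (Sum.inr c') y → U (Sum.inr c') y := by
  have hu' : ∀ c' : P.CV, c'.1 = c.1 → (Sum.inr c' : P.VG) ≠ u := fun c' h1 h2 => hu c' h2.symm h1
  have hv' : ∀ c' : P.CV, c'.1 = c.1 → (Sum.inr c' : P.VG) ≠ v := fun c' h1 h2 => hv c' h2.symm h1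
  have key : ∀ c' : P.CV, c'.1 = c.1 → Sum.inr c' ∈ S →
      ∀ y, P.gr.Adj (Sum.inr c') y → U (Sum.inr c') y :=
    fun c' h1 h2 y hy => ChainA_nbU h c' h2 (hu' c' h1) (hv' c' h1) y hy
  have hstep : ∀ c' d' : P.CV, c'.1 = c.1 → Sum.inr c' ∈ S → P.gr.Adj (Sum.inr c') (Sum.inr d') →
      Sum.inr d' ∈ S := fun c' d' h1 h2 h3 => h.mem _ _ (h.symm _ _ (key c' h1 h2 _ h3))
  have hall : ∀ c' : P.CV, c'.1 = c.1 → Sum.inr c' ∈ S := by
    obtain ⟨e, i0⟩ := c
    have hup : ∀ d : ℕ, ∀ hd : i0.val + d < P.len e, (Sum.inr ⟨e, ⟨i0.val + d, hd⟩⟩ : P.VG) ∈ S := by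
      intro d
      induction d with
      | zero => intro hd; exact hc
      | succ d ih =>
        intro hd
        exact hstep ⟨e, ⟨i0.val + d, by omega⟩⟩ _ rfl (ih (by omega))
          ((P.adj_rr _ _).2 ⟨rfl, Or.inl rfl⟩)
    have hdn : ∀ d : ℕ, d ≤ i0.val → ∀ hd : i0.val - d < P.len e,
        (Sum.inr ⟨e, ⟨i0.val - d, hd⟩⟩ : P.VG) ∈ S := by
      intro d
      induction d with
      | zero => intro _ hd; exact hc
      | succ d ih =>
        intro h1 hd
        refine hstep ⟨e, ⟨i0.val - d, by omega⟩⟩ _ rfl (ih (by omega) _)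
          ((P.adj_rr _ _).2 ⟨rfl, Or.inr ?_⟩)
        show i0.val - (d + 1) + 1 = i0.val - d
        omega
    rintro ⟨e', j⟩ h1
    have h1' : e' = e := h1
    subst h1'
    rcases le_total i0.val j.val with hle | hle
    · have h2 := hup (j.val - i0.val) (by omega)
      have h3 : (⟨i0.val + (j.val - i0.val), by omega⟩ : Fin (P.len e')) = j := Fin.ext (by
        show i0.val + (j.val - i0.val) = j.val
        omega)
      rw [h3] at h2
      exact h2
    · have h2 := hdn (i0.val - j.val) (by omega) (by omega)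
      have h3 : (⟨i0.val - (i0.val - j.val), by omega⟩ : Fin (P.len e')) = j := Fin.ext (by
        show i0.val - (i0.val - j.val) = j.val
        omega)
      rw [h3] at h2
      exact h2
  refine ⟨?_, hall, fun c' h1 y hy => key c' h1 (hall c' h1) y hy⟩
  intro hb
  have hlen := P.len_pos c.1
  let z : P.CV := ⟨c.1, ⟨P.len c.1 - 1, by omega⟩⟩
  have hz : Sum.inr z ∈ S := hall z rfl
  have h1 : {y | U (Sum.inr z) y}.ncard = 2 := h.two _ hz (hu' z rfl) (hv' z rfl)
  have h2 : {y | P.gr.Adj (Sum.inr z) y}.ncard ≤ 1 := P.nb_one z hb (by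
    show P.len c.1 - 1 + 1 = P.len c.1
    omega)
  have h3 : {y | U (Sum.inr z) y} ⊆ {y | P.gr.Adj (Sum.inr z) y} := fun w hw => h.adj _ _ hw
  have h4 := Set.ncard_le_ncard h3 (Set.toFinite _)
  omega

/-- If a path meets the chain of an exit `e` and also contains a vertex outside of this chain, then it
uses the edge between the chain and the fragment.

PROOF.  Let `X` be the set of the vertices of `S` on the chain of `e`.  `X` is nonempty and different from
`S`, so by `closed` there are `x ∈ X` and `y ∉ X` with `U x y`; `y ∈ S` (`symm`, `mem`), so `y` is not on the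
chain; by `adj` and `adj_rr`, `y = inl q`, and by `adj_rl`, `cend_cases` and `P.b e = none` we get
`x = inr (cend (a e))` and `y = inl ((a e).1, term (a e).2)`. -/
theorem exit_attached {P : Pat} {u v : P.VG} {S : Finset P.VG} {U : P.VG → P.VG → Prop}
    (h : PathLike P.gr u v S U) (e : Fin P.m) (hb : P.b e = none)
    (hm : ∃ c : P.CV, c.1 = e ∧ Sum.inr c ∈ S) (ho : ∃ y ∈ S, ∀ c : P.CV, y = Sum.inr c → c.1 ≠ e) :
    U (Sum.inr (P.cend (P.a e))) (Sum.inl ((P.a e).1, term (P.a e).2)) := by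
  classical
  by_contra hcon
  let X : Finset P.VG := S.filter (fun z => ∃ c : P.CV, z = Sum.inr c ∧ c.1 = e)
  have hX : X.Nonempty := by
    obtain ⟨c, h1, h2⟩ := hm
    exact ⟨Sum.inr c, Finset.mem_filter.2 ⟨h2, c, rfl, h1⟩⟩
  have hXS : X ⊆ S := Finset.filter_subset _ _
  have hcl : ∀ x ∈ X, ∀ y, U x y → y ∈ X := by
    intro x hx y hxy
    obtain ⟨hxS, c, hxc, hce⟩ := Finset.mem_filter.1 hx
    have hyS : y ∈ S := h.mem _ _ (h.symm _ _ hxy)
    subst hxc
    have hadj := h.adj _ _ hxy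
    rcases y with q | d
    · exfalso
      obtain ⟨t, h1, h2⟩ := (P.adj_rl q c).1 hadj
      rcases P.cend_cases (q.1, t) c h2 with ⟨h3, _⟩ | ⟨h3, _⟩
      · apply hcon
        have h4 : P.a e = (q.1, t) := by rw [← hce]; exact h3
        rw [h4, ← h2]
        have h5 : ((q.1, t).1, term (q.1, t).2) = q := by
          show (q.1, term t) = q
          rw [← h1]
        rw [h5]
        exact hxy
      · rw [hce, hb] at h3
        exact absurd h3 (by simp)
    · have h1 := (P.adj_rr c d).1 hadj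
      exact Finset.mem_filter.2 ⟨hyS, d, rfl, by rw [← h1.1]; exact hce⟩
  have hXeq := h.closed X hX hXS hcl
  obtain ⟨y, hyS, hy⟩ := ho
  rw [← hXeq] at hyS
  obtain ⟨_, c, h1, h2⟩ := Finset.mem_filter.1 hyS
  exact hy c h1 h2

end Pool.Agent.LptT
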