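import Pool.Agent.LptT.ChainA

/-!
# How a path meets a chain
-/

set_option autoImplicit false

namespace Pool.Agent.LptT

/-- In the situation of a path with ends on the chains of two different exits: every slot whose edge is
met by the path is used.

PROOF.  Let `e = edge p`, `c` a vertex of `S` on its chain.  If `b e ≠ none`, the ends of the path are not on
this chain (they are on chains of exits), so `chain_full` and `adj_rl` (with `t = p.2`) give the claim.  If
`b e = none` then `p = a e` (`P.sl p = (e, false)`, because `(P.sl p).2 = true` would give `b e = some p`;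
`a_sl`); one of `c1.1, c2.1` is different from `e`, so `exit_attached` applies with `y = u` or `y = v`
(`memu`, `memv`). -/
theorem slot_used {P : Pat} {c1 c2 : P.CV} {S : Finset P.VG} {U : P.VG → P.VG → Prop}
    (h : PathLike P.gr (Sum.inr c1) (Sum.inr c2) S U) (h1 : P.b c1.1 = none) (h2 : P.b c2.1 = none)
    (hne : c1.1 ≠ c2.1) (p : Fin P.n × Fin 3) (hp : P.edge p ∈ P.ux S) :
    U (Sum.inr (P.cend p)) (Sum.inl (p.1, term p.2)) := by
  obtain ⟨c, hce, hcS⟩ := (P.mem_ux S _).1 hp
  by_cases hb : P.b (P.edge p) = none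
  · have hside : (P.sl p).2 = false := by
      rcases Bool.eq_false_or_eq_true (P.sl p).2 with ht | hf
      · have h3 := P.b_sl p ht
        have h4 : P.b (P.edge p) = some p := h3
        rw [hb] at h4
        exact absurd h4 (by simp)
      · exact hf
    have ha : P.a (P.edge p) = p := P.a_sl p hside
    have ho : ∃ y ∈ S, ∀ c : P.CV, y = Sum.inr c → c.1 ≠ P.edge p := by
      by_cases h3 : c1.1 = P.edge p
      · refine ⟨Sum.inr c2, h.memv, ?_⟩
        intro d hd
        have h4 : c2 = d := Sum.inr.inj hd
        subst h4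
        intro h5
        exact hne (h3.trans h5.symm)
      · refine ⟨Sum.inr c1, h.memu, ?_⟩
        intro d hd
        have h4 : c1 = d := Sum.inr.inj hd
        subst h4
        exact h3
    have h5 := exit_attached h (P.edge p) hb ⟨c, hce, hcS⟩ ho
    rw [ha] at h5
    exact h5
  · have hu : ∀ c' : P.CV, (Sum.inr c1 : P.VG) = Sum.inr c' → c'.1 ≠ c.1 := by
      intro d hd
      have h4 : c1 = d := Sum.inr.inj hd
      subst h4
      intro h5
      apply hb
      rw [← hce, ← h5]
      exact h1
    have hv : ∀ c' : P.CV, (Sum.inr c2 : P.VG) = Sum.inr c' → c'.1 ≠ c.1 := by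
      intro d hd
      have h4 : c2 = d := Sum.inr.inj hd
      subst h4
      intro h5
      apply hb
      rw [← hce, ← h5]
      exact h2
    obtain ⟨_, _, hU⟩ := chain_full h c hcS hu hv
    exact hU (P.cend p) (by rw [P.cend_edge, hce]) _ ((P.adj_rl _ _).2 ⟨p.2, rfl, rfl⟩)

/-- The exits met by such a path are exactly the two which contain the ends.
PROOF: `c1.1, c2.1 ∈ ux S` by `memu`, `memv`; another exit would contradict `chain_full`. -/
theorem exits_used {P : Pat} {c1 c2 : P.CV} {S : Finset P.VG} {U : P.VG → P.VG → Prop}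
    (h : PathLike P.gr (Sum.inr c1) (Sum.inr c2) S U) (h1 : P.b c1.1 = none) (h2 : P.b c2.1 = none)
    (hne : c1.1 ≠ c2.1) : (P.ux S).filter (fun e => P.b e = none) = {c1.1, c2.1} := by
  classical
  ext e
  rw [Finset.mem_filter, P.mem_ux, Finset.mem_insert, Finset.mem_singleton]
  constructor
  · rintro ⟨⟨c, hce, hcS⟩, hb⟩
    by_contra hcon
    push Not at hcon
    have hu : ∀ c' : P.CV, (Sum.inr c1 : P.VG) = Sum.inr c' → c'.1 ≠ c.1 := by
      intro d hd
      have h4 : c1 = d := Sum.inr.inj hd
      subst h4
      intro h5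
      exact hcon.1 (by rw [← hce, ← h5])
    have hv : ∀ c' : P.CV, (Sum.inr c2 : P.VG) = Sum.inr c' → c'.1 ≠ c.1 := by
      intro d hd
      have h4 : c2 = d := Sum.inr.inj hd
      subst h4
      intro h5
      exact hcon.2 (by rw [← hce, ← h5])
    have h5 := (chain_full h c hcS hu hv).1
    rw [hce] at h5
    exact h5 hb
  · rintro (rfl | rfl)
    · exact ⟨⟨c1, rfl, h.memu⟩, h1⟩
    · exact ⟨⟨c2, rfl, h.memv⟩, h2⟩

end Pool.Agent.LptT
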