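import Pool.Agent.LptT.ChainB

/-!
# The edges met by a path form a connected set
-/

set_option autoImplicit false

namespace Pool.Agent.LptT

private theorem Conn_edge {P : Pat} {p q : Fin P.n × Fin 3} (h : P.edge p = P.edge q) :
    p = q ∨ P.opp p = some q := by
  unfold Pat.edge at h
  unfold Pat.opp
  rcases hp : (P.sl p).2 with _ | _ <;> rcases hq : (P.sl q).2 with _ | _
  · left
    rw [← P.a_sl p hp, ← P.a_sl q hq, h]
  · right
    rw [if_neg (by simp), h]
    exact P.b_sl q hq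
  · right
    rw [if_pos rfl, h, P.a_sl q hq]
  · left
    have h1 := P.b_sl p hp
    have h2 := P.b_sl q hq
    rw [h, h2] at h1
    exact (Option.some.inj h1).symm

open Classical in
private noncomputable def Conn_Y {P : Pat} (S : Finset P.VG) (X : Finset (Fin P.n)) : Finset P.VG :=
  S.filter (fun z => match z with
    | .inl p => p.1 ∈ X
    | .inr c => ∃ v ∈ X, ∃ t, P.edge (v, t) = c.1)

private theorem Conn_Yl {P : Pat} (S : Finset P.VG) (X : Finset (Fin P.n)) (p : Fin P.n × Fin 9) :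
    Sum.inl p ∈ Conn_Y S X ↔ Sum.inl p ∈ S ∧ p.1 ∈ X := by
  classical
  unfold Conn_Y
  rw [Finset.mem_filter]

private theorem Conn_Yr {P : Pat} (S : Finset P.VG) (X : Finset (Fin P.n)) (c : P.CV) :
    Sum.inr c ∈ Conn_Y S X ↔ Sum.inr c ∈ S ∧ ∃ v ∈ X, ∃ t, P.edge (v, t) = c.1 := by
  classical
  unfold Conn_Y
  rw [Finset.mem_filter]

/-- PROOF.  Let `v0 ∈ X` with a slot whose edge is in `ux S`.  Suppose that every used slot `(v, t)` with `v ∈ X`
has `opp (v, t) = some q` with `q.1 ∈ X` for some `q`.  Let `Y` be the set of the vertices `z ∈ S` such that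
`z = inl (v, x)` with `v ∈ X`, or `z = inr c` and some slot `(v, t)` with `v ∈ X` has `edge (v, t) = c.1`.
`Y` is nonempty: the chain of the edge of the given slot meets `S`.  `Y` is closed under `U`: let `z ∈ Y`,
`U z z'` (so `z' ∈ S`).  If `z = inl (v, x)` and `z' = inl (v', x')` then `v' = v` (`adj_ll`).  If
`z = inl (v, x)`, `z' = inr c` then `c = cend (v, t)` (`adj_lr`), so `c.1 = edge (v, t)` and `z' ∈ Y`.  If
`z = inr c`, `z' = inr c'` then `c'.1 = c.1`.  If `z = inr c` and `z' = inl (v', x')` then `c = cend (v', t')`,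
so `c.1 = edge (v', t')`; let `(v, t)`, `v ∈ X`, be a slot of the same edge; this edge is used; either
`(v', t') = (v, t)`, or the two slots are the two ends of the edge and `opp (v, t) = some (v', t')`, and then
`v' ∈ X` by assumption.  So `Y = S` by `closed`.  Hence `inr c1 ∈ Y`: some slot `(v, t)` with `v ∈ X` has the
edge `c1.1`, which is an exit and is used, so `opp (v, t) = none`: contradiction.  (`P.opp` of a slot of an
exit is `none`: `(P.sl p).2 = true` would give `b = some p`.)  Useful first step: a lemma if `edge p = edge q`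
then `p = q` or `opp p = some q` (cases on the two Booleans `(P.sl p).2`, `(P.sl q).2`, `a_sl`, `b_sl`). -/
theorem ux_conn {P : Pat} {c1 c2 : P.CV} {S : Finset P.VG} {U : P.VG → P.VG → Prop}
    (h : PathLike P.gr (Sum.inr c1) (Sum.inr c2) S U) (h1 : P.b c1.1 = none)
    (X : Finset (Fin P.n)) (hX : ∃ v ∈ X, ∃ t, P.edge (v, t) ∈ P.ux S) :
    ∃ v ∈ X, ∃ t, P.edge (v, t) ∈ P.ux S ∧ ∀ q, P.opp (v, t) = some q → q.1 ∉ X := by
  classical
  by_contra hcon
  push Not at hcon
  have hsub : Conn_Y S X ⊆ S := Finset.filter_subset _ _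
  have hne : (Conn_Y S X).Nonempty := by
    obtain ⟨v, hv, t, ht⟩ := hX
    obtain ⟨c, hc, hcS⟩ := (P.mem_ux S _).1 ht
    exact ⟨Sum.inr c, (Conn_Yr S X c).2 ⟨hcS, v, hv, t, hc.symm⟩⟩
  have hcl : ∀ x ∈ Conn_Y S X, ∀ y, U x y → y ∈ Conn_Y S X := by
    intro z hz z' hU
    have hz'S : z' ∈ S := h.mem z' z (h.symm z z' hU)
    have hadj := h.adj z z' hU
    rcases z with p | c <;> rcases z' with p' | c'
    · rw [Conn_Yl] at hz ⊢
      rw [P.adj_ll] at hadj
      exact ⟨hz'S, hadj.1 ▸ hz.2⟩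
    · rw [Conn_Yl] at hz
      rw [Conn_Yr]
      rw [P.adj_lr] at hadj
      obtain ⟨t, -, ht⟩ := hadj
      refine ⟨hz'S, p.1, hz.2, t, ?_⟩
      rw [ht, P.cend_edge]
    · rw [Conn_Yr] at hz
      rw [Conn_Yl]
      rw [P.adj_rl] at hadj
      obtain ⟨t', -, ht'⟩ := hadj
      obtain ⟨hcS, v, hv, t, ht⟩ := hz
      refine ⟨hz'S, ?_⟩
      have hused : P.edge (v, t) ∈ P.ux S := (P.mem_ux S _).2 ⟨c, ht.symm, hcS⟩
      have he : P.edge (v, t) = P.edge (p'.1, t') := by
        rw [ht, ht', P.cend_edge]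
      rcases Conn_edge he with he1 | he1
      · have := congrArg Prod.fst he1
        exact this ▸ hv
      · obtain ⟨q, hq, hqX⟩ := hcon v hv t hused
        rw [he1] at hq
        rw [← Option.some.inj hq] at hqX
        exact hqX
    · rw [Conn_Yr] at hz ⊢
      rw [P.adj_rr] at hadj
      obtain ⟨hcS, v, hv, t, ht⟩ := hz
      exact ⟨hz'S, v, hv, t, ht.trans hadj.1⟩
  have hYS := h.closed _ hne hsub hcl
  have hc1 : Sum.inr c1 ∈ Conn_Y S X := by
    rw [hYS]
    exact h.memu
  rw [Conn_Yr] at hc1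
  obtain ⟨hcS, v, hv, t, ht⟩ := hc1
  have hused : P.edge (v, t) ∈ P.ux S := (P.mem_ux S _).2 ⟨c1, ht.symm, hcS⟩
  obtain ⟨q, hq, -⟩ := hcon v hv t hused
  unfold Pat.opp at hq
  unfold Pat.edge at ht
  rw [← ht] at h1
  by_cases hs : (P.sl (v, t)).2 = true
  · have h2 := P.b_sl _ hs
    rw [h1] at h2
    exact absurd h2 (by simp)
  · rw [if_neg hs, h1] at hq
    exact absurd hq (by simp)

end Pool.Agent.LptT
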