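import Pool.Agent.LptT.Defs

/-!
# Finite facts on the fragment (Petersen graph minus a vertex)
-/

set_option autoImplicit false

namespace Pool.Agent.LptT

private def rtB (i j : Fin 3) (u : Fin 9) : Bool :=
  decide ((rt i j u).IsChain (fun x y => fadj x y = true)) && decide (rt i j u).Nodup &&
    decide ((rt i j u).length = 8) && decide (u ∉ rt i j u) &&
    decide ((rt i j u).head? = some (term i)) && decide ((rt i j u).getLast? = some (term j))

private theorem rtB_all : (List.finRange 3).all (fun i => (List.finRange 3).all (fun j =>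
    (List.finRange 9).all (fun u => decide (i = j) || decide (kslot u = i) || decide (kslot u = j) ||
      rtB i j u))) = true := by
  decide +kernel

/-- The table of the paths with eight vertices.  PROOF: `decide` (3 * 3 * 9 cases). -/
theorem rt_spec : ∀ (i j : Fin 3) (u : Fin 9), i ≠ j → kslot u ≠ i → kslot u ≠ j →
    (rt i j u).IsChain (fun x y => fadj x y = true) ∧ (rt i j u).Nodup ∧ (rt i j u).length = 8 ∧
      u ∉ rt i j u ∧ (rt i j u).head? = some (term i) ∧ (rt i j u).getLast? = some (term j) := by
  intro i j u h1 h2 h3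
  have h := rtB_all
  rw [List.all_eq_true] at h
  have h4 := h i (List.mem_finRange i)
  rw [List.all_eq_true] at h4
  have h5 := h4 j (List.mem_finRange j)
  rw [List.all_eq_true] at h5
  have h6 := h5 u (List.mem_finRange u)
  simp only [h1, h2, h3, decide_false, Bool.false_or] at h6
  unfold rtB at h6
  simp only [Bool.and_eq_true, decide_eq_true_eq] at h6
  obtain ⟨⟨⟨⟨⟨a1, a2⟩, a3⟩, a4⟩, a5⟩, a6⟩ := h6
  exact ⟨a1, a2, a3, a4, a5, a6⟩

private def fcl (x : Fin 9) : List (Fin 9) :=
  ([[0], [1, 4, 3, 0], [2, 5, 6, 0], [3, 0], [4, 3, 0], [5, 6, 0], [6, 0], [7, 6, 0], [8, 3, 0]] :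
      List (List (Fin 9))).getD x.val []

private theorem fcl_spec : ∀ x : Fin 9, (fcl x).IsChain (fun x y => fadj x y = true) ∧
    (fcl x).head? = some x ∧ (fcl x).getLast? = some (0 : Fin 9) := by
  decide +kernel

/-- The fragment is connected: every vertex is joined to the terminal 0 by a chain.
PROOF: explicit lists, `decide` on each of the nine vertices. -/
theorem frag_conn : ∀ x : Fin 9, ∃ l : List (Fin 9), l.IsChain (fun x y => fadj x y = true) ∧
    l.head? = some x ∧ l.getLast? = some (0 : Fin 9) := fun x => ⟨fcl x, fcl_spec x⟩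

/-- Every slot is `kslot` of a vertex. -/
theorem kslot_term : ∀ t : Fin 3, kslot (term t) = t := by
  decide

end Pool.Agent.LptT
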