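import Pool.Agent.LptT.Nb
import Pool.Agent.LptT.FragB

/-!
# The graph of a pattern is connected
-/

set_option autoImplicit false

namespace Pool.Agent.LptT

private theorem Connected_chain {P : Pat} (v : Fin P.n) : ∀ (l : List (Fin 9)) (x y : Fin 9),
    l.IsChain (fun x y => fadj x y = true) → l.head? = some x → l.getLast? = some y →
      P.gr.Reachable (Sum.inl (v, x)) (Sum.inl (v, y)) := by
  intro l
  induction l with
  | nil => intro x y _ h; simp at h
  | cons a l ih =>
    intro x y hc hh hl
    have hax : a = x := by simpa using hh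
    subst hax
    cases l with
    | nil =>
      have : a = y := by simpa using hl
      subst this
      exact SimpleGraph.Reachable.refl _
    | cons b l' =>
      rw [List.isChain_cons_cons] at hc
      have h1 : P.gr.Adj (Sum.inl (v, a)) (Sum.inl (v, b)) := by
        rw [P.adj_ll]
        exact ⟨rfl, hc.1⟩
      have h2 := ih b y hc.2 (by simp) (by simpa [List.getLast?_cons_cons] using hl)
      exact h1.reachable.trans h2

private theorem Connected_frag {P : Pat} (v : Fin P.n) (x y : Fin 9) :
    P.gr.Reachable (Sum.inl (v, x)) (Sum.inl (v, y)) := by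
  obtain ⟨l, h1, h2, h3⟩ := frag_conn x
  obtain ⟨l', h1', h2', h3'⟩ := frag_conn y
  exact (Connected_chain v l x 0 h1 h2 h3).trans (Connected_chain v l' y 0 h1' h2' h3').symm

private theorem Connected_zero {P : Pat} (e : Fin P.m) : ∀ (i : ℕ) (hi : i < P.len e),
    P.gr.Reachable (Sum.inr ⟨e, ⟨0, P.len_pos e⟩⟩) (Sum.inr ⟨e, ⟨i, hi⟩⟩) := by
  intro i
  induction i with
  | zero => intro hi; exact SimpleGraph.Reachable.refl _
  | succ i ih =>
    intro hi
    have h1 := ih (by omega)
    have h2 : P.gr.Adj (Sum.inr ⟨e, ⟨i, by omega⟩⟩) (Sum.inr ⟨e, ⟨i + 1, hi⟩⟩) := by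
      rw [P.adj_rr]
      exact ⟨rfl, Or.inl rfl⟩
    exact h1.trans h2.reachable

private theorem Connected_cv {P : Pat} (c d : P.CV) (h : c.1 = d.1) :
    P.gr.Reachable (Sum.inr c) (Sum.inr d) := by
  obtain ⟨e, i, hi⟩ := c
  obtain ⟨f, j, hj⟩ := d
  simp only at h
  subst h
  exact (Connected_zero e i hi).symm.trans (Connected_zero e j hj)

private theorem Connected_slot {P : Pat} (p : Fin P.n × Fin 3) (c : P.CV) (h : c.1 = P.edge p) :
    P.gr.Reachable (Sum.inl (p.1, term p.2)) (Sum.inr c) := by
  have h1 : P.gr.Adj (Sum.inl (p.1, term p.2)) (Sum.inr (P.cend p)) := by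
    rw [P.adj_lr]
    exact ⟨p.2, rfl, rfl⟩
  refine h1.reachable.trans (Connected_cv _ _ ?_)
  rw [P.cend_edge, h]

private theorem Connected_opp {P : Pat} (p q : Fin P.n × Fin 3) (h : P.opp p = some q) :
    P.edge q = P.edge p := by
  unfold Pat.opp at h
  unfold Pat.edge
  by_cases hb : (P.sl p).2 = true
  · rw [if_pos hb] at h
    have : P.a (P.sl p).1 = q := by simpa using h
    rw [← this, P.sl_a]
  · rw [if_neg hb] at h
    rw [P.sl_b _ _ h]

private theorem Connected_step {P : Pat} (p q : Fin P.n × Fin 3) (h : P.opp p = some q) :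
    P.gr.Reachable (Sum.inl (p.1, term p.2)) (Sum.inl (q.1, term q.2)) := by
  have h1 := Connected_slot p (P.cend p) (P.cend_edge p)
  have h2 := Connected_slot q (P.cend p) ((P.cend_edge p).trans (Connected_opp p q h).symm)
  exact h1.trans h2.symm

/-- PROOF.  (1) `inl (v, x)` and `inl (v, y)` are joined in the graph for all `x, y` (`frag_conn`, `adj_ll`;
induction on the chain).  (2) The vertices of a chain are joined to each other (induction on the index) and to
`inl ((a e).1, term (a e).2)` (`cend_a`, `adj_rl`), and, if `b e = some q`, to `inl (q.1, term q.2)`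
(`cend_b`).  (3) If `opp p = some q` then `inl (p.1, term p.2)` and `inl (q.1, term q.2)` are joined: both are
joined to the chain of `edge p`.  (4) By strong induction on `rk v`, `inl (v, 0)` is joined to `inl (r, 0)`.
(5) Every vertex is joined to `inl (r, 0)`, and the graph is nonempty. -/
theorem gr_connected {P : Pat} (h : ∃ (r : Fin P.n) (rk : Fin P.n → ℕ), ∀ v, v = r ∨
    ∃ t q, P.opp (v, t) = some q ∧ rk q.1 < rk v) : P.gr.Connected := by
  obtain ⟨r, rk, hr⟩ := h
  have h4 : ∀ (n : ℕ) (v : Fin P.n), rk v ≤ n →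
      P.gr.Reachable (Sum.inl (v, 0)) (Sum.inl (r, 0)) := by
    intro n
    induction n with
    | zero =>
      intro v hv
      rcases hr v with h | ⟨t, q, hq, hlt⟩
      · rw [h]
      · omega
    | succ n ih =>
      intro v hv
      rcases hr v with h | ⟨t, q, hq, hlt⟩
      · rw [h]
      · have h1 := ih q.1 (by omega)
        have h2 := Connected_step (v, t) q hq
        exact ((Connected_frag v 0 (term t)).trans h2).trans
          ((Connected_frag q.1 (term q.2) 0).trans h1)
  have h5 : ∀ z : P.VG, P.gr.Reachable z (Sum.inl (r, 0)) := by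
    intro z
    rcases z with ⟨v, x⟩ | c
    · exact (Connected_frag v x 0).trans (h4 _ v le_rfl)
    · have h1 := Connected_slot (P.a c.1) c (by unfold Pat.edge; rw [P.sl_a])
      exact h1.symm.trans ((Connected_frag _ _ 0).trans (h4 _ _ le_rfl))
  exact
    { preconnected := fun x y => (h5 x).trans (h5 y).symm
      nonempty := ⟨Sum.inl (r, 0)⟩ }

end Pool.Agent.LptT
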