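import Pool.Agent.LptT.Defs

/-!
# Counting
-/

set_option autoImplicit false

namespace Pool.Agent.LptT

/-- The size of a set of vertices of the graph of a pattern, by fragments and chains.
PROOF: `S` is contained in the disjoint union of the images of the `fx S v` and of the full chains of the
edges in `ux S`. -/
theorem card_le {P : Pat} (S : Finset P.VG) :
    S.card ≤ ∑ v, (P.fx S v).card + ∑ e ∈ P.ux S, P.len e := by
  classical
  obtain ⟨A, hA⟩ : ∃ A : Finset (Fin P.n × Fin 9), ∀ p, p ∈ A ↔ Sum.inl p ∈ S :=
    ⟨Finset.univ.filter (fun p => Sum.inl p ∈ S), fun p => by simp⟩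
  obtain ⟨B, hB⟩ : ∃ B : Finset P.CV, ∀ c, c ∈ B ↔ Sum.inr c ∈ S :=
    ⟨Finset.univ.filter (fun c => Sum.inr c ∈ S), fun c => by simp⟩
  have h1 : S ⊆ A.disjSum B := by
    intro s hs
    rcases s with p | c
    · exact Finset.inl_mem_disjSum.2 ((hA p).2 hs)
    · exact Finset.inr_mem_disjSum.2 ((hB c).2 hs)
  have h2 := Finset.card_le_card h1
  rw [Finset.card_disjSum] at h2
  have h3 : A.card ≤ ∑ v, (P.fx S v).card := by
    rw [Finset.card_eq_sum_card_fiberwise (f := Prod.fst) (t := Finset.univ)
      (fun p _ => Finset.mem_coe.2 (Finset.mem_univ p.1))]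
    refine Finset.sum_le_sum fun v _ => ?_
    refine Finset.card_le_card_of_injOn Prod.snd (fun p hp => ?_) (fun p hp q hq he => ?_)
    · rw [Finset.mem_coe, Finset.mem_filter] at hp
      rw [Finset.mem_coe, P.mem_fx, ← hp.2]
      exact (hA p).1 hp.1
    · rw [Finset.mem_coe, Finset.mem_filter] at hp hq
      exact Prod.ext (hp.2.trans hq.2.symm) he
  have h4 : B.card ≤ ∑ e ∈ P.ux S, P.len e := by
    rw [Finset.card_eq_sum_card_fiberwise (f := Sigma.fst) (t := P.ux S)
      (fun c hc => Finset.mem_coe.2 ((P.mem_ux S c.1).2 ⟨c, rfl, (hB c).1 hc⟩))]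
    refine Finset.sum_le_sum fun e _ => ?_
    have h5 : (B.filter (fun c => c.1 = e)) ⊆
        (Finset.univ : Finset (Fin (P.len e))).image (fun i => (⟨e, i⟩ : P.CV)) := by
      intro c hc
      rw [Finset.mem_filter] at hc
      obtain ⟨e', i⟩ := c
      obtain ⟨-, rfl⟩ := hc
      exact Finset.mem_image_of_mem _ (Finset.mem_univ i)
    refine (Finset.card_le_card h5).trans (Finset.card_image_le.trans ?_)
    rw [Finset.card_univ, Fintype.card_fin]
  omega

/-- Double counting of the slots of a set of edges: for a set of edges `x`,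
`∑ v, #{t | edge (v, t) ∈ x} = ∑ e ∈ x, (1 or 2)`.
PROOF: the slots with `edge p ∈ x` are, for every `e ∈ x`, the slot `a e` and, if `b e = some q`, the slot `q`
(different from `a e`, because `sl (a e) = (e, false)` and `sl q = (e, true)`). -/
theorem double_count {P : Pat} (x : Finset (Fin P.m)) :
    ∑ v, ((Finset.univ : Finset (Fin 3)).filter (fun t => P.edge (v, t) ∈ x)).card =
      ∑ e ∈ x, (if P.b e = none then 1 else 2) := by
  classical
  have h1 : ∀ e, ((Finset.univ : Finset (Fin P.n × Fin 3)).filter (fun p => P.edge p = e)).card =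
      if P.b e = none then 1 else 2 := by
    intro e
    have ha : P.edge (P.a e) = e := by
      unfold Pat.edge
      rw [P.sl_a]
    rcases hb : P.b e with _ | q
    · rw [if_pos rfl]
      have h2 : (Finset.univ : Finset (Fin P.n × Fin 3)).filter (fun p => P.edge p = e) =
          {P.a e} := by
        ext p
        rw [Finset.mem_filter, Finset.mem_singleton]
        constructor
        · rintro ⟨-, hp⟩
          unfold Pat.edge at hp
          rcases h3 : (P.sl p).2 with _ | _
          · have := P.a_sl p h3
            rw [hp] at this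
            exact this.symm
          · have := P.b_sl p h3
            rw [hp, hb] at this
            exact absurd this (by simp)
        · rintro rfl
          exact ⟨Finset.mem_univ _, ha⟩
      rw [h2, Finset.card_singleton]
    · rw [if_neg (by simp)]
      have hq : P.sl q = (e, true) := P.sl_b e q hb
      have hne : P.a e ≠ q := by
        intro h
        have h3 := P.sl_a e
        rw [h, hq] at h3
        exact absurd (congrArg Prod.snd h3) (by simp)
      have h2 : (Finset.univ : Finset (Fin P.n × Fin 3)).filter (fun p => P.edge p = e) =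
          {P.a e, q} := by
        ext p
        rw [Finset.mem_filter, Finset.mem_insert, Finset.mem_singleton]
        constructor
        · rintro ⟨-, hp⟩
          unfold Pat.edge at hp
          rcases h3 : (P.sl p).2 with _ | _
          · have := P.a_sl p h3
            rw [hp] at this
            exact Or.inl this.symm
          · have := P.b_sl p h3
            rw [hp, hb] at this
            exact Or.inr (Option.some.inj this).symm
        · rintro (rfl | rfl)
          · exact ⟨Finset.mem_univ _, ha⟩
          · refine ⟨Finset.mem_univ _, ?_⟩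
            unfold Pat.edge
            rw [hq]
      rw [h2, Finset.card_pair hne]
  have h2 : ∑ e ∈ x, (if P.b e = none then 1 else 2) =
      ((Finset.univ : Finset (Fin P.n × Fin 3)).filter (fun p => P.edge p ∈ x)).card := by
    rw [Finset.card_eq_sum_card_fiberwise
      (s := (Finset.univ : Finset (Fin P.n × Fin 3)).filter (fun p => P.edge p ∈ x))
      (f := fun p => P.edge p) (t := x)
      (fun p hp => Finset.mem_coe.2 (Finset.mem_filter.1 (Finset.mem_coe.1 hp)).2)]
    refine Finset.sum_congr rfl fun e he => ?_
    rw [← h1, Finset.filter_filter]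
    congr 1
    ext p
    simp only [Finset.mem_filter, Finset.mem_univ, true_and]
    constructor
    · intro h
      exact ⟨h ▸ he, h⟩
    · exact fun h => h.2
  have h3 : ((Finset.univ : Finset (Fin P.n × Fin 3)).filter (fun p => P.edge p ∈ x)).card =
      ∑ v, ((Finset.univ : Finset (Fin 3)).filter (fun t => P.edge (v, t) ∈ x)).card := by
    rw [Finset.card_eq_sum_card_fiberwise (f := Prod.fst) (t := Finset.univ)
      (fun p _ => Finset.mem_coe.2 (Finset.mem_univ p.1))]
    refine Finset.sum_congr rfl fun v _ => ?_
    refine Finset.card_bij (fun p _ => p.2) (fun p hp => ?_) (fun p hp q hq he => ?_)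
      (fun t ht => ?_)
    · rw [Finset.mem_filter, Finset.mem_filter] at hp
      rw [Finset.mem_filter, ← hp.2]
      exact ⟨Finset.mem_univ _, hp.1.2⟩
    · rw [Finset.mem_filter] at hp hq
      exact Prod.ext (hp.2.trans hq.2.symm) he
    · rw [Finset.mem_filter] at ht
      exact ⟨(v, t), Finset.mem_filter.2 ⟨Finset.mem_filter.2 ⟨Finset.mem_univ _, ht.2⟩, rfl⟩, rfl⟩
  rw [h2, h3]

end Pool.Agent.LptT
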