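import Pool.Agent.LptT.CountA

/-!
# Counting
-/

set_option autoImplicit false

namespace Pool.Agent.LptT

/-- The size bound for a cycle through infinity.

PROOF.  Let `d v = #{t | edge (v, t) ∈ x}`; by `hf`, `(P.fx S v).card ≤ 4 * d v` for every `v`.  So by `card_le` and
`double_count`, `S.card ≤ 4 * ∑ e ∈ x, (1 or 2) + ∑ e ∈ x, len e`, and `len e + 8 = w e` if `b e ≠ none`
(`hw`), `len e + 4 = w e + T` if `b e = none`; there are exactly two exits in `x` (`hi`). -/
theorem count_case1 {P : Pat} (S : Finset P.VG)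
    (hi : ((P.ux S).filter (fun e => P.b e = none)).card = 2)
    (hf : ∀ v : Fin P.n, (P.fx S v = ∅ ∧
        ((Finset.univ : Finset (Fin 3)).filter (fun t => P.edge (v, t) ∈ P.ux S)).card = 0) ∨
      ((P.fx S v).card ≤ 8 ∧
        ((Finset.univ : Finset (Fin 3)).filter (fun t => P.edge (v, t) ∈ P.ux S)).card = 2)) :
    S.card ≤ ∑ e ∈ P.ux S, P.w e + 2 * P.T := by
  have h1 := card_le S
  have h2 : ∑ v, (P.fx S v).card ≤
      ∑ v, 4 * ((Finset.univ : Finset (Fin 3)).filter (fun t => P.edge (v, t) ∈ P.ux S)).card := by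
    refine Finset.sum_le_sum fun v _ => ?_
    rcases hf v with ⟨h3, h4⟩ | ⟨h3, h4⟩
    · rw [h3, h4]
      simp
    · rw [h4]
      omega
  rw [← Finset.mul_sum, double_count, Finset.mul_sum] at h2
  have h3 : ∑ e ∈ P.ux S, 4 * (if P.b e = none then 1 else 2) + ∑ e ∈ P.ux S, P.len e =
      ∑ e ∈ P.ux S, P.w e + ∑ e ∈ P.ux S, (if P.b e = none then P.T else 0) := by
    rw [← Finset.sum_add_distrib, ← Finset.sum_add_distrib]
    refine Finset.sum_congr rfl fun e _ => ?_
    have hw := P.hw e
    unfold Pat.len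
    rcases hb : P.b e with _ | q
    · rw [if_pos rfl, if_neg (by simp), if_pos rfl]
      omega
    · rw [if_neg (by simp), if_pos (by simp), if_neg (by simp)]
      omega
  have h4 : ∑ e ∈ P.ux S, (if P.b e = none then P.T else 0) = 2 * P.T := by
    rw [← Finset.sum_filter, Finset.sum_const, hi, smul_eq_mul]
  omega

/-- The size bound if at most one exit is met.

PROOF.  `card_le`; `∑ v, (fx S v).card ≤ 9 * n`; `∑ e ∈ ux S, len e`: the term of an exit is at most
`w e + T` and occurs at most once, the other terms are at most `w e`; so the sum is at most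
`∑ e, w e + T`.  The total is at most `2 * T`. -/
theorem count_case2 {P : Pat} (S : Finset P.VG)
    (hi : ((P.ux S).filter (fun e => P.b e = none)).card ≤ 1) : S.card ≤ 2 * P.T := by
  have h1 := card_le S
  have h2 : ∑ v, (P.fx S v).card ≤ 9 * P.n := by
    have h3 : ∑ v, (P.fx S v).card ≤ ∑ _v : Fin P.n, 9 := by
      refine Finset.sum_le_sum fun v _ => ?_
      have := Finset.card_le_univ (P.fx S v)
      rwa [Fintype.card_fin] at this
    rw [Finset.sum_const, Finset.card_univ, Fintype.card_fin, smul_eq_mul] at h3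
    omega
  have h3 : ∑ e ∈ P.ux S, P.len e ≤
      ∑ e ∈ P.ux S, P.w e + ∑ e ∈ P.ux S, (if P.b e = none then P.T else 0) := by
    rw [← Finset.sum_add_distrib]
    refine Finset.sum_le_sum fun e _ => ?_
    unfold Pat.len
    rcases hb : P.b e with _ | q
    · rw [if_neg (by simp), if_pos rfl]
      omega
    · rw [if_pos (by simp), if_neg (by simp)]
      omega
  have h4 : ∑ e ∈ P.ux S, (if P.b e = none then P.T else 0) ≤ P.T := by
    rw [← Finset.sum_filter, Finset.sum_const, smul_eq_mul]
    have := Nat.mul_le_mul_right P.T hi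
    omega
  have h5 : ∑ e ∈ P.ux S, P.w e ≤ ∑ e, P.w e :=
    Finset.sum_le_sum_of_subset_of_nonneg (Finset.subset_univ _) fun _ _ _ => Nat.zero_le _
  unfold Pat.T at h3 h4 ⊢
  omega

end Pool.Agent.LptT
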