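import Pool.Agent.LptT.Defs

/-!
# Covering all small sets of edges
-/

set_option autoImplicit false

namespace Pool.Agent.LptT

/-- Every set of at most `k` of the numbers `< m` is avoided by one of the masks: check. -/
def cov (m : ℕ) : ℕ → List ℕ → Bool
  | 0, ms => !ms.isEmpty
  | 1, ms => ms.foldl (fun a b => a &&& b) (2 ^ m - 1) == 0
  | k + 2, ms => (List.range m).all (fun a => cov m (k + 1) (ms.filter (fun s => !(s.testBit a))))

/-- PROOF.  Induction on `k` following `cov`.  `k = 0`: `K` is empty, take any member.  `k = 1`: if `K ⊆ {a}`, the bit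
`a` of the conjunction is 0, but it is 1 in `2 ^ m - 1`, so some member has bit `a` equal to 0 (if `K` is
empty, take any member: the list is nonempty because `m > 0` gives `2 ^ m - 1 ≠ 0`).  `k + 2`: if `K` is nonempty let
`a ∈ K`, `K' = K.erase a`; the induction hypothesis gives a member of the filtered list which avoids `K'`, and
it avoids `a`.  If `K` is empty take `a = 0` (`m > 0`). -/
theorem cov_sound {m : ℕ} (hm : 0 < m) : ∀ (k : ℕ) (ms : List ℕ), cov m k ms = true →
    ∀ K : Finset (Fin m), K.card ≤ k → ∃ s ∈ ms, ∀ a ∈ K, s.testBit a.val = false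
  | 0, ms, h, K, hK => by
      have h0 : K = ∅ := by
        rw [← Finset.card_eq_zero]
        omega
      rcases ms with _ | ⟨s, ms⟩
      · simp [cov] at h
      · exact ⟨s, by simp, by simp [h0]⟩
  | 1, ms, h, K, hK => by
      rw [cov, beq_iff_eq] at h
      -- the bits of the conjunction
      have hbit : ∀ (l : List ℕ) (b j : ℕ), (l.foldl (fun a b => a &&& b) b).testBit j =
          (b.testBit j && l.all (fun s => s.testBit j)) := by
        intro l
        induction l with
        | nil => intro b j; simp
        | cons s l ih =>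
          intro b j
          rw [List.foldl_cons, ih, Nat.testBit_and, List.all_cons, Bool.and_assoc]
      have hex : ∀ a : ℕ, a < m → ∃ s ∈ ms, s.testBit a = false := by
        intro a ha
        have h1 := hbit ms (2 ^ m - 1) a
        rw [h, Nat.zero_testBit, Nat.testBit_two_pow_sub_one] at h1
        rw [decide_eq_true ha, Bool.true_and] at h1
        by_contra h2
        push Not at h2
        have h3 : ms.all (fun s => s.testBit a) = true := by
          rw [List.all_eq_true]
          intro s hs
          simpa using h2 s hs
        rw [h3] at h1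
        exact absurd h1 (by simp)
      rcases K.eq_empty_or_nonempty with h0 | ⟨a, ha⟩
      · obtain ⟨s, hs, _⟩ := hex 0 hm
        exact ⟨s, hs, by simp [h0]⟩
      · obtain ⟨s, hs, h1⟩ := hex a.val a.isLt
        refine ⟨s, hs, fun b hb => ?_⟩
        have h2 : b = a := Finset.card_le_one.1 hK b hb a ha
        rw [h2]
        exact h1
  | k + 2, ms, h, K, hK => by
      rw [cov, List.all_eq_true] at h
      have key : ∀ a : Fin m, ∀ K' : Finset (Fin m), K'.card ≤ k + 1 →
          ∃ s ∈ ms, s.testBit a.val = false ∧ ∀ b ∈ K', s.testBit b.val = false := by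
        intro a K' hK'
        have h1 := h a.val (List.mem_range.2 a.isLt)
        obtain ⟨s, hs, h2⟩ := cov_sound hm (k + 1) _ h1 K' hK'
        rw [List.mem_filter] at hs
        exact ⟨s, hs.1, by simpa using hs.2, h2⟩
      rcases K.eq_empty_or_nonempty with h0 | ⟨a, ha⟩
      · obtain ⟨s, hs, _, _⟩ := key ⟨0, hm⟩ ∅ (by simp)
        exact ⟨s, hs, by simp [h0]⟩
      · obtain ⟨s, hs, h1, h2⟩ := key a (K.erase a) (by
          rw [Finset.card_erase_of_mem ha]
          omega)
        refine ⟨s, hs, fun b hb => ?_⟩
        by_cases hba : b = a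
        · rw [hba]
          exact h1
        · exact h2 b (Finset.mem_erase.2 ⟨hba, hb⟩)

end Pool.Agent.LptT
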