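import Pool.Agent.LptT.CoverA

/-!
# Covering all small sets of edges
-/

set_option autoImplicit false

namespace Pool.Agent.LptT

/-- Check of a path of the pattern, given as a list of steps, with its weight and its mask of edges. -/
def pathOK (P : Pat) (M : ℕ) (l : List (Fin P.n × Fin 3 × Fin 3)) (s : ℕ) : Bool :=
  match l with
  | [] => false
  | a :: l' => decide (P.opp (a.1, a.2.1) = none) && s.testBit (P.edge (a.1, a.2.1)).val &&
      go (a :: l') && (a :: l').all (fun b => decide (b.2.1 ≠ b.2.2) && s.testBit (P.edge (b.1, b.2.2)).val) &&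
      nd (((a :: l').map (fun b => b.1.val))) 0 && (P.wt (a :: l') == M)
where
  /-- consecutive steps fit, the last departure is an exit -/
  go : List (Fin P.n × Fin 3 × Fin 3) → Bool
  | [] => true
  | [b] => decide (P.opp (b.1, b.2.2) = none)
  | b :: c :: l => decide (P.opp (b.1, b.2.2) = some (c.1, c.2.1)) && go (c :: l)
  /-- no duplicates, with a mask of the members already seen -/
  nd : List ℕ → ℕ → Bool
  | [], _ => true
  | v :: l, seen => !(seen.testBit v) && nd l (seen ||| 2 ^ v)

private theorem go_chain (P : Pat) : ∀ l : List (Fin P.n × Fin 3 × Fin 3),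
    pathOK.go P l = true → l.IsChain P.Step
  | [], _ => List.IsChain.nil
  | [b], _ => List.IsChain.singleton b
  | b :: c :: l, h => by
    rw [pathOK.go, Bool.and_eq_true] at h
    have h1 : P.opp (b.1, b.2.2) = some (c.1, c.2.1) := of_decide_eq_true h.1
    exact List.IsChain.cons_cons h1 (go_chain P (c :: l) h.2)

private theorem go_last (P : Pat) : ∀ l : List (Fin P.n × Fin 3 × Fin 3),
    pathOK.go P l = true → ∀ s, l.getLast? = some s → P.opp (s.1, s.2.2) = none
  | [], _, s, hs => by simp at hs
  | [b], h, s, hs => by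
    simp only [List.getLast?_singleton, Option.some.injEq] at hs
    subst hs
    rw [pathOK.go] at h
    exact of_decide_eq_true h
  | b :: c :: l, h, s, hs => by
    rw [pathOK.go, Bool.and_eq_true] at h
    refine go_last P (c :: l) h.2 s ?_
    rwa [List.getLast?_cons_cons] at hs

private theorem nd_sound : ∀ (l : List ℕ) (seen : ℕ), pathOK.nd l seen = true →
    l.Nodup ∧ ∀ v ∈ l, seen.testBit v = false
  | [], _, _ => ⟨List.nodup_nil, fun v hv => absurd hv List.not_mem_nil⟩
  | v :: l, seen, h => by
    rw [pathOK.nd, Bool.and_eq_true] at h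
    obtain ⟨h1, h2⟩ := nd_sound l _ h.2
    have h0 : seen.testBit v = false := by simpa using h.1
    have hv : v ∉ l := by
      intro hv
      have := h2 v hv
      simp [Nat.testBit_or] at this
    refine ⟨List.nodup_cons.2 ⟨hv, h1⟩, fun w hw => ?_⟩
    rcases List.mem_cons.1 hw with rfl | hw
    · exact h0
    · have := h2 w hw
      rw [Nat.testBit_or, Bool.or_eq_false_iff] at this
      exact this.1

private theorem opp_edge (P : Pat) {p q : Fin P.n × Fin 3} (h : P.opp p = some q) :
    P.edge q = P.edge p := by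
  unfold Pat.opp at h
  unfold Pat.edge
  split_ifs at h with hp
  · have h1 : P.a (P.sl p).1 = q := Option.some.inj h
    rw [← h1, P.sl_a]
  · rw [P.sl_b _ _ h]

private theorem entry_ok (P : Pat) (s : ℕ) : ∀ l : List (Fin P.n × Fin 3 × Fin 3),
    pathOK.go P l = true → (∀ b ∈ l, s.testBit (P.edge (b.1, b.2.2)).val = true) →
    (∀ b, l.head? = some b → s.testBit (P.edge (b.1, b.2.1)).val = true) →
    ∀ b ∈ l, s.testBit (P.edge (b.1, b.2.1)).val = true
  | [], _, _, _, b, hb => absurd hb List.not_mem_nil
  | [c], _, _, h3, b, hb => by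
    rw [List.mem_singleton] at hb
    subst hb
    exact h3 b rfl
  | c :: d :: l, h1, h2, h3, b, hb => by
    rw [pathOK.go, Bool.and_eq_true] at h1
    rcases List.mem_cons.1 hb with rfl | hb
    · exact h3 b rfl
    · refine entry_ok P s (d :: l) h1.2 (fun b hb => h2 b (List.mem_cons_of_mem _ hb)) ?_ b hb
      intro b' hb'
      simp only [List.head?_cons, Option.some.injEq] at hb'
      subst hb'
      have h4 : P.opp (c.1, c.2.2) = some (d.1, d.2.1) := of_decide_eq_true h1.1
      rw [opp_edge P h4]
      exact h2 c List.mem_cons_self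

/-- PROOF.  `go` gives `chain` and `last`; `nd` gives that the list of vertices has no duplicates; the edges of entry of
the later steps are the edges of departure of the previous steps (`opp p = some q` implies `edge p = edge q`), so
they are in the mask `s` as well. -/
theorem pathOK_sound {P : Pat} {M : ℕ} {l : List (Fin P.n × Fin 3 × Fin 3)} {s : ℕ}
    (h : pathOK P M l s = true) : P.PPath l ∧ P.wt l = M ∧
      ∀ b ∈ l, s.testBit (P.edge (b.1, b.2.1)).val = true ∧ s.testBit (P.edge (b.1, b.2.2)).val = true := by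
  cases l with
  | nil => simp [pathOK] at h
  | cons a l' =>
    simp only [pathOK, Bool.and_eq_true, decide_eq_true_eq, List.all_eq_true, beq_iff_eq] at h
    obtain ⟨⟨⟨⟨⟨h1, h2⟩, h3⟩, h4⟩, h5⟩, h6⟩ := h
    have hnd := (nd_sound _ _ h5).1
    have hdep : ∀ b ∈ a :: l', s.testBit (P.edge (b.1, b.2.2)).val = true := fun b hb =>
      (h4 b hb).2
    refine ⟨⟨List.cons_ne_nil _ _, go_chain P _ h3, ?_, fun b hb => (h4 b hb).1, ?_,
      go_last P _ h3⟩, h6, fun b hb => ⟨?_, hdep b hb⟩⟩
    · refine List.Nodup.of_map (fun v : Fin P.n => v.val) ?_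
      rw [List.map_map]
      exact hnd
    · intro b hb
      simp only [List.head?_cons, Option.some.injEq] at hb
      subst hb
      exact h1
    · refine entry_ok P s _ h3 hdep ?_ b hb
      intro b' hb'
      simp only [List.head?_cons, Option.some.injEq] at hb'
      subst hb'
      exact h2

/-- PROOF: `cov_sound` for the masks gives a mask avoiding `K`, its path is good by `pathOK_sound`. -/
theorem cover {P : Pat} {k M : ℕ} (hm : 0 < P.m) (L : List (List (Fin P.n × Fin 3 × Fin 3) × ℕ))
    (h1 : L.all (fun q => pathOK P M q.1 q.2) = true) (h2 : cov P.m k (L.map (fun q => q.2)) = true) :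
    ∀ K : Finset (Fin P.m), K.card ≤ k → ∃ l : List (Fin P.n × Fin 3 × Fin 3), P.PPath l ∧
      (∀ s ∈ l, P.edge (s.1, s.2.1) ∉ K ∧ P.edge (s.1, s.2.2) ∉ K) ∧ P.wt l = M := by
  intro K hK
  obtain ⟨s, hs, hsK⟩ := cov_sound hm k _ h2 K hK
  obtain ⟨q, hq, rfl⟩ := List.mem_map.1 hs
  have h3 : pathOK P M q.1 q.2 = true := List.all_eq_true.1 h1 q hq
  obtain ⟨h4, h5, h6⟩ := pathOK_sound h3
  refine ⟨q.1, h4, fun b hb => ⟨fun h => ?_, fun h => ?_⟩, h5⟩
  · have := hsK _ h
    rw [(h6 b hb).1] at this
    exact absurd this (by decide)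
  · have := hsK _ h
    rw [(h6 b hb).2] at this
    exact absurd this (by decide)

end Pool.Agent.LptT
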