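import Mathlib

/-!
# Longest path transversals: from weighted cubic patterns with infinity to graphs

Definitions.  A *pattern* is a cubic multigraph on `Fin n` in which some edges (the exits) have
their second end at infinity; the edges have weights.  From a pattern `P` we build the graph
`gr P`: every vertex of the pattern is replaced by a copy of the Petersen graph minus a vertex
(nine vertices, the three terminals `0, 1, 2` carry the three slots), every edge that is not an exit by
a chain of `w e - 8` new vertices, and every exit by a pendant chain of `w e + T - 4` new vertices.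
-/

set_option autoImplicit false

namespace Pool.Agent.LptT

/-! ### The fragment: the Petersen graph minus a vertex -/

/-- The twelve edges of the fragment: `3,...,8` is a hexagon and the terminal `i` is adjacent to
`3 + i` and `6 + i`. -/
def fE : List (ℕ × ℕ) :=
  [(3, 4), (4, 5), (5, 6), (6, 7), (7, 8), (3, 8), (0, 3), (0, 6), (1, 4), (1, 7), (2, 5), (2, 8)]

/-- Adjacency in the fragment. -/
def fadj (x y : Fin 9) : Bool := fE.contains (x.val, y.val) || fE.contains (y.val, x.val)

/-- The terminals `0, 1, 2` of the fragment. -/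
def term (t : Fin 3) : Fin 9 := ⟨t.val, by omega⟩

/-- The slot which is killed by a hit at the vertex `u` of a fragment. -/
def kslot (u : Fin 9) : Fin 3 := ([0, 1, 2, 1, 0, 0, 1, 0, 0] : List (Fin 3)).getD u.val 0

/-- For every vertex `u` of the fragment a path with eight vertices between the two terminals different
from `kslot u` which misses exactly `u`. -/
def rt0 (u : Fin 9) : List (Fin 9) :=
  ([[1, 4, 3, 8, 7, 6, 5, 2], [0, 3, 4, 5, 6, 7, 8, 2], [0, 3, 8, 7, 6, 5, 4, 1],
    [0, 6, 5, 4, 1, 7, 8, 2], [1, 7, 8, 3, 0, 6, 5, 2], [1, 4, 3, 0, 6, 7, 8, 2],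
    [0, 3, 8, 7, 1, 4, 5, 2], [1, 4, 5, 6, 0, 3, 8, 2], [1, 7, 6, 0, 3, 4, 5, 2]] :
      List (List (Fin 9))).getD u.val []

/-- The path `rt0 u` from terminal `i` to terminal `j`. -/
def rt (i j : Fin 3) (u : Fin 9) : List (Fin 9) := if i.val < j.val then rt0 u else (rt0 u).reverse

/-! ### Patterns -/

/-- A cubic pattern with infinity: every slot `(v, t)` is an end of exactly one edge, `a e` is the first
end of the edge `e`, and `b e` its second end (`none` for an exit). -/
structure Pat where
  /-- number of cubic vertices -/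
  n : ℕ
  /-- number of edges -/
  m : ℕ
  /-- first end -/
  a : Fin m → Fin n × Fin 3
  /-- second end; `none` means infinity -/
  b : Fin m → Option (Fin n × Fin 3)
  /-- the edge at a slot, `true` if the slot is the second end -/
  sl : Fin n × Fin 3 → Fin m × Bool
  /-- weights -/
  w : Fin m → ℕ
  sl_a : ∀ e, sl (a e) = (e, false)
  sl_b : ∀ e p, b e = some p → sl p = (e, true)
  a_sl : ∀ p, (sl p).2 = false → a (sl p).1 = p
  b_sl : ∀ p, (sl p).2 = true → b (sl p).1 = some p
  hw : ∀ e, 9 ≤ w e

namespace Pat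

variable (P : Pat)

/-- The edge at a slot. -/
def edge (p : Fin P.n × Fin 3) : Fin P.m := (P.sl p).1

/-- The other end of the edge at a slot. -/
def opp (p : Fin P.n × Fin 3) : Option (Fin P.n × Fin 3) :=
  if (P.sl p).2 = true then some (P.a (P.sl p).1) else P.b (P.sl p).1

/-- The additional length of the exits. -/
def T : ℕ := 9 * P.n + ∑ e, P.w e

/-- The number of vertices of the chain of an edge. -/
def len (e : Fin P.m) : ℕ := if (P.b e).isSome = true then P.w e - 8 else P.w e + P.T - 4

theorem len_pos (e : Fin P.m) : 0 < P.len e := by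
  have := P.hw e
  unfold len
  split <;> omega

/-- The vertices of the chains. -/
abbrev CV : Type := Σ e : Fin P.m, Fin (P.len e)

/-- The vertices of the graph of a pattern: nine for every cubic vertex and the chains. -/
abbrev VG : Type := (Fin P.n × Fin 9) ⊕ P.CV

/-- The chain vertex attached at a slot. -/
def cend (p : Fin P.n × Fin 3) : P.CV :=
  if (P.sl p).2 = true then ⟨(P.sl p).1, ⟨P.len (P.sl p).1 - 1, by have := P.len_pos (P.sl p).1; omega⟩⟩
  else ⟨(P.sl p).1, ⟨0, P.len_pos _⟩⟩

/-- Adjacency in the graph of a pattern. -/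
def gadj : P.VG → P.VG → Prop
  | .inl p, .inl q => p.1 = q.1 ∧ fadj p.2 q.2 = true
  | .inl p, .inr z => ∃ t, p.2 = term t ∧ z = P.cend (p.1, t)
  | .inr z, .inl p => ∃ t, p.2 = term t ∧ z = P.cend (p.1, t)
  | .inr z, .inr z' => z.1 = z'.1 ∧ (z.2.val + 1 = z'.2.val ∨ z'.2.val + 1 = z.2.val)

theorem gadj_symm : ∀ x y, P.gadj x y → P.gadj y x := by
  rintro (p | z) (q | z') h
  · refine ⟨h.1.symm, ?_⟩
    have h2 := h.2
    unfold fadj at h2 ⊢
    rw [Bool.or_comm]
    exact h2
  · exact h
  · exact h
  · exact ⟨h.1.symm, h.2.symm⟩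

theorem gadj_irrefl : ∀ x, ¬ P.gadj x x := by
  rintro (p | z) h
  · have h2 := h.2
    revert h2
    generalize p.2 = y
    revert y
    decide
  · rcases h.2 with h | h <;> omega

/-- The graph of a pattern. -/
def gr : SimpleGraph P.VG where
  Adj := P.gadj
  symm := ⟨fun x y h => P.gadj_symm x y h⟩
  loopless := ⟨fun x h => P.gadj_irrefl x h⟩

/-- Edge sets of cycles through infinity: every cubic vertex has degree 0 or 2, there are exactly
two exits, and every set of vertices containing a visited vertex is left by an edge. -/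
structure Cyc (x : Finset (Fin P.m)) : Prop where
  deg : ∀ v : Fin P.n, ((Finset.univ : Finset (Fin 3)).filter (fun t => P.edge (v, t) ∈ x)).card = 0 ∨
    ((Finset.univ : Finset (Fin 3)).filter (fun t => P.edge (v, t) ∈ x)).card = 2
  inf : (x.filter (fun e => P.b e = none)).card = 2
  conn : ∀ X : Finset (Fin P.n), (∃ v ∈ X, ∃ t, P.edge (v, t) ∈ x) →
    ∃ v ∈ X, ∃ t, P.edge (v, t) ∈ x ∧ ∀ q, P.opp (v, t) = some q → q.1 ∉ X

/-- Consecutive steps `(vertex, slot of entry, slot of departure)` of a path of the pattern. -/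
def Step (s s' : Fin P.n × Fin 3 × Fin 3) : Prop := P.opp (s.1, s.2.2) = some (s'.1, s'.2.1)

/-- A path of the pattern from infinity to infinity, as the list of its steps. -/
structure PPath (l : List (Fin P.n × Fin 3 × Fin 3)) : Prop where
  ne : l ≠ []
  chain : l.IsChain P.Step
  nodup : (l.map Prod.fst).Nodup
  turn : ∀ s ∈ l, s.2.1 ≠ s.2.2
  first : ∀ s, l.head? = some s → P.opp (s.1, s.2.1) = none
  last : ∀ s, l.getLast? = some s → P.opp (s.1, s.2.2) = none

/-- The weight of the edges of departure of a list of steps. -/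
def wtail (l : List (Fin P.n × Fin 3 × Fin 3)) : ℕ := (l.map (fun s => P.w (P.edge (s.1, s.2.2)))).sum

/-- The weight of a path of the pattern. -/
def wt (l : List (Fin P.n × Fin 3 × Fin 3)) : ℕ :=
  match l with
  | [] => 0
  | s :: l' => P.w (P.edge (s.1, s.2.1)) + P.wtail (s :: l')

/-- The hypotheses on a pattern: all cycles through infinity have weight at most `M`, every set of at
most `k` edges is avoided by a path from infinity to infinity of weight `M`, and the pattern without
infinity is connected (in the form of a rank function). -/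
structure Good (k M : ℕ) : Prop where
  ub : ∀ x : Finset (Fin P.m), P.Cyc x → ∑ e ∈ x, P.w e ≤ M
  ex : ∀ K : Finset (Fin P.m), K.card ≤ k → ∃ l : List (Fin P.n × Fin 3 × Fin 3), P.PPath l ∧
    (∀ s ∈ l, P.edge (s.1, s.2.1) ∉ K ∧ P.edge (s.1, s.2.2) ∉ K) ∧ P.wt l = M
  conn : ∃ (r : Fin P.n) (rk : Fin P.n → ℕ), ∀ v, v = r ∨ ∃ t q, P.opp (v, t) = some q ∧ rk q.1 < rk v

end Pat

/-- The edges whose chain is met by the set `S`. -/
noncomputable def Pat.ux (P : Pat) (S : Finset P.VG) : Finset (Fin P.m) := by
  classical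
  exact Finset.univ.filter (fun e => ∃ c : P.CV, c.1 = e ∧ Sum.inr c ∈ S)

/-- The vertices of the fragment at `v` in the set `S`. -/
noncomputable def Pat.fx (P : Pat) (S : Finset P.VG) (v : Fin P.n) : Finset (Fin 9) := by
  classical
  exact Finset.univ.filter (fun x => Sum.inl (v, x) ∈ S)

theorem Pat.mem_ux (P : Pat) (S : Finset P.VG) (e : Fin P.m) :
    e ∈ P.ux S ↔ ∃ c : P.CV, c.1 = e ∧ Sum.inr c ∈ S := by
  classical
  simp [Pat.ux]

theorem Pat.mem_fx (P : Pat) (S : Finset P.VG) (v : Fin P.n) (x : Fin 9) :
    x ∈ P.fx S v ↔ Sum.inl (v, x) ∈ S := by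
  classical
  simp [Pat.fx]

/-- The abstract properties of a path from `u` to `v` with vertex set `S` and set of edges `U`. -/
structure PathLike {V : Type} [Fintype V] (G : SimpleGraph V) (u v : V) (S : Finset V)
    (U : V → V → Prop) : Prop where
  symm : ∀ x y, U x y → U y x
  adj : ∀ x y, U x y → G.Adj x y
  mem : ∀ x y, U x y → x ∈ S
  memu : u ∈ S
  memv : v ∈ S
  two : ∀ x ∈ S, x ≠ u → x ≠ v → {y | U x y}.ncard = 2
  closed : ∀ X : Finset V, X.Nonempty → X ⊆ S → (∀ x ∈ X, ∀ y, U x y → y ∈ X) → X = S

end Pool.Agent.LptT
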