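import Pool.Agent.LptT.Nb

/-!
# The long path of a path of the pattern
-/

set_option autoImplicit false

namespace Pool.Agent.LptT

private theorem ExpandA_cend_true {P : Pat} (q : Fin P.n × Fin 3) (e : Fin P.m)
    (h : P.sl q = (e, true)) (hlt : P.len e - 1 < P.len e) : P.cend q = ⟨e, ⟨P.len e - 1, hlt⟩⟩ := by
  have h1 : (P.sl q).2 = true := by rw [h]
  have h2 : (P.sl q).1 = e := by rw [h]
  subst h2
  unfold Pat.cend
  rw [if_pos h1]

private theorem ExpandA_cend_false {P : Pat} (q : Fin P.n × Fin 3) (e : Fin P.m)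
    (h : P.sl q = (e, false)) (hlt : 0 < P.len e) : P.cend q = ⟨e, ⟨0, hlt⟩⟩ := by
  have h1 : ¬ (P.sl q).2 = true := by rw [h]; simp
  have h2 : (P.sl q).1 = e := by rw [h]
  subst h2
  unfold Pat.cend
  rw [if_neg h1]

/-- The chain of the edge at a slot, starting from this slot: a list of all vertices of the chain, without
duplicates, consecutive ones adjacent, starting at `cend p`, and ending at `cend q` if `opp p = some q`.
PROOF: `L` is the list of the `⟨e, i⟩` (`e = edge p`, `List.ofFn` / `List.finRange`), reversed if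
`(P.sl p).2 = true`; `cend_cases`, `cend_a`, `cend_b`. -/
theorem exists_chain {P : Pat} (p : Fin P.n × Fin 3) :
    ∃ L : List P.VG, L.IsChain P.gr.Adj ∧ L.Nodup ∧ L.length = P.len (P.edge p) ∧
      (∀ z, z ∈ L ↔ ∃ c : P.CV, z = Sum.inr c ∧ c.1 = P.edge p) ∧
      L.head? = some (Sum.inr (P.cend p)) ∧
      ∀ q, P.opp p = some q → L.getLast? = some (Sum.inr (P.cend q)) := by
  obtain ⟨e, he⟩ : ∃ e, e = P.edge p := ⟨_, rfl⟩
  have hlen := P.len_pos e
  let f : Fin (P.len e) → P.VG := fun i => Sum.inr ⟨e, i⟩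
  have hfinj : Function.Injective f := by
    intro i j hij
    have h1 : (⟨e, i⟩ : P.CV) = ⟨e, j⟩ := Sum.inr.inj hij
    simpa using h1
  have hL0c : (List.ofFn f).IsChain P.gr.Adj := by
    rw [List.isChain_ofFn]
    intro i hi
    exact (P.adj_rr _ _).2 ⟨rfl, Or.inl rfl⟩
  have hL0n : (List.ofFn f).Nodup := List.nodup_ofFn.2 hfinj
  have hL0l : (List.ofFn f).length = P.len e := List.length_ofFn
  have hL0m : ∀ z, z ∈ List.ofFn f ↔ ∃ c : P.CV, z = Sum.inr c ∧ c.1 = e := by
    intro z
    rw [List.mem_ofFn]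
    constructor
    · rintro ⟨i, rfl⟩
      exact ⟨⟨e, i⟩, rfl, rfl⟩
    · rintro ⟨⟨e', i⟩, rfl, h1⟩
      have h1' : e' = e := h1
      subst h1'
      exact ⟨i, rfl⟩
  have hhead : (List.ofFn f).head? = some (f ⟨0, hlen⟩) := by
    rw [List.head?_eq_getElem?, List.getElem?_ofFn, dif_pos hlen]
  have hlast : (List.ofFn f).getLast? = some (f ⟨P.len e - 1, by omega⟩) := by
    rw [List.getLast?_eq_getElem?, hL0l, List.getElem?_ofFn, dif_pos (by omega)]
  have hsl1 : (P.sl p).1 = e := he.symm
  rcases Bool.eq_false_or_eq_true (P.sl p).2 with ht | hf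
  · have hsl : P.sl p = (e, true) := Prod.ext hsl1 ht
    refine ⟨(List.ofFn f).reverse, ?_, List.nodup_reverse.2 hL0n, ?_, ?_, ?_, ?_⟩
    · rw [List.isChain_reverse]
      exact hL0c.imp (fun a b h => h.symm)
    · rw [List.length_reverse, hL0l, he]
    · intro z
      rw [List.mem_reverse, hL0m, he]
    · rw [List.head?_reverse, hlast, ExpandA_cend_true p e hsl (by omega)]
    · intro q hq
      rw [List.getLast?_reverse, hhead]
      have h1 : P.opp p = some (P.a (P.sl p).1) := by
        unfold Pat.opp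
        rw [if_pos ht]
      rw [h1] at hq
      have h2 : P.a e = q := by
        have := Option.some.inj hq
        rw [hsl1] at this
        exact this
      rw [← h2, P.cend_a e]
  · have hsl : P.sl p = (e, false) := Prod.ext hsl1 hf
    refine ⟨List.ofFn f, hL0c, hL0n, ?_, ?_, ?_, ?_⟩
    · rw [hL0l, he]
    · intro z
      rw [hL0m, he]
    · rw [hhead, ExpandA_cend_false p e hsl hlen]
    · intro q hq
      rw [hlast]
      have h1 : P.opp p = P.b (P.sl p).1 := by
        unfold Pat.opp
        rw [if_neg (by rw [hf]; simp)]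
      rw [h1, hsl1] at hq
      rw [ExpandA_cend_true q e (P.sl_b e q hq) (by omega)]

end Pool.Agent.LptT
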