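import Pool.Agent.LptT.ExpandA
import Pool.Agent.LptT.FragB

/-!
# The long path of a path of the pattern
-/

set_option autoImplicit false

namespace Pool.Agent.LptT

private theorem ExpandB_edge {P : Pat} (p q : Fin P.n × Fin 3) (h : P.edge p = P.edge q)
    (hne : p ≠ q) : P.opp p = some q := by
  have h' : (P.sl p).1 = (P.sl q).1 := h
  unfold Pat.opp
  rcases Bool.eq_false_or_eq_true (P.sl p).2 with hp | hp <;>
    rcases Bool.eq_false_or_eq_true (P.sl q).2 with hq | hq
  · exfalso
    have h1 := P.b_sl p hp
    have h2 := P.b_sl q hq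
    rw [h', h2] at h1
    exact hne (Option.some.inj h1).symm
  · rw [if_pos hp, h', P.a_sl q hq]
  · rw [if_neg (by rw [hp]; simp), h', P.b_sl q hq]
  · exfalso
    have h1 := P.a_sl p hp
    have h2 := P.a_sl q hq
    rw [h', h2] at h1
    exact hne h1.symm

private theorem ExpandB_len_none {P : Pat} (p : Fin P.n × Fin 3) (h : P.opp p = none) :
    P.len (P.edge p) = P.w (P.edge p) + P.T - 4 := by
  unfold Pat.opp at h
  rcases Bool.eq_false_or_eq_true (P.sl p).2 with hp | hp
  · rw [if_pos hp] at h
    exact absurd h (by simp)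
  · rw [if_neg (by rw [hp]; simp)] at h
    have h1 : P.b (P.edge p) = none := h
    unfold Pat.len
    rw [h1, if_neg (by simp)]

private theorem ExpandB_len_some {P : Pat} (p q : Fin P.n × Fin 3) (h : P.opp p = some q) :
    P.len (P.edge p) = P.w (P.edge p) - 8 := by
  unfold Pat.opp at h
  rcases Bool.eq_false_or_eq_true (P.sl p).2 with hp | hp
  · have h1 : P.b (P.edge p) = some p := P.b_sl p hp
    unfold Pat.len
    rw [h1, if_pos (by simp)]
  · rw [if_neg (by rw [hp]; simp)] at h
    have h1 : P.b (P.edge p) = some q := h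
    unfold Pat.len
    rw [h1, if_pos (by simp)]

private theorem ExpandB_aux {P : Pat} (hit : Fin P.n × Fin 3 × Fin 3 → Fin 9)
    (l : List (Fin P.n × Fin 3 × Fin 3)) :
    l.IsChain P.Step → (l.map Prod.fst).Nodup → (∀ s ∈ l, s.2.1 ≠ s.2.2) →
    (∀ s, l.getLast? = some s → P.opp (s.1, s.2.2) = none) →
    (∀ s ∈ l, kslot (hit s) ≠ s.2.1 ∧ kslot (hit s) ≠ s.2.2) →
    ∀ s, l.head? = some s →
    ∃ L : List P.VG, L.IsChain P.gr.Adj ∧ L.Nodup ∧
      L.head? = some (Sum.inl (s.1, term s.2.1)) ∧ L.length = P.wtail l + P.T + 4 ∧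
      (∀ p, Sum.inl p ∈ L → ∃ s ∈ l, s.1 = p.1 ∧ p.2 ≠ hit s) ∧
      ∀ c : P.CV, Sum.inr c ∈ L → ∃ s ∈ l, c.1 = P.edge (s.1, s.2.2) := by
  induction l with
  | nil =>
    intro _ _ _ _ _ s hs
    exact absurd hs (by simp)
  | cons r l' ih =>
    intro hch hnd hturn hlast hhit s hs
    have hrs : r = s := by simpa using hs
    subst hrs
    have hturn0 := hturn r List.mem_cons_self
    have hhit0 := hhit r List.mem_cons_self
    obtain ⟨hF1, hF2, hF3, hF4, hF5, hF6⟩ :=
      rt_spec r.2.1 r.2.2 (hit r) hturn0 hhit0.1 hhit0.2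
    obtain ⟨C, hC1, hC2, hC3, hC4, hC5, hC6⟩ := exists_chain (P := P) (r.1, r.2.2)
    have hinj : Function.Injective (fun x : Fin 9 => (Sum.inl (r.1, x) : P.VG)) := by
      intro x y hxy
      have h1 : (r.1, x) = (r.1, y) := Sum.inl.inj hxy
      exact (Prod.mk.inj h1).2
    have hFc : ((rt r.2.1 r.2.2 (hit r)).map (fun x => (Sum.inl (r.1, x) : P.VG))).IsChain
        P.gr.Adj := by
      rw [List.isChain_map]
      exact hF1.imp (fun a b h => (P.adj_ll _ _).2 ⟨rfl, h⟩)
    have hFn : ((rt r.2.1 r.2.2 (hit r)).map (fun x => (Sum.inl (r.1, x) : P.VG))).Nodup :=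
      hF2.map hinj
    have hFl : ((rt r.2.1 r.2.2 (hit r)).map (fun x => (Sum.inl (r.1, x) : P.VG))).length = 8 := by
      rw [List.length_map, hF3]
    have hFh : ((rt r.2.1 r.2.2 (hit r)).map (fun x => (Sum.inl (r.1, x) : P.VG))).head? =
        some (Sum.inl (r.1, term r.2.1)) := by
      rw [List.head?_map, hF5]
      rfl
    have hFt : ((rt r.2.1 r.2.2 (hit r)).map (fun x => (Sum.inl (r.1, x) : P.VG))).getLast? =
        some (Sum.inl (r.1, term r.2.2)) := by
      rw [List.getLast?_map, hF6]
      rfl
    have hFm : ∀ p : Fin P.n × Fin 9,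
        (Sum.inl p : P.VG) ∈ (rt r.2.1 r.2.2 (hit r)).map (fun x => (Sum.inl (r.1, x) : P.VG)) →
        r.1 = p.1 ∧ p.2 ≠ hit r := by
      intro p hp
      obtain ⟨x, hx, hxp⟩ := List.mem_map.1 hp
      have h1 : (r.1, x) = p := Sum.inl.inj hxp
      subst h1
      refine ⟨rfl, ?_⟩
      rintro rfl
      exact hF4 hx
    have hFr : ∀ c : P.CV,
        (Sum.inr c : P.VG) ∉ (rt r.2.1 r.2.2 (hit r)).map (fun x => (Sum.inl (r.1, x) : P.VG)) := by
      intro c hc
      obtain ⟨x, hx, hxp⟩ := List.mem_map.1 hc
      exact absurd hxp (by simp)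
    generalize (rt r.2.1 r.2.2 (hit r)).map (fun x => (Sum.inl (r.1, x) : P.VG)) = F at *
    have hCl : ∀ p : Fin P.n × Fin 9, (Sum.inl p : P.VG) ∉ C := by
      intro p hp
      obtain ⟨c, hc, _⟩ := (hC4 _).1 hp
      exact absurd hc (by simp)
    have hFC : (F ++ C).IsChain P.gr.Adj := by
      refine hFc.append hC1 ?_
      intro x hx y hy
      rw [hFt] at hx
      rw [hC5] at hy
      have hx' := Option.some.inj hx
      have hy' := Option.some.inj hy
      subst hx'
      subst hy'
      exact (P.adj_lr _ _).2 ⟨r.2.2, rfl, rfl⟩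
    have hFCn : (F ++ C).Nodup := by
      rw [List.nodup_append']
      refine ⟨hFn, hC2, ?_⟩
      intro z hz hz'
      obtain ⟨c, hc, _⟩ := (hC4 _).1 hz'
      subst hc
      exact hFr c hz
    have hw := P.hw (P.edge (r.1, r.2.2))
    cases l' with
    | nil =>
      have hopp : P.opp (r.1, r.2.2) = none := hlast r (by simp)
      refine ⟨F ++ C, hFC, hFCn, ?_, ?_, ?_, ?_⟩
      · rw [List.head?_append, hFh]
        rfl
      · rw [List.length_append, hFl, hC3, ExpandB_len_none _ hopp]
        have h1 : P.wtail [r] = P.w (P.edge (r.1, r.2.2)) := by simp [Pat.wtail]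
        rw [h1]
        omega
      · intro p hp
        rcases List.mem_append.1 hp with hp | hp
        · exact ⟨r, List.mem_cons_self, hFm p hp⟩
        · exact absurd hp (hCl p)
      · intro c hc
        rcases List.mem_append.1 hc with hc | hc
        · exact absurd hc (hFr c)
        · obtain ⟨d, hd, hd'⟩ := (hC4 _).1 hc
          have h1 : c = d := Sum.inr.inj hd
          subst h1
          exact ⟨r, List.mem_cons_self, hd'⟩
    | cons s' l'' =>
      have hstep : P.opp (r.1, r.2.2) = some (s'.1, s'.2.1) := (List.isChain_cons_cons.1 hch).1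
      have hch' := (List.isChain_cons_cons.1 hch).2
      have hnd' : ((s' :: l'').map Prod.fst).Nodup := by
        rw [List.map_cons] at hnd
        exact (List.nodup_cons.1 hnd).2
      have hnot : ∀ s ∈ s' :: l'', s.1 ≠ r.1 := by
        intro s hs h1
        rw [List.map_cons] at hnd
        exact (List.nodup_cons.1 hnd).1 (List.mem_map.2 ⟨s, hs, h1⟩)
      obtain ⟨L', hL1, hL2, hL3, hL4, hL5, hL6⟩ := ih hch' hnd'
        (fun s hs => hturn s (List.mem_cons_of_mem _ hs))
        (fun s hs => hlast s (by
          rw [List.getLast?_cons_cons]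
          exact hs))
        (fun s hs => hhit s (List.mem_cons_of_mem _ hs)) s' (by simp)
      have hCt := hC6 _ hstep
      refine ⟨(F ++ C) ++ L', ?_, ?_, ?_, ?_, ?_, ?_⟩
      · refine hFC.append hL1 ?_
        intro x hx y hy
        rw [List.getLast?_append, hCt] at hx
        rw [hL3] at hy
        have hx' : (Sum.inr (P.cend (s'.1, s'.2.1)) : P.VG) = x := Option.some.inj hx
        have hy' := Option.some.inj hy
        subst hx'
        subst hy'
        exact (P.adj_rl _ _).2 ⟨s'.2.1, rfl, rfl⟩
      · rw [List.nodup_append']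
        refine ⟨hFCn, hL2, ?_⟩
        intro z hz hz'
        rcases z with p | c
        · rcases List.mem_append.1 hz with hz | hz
          · obtain ⟨s, hs, h1, _⟩ := hL5 p hz'
            exact hnot s hs (h1.trans (hFm p hz).1.symm)
          · exact hCl p hz
        · rcases List.mem_append.1 hz with hz | hz
          · exact hFr c hz
          · obtain ⟨d, hd, hd'⟩ := (hC4 _).1 hz
            have h1 : c = d := Sum.inr.inj hd
            subst h1
            obtain ⟨t, ht, ht'⟩ := hL6 c hz'
            have h2 : P.edge (r.1, r.2.2) = P.edge (t.1, t.2.2) := hd'.symm.trans ht'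
            have h3 : ((r.1, r.2.2) : Fin P.n × Fin 3) ≠ (t.1, t.2.2) := by
              intro h4
              exact hnot t ht (Prod.mk.inj h4).1.symm
            have h4 := ExpandB_edge _ _ h2 h3
            rw [hstep] at h4
            have h5 := Prod.mk.inj (Option.some.inj h4)
            have h6 : s' = t := List.inj_on_of_nodup_map hnd' List.mem_cons_self ht h5.1
            subst h6
            exact hturn s' (List.mem_cons_of_mem _ List.mem_cons_self) h5.2
      · rw [List.append_assoc, List.head?_append, hFh]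
        rfl
      · rw [List.length_append, List.length_append, hFl, hC3, hL4, ExpandB_len_some _ _ hstep]
        have h1 : P.wtail (r :: s' :: l'') = P.w (P.edge (r.1, r.2.2)) + P.wtail (s' :: l'') := by
          simp [Pat.wtail]
        rw [h1]
        omega
      · intro p hp
        rcases List.mem_append.1 hp with hp | hp
        · rcases List.mem_append.1 hp with hp | hp
          · exact ⟨r, List.mem_cons_self, hFm p hp⟩
          · exact absurd hp (hCl p)
        · obtain ⟨s, hs, h1⟩ := hL5 p hp
          exact ⟨s, List.mem_cons_of_mem _ hs, h1⟩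
      · intro c hc
        rcases List.mem_append.1 hc with hc | hc
        · rcases List.mem_append.1 hc with hc | hc
          · exact absurd hc (hFr c)
          · obtain ⟨d, hd, hd'⟩ := (hC4 _).1 hc
            have h1 : c = d := Sum.inr.inj hd
            subst h1
            exact ⟨r, List.mem_cons_self, hd'⟩
        · obtain ⟨s, hs, h1⟩ := hL6 c hc
          exact ⟨s, List.mem_cons_of_mem _ hs, h1⟩

/-- Expansion of a path of the pattern.

PROOF.  Induction on the list of steps, in the form: for a list `l = s :: l'` which satisfies `chain`, `nodup`,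
`turn`, `last` (not necessarily `first`) there is a list `L` of vertices with: `IsChain`, `Nodup`,
`L.head? = some (inl (s.1, term s.2.1))`, `L.length = wtail l + T + 4`
(each step contributes 8 for its fragment and `len` of its edge of departure: `w - 8`, and `w + T - 4` for
the last step), the vertices `inl (v, x)` of `L` belong to steps `s ∈ l` with `s.1 = v` and
`x ∈ rt s.2.1 s.2.2 (hit s)`, the chain vertices `inr c` of `L` have `c.1 = edge (s.1, s.2.2)` for some
`s ∈ l`.  Step: the fragment part is `rt s.2.1 s.2.2 (hit s)` mapped to `inl (s.1, ·)` (`rt_spec`), then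
`exists_chain (s.1, s.2.2)`, then the list of `l'` (if `l'` is nonempty).  Adjacency at the joints:
`adj_lr`, and `opp (s.1, s.2.2) = some (s'.1, s'.2.1)` gives the end `cend (s'.1, s'.2.1)` of the chain, which
is adjacent to `inl (s'.1, term s'.2.1)`.  Disjointness: the fragments are different because the vertices
`s.1` are different; for the chains: if `edge (s.1, s.2.2) = edge (r.1, r.2.2)` with `r ∈ l'` then, the slots
being different (`s.1 ≠ r.1`), `opp (s.1, s.2.2) = some (r.1, r.2.2)`; but
`opp (s.1, s.2.2) = some (s'.1, s'.2.1)` with `s'` the head of `l'`, so `s'.1 = r.1`, `s' = r` (nodup) and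
`s'.2.1 = s'.2.2`, in contradiction with `turn` (useful lemma: `edge p = edge q` and `p ≠ q` imply
`opp p = some q`).  At the end put the reversed chain of the first slot `(s.1, s.2.1)` in front (it is
disjoint from the rest, same argument with `first`: `opp = none`).  Total length:
`wt l + 2 * T`. -/
theorem exists_list {P : Pat} (l : List (Fin P.n × Fin 3 × Fin 3)) (hl : P.PPath l)
    (hit : Fin P.n × Fin 3 × Fin 3 → Fin 9)
    (hh : ∀ s ∈ l, kslot (hit s) ≠ s.2.1 ∧ kslot (hit s) ≠ s.2.2) :
    ∃ L : List P.VG, L.IsChain P.gr.Adj ∧ L.Nodup ∧ L.length = P.wt l + 2 * P.T ∧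
      (∀ p, Sum.inl p ∈ L → ∃ s ∈ l, s.1 = p.1 ∧ p.2 ≠ hit s) ∧
      ∀ c : P.CV, Sum.inr c ∈ L → ∃ s ∈ l, c.1 = P.edge (s.1, s.2.1) ∨ c.1 = P.edge (s.1, s.2.2) := by
  cases l with
  | nil => exact absurd rfl hl.ne
  | cons s l' =>
    obtain ⟨L, hL1, hL2, hL3, hL4, hL5, hL6⟩ := ExpandB_aux hit (s :: l') hl.chain hl.nodup hl.turn
      hl.last hh s (by simp)
    obtain ⟨D, hD1, hD2, hD3, hD4, hD5, _⟩ := exists_chain (P := P) (s.1, s.2.1)
    have hopp : P.opp (s.1, s.2.1) = none := hl.first s (by simp)
    have hw := P.hw (P.edge (s.1, s.2.1))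
    refine ⟨D.reverse ++ L, ?_, ?_, ?_, ?_, ?_⟩
    · have hDr : D.reverse.IsChain P.gr.Adj := by
        rw [List.isChain_reverse]
        exact hD1.imp (fun a b h => h.symm)
      refine hDr.append hL1 ?_
      intro x hx y hy
      rw [List.getLast?_reverse, hD5] at hx
      rw [hL3] at hy
      have hx' := Option.some.inj hx
      have hy' := Option.some.inj hy
      subst hx'
      subst hy'
      exact (P.adj_rl _ _).2 ⟨s.2.1, rfl, rfl⟩
    · rw [List.nodup_append']
      refine ⟨List.nodup_reverse.2 hD2, hL2, ?_⟩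
      intro z hz hz'
      rw [List.mem_reverse] at hz
      obtain ⟨c, hc, hc'⟩ := (hD4 _).1 hz
      subst hc
      obtain ⟨r, hr, hr'⟩ := hL6 c hz'
      have h2 : P.edge (s.1, s.2.1) = P.edge (r.1, r.2.2) := hc'.symm.trans hr'
      have h3 : ((s.1, s.2.1) : Fin P.n × Fin 3) ≠ (r.1, r.2.2) := by
        intro h4
        have h5 := Prod.mk.inj h4
        have h6 : s = r := List.inj_on_of_nodup_map hl.nodup List.mem_cons_self hr h5.1
        subst h6
        exact hl.turn s hr h5.2
      have h4 := ExpandB_edge _ _ h2 h3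
      rw [hopp] at h4
      exact absurd h4 (by simp)
    · rw [List.length_append, List.length_reverse, hD3, hL4, ExpandB_len_none _ hopp]
      have h1 : P.wt (s :: l') = P.w (P.edge (s.1, s.2.1)) + P.wtail (s :: l') := rfl
      rw [h1]
      omega
    · intro p hp
      rcases List.mem_append.1 hp with hp | hp
      · rw [List.mem_reverse] at hp
        obtain ⟨c, hc, _⟩ := (hD4 _).1 hp
        exact absurd hc (by simp)
      · exact hL5 p hp
    · intro c hc
      rcases List.mem_append.1 hc with hc | hc
      · rw [List.mem_reverse] at hc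
        obtain ⟨d, hd, hd'⟩ := (hD4 _).1 hc
        have h1 : c = d := Sum.inr.inj hd
        subst h1
        exact ⟨s, List.mem_cons_self, Or.inl hd'⟩
      · obtain ⟨r, hr, hr'⟩ := hL6 c hc
        exact ⟨r, hr, Or.inr hr'⟩

end Pool.Agent.LptT
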