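import Pool.Agent.LptT.Defs

/-!
# Finite facts on the fragment (Petersen graph minus a vertex)
-/

set_option autoImplicit false

namespace Pool.Agent.LptT

private def FragA_t2 (a b c : Bool) : Bool :=
  (a && b && !c) || (a && !b && c) || (!a && b && c)

private def FragA_fb (f : Bool → Bool) : Bool := f false && f true

private theorem FragA_all {f : Bool → Bool} (h : FragA_fb f = true) (b : Bool) : f b = true := by
  unfold FragA_fb at h
  rw [Bool.and_eq_true] at h
  cases b
  · exact h.1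
  · exact h.2

private def FragA_im (a b : Bool) : Bool := !a || b

private theorem FragA_mp {a b : Bool} (h : FragA_im a b = true) (ha : a = true) : b = true := by
  subst ha
  exact h

private def FragA_chk : Bool :=
  FragA_fb fun e0 => FragA_fb fun s0 => FragA_fb fun s3 => FragA_im (FragA_t2 e0 s0 s3) <|
  FragA_fb fun e1 => FragA_fb fun s1 => FragA_fb fun s4 => FragA_im (FragA_t2 e1 s1 s4) <|
  FragA_fb fun e2 => FragA_fb fun s2 => FragA_fb fun s5 => FragA_im (FragA_t2 e2 s2 s5) <|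
  FragA_im (e0 || e1 || e2) <|
  FragA_fb fun h5 => FragA_fb fun h0 => FragA_im (FragA_t2 h5 h0 s0) <|
  FragA_fb fun h1 => FragA_im (FragA_t2 h0 h1 s1) <|
  FragA_fb fun h2 => FragA_im (FragA_t2 h1 h2 s2) <|
  FragA_fb fun h3 => FragA_im (FragA_t2 h2 h3 s3) <|
  FragA_fb fun h4 => FragA_im (FragA_t2 h3 h4 s4) <| FragA_im (FragA_t2 h4 h5 s5) <|
  (!h5 && !s1 && !s2 && !h3 && !e0) || (!h0 && !s2 && !s3 && !h4 && !e1) ||
  (!h1 && !s3 && !s4 && !h5 && !e2) || (!h2 && !s4 && !s5 && !h0 && !e0) ||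
  (!h3 && !s5 && !s0 && !h1 && !e1) || (!h4 && !s0 && !s1 && !h2 && !e2)

private theorem FragA_chk_true : FragA_chk = true := by decide

private theorem FragA_dec {e0 s0 s3 e1 s1 s4 e2 s2 s5 h5 h0 h1 h2 h3 h4 : Bool}
    (kk : (e0 || e1 || e2) = true) (k0 : FragA_t2 e0 s0 s3 = true) (k1 : FragA_t2 e1 s1 s4 = true)
    (k2 : FragA_t2 e2 s2 s5 = true) (k3 : FragA_t2 h5 h0 s0 = true)
    (k4 : FragA_t2 h0 h1 s1 = true) (k5 : FragA_t2 h1 h2 s2 = true)
    (k6 : FragA_t2 h2 h3 s3 = true) (k7 : FragA_t2 h3 h4 s4 = true)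
    (k8 : FragA_t2 h4 h5 s5 = true) :
    (h5 = false ∧ s1 = false ∧ s2 = false ∧ h3 = false ∧ e0 = false) ∨
    (h0 = false ∧ s2 = false ∧ s3 = false ∧ h4 = false ∧ e1 = false) ∨
    (h1 = false ∧ s3 = false ∧ s4 = false ∧ h5 = false ∧ e2 = false) ∨
    (h2 = false ∧ s4 = false ∧ s5 = false ∧ h0 = false ∧ e0 = false) ∨
    (h3 = false ∧ s5 = false ∧ s0 = false ∧ h1 = false ∧ e1 = false) ∨
    (h4 = false ∧ s0 = false ∧ s1 = false ∧ h2 = false ∧ e2 = false) := by
  have h := FragA_mp (FragA_all (FragA_all (FragA_all FragA_chk_true e0) s0) s3) k0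
  have h := FragA_mp (FragA_all (FragA_all (FragA_all h e1) s1) s4) k1
  have h := FragA_mp (FragA_mp (FragA_all (FragA_all (FragA_all h e2) s2) s5) k2) kk
  have h := FragA_mp (FragA_all (FragA_all h h5) h0) k3
  have h := FragA_mp (FragA_all h h1) k4
  have h := FragA_mp (FragA_all h h2) k5
  have h := FragA_mp (FragA_all h h3) k6
  have h := FragA_mp (FragA_mp (FragA_all h h4) k7) k8
  simp only [Bool.or_eq_true, Bool.and_eq_true, Bool.not_eq_true'] at h
  rcases h with ((((h | h) | h) | h) | h) | h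
  · exact Or.inl ⟨h.1.1.1.1, h.1.1.1.2, h.1.1.2, h.1.2, h.2⟩
  · exact Or.inr (Or.inl ⟨h.1.1.1.1, h.1.1.1.2, h.1.1.2, h.1.2, h.2⟩)
  · exact Or.inr (Or.inr (Or.inl ⟨h.1.1.1.1, h.1.1.1.2, h.1.1.2, h.1.2, h.2⟩))
  · exact Or.inr (Or.inr (Or.inr (Or.inl ⟨h.1.1.1.1, h.1.1.1.2, h.1.1.2, h.1.2, h.2⟩)))
  · exact Or.inr (Or.inr (Or.inr (Or.inr (Or.inl ⟨h.1.1.1.1, h.1.1.1.2, h.1.1.2, h.1.2, h.2⟩))))
  · exact Or.inr (Or.inr (Or.inr (Or.inr (Or.inr ⟨h.1.1.1.1, h.1.1.1.2, h.1.1.2, h.1.2, h.2⟩))))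

/-- The six five-cycles. -/
private def FragA_X (i : Fin 6) : Finset (Fin 9) :=
  ([{3, 4, 5, 6, 0}, {4, 5, 6, 7, 1}, {5, 6, 7, 8, 2}, {6, 7, 8, 3, 0}, {7, 8, 3, 4, 1},
    {8, 3, 4, 5, 2}] : List (Finset (Fin 9))).getD i.val ∅

/-- The edges which leave them. -/
private def FragA_b (i : Fin 6) : List (Fin 9 × Fin 9) :=
  ([[(3, 8), (4, 1), (5, 2), (6, 7)], [(4, 3), (5, 2), (6, 0), (7, 8)],
    [(5, 4), (6, 0), (7, 1), (8, 3)], [(6, 5), (7, 1), (8, 2), (3, 4)],
    [(7, 6), (8, 2), (3, 0), (4, 5)], [(8, 7), (3, 0), (4, 1), (5, 6)]] :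
      List (List (Fin 9 × Fin 9))).getD i.val []

/-- The terminal of the five-cycle. -/
private def FragA_e (i : Fin 6) : Fin 3 := ⟨i.val % 3, by omega⟩

private theorem FragA_Xb : ∀ i : Fin 6, ∀ x ∈ FragA_X i, ∀ y, fadj x y = true →
    y ∈ FragA_X i ∨ (x, y) ∈ FragA_b i := by
  decide

private theorem FragA_Xe : ∀ i : Fin 6, ∀ t : Fin 3, term t ∈ FragA_X i → t = FragA_e i := by
  decide

private theorem FragA_term : ∀ t t' : Fin 3, term t' = term t → t' = t := by
  decide

private theorem FragA_Xn : ∀ i : Fin 6, (FragA_X i).Nonempty := by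
  decide

private theorem FragA_bits (a : Fin 9 → Fin 9 → Bool) (hz : ∀ x y, fadj x y = false → a x y = false)
    (x : Fin 9) : ∑ y, (a x y).toNat = ∑ y, (fadj x y && a x y).toNat := by
  refine Finset.sum_congr rfl fun y _ => ?_
  by_cases h : fadj x y = true
  · rw [h]
    rfl
  · have h' : fadj x y = false := by simpa using h
    rw [h', hz x y h']
    rfl

private theorem FragA_four {a : Fin 9 → Fin 9 → Bool} {x1 y1 x2 y2 x3 y3 x4 y4 : Fin 9}
    (h1 : a x1 y1 = false) (h2 : a x2 y2 = false) (h3 : a x3 y3 = false) (h4 : a x4 y4 = false) :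
    ∀ q ∈ [(x1, y1), (x2, y2), (x3, y3), (x4, y4)], a q.1 q.2 = false := by
  intro q hq
  simp only [List.mem_cons, List.not_mem_nil, or_false] at hq
  rcases hq with rfl | rfl | rfl | rfl
  · exact h1
  · exact h2
  · exact h3
  · exact h4

private theorem FragA_of : ∀ a b c : Bool, a.toNat + b.toNat + c.toNat = 2 →
    FragA_t2 a b c = true := by
  decide

/-- **Fragment lemma.**  `S` is the set of vertices of the fragment used by a path, `A` the used edges
inside, `E t` says that the external edge at the terminal `t` is used; every used vertex has exactly two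
used edges, and every nonempty closed set of used vertices has a used external edge.  Then either nothing
is used, or exactly two external edges are used and at most eight vertices.

PROOF.  Put twelve Booleans `h0..h5` (edges of the hexagon `3,...,8`), `s0..s5` (edge from the hexagon
vertex `3 + i` to the terminal `i mod 3`), and `E0, E1, E2`; because `A` is symmetric and contained in
`fadj`, it is described by the twelve Booleans.  By `htwo` and `hmem` (a vertex which is not in `S` has no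
used edge: `hmem` with `hsymm`, and `hE`) every vertex of the fragment has an even number (0 or 2) of used
incident edges, so for all nine vertices the xor of the three incident Booleans is `false`.  Xor of the nine
equations: `E0 xor E1 xor E2 = false`, so `{t | E t}.ncard` is 0 or 2.  If `S` is nonempty, `hcl S` gives a
`t` with `E t`, so it is 2.  If `S` is empty, `hE` gives no `E t`.  If `S.card = 9`, `S = univ`, all
vertices have degree two: the finite check (64 even sets, `decide` over the Booleans) gives one of the six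
five-cycles of the fragment as a closed set without used external edge, in contradiction with `hcl`: the
five-cycles are `3 4 5 6 0`-type sets: hexagon path `3+i, 4+i, 5+i, 6+i` together with the terminal `i mod 3`
adjacent to both ends (`i = 0..5`, hexagon indices mod 6). -/
theorem frag_bound (A : Fin 9 → Fin 9 → Prop) (E : Fin 3 → Prop) (S : Finset (Fin 9))
    (hsymm : ∀ x y, A x y → A y x) (hadj : ∀ x y, A x y → fadj x y = true)
    (hmem : ∀ x y, A x y → x ∈ S) (hE : ∀ t, E t → term t ∈ S)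
    (htwo : ∀ x ∈ S, {y | A x y}.ncard + {t | E t ∧ term t = x}.ncard = 2)
    (hcl : ∀ X : Finset (Fin 9), X.Nonempty → X ⊆ S → (∀ x ∈ X, ∀ y, A x y → y ∈ X) →
      ∃ t, E t ∧ term t ∈ X) :
    (S = ∅ ∧ {t | E t}.ncard = 0) ∨ (S.card ≤ 8 ∧ {t | E t}.ncard = 2) := by
  classical
  obtain ⟨a, ha⟩ : ∃ a : Fin 9 → Fin 9 → Bool, ∀ x y, a x y = true ↔ A x y :=
    ⟨fun x y => decide (A x y), fun x y => by simp⟩
  obtain ⟨e, he⟩ : ∃ e : Fin 3 → Bool, ∀ t, e t = true ↔ E t :=
    ⟨fun t => decide (E t), fun t => by simp⟩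
  have hab : ∀ x y, a x y = a y x := by
    intro x y
    rw [Bool.eq_iff_iff, ha, ha]
    exact ⟨hsymm x y, hsymm y x⟩
  have hz : ∀ x y, fadj x y = false → a x y = false := by
    intro x y h
    by_contra h1
    rw [Bool.not_eq_false, ha] at h1
    rw [hadj x y h1] at h
    exact absurd h (by decide)
  have hEc : {t | E t}.ncard = (e 0).toNat + (e 1).toNat + (e 2).toNat := by
    have h1 : {t | E t} = ((Finset.univ.filter fun t => e t = true : Finset (Fin 3)) : Set (Fin 3)) := by
      ext t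
      simp [he]
    rw [h1, Set.ncard_coe_finset, Finset.card_filter, Fin.sum_univ_three]
    cases e 0 <;> cases e 1 <;> cases e 2 <;> rfl
  have hAc : ∀ x, {y | A x y}.ncard = ∑ y, (fadj x y && a x y).toNat := by
    intro x
    rw [← FragA_bits a hz]
    have h1 : {y | A x y} = ((Finset.univ.filter fun y => a x y = true : Finset (Fin 9)) :
        Set (Fin 9)) := by
      ext y
      simp [ha]
    rw [h1, Set.ncard_coe_finset, Finset.card_filter]
    refine Finset.sum_congr rfl fun y _ => ?_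
    cases a x y <;> rfl
  have hEx : ∀ t, {t' | E t' ∧ term t' = term t}.ncard = (e t).toNat := by
    intro t
    by_cases h : E t
    · have h1 : {t' | E t' ∧ term t' = term t} = {t} := by
        ext t'
        simp only [Set.mem_ofPred_eq, Set.mem_singleton_iff]
        constructor
        · rintro ⟨-, h2⟩
          exact FragA_term t t' h2
        · rintro rfl
          exact ⟨h, rfl⟩
      rw [h1, Set.ncard_singleton, (he t).2 h]
      rfl
    · have h1 : {t' | E t' ∧ term t' = term t} = ∅ := by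
        ext t'
        simp only [Set.mem_ofPred_eq, Set.mem_empty_iff_false, iff_false]
        rintro ⟨h2, h3⟩
        have h4 : t' = t := FragA_term t t' h3
        rw [h4] at h2
        exact h h2
      have h5 : e t = false := by
        rw [← Bool.not_eq_true, he]
        exact h
      rw [h1, Set.ncard_empty, h5]
      rfl
  have hEn : ∀ x, (∀ t, term t ≠ x) → {t' | E t' ∧ term t' = x}.ncard = 0 := by
    intro x hx
    have h1 : {t' | E t' ∧ term t' = x} = ∅ := by
      ext t'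
      simp only [Set.mem_ofPred_eq, Set.mem_empty_iff_false, iff_false]
      exact fun h => hx t' h.2
    rw [h1, Set.ncard_empty]
  -- degrees
  have hdeg : ∀ x, ∃ k, (∑ y, (fadj x y && a x y).toNat) +
      {t' | E t' ∧ term t' = x}.ncard = 2 * k := by
    intro x
    by_cases hx : x ∈ S
    · refine ⟨1, ?_⟩
      rw [← hAc]
      exact htwo x hx
    · refine ⟨0, ?_⟩
      have h1 : ∀ y, a x y = false := by
        intro y
        rw [← Bool.not_eq_true, ha]
        exact fun h => hx (hmem x y h)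
      have h2 : {t' | E t' ∧ term t' = x} = ∅ := by
        ext t'
        simp only [Set.mem_ofPred_eq, Set.mem_empty_iff_false, iff_false]
        rintro ⟨h, rfl⟩
        exact hx (hE t' h)
      rw [h2, Set.ncard_empty]
      simp [h1]
  obtain ⟨k0, d0⟩ := hdeg 0
  obtain ⟨k1, d1⟩ := hdeg 1
  obtain ⟨k2, d2⟩ := hdeg 2
  obtain ⟨k3, d3⟩ := hdeg 3
  obtain ⟨k4, d4⟩ := hdeg 4
  obtain ⟨k5, d5⟩ := hdeg 5
  obtain ⟨k6, d6⟩ := hdeg 6
  obtain ⟨k7, d7⟩ := hdeg 7
  obtain ⟨k8, d8⟩ := hdeg 8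
  have g0 : {t' | E t' ∧ term t' = 0}.ncard = (e 0).toNat := hEx 0
  have g1 : {t' | E t' ∧ term t' = 1}.ncard = (e 1).toNat := hEx 1
  have g2 : {t' | E t' ∧ term t' = 2}.ncard = (e 2).toNat := hEx 2
  rw [g0] at d0
  rw [g1] at d1
  rw [g2] at d2
  rw [hEn 3 (by decide)] at d3
  rw [hEn 4 (by decide)] at d4
  rw [hEn 5 (by decide)] at d5
  rw [hEn 6 (by decide)] at d6
  rw [hEn 7 (by decide)] at d7
  rw [hEn 8 (by decide)] at d8
  have s0 : (∑ y, (fadj 0 y && a 0 y).toNat) = (a 3 0).toNat + (a 6 0).toNat := by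
    rw [hab 3 0, hab 6 0]
    simp [Fin.sum_univ_succ, fadj, fE]
  have s1 : (∑ y, (fadj 1 y && a 1 y).toNat) = (a 4 1).toNat + (a 7 1).toNat := by
    rw [hab 4 1, hab 7 1]
    simp [Fin.sum_univ_succ, fadj, fE]
  have s2 : (∑ y, (fadj 2 y && a 2 y).toNat) = (a 5 2).toNat + (a 8 2).toNat := by
    rw [hab 5 2, hab 8 2]
    simp [Fin.sum_univ_succ, fadj, fE]
  have s3 : (∑ y, (fadj 3 y && a 3 y).toNat) =
      (a 3 8).toNat + (a 3 4).toNat + (a 3 0).toNat := by
    simp [Fin.sum_univ_succ, fadj, fE]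
    omega
  have s4 : (∑ y, (fadj 4 y && a 4 y).toNat) =
      (a 3 4).toNat + (a 4 5).toNat + (a 4 1).toNat := by
    rw [hab 3 4]
    simp [Fin.sum_univ_succ, fadj, fE]
    omega
  have s5 : (∑ y, (fadj 5 y && a 5 y).toNat) =
      (a 4 5).toNat + (a 5 6).toNat + (a 5 2).toNat := by
    rw [hab 4 5]
    simp [Fin.sum_univ_succ, fadj, fE]
    omega
  have s6 : (∑ y, (fadj 6 y && a 6 y).toNat) =
      (a 5 6).toNat + (a 6 7).toNat + (a 6 0).toNat := by
    rw [hab 5 6]
    simp [Fin.sum_univ_succ, fadj, fE]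
    omega
  have s7 : (∑ y, (fadj 7 y && a 7 y).toNat) =
      (a 6 7).toNat + (a 7 8).toNat + (a 7 1).toNat := by
    rw [hab 6 7]
    simp [Fin.sum_univ_succ, fadj, fE]
    omega
  have s8 : (∑ y, (fadj 8 y && a 8 y).toNat) =
      (a 7 8).toNat + (a 3 8).toNat + (a 8 2).toNat := by
    rw [hab 7 8, hab 3 8]
    simp [Fin.sum_univ_succ, fadj, fE]
    omega
  rw [s0] at d0
  rw [s1] at d1
  rw [s2] at d2
  rw [s3] at d3
  rw [s4] at d4
  rw [s5] at d5
  rw [s6] at d6
  rw [s7] at d7
  rw [s8] at d8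
  rcases S.eq_empty_or_nonempty with hS | hS
  · left
    refine ⟨hS, ?_⟩
    have h1 : {t | E t} = ∅ := by
      ext t
      simp only [Set.mem_ofPred_eq, Set.mem_empty_iff_false, iff_false]
      intro h
      have h2 := hE t h
      rw [hS] at h2
      exact absurd h2 (Finset.notMem_empty _)
    rw [h1, Set.ncard_empty]
  right
  obtain ⟨t0, ht0, -⟩ := hcl S hS subset_rfl (fun x _ y h => hmem y x (hsymm x y h))
  have hpos : 1 ≤ (e 0).toNat + (e 1).toNat + (e 2).toNat := by
    have h1 : e t0 = true := (he t0).2 ht0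
    have h2 : (e t0).toNat = 1 := by rw [h1]; rfl
    fin_cases t0
    · have h3 : (e 0).toNat = 1 := h2
      omega
    · have h3 : (e 1).toNat = 1 := h2
      omega
    · have h3 : (e 2).toNat = 1 := h2
      omega
  have b0 : (e 0).toNat ≤ 1 := Bool.toNat_le _
  have b1 : (e 1).toNat ≤ 1 := Bool.toNat_le _
  have b2 : (e 2).toNat ≤ 1 := Bool.toNat_le _
  have hE2 : {t | E t}.ncard = 2 := by
    rw [hEc]
    clear hEc hAc hEx hEn g0 g1 g2 s0 s1 s2 s3 s4 s5 s6 s7 s8
    omega
  refine ⟨?_, hE2⟩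
  clear d0 d1 d2 d3 d4 d5 d6 d7 d8
  by_contra hcard
  have hS9 : S = Finset.univ := by
    rw [← Finset.card_eq_iff_eq_univ, Fintype.card_fin]
    have := S.card_le_univ
    rw [Fintype.card_fin] at this
    omega
  have hfull : ∀ x, (∑ y, (fadj x y && a x y).toNat) + {t' | E t' ∧ term t' = x}.ncard = 2 := by
    intro x
    rw [← hAc]
    exact htwo x (by rw [hS9]; exact Finset.mem_univ x)
  have f0 := hfull 0
  have f1 := hfull 1
  have f2 := hfull 2
  have f3 := hfull 3
  have f4 := hfull 4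
  have f5 := hfull 5
  have f6 := hfull 6
  have f7 := hfull 7
  have f8 := hfull 8
  rw [g0, s0] at f0
  rw [g1, s1] at f1
  rw [g2, s2] at f2
  rw [hEn 3 (by decide), s3] at f3
  rw [hEn 4 (by decide), s4] at f4
  rw [hEn 5 (by decide), s5] at f5
  rw [hEn 6 (by decide), s6] at f6
  rw [hEn 7 (by decide), s7] at f7
  rw [hEn 8 (by decide), s8] at f8
  have kk : (e 0 || e 1 || e 2) = true := by
    by_contra h
    rw [Bool.not_eq_true, Bool.or_eq_false_iff, Bool.or_eq_false_iff] at h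
    rw [h.1.1, h.1.2, h.2] at hpos
    exact absurd hpos (by decide)
  -- the five-cycles
  have key : ∀ i : Fin 6, (∀ q ∈ FragA_b i, a q.1 q.2 = false) → e (FragA_e i) = false → False := by
    intro i h1 h2
    obtain ⟨t, ht, ht'⟩ := hcl (FragA_X i) (FragA_Xn i) (by rw [hS9]; exact Finset.subset_univ _) (by
      intro x hx y hxy
      rcases FragA_Xb i x hx y (hadj x y hxy) with h3 | h3
      · exact h3
      · have h4 := h1 _ h3
        rw [← Bool.not_eq_true, ha] at h4
        exact absurd hxy h4)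
    have h3 := FragA_Xe i t ht'
    rw [h3, ← he, h2] at ht
    exact absurd ht (by decide)
  rcases FragA_dec kk (FragA_of (e 0) (a 3 0) (a 6 0) (by omega))
    (FragA_of (e 1) (a 4 1) (a 7 1) (by omega)) (FragA_of (e 2) (a 5 2) (a 8 2) (by omega))
    (FragA_of (a 3 8) (a 3 4) (a 3 0) (by omega)) (FragA_of (a 3 4) (a 4 5) (a 4 1) (by omega))
    (FragA_of (a 4 5) (a 5 6) (a 5 2) (by omega)) (FragA_of (a 5 6) (a 6 7) (a 6 0) (by omega))
    (FragA_of (a 6 7) (a 7 8) (a 7 1) (by omega)) (FragA_of (a 7 8) (a 3 8) (a 8 2) (by omega))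
    with ⟨k1, k2, k3, k4, k5⟩ | ⟨k1, k2, k3, k4, k5⟩ | ⟨k1, k2, k3, k4, k5⟩ | ⟨k1, k2, k3, k4, k5⟩ |
      ⟨k1, k2, k3, k4, k5⟩ | ⟨k1, k2, k3, k4, k5⟩
  · exact key 0 (FragA_four k1 k2 k3 k4) k5
  · exact key 1 (FragA_four (by rw [hab]; exact k1) k2 k3 k4) k5
  · exact key 2 (FragA_four (by rw [hab]; exact k1) k2 k3 (by rw [hab]; exact k4)) k5
  · exact key 3 (FragA_four (by rw [hab]; exact k1) k2 k3 k4) k5
  · exact key 4 (FragA_four (by rw [hab]; exact k1) k2 k3 k4) k5
  · exact key 5 (FragA_four (by rw [hab]; exact k1) k2 k3 k4) k5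

end Pool.Agent.LptT
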