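import Pool.Agent.LptT.ChainB
import Pool.Agent.LptT.FragA

/-!
# How a path meets a fragment
-/

set_option autoImplicit false

namespace Pool.Agent.LptT

private theorem term_inj : ∀ s t : Fin 3, term s = term t → s = t := by decide

private theorem nc_card (E : Fin 3 → Prop) [DecidablePred E] :
    {t | E t}.ncard = ((Finset.univ : Finset (Fin 3)).filter (fun t => E t)).card := by
  rw [← Set.ncard_coe_finset]
  congr 1
  ext t
  simp

/-- For a path whose ends are on the chains of two different exits: a fragment is not met and none of its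
slots is used, or at most eight of its vertices are used and exactly two slots.

PROOF.  Apply `frag_bound` with `A x y := U (inl (v, x)) (inl (v, y))`, `E t := P.edge (v, t) ∈ P.ux S`,
`S := P.fx S v`.  `hE`: `slot_used` with `symm`, `mem`.  `htwo`: for `x ∈ fx S v` the vertex `z = inl (v, x)` is
different from the two ends (these are `inr`), so `{y | U z y}.ncard = 2`; this set is the union of the image of
`{y | A x y}` under `fun y => inl (v, y)` (neighbours of the form `inl`, `adj_ll`) and the image of
`{t | E t ∧ term t = x}` under `fun t => inr (P.cend (v, t))`: if `U z (inr c)` then by `adj_lr` there is `t` with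
`x = term t` and `c = cend (v, t)`, and `E t` holds because `c` is on the chain of `edge (v, t)`
(`cend_edge`) and in `S`; conversely `E t` and `term t = x` give `U (inr (cend (v, t))) z` by `slot_used`.
Both maps are injective (the second because `term` is injective: the set has at most one element), the two
images are disjoint.  `hcl`: let `X` be nonempty, contained in `fx S v`, closed under `A`, and suppose that no `t`
with `E t` has `term t ∈ X`.  Then the image of `X` under `fun x => inl (v, x)` is closed under `U`, so it is
`S` (`closed`), but `inr c1 ∈ S`: contradiction. -/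
theorem frag_use {P : Pat} {c1 c2 : P.CV} {S : Finset P.VG} {U : P.VG → P.VG → Prop}
    (h : PathLike P.gr (Sum.inr c1) (Sum.inr c2) S U) (h1 : P.b c1.1 = none) (h2 : P.b c2.1 = none)
    (hne : c1.1 ≠ c2.1) (v : Fin P.n) :
    (P.fx S v = ∅ ∧ ((Finset.univ : Finset (Fin 3)).filter (fun t => P.edge (v, t) ∈ P.ux S)).card = 0) ∨
    ((P.fx S v).card ≤ 8 ∧
      ((Finset.univ : Finset (Fin 3)).filter (fun t => P.edge (v, t) ∈ P.ux S)).card = 2) := by
  classical
  -- a neighbour of a fragment vertex of the form `inr`
  have hr : ∀ (x : Fin 9) (c : P.CV), U (Sum.inl (v, x)) (Sum.inr c) →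
      ∃ t, x = term t ∧ c = P.cend (v, t) ∧ P.edge (v, t) ∈ P.ux S := by
    intro x c hU
    obtain ⟨t, ht, hc⟩ := (P.adj_lr (v, x) c).1 (h.adj _ _ hU)
    refine ⟨t, ht, hc, ?_⟩
    rw [P.mem_ux]
    exact ⟨c, by rw [hc, P.cend_edge], h.mem _ _ (h.symm _ _ hU)⟩
  have hs : ∀ t, P.edge (v, t) ∈ P.ux S → U (Sum.inl (v, term t)) (Sum.inr (P.cend (v, t))) :=
    fun t ht => h.symm _ _ (slot_used h h1 h2 hne (v, t) ht)
  have key := frag_bound (fun x y => U (Sum.inl (v, x)) (Sum.inl (v, y)))
    (fun t => P.edge (v, t) ∈ P.ux S) (P.fx S v)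
    (fun x y hxy => h.symm _ _ hxy)
    (fun x y hxy => ((P.adj_ll (v, x) (v, y)).1 (h.adj _ _ hxy)).2)
    (fun x y hxy => (P.mem_fx S v x).2 (h.mem _ _ hxy))
    (fun t ht => (P.mem_fx S v _).2 (h.mem _ _ (hs t ht)))
    (by
      intro x hx
      have hxS := (P.mem_fx S v x).1 hx
      have htwo := h.two (Sum.inl (v, x)) hxS (by simp) (by simp)
      have hset : {y | U (Sum.inl (v, x)) y} =
          (fun y : Fin 9 => (Sum.inl (v, y) : P.VG)) '' {y | U (Sum.inl (v, x)) (Sum.inl (v, y))} ∪
          (fun t : Fin 3 => (Sum.inr (P.cend (v, t)) : P.VG)) ''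
            {t | P.edge (v, t) ∈ P.ux S ∧ term t = x} := by
        ext y
        simp only [Set.mem_ofPred_eq, Set.mem_union, Set.mem_image]
        constructor
        · intro hU
          rcases y with ⟨v', y⟩ | c
          · have hv := ((P.adj_ll (v, x) (v', y)).1 (h.adj _ _ hU)).1
            simp only at hv
            subst hv
            exact Or.inl ⟨y, hU, rfl⟩
          · obtain ⟨t, ht, hc, he⟩ := hr x c hU
            exact Or.inr ⟨t, ⟨he, ht.symm⟩, by rw [hc]⟩
        · rintro (⟨y', hU, rfl⟩ | ⟨t, ⟨he, ht⟩, rfl⟩)
          · exact hU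
          · have := hs t he
            rwa [ht] at this
      rw [hset, Set.ncard_union_eq ?_ (Set.toFinite _) (Set.toFinite _)] at htwo
      · rw [Set.ncard_image_of_injective, Set.InjOn.ncard_image] at htwo
        · exact htwo
        · intro s hs' t ht' _
          exact term_inj s t (hs'.2.trans ht'.2.symm)
        · intro y y' hyy
          simpa using hyy
      · rw [Set.disjoint_left]
        rintro y ⟨y', _, rfl⟩ ⟨t, _, h4⟩
        exact absurd h4 (by simp))
    (by
      intro X hX hXS hXcl
      by_contra hcon
      push Not at hcon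
      have hall := h.closed (X.image (fun x => (Sum.inl (v, x) : P.VG))) (hX.image _) (by
        intro z hz
        obtain ⟨x, hx, rfl⟩ := Finset.mem_image.1 hz
        exact (P.mem_fx S v x).1 (hXS hx)) (by
        intro z hz y hU
        obtain ⟨x, hx, rfl⟩ := Finset.mem_image.1 hz
        rcases y with ⟨v', y⟩ | c
        · have hv := ((P.adj_ll (v, x) (v', y)).1 (h.adj _ _ hU)).1
          simp only at hv
          subst hv
          exact Finset.mem_image_of_mem _ (hXcl x hx y hU)
        · obtain ⟨t, ht, hc, he⟩ := hr x c hU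
          exact absurd (ht ▸ hx) (hcon t he))
      have hc1 := h.memu
      rw [← hall] at hc1
      obtain ⟨x, _, hx⟩ := Finset.mem_image.1 hc1
      exact absurd hx (by simp))
  rw [nc_card] at key
  rcases key with ⟨a, b⟩ | ⟨a, b⟩
  · exact Or.inl ⟨a, by convert b using 2⟩
  · exact Or.inr ⟨a, by convert b using 2⟩

end Pool.Agent.LptT
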