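import Pool.Agent.LptT.G1Rows

/-!
# Part 1 of the tree
-/

set_option autoImplicit false
set_option maxRecDepth 1000000

namespace Pool.Agent.LptT.G1

open Cert

/-- A part of the tree. -/
def tr1 : Tr :=
(.nd 11 (.nd 1 (.nd 28 (.nd 34 (.nd 23 (.lf 3 [(1,66),(0,62),(2,90),(2,29),(0,9),(1,18),(1,45),(2,72),(0,34),(0,26),(0,16),(1,10),(0,18),(0,8),(0,8),(0,18),(1,18),(0,42),(2,18),(0,42),(3,13),(0,18),(0,12),(0,6),(0,18),(0,24),(0,325),(0,1),(0,7),(12,18),(3,9),(1,25),(0,25),(22,89),(0,26),(31,24),(11,24),(52,2),(1,5),(16,12),(10,1),(51,52),(23,8),(27,9),(62,24)])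
 (.nd 15 (.lf 2 [(1,40),(0,26),(2,48),(1,6),(3,12),(1,30),(2,60),(0,46),(0,12),(0,16),(0,6),(0,2),(0,6),(0,10),(0,12),(0,8),(1,12),(0,28),(2,12),(0,28),(2,11),(0,25),(0,1),(1,12),(0,24),(1,188),(24,4),(4,6),(5,12),(8,54),(32,16),(11,16),(11,13),(11,12),(30,1),(103,6),(73,12)])
 (.lf 2 [(0,8),(0,48),(0,56),(2,62),(2,53),(2,12),(0,23),(0,30),(0,23),(1,32),(1,4),(0,24),(0,16),(2,16),(0,27),(0,4),(1,12),(0,17),(2,17),(0,23),(0,5),(3,21),(0,21),(1,3),(0,25),(0,194),(11,8),(1,1),(7,6),(7,6),(14,31),(0,5),(5,11),(10,4),(2,4),(4,3),(6,5),(26,9),(37,6),(1,3),(16,3),(8,9),(28,5),(4,6),(14,5),(2,5),(25,4),(2,4),(30,23),(10,25),(28,7),(20,15),(2,7)])))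
 (.nd 48 (.lf 1 [(0,7),(0,53),(0,23),(2,40),(2,18),(2,3),(0,13),(0,31),(0,35),(2,3),(2,6),(0,6),(2,13),(0,7),(2,4),(0,10),(0,10),(0,4),(0,4),(0,10),(0,6),(2,14),(0,6),(2,14),(0,97),(9,1),(4,9),(3,3),(7,3),(17,19),(0,11),(1,11),(22,6),(7,2),(25,8),(11,8),(33,1),(47,8),(14,13),(6,8),(118,16),(3,7)])
 (.lf 1 [(0,7),(0,37),(0,23),(2,40),(2,18),(2,3),(0,13),(0,24),(0,35),(2,3),(2,6),(0,6),(2,13),(0,7),(2,6),(2,9),(0,11),(0,3),(0,6),(2,14),(0,6),(2,14),(0,97),(9,1),(4,9),(3,3),(7,3),(17,19),(0,11),(1,11),(22,6),(9,14),(10,1),(12,8),(11,8),(33,1),(48,4),(13,6),(4,2),(3,3),(116,16),(3,7)])))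
 (.nd 55 (.nd 45 (.lf 1 [(1,122),(0,46),(1,8),(0,78),(2,11),(2,21),(0,61),(1,76),(2,6),(0,14),(2,14),(0,14),(5,6),(0,6),(3,6),(0,6),(2,14),(0,6),(2,14),(0,135),(0,8),(10,22),(2,62),(3,3),(1,3),(0,3),(4,3),(1,18),(0,18),(14,24),(0,44),(2,17),(23,8),(31,8),(11,8),(16,3),(22,7),(26,1),(0,7),(0,55),(31,8),(9,5),(97,20),(12,35),(0,11)])
 (.lf 1 [(1,129),(0,50),(2,91),(2,11),(2,21),(0,62),(1,73),(2,10),(0,6),(0,8),(0,7),(0,6),(7,6),(0,6),(2,6),(0,6),(2,14),(0,6),(2,14),(0,137),(0,8),(1,8),(8,26),(2,67),(3,3),(1,7),(0,7),(4,3),(1,18),(0,18),(14,26),(0,44),(2,15),(22,6),(2,6),(3,6),(25,8),(11,8),(14,7),(24,10),(26,4),(0,4),(0,49),(28,1),(0,4),(109,22),(4,3),(7,33),(0,17)]))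
 (.nd 46 (.lf 1 [(1,92),(0,24),(2,56),(1,3),(0,18),(2,21),(0,30),(1,54),(2,3),(0,14),(2,6),(0,14),(2,6),(1,6),(0,14),(2,6),(2,6),(2,14),(0,6),(2,14),(0,118),(0,8),(13,32),(11,3),(1,18),(0,18),(14,20),(0,29),(2,6),(10,8),(11,4),(0,12),(4,8),(11,8),(5,14),(8,11),(0,3),(10,8),(39,54),(125,3),(55,24)])
 (.lf 2 [(1,77),(0,47),(2,93),(2,33),(2,23),(0,32),(1,52),(1,16),(0,9),(0,27),(0,1),(1,12),(0,25),(2,13),(5,12),(2,12),(2,17),(0,17),(1,5),(0,23),(0,217),(0,15),(8,1),(4,40),(3,6),(1,3),(0,3),(6,23),(0,17),(14,47),(0,37),(13,13),(12,12),(5,12),(2,12),(6,12),(6,24),(8,5),(39,5),(1,6),(14,5),(8,5),(12,14),(0,14),(63,1),(89,20),(0,5),(3,5)]))))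
 (.nd 38 (.nd 36 (.lf 1 [(0,16),(4,8),(2,18),(2,3),(0,19),(0,18),(0,19),(1,5),(0,3),(0,6),(0,27),(1,14),(0,14),(2,14),(0,11),(2,9),(0,11),(2,9),(0,9),(2,11),(0,9),(2,11),(0,97),(3,5),(3,3),(1,21),(3,3),(4,3),(7,3),(17,16),(0,14),(34,3),(2,5),(8,3),(3,5),(7,5),(2,3),(8,5),(3,3),(8,8),(22,8),(156,13),(37,10)])
 (.lf 1 [(0,6),(3,3),(0,18),(2,13),(2,8),(0,8),(0,13),(0,8),(1,16),(0,8),(2,3),(0,14),(0,6),(2,14),(0,14),(2,6),(0,14),(2,6),(0,6),(2,14),(0,6),(2,14),(0,102),(3,8),(5,8),(3,3),(4,3),(1,5),(0,5),(4,3),(1,5),(0,5),(14,24),(0,11),(11,8),(0,3),(9,8),(14,8),(12,8),(7,8),(11,8),(230,2)]))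
 (.nd 36 (.nd 51 (.lf 3 [(5,101),(2,50),(1,2),(0,7),(0,18),(0,52),(0,18),(1,73),(0,9),(0,47),(3,18),(0,17),(0,16),(0,26),(0,42),(2,42),(0,18),(0,24),(2,18),(2,42),(0,18),(2,42),(0,289),(0,29),(2,43),(3,19),(1,4),(4,29),(3,5),(7,7),(17,76),(0,12),(10,55),(10,1),(31,6),(4,24),(11,24),(43,18),(43,2),(11,5),(31,21),(2,4),(39,6),(42,19),(15,19)])
 (.lf 24 [(5,869),(2,415),(2,89),(0,106),(0,415),(2,809),(0,89),(0,437),(3,250),(0,50),(0,62),(0,274),(0,52),(0,336),(0,144),(1,223),(2,34),(0,257),(2,223),(0,182),(1,38),(0,298),(0,2345),(0,293),(6,452),(1,124),(4,293),(3,72),(1,17),(0,17),(4,72),(1,17),(0,17),(13,192),(0,737),(11,665),(2,106),(3,94),(12,52),(9,192),(5,113),(3,79),(7,4),(2,38),(8,79),(22,112),(0,112),(69,38),(1,38),(3,6),(31,162),(2,18),(82,41),(15,339)]))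
 (.lf 2 [(0,13),(4,35),(2,31),(2,11),(0,51),(0,31),(0,45),(2,11),(2,18),(2,15),(0,25),(0,3),(0,17),(0,1),(1,24),(0,14),(2,26),(0,27),(2,13),(0,27),(2,13),(0,199),(3,5),(3,15),(5,13),(4,6),(1,5),(0,5),(4,6),(1,5),(0,5),(14,28),(0,37),(0,3),(7,1),(0,39),(6,3),(2,6),(14,10),(2,2),(8,12),(11,1),(2,15),(8,1),(3,15),(39,1),(87,3),(2,3),(52,1),(1,1),(40,24)]))))
 (.nd 33 (.nd 64 (.lf 1 [(0,36),(1,41),(5,18),(2,9),(0,54),(0,12),(0,15),(1,12),(0,3),(1,6),(0,8),(2,8),(0,8),(1,10),(0,4),(1,6),(0,6),(1,4),(0,10),(1,17),(0,14),(2,14),(0,6),(1,100),(3,4),(7,17),(1,4),(1,12),(2,3),(9,3),(0,6),(15,33),(7,2),(48,3),(19,78),(4,1),(2,1),(19,2),(11,32),(2,2),(1,3),(1,3),(16,13),(37,3),(37,3),(8,11),(32,4),(24,8)])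
 (.nd 62 (.lf 3 [(0,77),(0,2),(0,105),(5,69),(2,9),(0,153),(0,49),(0,56),(1,16),(0,9),(1,10),(0,34),(0,8),(1,26),(0,17),(1,18),(2,18),(0,19),(0,1),(1,18),(0,15),(0,27),(0,18),(0,6),(4,291),(11,33),(3,5),(2,9),(6,15),(0,9),(11,5),(6,90),(7,16),(17,1),(3,8),(43,18),(3,60),(3,8),(3,8),(50,102),(3,35),(11,1),(20,1),(46,9),(2,6)])
 (.lf 3 [(0,74),(1,86),(4,4),(0,54),(2,9),(0,132),(0,45),(0,55),(1,20),(0,9),(1,8),(0,23),(0,10),(0,5),(0,18),(0,14),(1,18),(2,18),(0,18),(2,18),(8,287),(6,8),(4,21),(3,2),(2,5),(25,8),(0,77),(7,5),(58,18),(2,18),(3,45),(3,87),(3,10),(52,21),(0,21),(4,37),(37,5),(15,9),(20,3),(20,1),(71,9),(2,15)])))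
 (.nd 54 (.nd 46 (.nd 4 (.nd 23 (.lf 6 [(0,341),(0,132),(0,150),(5,48),(0,18),(1,206),(1,34),(0,266),(2,78),(2,37),(0,41),(1,1),(0,3),(0,75),(1,36),(0,84),(2,84),(1,120),(1,84),(0,36),(2,84),(0,36),(1,716),(11,6),(1,84),(1,197),(2,18),(1,60),(0,60),(22,274),(3,122),(4,1),(8,5),(14,48),(17,36),(14,48),(12,48),(3,1),(22,40),(16,41),(1,3),(16,218),(11,48),(25,170),(6,114),(15,34),(29,40)])
 (.nd 18 (.lf 2 [(0,36),(0,44),(0,20),(4,6),(0,36),(2,12),(1,30),(0,46),(2,6),(1,15),(0,12),(2,12),(0,18),(0,6),(2,28),(0,6),(1,28),(1,40),(1,22),(0,18),(2,22),(0,18),(1,188),(6,2),(6,28),(15,6),(5,6),(8,48),(10,3),(21,16),(7,6),(9,12),(5,6),(8,10),(2,6),(9,10),(26,6),(35,18),(11,16),(83,6),(10,6)])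
 (.lf 1 [(0,57),(0,10),(0,39),(3,1),(0,3),(3,17),(0,22),(0,15),(0,40),(2,1),(2,6),(0,6),(0,5),(0,5),(0,7),(0,7),(1,9),(0,9),(1,2),(0,12),(1,18),(2,6),(0,6),(2,6),(1,93),(11,15),(1,12),(1,33),(7,1),(5,3),(14,26),(3,16),(28,1),(5,2),(2,3),(8,4),(26,6),(4,4),(2,1),(19,3),(4,2),(6,7),(17,7),(0,1),(0,7),(3,25),(9,16),(1,3),(32,11),(61,17)])))
 (.lf 1 [(0,15),(0,22),(0,19),(5,9),(2,8),(1,13),(0,24),(2,8),(0,8),(0,6),(2,8),(0,6),(3,6),(0,14),(2,14),(0,6),(0,6),(2,12),(0,4),(1,4),(0,12),(1,102),(16,9),(1,3),(1,5),(0,5),(4,3),(1,5),(0,5),(14,28),(0,7),(13,2),(12,2),(4,8),(23,6),(7,2),(3,6),(48,1),(17,4),(1,2),(3,16),(11,8)]))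
 (.lf 1 [(0,30),(0,10),(0,31),(5,18),(2,16),(0,4),(0,18),(0,33),(2,3),(1,2),(0,8),(0,4),(0,3),(0,7),(0,3),(3,6),(1,4),(0,10),(0,2),(0,12),(1,6),(0,10),(2,6),(0,10),(1,97),(11,7),(1,6),(1,6),(2,3),(7,3),(17,30),(3,9),(4,2),(21,1),(5,6),(19,4),(11,4),(13,5),(34,2),(17,2),(0,2),(0,2),(3,17),(12,4),(31,13)]))
 (.nd 36 (.nd 29 (.lf 1 [(0,43),(0,32),(0,31),(5,18),(2,16),(0,4),(0,18),(0,77),(2,3),(0,3),(0,7),(0,3),(1,3),(0,7),(0,3),(4,1),(0,6),(1,25),(2,6),(0,10),(2,6),(0,10),(1,97),(11,7),(1,5),(1,19),(2,3),(7,3),(17,30),(1,2),(15,1),(12,1),(5,5),(9,5),(5,11),(3,4),(11,4),(48,2),(17,2),(0,2),(0,2),(3,40),(32,10),(1,7),(0,7),(8,13),(127,3),(0,1)])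
 (.lf 1 [(0,39),(1,25),(0,7),(4,8),(2,32),(1,4),(3,13),(2,8),(0,6),(0,6),(0,8),(0,8),(0,6),(0,7),(0,6),(2,7),(4,14),(0,6),(2,14),(0,6),(1,107),(3,1),(7,8),(3,15),(2,3),(1,10),(0,10),(4,3),(1,10),(0,10),(14,40),(3,37),(4,2),(29,1),(12,1),(13,8),(12,8),(3,8),(22,8),(12,15),(67,19)]))
 (.lf 3 [(0,149),(0,69),(0,84),(5,28),(2,69),(1,28),(0,143),(2,35),(3,10),(0,18),(0,2),(0,11),(0,27),(2,18),(0,19),(2,62),(2,18),(0,40),(2,18),(0,40),(1,317),(11,12),(3,72),(2,9),(1,26),(0,26),(4,9),(1,26),(0,26),(5,19),(8,116),(3,71),(5,18),(2,14),(5,6),(16,1),(11,1),(4,20),(3,22),(11,22),(41,11),(6,1),(2,19),(3,2),(10,1),(0,1),(0,1),(3,81),(32,21),(1,3),(0,21),(8,34),(20,2),(86,5)])))))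

theorem tr1_ok : chk 600 ws pp tr1 2181038081 8 = true := by decide +kernel

/-- A part of the tree. -/
def tr2 : Tr :=
(.nd 8 (.nd 10 (.nd 40 (.nd 11 (.nd 9 (.nd 34 (.lf 1 [(2,16),(0,8),(0,16),(0,8),(2,11),(2,6),(0,6),(0,11),(0,6),(1,18),(0,6),(0,3),(0,14),(0,14),(1,14),(0,3),(1,14),(0,14),(2,6),(0,14),(2,6),(0,6),(2,14),(0,6),(2,14),(0,100),(4,8),(13,3),(1,3),(0,3),(4,3),(1,3),(0,3),(14,24),(0,9),(6,3),(14,3),(15,8),(12,8),(7,8),(11,8),(132,8)])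
 (.lf 1 [(2,20),(0,4),(0,20),(0,4),(2,18),(2,3),(0,23),(0,18),(0,23),(2,3),(0,6),(1,8),(0,6),(0,14),(2,14),(0,10),(0,2),(1,9),(0,8),(1,2),(0,13),(0,11),(0,1),(1,9),(0,8),(2,12),(0,97),(1,20),(2,4),(13,3),(7,3),(17,13),(0,17),(0,1),(33,2),(2,1),(8,3),(11,2),(2,2),(8,3),(93,1),(1,1),(36,8),(50,2),(3,2),(1,2),(3,8),(0,11),(37,17)]))
 (.nd 46 (.lf 1 [(2,42),(1,6),(0,18),(2,5),(2,16),(0,12),(0,5),(0,32),(2,16),(0,3),(0,14),(0,14),(1,8),(0,6),(2,6),(2,14),(0,14),(2,16),(0,12),(2,8),(0,12),(2,8),(0,110),(5,18),(4,18),(7,3),(1,13),(0,13),(4,3),(1,13),(0,13),(14,26),(0,17),(1,8),(4,3),(19,2),(7,8),(14,2),(8,2),(2,6),(8,2),(3,6),(77,8),(18,6),(1,10),(110,2)])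
 (.lf 1 [(2,44),(1,4),(0,20),(2,8),(2,13),(0,20),(0,8),(0,19),(1,5),(0,13),(1,7),(0,7),(1,6),(0,6),(5,2),(0,10),(2,14),(0,14),(2,6),(0,14),(2,6),(0,107),(5,20),(4,20),(7,3),(1,10),(0,10),(4,3),(1,10),(0,10),(14,21),(0,19),(32,10),(2,4),(1,4),(7,4),(15,8),(12,8),(96,1),(4,4),(125,3),(0,2)])))
 (.nd 60 (.nd 1 (.lf 1 [(2,48),(1,38),(3,5),(2,16),(0,32),(0,3),(0,14),(2,16),(0,3),(0,14),(0,14),(1,8),(0,6),(2,6),(2,14),(0,6),(2,14),(0,6),(0,8),(0,8),(0,6),(0,14),(3,110),(11,14),(4,14),(1,3),(1,13),(0,13),(4,3),(1,13),(0,13),(14,16),(0,27),(0,8),(5,3),(19,2),(7,8),(11,8),(27,8),(96,6),(53,3),(58,2),(34,10),(2,5)])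
 (.lf 3 [(4,143),(3,28),(2,18),(0,82),(0,45),(0,82),(2,18),(0,34),(0,8),(1,26),(0,34),(2,42),(0,9),(1,9),(0,18),(0,16),(0,7),(0,11),(0,20),(0,39),(2,29),(0,42),(3,300),(1,16),(3,73),(3,24),(6,24),(1,9),(1,9),(0,9),(4,9),(1,9),(0,9),(14,40),(0,59),(2,10),(19,8),(40,11),(10,24),(78,7),(22,9),(26,16),(16,12),(4,9),(55,47),(37,19)]))
 (.lf 1 [(2,34),(1,24),(3,13),(2,8),(0,26),(0,3),(0,14),(2,8),(0,6),(0,8),(0,5),(0,3),(0,11),(0,3),(1,7),(0,6),(2,14),(0,6),(2,14),(0,14),(2,6),(1,10),(2,102),(18,3),(1,5),(0,5),(4,3),(1,5),(0,5),(14,15),(0,20),(0,2),(25,1),(7,8),(11,8),(14,8),(15,4),(21,2),(71,1),(30,3),(0,1),(17,3),(0,5),(96,10)])))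
 (.nd 35 (.lf 1 [(2,24),(1,24),(3,3),(2,18),(0,14),(0,3),(0,14),(1,11),(0,18),(0,20),(4,6),(0,14),(0,3),(0,6),(2,14),(0,6),(2,14),(0,14),(2,6),(0,14),(2,6),(0,112),(1,14),(16,3),(1,15),(0,15),(4,3),(1,15),(0,15),(14,26),(0,19),(2,1),(8,6),(1,14),(5,8),(7,3),(6,8),(11,8),(14,8),(12,8)])
 (.lf 1 [(2,24),(1,24),(2,3),(0,13),(1,3),(1,24),(0,13),(0,24),(3,14),(2,6),(3,12),(0,6),(2,14),(0,6),(2,14),(0,14),(2,6),(0,14),(2,6),(0,94),(1,16),(42,12),(0,15),(13,8),(6,2),(5,2),(7,8),(11,8),(14,8),(12,8),(10,8),(217,10),(16,6),(0,2),(1,8)])))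
 (.nd 30 (.nd 51 (.nd 40 (.lf 3 [(2,97),(0,8),(1,84),(2,24),(2,32),(0,80),(0,31),(0,80),(2,32),(0,10),(0,28),(0,22),(1,24),(0,18),(0,4),(0,10),(0,8),(0,34),(0,34),(0,8),(1,58),(0,2),(1,37),(2,35),(0,32),(3,314),(2,12),(2,10),(6,12),(5,9),(1,23),(0,23),(4,9),(1,23),(0,23),(14,48),(0,65),(2,8),(4,4),(36,16),(8,40),(9,2),(10,14),(24,5),(102,10),(17,5),(4,14),(19,24),(37,9),(32,18),(2,15)])
 (.lf 1 [(2,40),(0,2),(1,21),(2,18),(2,3),(0,29),(0,18),(0,36),(1,1),(0,10),(0,12),(0,2),(1,4),(1,2),(0,6),(0,4),(0,12),(0,2),(0,2),(0,12),(0,4),(0,10),(2,14),(2,6),(0,14),(2,6),(0,97),(1,6),(3,1),(9,3),(2,3),(7,3),(17,11),(0,19),(2,6),(10,6),(39,4),(7,8),(12,8),(135,7),(34,7),(0,1),(69,3),(2,15)]))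
 (.lf 6 [(2,267),(2,144),(2,98),(2,23),(0,173),(0,103),(0,178),(2,18),(0,36),(0,48),(0,24),(0,12),(0,12),(0,24),(0,51),(0,36),(1,84),(0,58),(1,36),(3,77),(0,7),(1,43),(0,70),(2,36),(0,587),(5,41),(12,18),(7,18),(1,5),(0,5),(14,69),(0,116),(2,29),(21,3),(13,22),(1,48),(6,28),(13,27),(12,34),(16,38),(2,42),(4,7),(102,24),(4,5),(12,7),(4,7),(90,41),(2,82)]))
 (.nd 11 (.nd 38 (.lf 2 [(2,58),(2,86),(2,30),(2,6),(0,12),(0,36),(2,44),(0,6),(0,6),(1,6),(0,22),(0,22),(0,6),(0,6),(0,22),(0,12),(2,8),(0,12),(0,4),(2,12),(2,28),(0,12),(2,28),(0,194),(2,38),(7,10),(1,38),(5,6),(7,6),(17,49),(0,11),(58,16),(11,16),(10,11),(1,5),(22,16),(3,8),(1,2),(24,10),(115,10),(50,8)])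
 (.lf 1 [(2,29),(2,41),(2,18),(2,3),(0,5),(0,18),(2,33),(0,3),(4,6),(0,2),(0,5),(0,9),(0,6),(2,4),(0,6),(0,2),(2,13),(2,10),(0,7),(1,1),(0,13),(0,97),(2,17),(7,3),(1,17),(5,3),(7,3),(16,9),(0,30),(9,6),(1,20),(47,1),(2,4),(8,4),(37,2),(0,3),(0,4),(1,1),(24,5),(27,1),(0,1),(86,5),(50,14),(11,2)]))
 (.nd 26 (.lf 1 [(2,113),(5,18),(2,5),(0,223),(0,17),(3,3),(0,14),(2,6),(0,14),(2,6),(8,14),(2,6),(1,14),(0,6),(1,173),(1,8),(3,89),(12,3),(25,51),(0,54),(13,8),(11,26),(0,34),(20,6),(13,8),(15,8),(32,7),(0,3),(0,3),(24,7),(0,10),(0,7),(38,2),(1,34),(8,122),(0,14),(0,74),(41,2),(81,77),(0,12),(8,6),(0,3),(2,3)])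
 (.lf 1 [(2,76),(5,18),(2,20),(1,1),(2,50),(0,3),(0,10),(0,4),(1,6),(0,6),(1,4),(0,10),(2,4),(2,6),(0,6),(1,12),(0,2),(1,11),(0,11),(3,129),(1,4),(3,52),(4,4),(2,37),(2,13),(1,3),(7,3),(1,17),(0,17),(5,26),(7,9),(0,47),(75,5),(1,6),(22,2),(10,7),(0,1),(0,3),(24,5),(0,4),(0,4),(40,21),(10,17),(13,4),(14,2),(1,3),(2,5),(90,29),(10,15),(0,4),(0,1)])))))
 (.nd 56 (.nd 34 (.nd 35 (.nd 6 (.nd 45 (.nd 36 (.lf 1 [(1,1),(1,24),(1,31),(2,20),(2,3),(0,17),(0,18),(0,17),(1,7),(0,3),(0,26),(0,32),(4,32),(0,26),(0,12),(2,8),(0,12),(2,8),(1,6),(0,14),(2,6),(0,14),(1,97),(2,44),(1,11),(13,3),(6,2),(0,3),(17,17),(0,13),(17,6),(0,6),(15,2),(2,6),(8,2),(3,6),(4,8),(11,8),(59,7),(6,25),(67,10),(2,10),(47,2),(79,37)])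
 (.lf 1 [(1,1),(1,24),(1,31),(2,20),(2,3),(0,17),(0,18),(0,17),(1,7),(0,3),(2,14),(0,3),(1,6),(0,14),(1,12),(2,8),(0,12),(2,8),(1,6),(0,14),(2,6),(0,14),(1,97),(2,18),(1,11),(13,3),(6,2),(0,3),(17,17),(0,13),(6,8),(8,3),(3,8),(14,2),(2,6),(8,2),(3,6),(4,8),(11,8),(59,7),(6,25),(118,2),(79,11)]))
 (.lf 2 [(3,52),(1,60),(2,39),(1,1),(0,8),(0,32),(0,34),(0,32),(1,16),(0,6),(0,16),(0,12),(2,16),(0,12),(2,24),(2,16),(0,24),(2,16),(1,12),(0,28),(2,12),(0,28),(1,194),(2,36),(1,12),(1,4),(6,4),(4,6),(6,3),(0,5),(1,1),(0,2),(1,1),(12,35),(0,25),(13,4),(10,4),(9,4),(2,12),(8,4),(3,12),(4,16),(11,16),(59,16),(6,48),(198,24)]))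
 (.nd 28 (.lf 2 [(3,12),(0,18),(0,16),(2,36),(2,6),(1,36),(2,54),(0,6),(1,12),(0,28),(2,12),(0,28),(1,11),(0,18),(0,2),(1,10),(0,18),(0,2),(2,2),(0,18),(0,10),(0,10),(0,18),(0,18),(0,10),(0,194),(1,46),(13,14),(2,6),(7,6),(8,6),(7,6),(0,54),(0,6),(7,16),(11,16),(10,1),(9,6),(12,6),(1,6),(39,16),(28,16)])
 (.lf 1 [(3,24),(0,16),(3,13),(2,19),(0,3),(1,13),(1,21),(0,8),(1,6),(0,14),(2,6),(0,14),(1,14),(2,6),(0,14),(2,6),(1,6),(0,14),(2,14),(0,14),(0,3),(0,113),(1,24),(2,8),(8,16),(4,3),(1,5),(0,5),(4,3),(1,16),(0,16),(14,32),(0,14),(7,8),(11,8),(17,8),(12,8),(4,8),(19,3),(19,8),(28,8),(2,7),(89,1),(1,10)])))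
 (.nd 13 (.nd 42 (.lf 1 [(1,5),(1,24),(0,2),(0,20),(0,3),(1,15),(2,10),(0,6),(0,11),(0,6),(1,18),(0,6),(0,10),(0,4),(1,6),(0,16),(0,10),(2,14),(2,6),(0,14),(2,6),(1,7),(0,13),(2,14),(0,14),(1,107),(1,4),(2,13),(8,2),(12,3),(1,7),(0,7),(14,26),(0,11),(26,10),(2,4),(7,8),(12,8),(4,7),(8,1),(20,10),(9,7),(28,8),(9,14),(33,4),(57,10),(10,3)])
 (.lf 3 [(3,58),(0,14),(0,70),(0,9),(1,45),(2,44),(0,26),(0,19),(0,20),(1,46),(0,18),(0,18),(0,24),(0,24),(0,18),(3,6),(0,42),(0,19),(1,4),(0,18),(0,14),(1,4),(1,18),(0,42),(2,42),(0,42),(1,335),(4,48),(11,2),(9,9),(1,35),(0,35),(11,6),(2,81),(0,44),(20,6),(7,12),(1,24),(3,5),(20,72),(40,24),(27,24),(2,10),(6,50),(36,24),(54,44),(10,2),(0,7)]))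
 (.nd 39 (.lf 2 [(3,48),(1,47),(2,36),(0,13),(1,18),(0,15),(0,22),(0,12),(1,36),(0,6),(0,14),(0,14),(0,29),(0,29),(3,12),(0,28),(2,12),(0,28),(2,12),(1,12),(0,28),(2,28),(0,28),(1,175),(1,2),(2,16),(10,1),(2,6),(12,7),(4,3),(7,33),(0,3),(37,16),(12,16),(4,16),(29,14),(9,16),(28,16),(9,34),(23,24),(9,31),(12,3),(49,5)])
 (.lf 1 [(3,16),(0,8),(0,24),(2,15),(0,3),(1,6),(0,10),(0,15),(0,10),(1,14),(0,6),(0,6),(0,8),(2,8),(0,6),(2,6),(0,4),(0,3),(0,5),(0,6),(0,3),(0,1),(0,3),(1,6),(0,14),(2,12),(0,14),(1,91),(21,3),(22,16),(0,5),(17,2),(8,2),(16,1),(11,20),(11,2),(23,2),(4,6),(16,3),(10,6),(2,8),(6,18),(23,12),(22,2),(49,3)]))))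
 (.nd 4 (.nd 9 (.nd 36 (.lf 2 [(3,48),(1,80),(2,49),(2,6),(0,68),(0,22),(0,12),(2,6),(0,12),(2,28),(0,28),(1,3),(0,28),(0,28),(2,12),(0,28),(2,12),(1,12),(0,12),(2,12),(0,12),(1,194),(2,32),(1,16),(13,6),(6,13),(0,6),(17,17),(0,43),(0,20),(9,16),(13,3),(12,16),(12,16),(30,16),(22,16),(29,68)])
 (.lf 1 [(3,24),(1,56),(2,33),(2,3),(0,42),(0,11),(0,6),(2,3),(4,9),(0,4),(0,3),(0,11),(0,14),(2,6),(0,14),(2,6),(1,6),(0,14),(2,6),(0,14),(1,97),(2,32),(1,8),(13,3),(6,15),(0,3),(17,5),(0,25),(0,18),(7,20),(2,6),(1,13),(7,2),(15,8),(12,8),(4,8),(11,8),(39,5),(1,1),(24,50)]))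
 (.nd 55 (.lf 2 [(4,50),(0,130),(2,74),(2,6),(0,102),(0,36),(3,6),(0,6),(1,6),(0,6),(0,12),(0,12),(2,11),(0,18),(0,18),(0,10),(0,10),(0,18),(0,2),(2,12),(0,28),(2,12),(0,28),(1,232),(2,82),(6,2),(8,6),(6,38),(0,6),(16,6),(1,60),(0,54),(29,1),(22,6),(1,16),(11,16),(15,3),(0,3),(9,16),(19,16),(2,11),(1,5),(1,2),(1,14),(10,118),(136,23),(1,15)])
 (.lf 2 [(4,32),(0,100),(2,59),(2,6),(0,72),(0,36),(0,24),(2,6),(0,4),(1,8),(0,8),(0,13),(0,13),(2,20),(0,8),(1,12),(0,16),(0,5),(3,12),(0,28),(2,12),(0,28),(1,203),(2,52),(1,8),(13,6),(6,23),(0,6),(17,15),(0,45),(0,24),(41,1),(5,2),(3,7),(2,16),(11,16),(15,2),(0,6),(6,4),(17,1),(3,8),(3,12),(5,14),(3,20),(6,88),(136,9)])))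
 (.nd 14 (.nd 20 (.lf 2 [(3,26),(3,6),(0,42),(0,6),(1,12),(0,12),(0,30),(0,84),(3,12),(2,28),(0,12),(2,28),(0,14),(2,14),(0,2),(1,12),(0,16),(1,2),(0,18),(0,10),(0,20),(0,8),(0,2),(0,14),(0,194),(1,12),(2,2),(2,22),(4,22),(31,42),(0,12),(1,36),(8,16),(11,16),(23,2),(8,6),(39,26),(30,10),(0,25),(0,7),(2,7),(0,12),(1,2),(98,6),(25,2),(5,12),(71,3),(3,18)])
 (.lf 1 [(3,17),(3,3),(0,21),(2,3),(0,4),(0,18),(0,44),(3,6),(2,14),(0,6),(2,14),(0,6),(2,6),(2,6),(0,6),(1,3),(0,11),(0,3),(0,9),(0,5),(0,3),(0,7),(0,94),(1,6),(5,7),(4,7),(13,3),(17,22),(0,5),(1,20),(8,8),(11,8),(32,5),(39,14),(30,6),(0,12),(0,4),(2,4),(0,7),(0,1),(0,1),(43,3),(86,6),(71,3),(3,7)]))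
 (.lf 1 [(3,16),(6,3),(0,3),(1,18),(0,51),(2,9),(0,6),(2,14),(0,6),(2,14),(2,6),(0,2),(1,4),(0,6),(0,2),(1,5),(0,11),(0,2),(1,6),(0,9),(1,97),(1,9),(2,6),(2,8),(6,4),(3,3),(16,3),(8,24),(2,27),(8,8),(11,8),(32,5),(11,3),(27,2),(31,13),(0,7),(1,2),(0,3),(0,5),(0,3),(22,3),(84,3),(23,9),(72,12)]))))
 (.nd 61 (.nd 26 (.lf 1 [(3,21),(0,3),(0,27),(2,18),(2,3),(0,31),(0,18),(0,17),(2,3),(0,2),(0,13),(0,6),(1,1),(0,13),(0,5),(1,11),(2,7),(0,11),(2,7),(3,20),(1,14),(0,14),(1,97),(2,3),(1,1),(13,3),(7,3),(17,10),(0,20),(0,7),(5,1),(9,6),(12,7),(4,1),(2,5),(8,1),(3,5),(5,12),(0,14),(4,6),(47,1),(15,8),(0,6),(9,1),(0,1),(0,1),(28,1),(12,1),(127,21)])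
 (.lf 2 [(3,48),(1,74),(2,44),(2,6),(1,36),(0,38),(1,10),(0,6),(1,10),(0,18),(0,2),(1,12),(0,16),(1,16),(2,12),(0,16),(2,12),(3,28),(0,12),(0,12),(2,194),(2,26),(1,4),(13,6),(6,8),(0,6),(17,51),(0,9),(7,6),(11,4),(17,4),(12,4),(5,12),(0,16),(27,2),(33,4),(1,4),(5,22),(0,4),(7,2),(172,60)]))
 (.nd 5 (.nd 40 (.nd 11 (.lf 1 [(3,21),(1,49),(2,18),(2,3),(0,6),(0,18),(0,29),(2,3),(0,5),(0,11),(0,11),(0,3),(0,11),(0,3),(0,3),(0,11),(0,7),(0,1),(1,6),(2,8),(0,7),(4,6),(2,14),(0,97),(4,1),(2,5),(2,2),(1,1),(5,3),(7,3),(17,23),(0,8),(1,5),(4,1),(41,1),(7,6),(2,15),(4,9),(5,8),(56,14),(3,3),(0,7),(70,8),(54,1)])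
 (.nd 3 (.nd 63 (.lf 1 [(3,20),(0,17),(3,19),(2,3),(0,44),(0,18),(0,4),(2,3),(1,14),(0,14),(1,8),(0,6),(2,6),(0,8),(0,5),(0,3),(0,6),(0,8),(6,20),(1,14),(1,97),(1,6),(4,10),(11,3),(6,1),(0,3),(17,3),(0,27),(0,20),(25,1),(26,2),(2,6),(14,6),(22,5),(18,3),(0,1),(12,6),(7,7),(35,6),(49,31),(62,2),(26,2),(18,3),(0,9),(3,12)])
 (.nd 49 (.nd 16 (.lf 2 [(3,36),(0,25),(2,6),(0,36),(2,24),(0,72),(0,18),(0,12),(2,6),(0,2),(0,28),(0,28),(1,16),(0,12),(2,12),(1,6),(0,18),(0,13),(0,1),(10,218),(26,6),(1,18),(0,18),(14,24),(0,54),(0,16),(5,2),(19,4),(21,1),(7,12),(34,7),(21,6),(2,14),(18,14),(0,14),(21,30),(12,12),(70,6),(41,4),(45,6),(0,6),(0,6),(3,8)])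
 (.nd 20 (.lf 1 [(3,14),(0,18),(3,18),(0,3),(1,6),(0,48),(0,15),(3,6),(1,14),(0,14),(1,8),(0,6),(2,6),(0,6),(0,6),(0,6),(0,6),(0,6),(10,97),(1,10),(4,12),(14,3),(3,3),(19,27),(0,24),(25,2),(29,6),(34,1),(2,5),(18,6),(2,7),(18,7),(0,7),(34,6),(59,3),(52,2),(26,6),(0,6),(17,3),(0,3),(0,3),(2,16)])
 (.lf 2 [(3,28),(0,48),(3,30),(2,6),(0,96),(0,36),(3,12),(1,28),(0,28),(1,16),(0,12),(2,14),(0,12),(0,17),(0,19),(0,12),(0,10),(10,188),(1,20),(2,2),(1,29),(14,6),(4,6),(18,54),(0,48),(25,4),(29,12),(34,3),(2,14),(18,19),(2,14),(18,14),(0,14),(34,12),(6,6),(105,4),(26,17),(0,13),(17,6),(0,6),(3,32)])))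
 (.lf 6 [(3,119),(0,70),(3,108),(2,18),(0,217),(0,108),(0,71),(2,18),(0,5),(0,84),(0,71),(1,35),(0,49),(0,14),(1,58),(0,26),(2,40),(0,53),(4,26),(5,582),(4,22),(13,18),(7,18),(17,44),(0,136),(0,73),(5,5),(9,13),(21,22),(6,8),(4,4),(2,8),(2,10),(37,25),(21,42),(10,61),(7,29),(0,42),(34,22),(31,13),(108,46),(17,18),(0,5),(3,25)])))
 (.lf 4 [(8,72),(2,12),(0,104),(0,12),(0,56),(2,12),(0,24),(0,32),(0,32),(0,24),(0,56),(2,56),(0,24),(2,56),(0,24),(2,56),(2,2),(1,22),(1,2),(1,388),(9,32),(3,32),(4,12),(7,12),(17,50),(0,70),(0,8),(33,32),(11,32),(9,22),(59,27),(18,27),(0,17),(66,32),(107,11)])))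
 (.nd 35 (.lf 1 [(3,20),(1,29),(2,23),(0,1),(1,5),(0,25),(0,16),(0,23),(2,3),(0,14),(2,6),(2,20),(1,8),(2,12),(0,8),(2,12),(6,6),(0,2),(0,97),(1,15),(2,8),(1,3),(6,3),(4,3),(6,5),(0,3),(1,1),(0,1),(1,1),(12,13),(0,17),(0,1),(12,8),(5,14),(8,6),(5,6),(2,2),(8,6),(3,2),(5,6),(59,3),(10,8),(7,7),(0,7),(116,3),(76,3),(0,3),(0,2),(2,7)])
 (.lf 1 [(3,24),(1,31),(2,18),(2,3),(0,34),(0,18),(0,14),(2,3),(0,14),(2,6),(3,5),(0,14),(2,6),(0,14),(2,6),(4,9),(3,97),(1,8),(2,8),(1,1),(11,3),(7,3),(14,1),(2,9),(0,21),(0,10),(12,8),(6,6),(16,8),(12,8),(5,9),(4,3),(12,3),(10,10),(1,1),(28,6),(10,7),(7,6),(0,3),(44,5),(129,1),(0,4),(11,15),(5,3),(1,3)])))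
 (.lf 2 [(3,48),(4,30),(2,6),(0,24),(0,36),(0,26),(1,22),(0,12),(1,3),(0,25),(0,3),(1,22),(0,12),(1,28),(2,12),(0,28),(2,12),(4,12),(2,28),(0,197),(2,37),(1,16),(10,12),(5,6),(4,6),(10,2),(6,38),(0,22),(7,13),(21,10),(7,16),(12,16),(5,12),(2,20),(4,8),(5,16),(10,3),(1,3),(1,3),(31,3),(9,14),(7,10),(22,6),(22,3),(90,3)])))))

theorem tr2_ok : chk 600 ws pp tr2 2181038080 1 = true := by decide +kernel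

end Pool.Agent.LptT.G1
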