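import Pool.Agent.LptT.G1Rows

/-!
# Part 2 of the tree
-/

set_option autoImplicit false
set_option maxRecDepth 1000000

namespace Pool.Agent.LptT.G1

open Cert

/-- A part of the tree. -/
def tr3 : Tr :=
(.nd 28 (.nd 27 (.nd 1 (.nd 35 (.nd 30 (.nd 6 (.lf 2 [(0,40),(0,8),(0,8),(0,40),(0,8),(0,8),(7,36),(0,110),(2,42),(0,8),(0,20),(0,12),(2,12),(0,20),(0,8),(0,4),(0,24),(0,16),(2,16),(0,72),(0,4),(0,4),(0,24),(0,16),(2,16),(0,24),(0,4),(0,248),(18,6),(1,36),(0,36),(4,6),(10,12),(6,114),(2,44),(38,4),(2,4),(20,4),(2,4),(34,3),(0,3),(60,4),(1,4),(24,18),(10,8),(55,4),(1,4),(73,36),(9,48)])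
 (.lf 1 [(1,31),(0,21),(0,10),(0,7),(0,17),(7,20),(0,64),(2,21),(1,6),(0,14),(2,6),(0,14),(1,2),(0,12),(0,8),(2,8),(0,40),(0,2),(1,14),(0,8),(2,8),(0,12),(0,2),(0,126),(1,7),(8,7),(7,3),(1,18),(0,18),(4,3),(10,8),(6,59),(8,8),(11,8),(20,2),(2,2),(20,2),(2,2),(11,15),(22,2),(61,2),(1,2),(24,11),(6,2),(59,2),(1,2),(14,1),(0,11),(67,28),(7,18)]))
 (.lf 1 [(1,21),(0,51),(2,34),(7,19),(2,91),(0,21),(2,6),(0,8),(0,5),(0,3),(0,6),(0,8),(2,6),(0,6),(0,5),(0,5),(0,137),(0,7),(1,42),(0,8),(2,8),(0,12),(0,2),(0,230),(0,3),(9,2),(6,7),(0,3),(1,18),(0,18),(4,3),(10,99),(6,115),(11,5),(46,28),(6,2),(2,2),(13,5),(20,2),(0,1),(2,1),(2,3),(42,4),(0,1),(10,2),(1,2),(0,1),(5,3),(2,2),(14,67),(6,2),(67,22),(77,130),(2,45),(7,3)]))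
 (.nd 0 (.nd 10 (.nd 52 (.lf 1 [(0,27),(0,148),(0,21),(0,3),(0,24),(3,14),(4,21),(0,66),(1,25),(0,7),(0,6),(2,6),(0,6),(2,6),(4,32),(0,46),(0,15),(3,8),(0,6),(0,3),(0,5),(0,8),(0,6),(0,101),(18,3),(1,4),(0,4),(4,6),(3,3),(6,2),(6,34),(37,6),(3,20),(14,2),(2,2),(36,5),(19,3),(1,4),(1,4),(1,4),(1,4),(28,7),(23,40),(7,13),(9,1),(81,79),(16,3),(50,1),(15,12)])
 (.nd 5 (.lf 2 [(0,89),(0,81),(0,37),(0,11),(0,37),(0,11),(2,13),(1,6),(2,36),(0,2),(1,56),(0,29),(2,12),(0,12),(3,12),(1,8),(0,28),(3,29),(0,28),(1,3),(0,27),(0,1),(1,16),(0,27),(0,1),(0,217),(18,6),(1,23),(0,23),(15,15),(6,83),(26,12),(5,16),(12,14),(0,14),(9,15),(11,10),(27,5),(19,1),(1,14),(1,2),(1,14),(1,14),(28,2),(21,2),(19,4),(80,6),(0,43),(67,29),(15,33)])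
 (.lf 2 [(1,51),(0,49),(0,11),(0,48),(2,6),(0,30),(1,6),(2,30),(0,22),(1,35),(1,27),(2,12),(0,28),(2,12),(2,14),(0,14),(2,14),(0,14),(2,14),(0,12),(0,7),(0,7),(0,12),(0,12),(0,188),(0,15),(9,12),(33,43),(14,16),(12,16),(4,2),(2,6),(26,2),(33,7),(28,7),(48,2),(10,2),(108,23),(62,10),(4,1)])))
 (.lf 1 [(1,226),(0,28),(2,32),(2,18),(4,131),(0,121),(0,35),(1,3),(0,14),(2,6),(0,14),(2,6),(1,6),(0,14),(2,6),(0,14),(2,28),(0,6),(2,6),(0,6),(1,97),(0,8),(7,4),(3,16),(5,3),(7,3),(21,32),(10,8),(12,8),(4,8),(11,8),(13,22),(109,113),(11,8),(176,65),(2,26)]))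
 (.nd 11 (.nd 4 (.lf 2 [(2,4),(0,44),(0,4),(0,116),(1,3),(0,36),(1,6),(2,30),(2,56),(0,6),(3,12),(0,12),(2,12),(0,10),(0,20),(0,12),(2,12),(0,20),(0,8),(0,3),(1,9),(0,12),(0,8),(0,5),(0,12),(0,16),(0,191),(2,68),(15,3),(18,18),(5,8),(0,54),(9,12),(21,2),(64,5),(19,8),(1,20),(1,8),(1,8),(1,8),(113,3),(22,8),(46,18)])
 (.nd 61 (.lf 3 [(2,57),(0,14),(3,5),(0,53),(1,9),(2,45),(0,68),(1,18),(0,8),(0,42),(2,18),(0,42),(2,18),(0,18),(1,8),(0,22),(0,10),(1,16),(0,26),(2,18),(0,24),(1,42),(0,42),(1,286),(1,24),(5,1),(4,58),(5,4),(18,24),(6,67),(14,24),(12,24),(12,4),(18,6),(65,18),(1,6),(110,4),(22,8),(80,50),(23,14)])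
 (.lf 1 [(2,22),(0,2),(3,2),(0,18),(1,3),(2,15),(0,20),(1,6),(0,3),(0,14),(2,6),(0,14),(2,6),(0,10),(0,4),(1,6),(0,6),(1,4),(0,10),(2,2),(1,6),(2,14),(0,96),(1,8),(2,4),(7,22),(5,1),(18,2),(6,25),(14,8),(12,8),(29,4),(2,3),(10,8),(24,10),(99,8),(41,1),(22,4),(80,18),(23,2)])))
 (.nd 3 (.lf 12 [(2,420),(0,210),(0,456),(3,216),(4,216),(2,396),(0,36),(0,150),(0,18),(1,132),(0,124),(3,30),(0,138),(0,75),(2,105),(0,108),(2,72),(0,168),(2,72),(0,168),(1,1164),(1,78),(14,168),(1,36),(7,36),(10,600),(5,66),(0,360),(27,52),(13,33),(2,3),(11,96),(11,96),(17,22),(82,18),(2,20),(9,38),(4,252),(71,3),(1,30),(0,42),(22,4),(1,36),(29,342)])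
 (.lf 1 [(2,35),(4,1),(0,18),(1,3),(2,15),(0,22),(1,2),(0,3),(0,10),(0,4),(1,6),(0,10),(0,4),(1,2),(0,10),(0,4),(1,6),(0,6),(1,4),(0,10),(1,6),(0,14),(2,6),(0,14),(1,96),(1,4),(2,4),(6,11),(1,24),(4,2),(18,50),(6,27),(14,1),(12,4),(28,8),(11,8),(100,4),(12,4),(4,21),(50,2),(22,4),(80,20)])))))
 (.nd 47 (.nd 6 (.nd 29 (.nd 0 (.lf 1 [(0,48),(2,12),(0,12),(3,7),(4,18),(0,34),(1,18),(0,14),(0,14),(2,6),(0,14),(2,6),(0,21),(1,14),(2,14),(0,28),(1,6),(0,8),(0,4),(0,2),(0,2),(0,4),(0,8),(0,6),(0,114),(15,12),(2,3),(1,11),(0,11),(4,3),(10,26),(6,41),(14,8),(12,8),(3,1),(4,6),(66,2),(0,2),(60,4),(18,8),(121,12),(7,8),(30,14),(24,6),(1,6)])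
 (.lf 2 [(4,53),(3,6),(4,36),(0,97),(1,17),(0,23),(0,23),(2,17),(0,23),(2,17),(0,40),(1,28),(2,28),(0,80),(1,12),(1,5),(0,15),(0,7),(1,11),(0,17),(0,211),(5,45),(3,5),(6,5),(1,6),(1,17),(0,17),(4,6),(17,77),(11,5),(2,11),(8,5),(3,11),(8,12),(16,41),(10,3),(38,3),(0,3),(60,5),(18,16),(129,57),(30,11)]))
 (.lf 2 [(0,54),(2,26),(0,22),(3,6),(4,36),(3,36),(0,14),(0,14),(0,4),(0,4),(0,14),(0,14),(2,16),(0,12),(0,28),(2,12),(0,52),(1,17),(0,11),(0,3),(0,9),(0,9),(0,3),(0,11),(0,17),(0,224),(5,6),(1,5),(7,6),(2,6),(1,30),(0,30),(4,6),(17,80),(2,2),(24,2),(2,2),(13,16),(58,3),(0,3),(60,8),(3,6),(12,6),(123,1),(38,24),(12,10)]))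
 (.nd 18 (.lf 1 [(3,14),(0,6),(0,4),(2,18),(4,18),(0,12),(1,12),(0,3),(1,2),(0,11),(0,4),(1,3),(0,11),(1,20),(1,14),(2,6),(0,14),(1,2),(0,12),(0,8),(2,8),(0,12),(0,2),(0,97),(3,14),(3,10),(10,3),(7,3),(10,20),(6,30),(8,5),(11,5),(15,6),(7,8),(20,2),(2,2),(49,4),(3,3),(1,1),(40,2),(1,2),(183,14)])
 (.lf 2 [(3,60),(0,12),(0,36),(7,36),(0,98),(1,64),(0,42),(2,12),(0,4),(1,8),(1,4),(0,40),(1,28),(2,12),(0,132),(3,12),(0,16),(2,12),(0,16),(0,304),(3,28),(4,12),(9,6),(1,36),(0,36),(4,6),(17,130),(26,12),(9,12),(7,16),(14,4),(11,4),(31,3),(0,3),(13,14),(0,4),(0,6),(1,10),(1,18),(67,74),(152,104),(22,40)])))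
 (.nd 5 (.nd 38 (.nd 9 (.lf 6 [(0,202),(2,228),(0,12),(0,38),(7,108),(0,46),(1,116),(0,126),(1,84),(1,84),(0,84),(2,152),(1,6),(2,40),(0,36),(0,146),(0,44),(1,36),(0,84),(2,36),(0,84),(1,706),(5,58),(2,84),(4,94),(4,18),(1,108),(0,108),(4,18),(10,52),(6,302),(26,68),(5,22),(5,4),(17,48),(11,48),(15,48),(18,9),(0,9),(2,116),(84,16),(58,74),(7,40),(1,4),(83,106),(19,36),(1,2)])
 (.lf 2 [(0,88),(4,8),(7,36),(0,75),(1,48),(0,42),(1,29),(0,13),(0,15),(0,13),(0,12),(3,6),(2,13),(0,12),(0,113),(0,15),(0,4),(0,24),(0,16),(2,16),(0,24),(0,4),(0,299),(5,40),(1,49),(2,1),(1,17),(5,6),(1,36),(0,36),(4,6),(10,69),(6,159),(7,1),(19,1),(4,22),(5,1),(26,4),(2,4),(17,1),(16,3),(0,3),(14,77),(45,4),(1,4),(14,13),(9,69),(58,21),(7,13),(1,1),(83,99),(5,57),(7,6)]))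
 (.nd 10 (.nd 3 (.lf 1 [(0,9),(2,14),(0,39),(3,18),(1,1),(2,17),(0,7),(1,17),(0,3),(2,6),(2,14),(0,3),(5,7),(0,6),(0,7),(0,7),(0,6),(2,14),(0,6),(2,14),(0,97),(16,15),(1,3),(7,2),(10,1),(6,30),(8,3),(2,11),(5,8),(12,8),(4,1),(2,1),(20,8),(11,8),(31,1),(147,14),(7,7),(1,1),(8,3),(35,7)])
 (.lf 1 [(0,26),(4,26),(2,1),(4,18),(0,24),(1,20),(0,20),(2,6),(2,6),(0,6),(5,6),(0,7),(0,21),(0,7),(0,2),(0,12),(0,8),(2,9),(0,11),(1,114),(5,2),(1,5),(6,12),(3,3),(1,17),(0,17),(4,3),(10,14),(6,27),(11,14),(19,4),(3,18),(5,1),(23,3),(2,2),(34,2),(0,1),(60,2),(1,2),(83,32),(7,7),(1,1),(83,14),(5,10),(16,20)]))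
 (.nd 18 (.lf 1 [(0,24),(2,14),(1,11),(2,18),(4,21),(0,11),(1,15),(0,3),(2,6),(2,6),(0,6),(5,2),(0,12),(0,16),(1,1),(0,10),(0,10),(2,8),(0,12),(1,102),(7,10),(4,10),(5,3),(7,6),(3,3),(6,29),(6,12),(8,14),(8,8),(23,6),(1,4),(12,3),(8,2),(2,4),(53,4),(42,1),(1,1),(2,4),(88,4),(1,2),(0,2),(82,2),(3,5),(1,23),(23,18)])
 (.lf 2 [(0,46),(2,78),(1,14),(7,36),(0,50),(1,76),(0,40),(13,20),(0,98),(3,28),(0,6),(1,12),(0,28),(1,266),(3,2),(4,30),(4,30),(4,6),(1,34),(0,34),(2,2),(1,6),(10,16),(6,86),(11,28),(20,28),(6,12),(1,8),(11,12),(2,16),(7,6),(3,16),(34,3),(0,3),(10,4),(4,14),(1,14),(0,6),(46,6),(0,6),(0,14),(19,36),(66,16),(1,4),(0,42),(22,6),(59,66),(1,2),(27,44)]))))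
 (.nd 30 (.lf 2 [(3,28),(0,12),(3,33),(4,36),(0,60),(2,9),(0,8),(0,24),(0,10),(1,5),(0,24),(0,8),(2,40),(3,26),(0,28),(1,12),(1,2),(0,21),(0,10),(1,5),(0,24),(0,197),(15,32),(2,6),(1,3),(0,3),(4,6),(10,13),(6,63),(2,12),(4,4),(9,9),(12,12),(0,12),(7,10),(1,14),(1,2),(15,7),(11,9),(31,3),(61,2),(6,2),(9,2),(76,12),(1,2),(44,20)])
 (.nd 64 (.nd 61 (.lf 2 [(3,34),(0,14),(3,22),(4,36),(2,46),(0,6),(0,28),(2,12),(0,28),(2,12),(3,12),(0,12),(1,36),(0,20),(0,12),(1,6),(0,28),(1,28),(0,4),(0,32),(0,228),(0,16),(6,14),(7,34),(2,6),(7,6),(17,60),(14,16),(11,6),(0,22),(7,4),(23,16),(3,6),(10,8),(28,3),(0,3),(146,12),(9,8),(45,14),(37,28),(24,1),(0,33)])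
 (.lf 2 [(3,45),(3,6),(0,14),(4,36),(2,57),(0,3),(0,28),(2,12),(0,28),(2,12),(3,12),(0,12),(1,38),(0,20),(0,11),(0,9),(0,1),(1,28),(2,44),(0,230),(0,16),(11,3),(2,51),(10,6),(10,23),(5,9),(0,51),(14,16),(11,7),(0,23),(3,4),(3,32),(37,16),(22,4),(2,13),(3,3),(0,3),(146,40),(9,8),(45,19),(37,30),(23,3),(1,42)]))
 (.lf 2 [(3,84),(4,36),(4,36),(2,66),(0,6),(0,27),(0,1),(1,19),(0,25),(6,10),(0,12),(0,2),(0,58),(0,19),(2,13),(0,13),(2,41),(1,250),(0,15),(2,33),(4,39),(4,36),(1,4),(2,6),(7,6),(10,32),(5,63),(0,60),(14,6),(11,10),(0,23),(7,28),(32,1),(2,1),(4,13),(9,1),(16,3),(0,3),(11,13),(8,14),(39,1),(3,1),(2,1),(9,6),(68,39),(7,2),(1,7),(25,6),(18,3),(33,45),(4,49),(25,56)]))))))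
 (.nd 63 (.nd 51 (.nd 43 (.lf 3 [(0,21),(0,51),(0,21),(0,51),(0,21),(0,51),(2,54),(1,3),(2,51),(0,62),(2,20),(0,13),(0,21),(0,15),(0,7),(0,10),(0,18),(0,42),(3,18),(0,24),(1,42),(0,45),(1,21),(2,42),(0,42),(2,18),(0,291),(3,3),(0,3),(13,9),(7,6),(9,99),(7,35),(0,55),(34,6),(17,3),(5,21),(14,30),(11,7),(16,3),(13,24),(0,4),(44,11),(0,1),(4,10),(4,18),(47,24),(3,3),(56,9)])
 (.lf 2 [(0,12),(0,28),(0,20),(0,28),(0,12),(0,36),(2,18),(4,36),(0,32),(2,24),(1,28),(0,12),(2,28),(4,12),(0,16),(1,28),(0,40),(1,4),(1,8),(0,12),(0,16),(0,12),(0,28),(1,212),(18,6),(1,18),(0,18),(4,6),(9,8),(7,28),(0,50),(0,16),(15,16),(9,12),(2,16),(4,4),(67,3),(0,3),(30,12),(38,12),(47,12),(60,4),(61,12)]))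
 (.nd 34 (.nd 35 (.lf 2 [(1,44),(0,4),(0,28),(1,52),(2,10),(4,36),(0,40),(2,32),(1,28),(0,12),(2,28),(0,12),(3,16),(1,20),(1,16),(0,16),(0,20),(0,8),(0,8),(0,20),(0,20),(0,8),(1,4),(0,220),(0,4),(11,4),(5,6),(1,26),(0,26),(4,6),(9,56),(7,40),(0,46),(16,16),(12,16),(1,4),(70,3),(0,3),(12,12),(35,12),(0,6),(22,4),(7,6),(36,16),(2,16),(110,16),(8,20)])
 (.lf 3 [(1,71),(0,11),(0,61),(1,83),(2,54),(4,54),(0,71),(2,9),(0,19),(0,23),(0,13),(0,9),(0,19),(0,23),(4,18),(1,26),(1,3),(0,39),(0,42),(2,42),(0,42),(2,18),(0,291),(0,1),(11,11),(5,9),(7,9),(9,157),(7,41),(0,50),(26,1),(2,5),(16,10),(26,46),(42,35),(35,21),(0,12),(14,10),(2,4),(0,8),(3,3),(4,14),(2,9),(29,10),(6,24),(2,24)]))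
 (.lf 4 [(0,24),(0,24),(0,63),(0,54),(0,12),(0,84),(2,52),(4,72),(3,32),(2,26),(0,26),(0,14),(0,14),(0,10),(2,56),(0,24),(3,32),(0,24),(0,6),(1,23),(0,33),(0,33),(0,23),(0,43),(0,1),(0,408),(6,21),(11,12),(1,20),(0,20),(4,12),(9,54),(6,32),(1,140),(0,128),(39,32),(17,4),(26,14),(16,6),(0,6),(12,1),(17,23),(33,2),(12,2),(30,12),(8,32),(3,5),(118,8)])))
 (.nd 51 (.lf 3 [(0,18),(0,54),(0,30),(0,54),(0,18),(0,54),(2,33),(4,54),(0,60),(2,30),(1,30),(0,27),(1,3),(0,33),(0,9),(3,6),(0,36),(1,42),(0,54),(1,1),(0,1),(0,19),(0,19),(4,312),(8,12),(9,9),(1,21),(0,21),(4,9),(9,96),(7,45),(0,66),(0,12),(15,3),(12,15),(2,12),(1,18),(39,50),(1,8),(8,3),(13,1),(2,5),(0,4),(30,20),(33,6),(1,3),(1,6),(0,18),(7,9),(38,2),(111,5),(11,12)])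
 (.nd 44 (.lf 2 [(0,12),(0,36),(0,26),(0,20),(1,50),(2,36),(1,2),(2,34),(0,32),(2,6),(1,28),(0,14),(2,28),(0,10),(0,10),(2,16),(1,13),(2,28),(0,4),(0,2),(0,13),(0,15),(4,194),(12,2),(5,6),(7,4),(9,92),(7,19),(0,41),(0,16),(15,14),(14,4),(14,15),(27,44),(1,16),(22,3),(2,2),(31,11),(1,7),(15,12),(0,6),(12,4),(3,1),(0,1),(0,1),(8,2),(2,1),(26,1),(0,13),(109,1)])
 (.lf 2 [(1,44),(0,4),(0,44),(1,38),(2,26),(4,36),(0,44),(2,16),(0,16),(0,12),(1,4),(0,12),(5,12),(1,20),(2,16),(0,4),(0,4),(0,12),(0,12),(4,204),(0,4),(11,4),(5,6),(1,10),(0,10),(4,6),(9,80),(7,32),(0,38),(29,28),(44,42),(1,14),(25,3),(0,3),(30,10),(17,14),(0,8),(12,2),(1,4),(3,4),(11,6),(35,2),(123,4),(30,14)])))))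
 (.nd 55 (.nd 63 (.nd 56 (.lf 2 [(0,18),(0,30),(0,18),(0,22),(0,26),(0,22),(1,6),(0,36),(5,58),(2,6),(1,22),(0,18),(2,22),(0,18),(1,18),(2,28),(0,12),(2,28),(0,10),(1,2),(0,26),(0,26),(0,2),(0,38),(1,260),(28,30),(0,9),(0,15),(6,38),(6,26),(0,22),(1,10),(5,6),(8,10),(2,6),(9,10),(4,10),(11,16),(11,14),(17,10),(18,16),(4,21),(2,21),(10,6),(24,36),(236,4),(2,6),(0,6),(5,62)])
 (.lf 1 [(0,16),(0,8),(0,16),(0,8),(0,16),(0,8),(2,5),(5,22),(1,2),(0,16),(1,6),(0,14),(2,6),(0,15),(1,14),(2,14),(0,6),(2,14),(3,6),(0,10),(0,4),(0,16),(1,120),(28,3),(8,22),(0,14),(5,8),(0,8),(7,8),(11,8),(26,8),(9,6),(19,2),(21,4),(1,3),(1,2),(0,17),(10,8),(24,16),(18,2),(70,2),(147,2),(0,11),(0,6),(0,13),(4,1),(0,3)]))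
 (.nd 18 (.lf 2 [(0,28),(0,20),(0,28),(0,12),(0,41),(0,12),(1,6),(0,36),(5,38),(1,10),(0,6),(1,7),(0,23),(0,5),(1,12),(0,23),(1,23),(0,5),(1,17),(0,18),(2,12),(1,12),(0,28),(2,12),(2,260),(14,5),(13,30),(0,9),(0,15),(13,45),(0,3),(7,11),(11,6),(6,5),(10,1),(12,6),(4,16),(11,16),(13,5),(9,5),(8,21),(2,21),(9,5),(0,5),(24,31),(236,4),(2,6),(0,6),(5,62)])
 (.nd 29 (.lf 2 [(0,36),(0,12),(0,43),(1,60),(9,111),(1,35),(0,42),(0,1),(1,11),(0,17),(0,10),(0,4),(0,11),(0,17),(0,44),(2,28),(0,12),(2,28),(2,12),(0,12),(3,37),(0,236),(9,5),(6,12),(1,6),(1,16),(0,16),(6,6),(4,66),(4,24),(5,50),(0,5),(10,5),(19,32),(3,16),(11,16),(25,6),(3,3),(4,9),(18,6),(1,36),(1,2),(4,7),(5,14),(8,14),(14,76),(5,7),(40,3),(191,20),(1,20),(5,6)])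
 (.lf 2 [(0,42),(0,2),(0,46),(1,50),(10,12),(1,42),(1,12),(0,28),(2,12),(0,28),(1,13),(0,15),(0,15),(0,16),(0,16),(0,12),(4,24),(0,4),(1,8),(1,20),(0,260),(9,2),(6,2),(1,6),(9,30),(1,24),(2,42),(10,36),(2,14),(5,16),(11,16),(16,3),(13,4),(4,12),(11,12),(26,16),(5,30),(1,12),(11,19),(0,4),(8,8),(14,3),(46,6),(7,4),(156,14),(24,2),(1,36),(1,36),(5,28)]))))
 (.nd 64 (.nd 1 (.lf 12 [(0,74),(0,222),(0,288),(1,288),(0,8),(2,146),(5,208),(1,80),(0,106),(2,72),(0,78),(2,99),(0,80),(1,22),(0,83),(0,62),(1,10),(4,152),(1,8),(0,160),(0,64),(0,104),(0,1560),(28,180),(0,54),(0,90),(6,72),(6,246),(0,26),(10,6),(11,6),(20,11),(5,83),(2,55),(2,80),(39,44),(1,36),(0,8),(1,126),(2,126),(0,2),(5,73),(2,11),(13,8),(10,73),(19,18),(18,3),(8,40),(189,103),(0,18),(0,52),(1,70),(4,25),(0,216)])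
 (.lf 4 [(0,96),(2,32),(0,96),(9,88),(0,21),(0,31),(0,84),(1,24),(0,56),(2,24),(0,69),(1,12),(1,20),(0,32),(4,24),(0,6),(1,18),(0,24),(0,6),(1,56),(0,475),(28,15),(1,3),(7,45),(5,63),(2,23),(5,32),(11,32),(29,24),(2,24),(38,8),(8,15),(1,4),(0,64),(6,22),(2,2),(24,10),(4,22),(0,10),(13,6),(33,6),(184,6),(0,66),(1,72),(3,8),(0,13)]))
 (.lf 1 [(0,18),(0,6),(0,18),(0,2),(0,23),(0,2),(0,2),(0,1),(0,15),(5,12),(1,12),(0,6),(1,2),(0,10),(0,4),(1,6),(0,10),(0,4),(0,9),(0,3),(0,1),(0,6),(6,6),(0,8),(2,18),(1,130),(14,1),(13,15),(0,5),(0,8),(6,12),(6,16),(0,7),(7,4),(41,6),(2,6),(17,2),(4,4),(5,4),(18,11),(2,11),(5,4),(0,1),(2,4),(1,6),(8,6),(13,7),(20,2),(216,2),(1,1),(1,4),(5,33)]))))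

theorem tr3_ok : chk 600 ws pp tr3 2147483648 33554432 = true := by decide +kernel

end Pool.Agent.LptT.G1
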