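import Pool.Agent.LptT.G1Rows

/-!
# Part 3 of the tree
-/

set_option autoImplicit false
set_option maxRecDepth 1000000

namespace Pool.Agent.LptT.G1

open Cert

/-- A part of the tree. -/
def tr4 : Tr :=
(.nd 5 (.nd 29 (.nd 28 (.nd 0 (.nd 34 (.nd 10 (.nd 48 (.lf 2 [(0,50),(0,24),(1,34),(0,14),(0,34),(1,6),(0,30),(2,6),(1,36),(2,87),(2,12),(0,28),(2,12),(0,28),(2,40),(1,28),(0,12),(2,28),(0,5),(0,23),(0,17),(2,17),(0,17),(1,220),(7,5),(18,6),(9,5),(4,35),(2,59),(0,1),(3,52),(3,16),(11,16),(12,12),(13,16),(43,32),(70,22),(4,5),(22,11),(30,5),(1,5),(55,29),(129,26)])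
 (.lf 2 [(0,50),(2,34),(0,14),(0,34),(1,6),(0,30),(2,6),(1,36),(2,82),(2,12),(0,28),(2,12),(0,28),(1,27),(3,12),(0,13),(0,15),(0,13),(0,3),(0,25),(0,12),(2,22),(0,12),(1,220),(3,15),(22,6),(9,3),(4,29),(2,57),(0,3),(3,52),(3,16),(11,16),(20,1),(23,10),(12,10),(12,32),(70,22),(27,9),(30,3),(37,13),(1,1),(17,63),(129,26)]))
 (.nd 2 (.lf 2 [(0,75),(0,5),(0,43),(0,59),(1,37),(1,6),(0,30),(2,6),(1,36),(2,76),(2,12),(0,28),(2,12),(0,28),(2,28),(0,12),(2,28),(0,12),(2,12),(0,18),(2,12),(0,18),(1,209),(13,11),(12,6),(8,6),(5,26),(2,54),(0,6),(3,30),(3,16),(11,16),(20,16),(12,16),(1,6),(11,6),(10,25),(11,21),(70,22),(246,15),(4,32)])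
 (.nd 62 (.lf 1 [(0,6),(4,57),(1,3),(0,15),(2,3),(1,18),(2,33),(2,9),(0,6),(2,9),(0,3),(2,14),(0,6),(2,14),(0,6),(1,4),(0,10),(0,6),(1,10),(0,16),(2,120),(3,1),(2,25),(4,9),(0,33),(13,3),(9,3),(4,15),(2,30),(4,46),(12,3),(12,3),(10,8),(12,8),(20,4),(2,10),(12,26),(8,10),(89,6),(30,4),(132,21),(54,23),(4,7)])
 (.lf 2 [(0,12),(0,12),(3,66),(1,6),(0,30),(2,6),(1,36),(2,54),(2,12),(0,12),(2,12),(0,6),(2,28),(0,12),(2,28),(0,12),(1,17),(0,11),(0,11),(0,17),(0,5),(1,3),(1,224),(6,36),(5,18),(13,6),(14,16),(2,54),(0,6),(3,60),(36,16),(12,16),(14,4),(2,5),(4,7),(13,36),(98,6),(35,16),(127,25),(54,30)]))))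
 (.nd 9 (.lf 1 [(0,78),(0,20),(1,30),(0,2),(0,22),(2,34),(3,24),(0,21),(6,6),(0,1),(0,13),(0,1),(0,1),(0,13),(0,2),(0,12),(0,8),(2,8),(0,30),(0,2),(1,14),(0,6),(2,14),(0,6),(1,142),(8,6),(9,11),(0,8),(6,6),(3,3),(10,24),(2,24),(0,27),(0,43),(2,103),(36,2),(2,2),(20,8),(12,8),(3,7),(1,2),(0,3),(5,45),(17,8),(149,2),(1,2),(17,18),(65,18),(15,43),(33,16),(24,8)])
 (.lf 1 [(0,76),(0,19),(2,14),(0,10),(2,49),(3,35),(0,21),(12,2),(0,12),(0,8),(2,8),(0,41),(1,11),(0,3),(1,7),(0,9),(0,2),(1,4),(0,146),(7,5),(10,18),(0,15),(6,6),(3,3),(10,17),(2,24),(0,38),(0,11),(2,126),(4,6),(31,2),(2,2),(30,3),(6,10),(8,49),(8,1),(8,8),(9,3),(0,7),(0,8),(0,7),(0,7),(0,7),(96,3),(1,2),(2,1),(32,2),(1,2),(17,9),(65,29),(27,7),(21,17),(23,2)])))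
 (.nd 26 (.nd 54 (.nd 43 (.lf 1 [(2,14),(0,8),(0,16),(0,8),(1,3),(0,15),(2,3),(0,6),(0,18),(2,14),(1,14),(2,6),(0,14),(1,8),(0,6),(1,14),(0,6),(2,14),(0,9),(2,8),(0,12),(2,8),(0,12),(1,107),(1,26),(5,2),(18,3),(14,26),(2,24),(0,9),(3,20),(9,8),(26,8),(14,6),(8,2),(2,6),(9,2),(12,13),(253,3),(26,8),(36,7),(3,10),(4,2),(0,6)])
 (.lf 1 [(2,14),(0,10),(0,14),(0,8),(2,18),(3,24),(0,21),(4,6),(0,6),(0,2),(0,2),(1,4),(3,14),(0,6),(2,14),(0,24),(0,8),(1,6),(0,14),(2,6),(0,14),(1,118),(5,6),(9,2),(2,3),(7,6),(3,3),(10,24),(2,24),(0,27),(3,39),(22,16),(1,2),(11,8),(14,8),(11,8),(22,21),(77,2),(175,18),(67,16)]))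
 (.nd 50 (.lf 1 [(2,14),(0,2),(0,22),(0,2),(2,18),(3,16),(0,21),(2,8),(1,14),(2,6),(0,14),(2,6),(1,14),(0,14),(1,4),(1,20),(2,6),(0,14),(2,6),(0,14),(1,116),(1,12),(3,6),(12,3),(7,6),(3,3),(10,20),(2,24),(0,19),(3,35),(9,8),(12,8),(18,6),(7,4),(1,8),(11,8),(22,19),(169,8),(83,10),(26,2),(36,6),(3,12),(8,4)])
 (.lf 1 [(2,8),(0,14),(0,10),(0,14),(1,3),(0,15),(3,20),(0,21),(2,4),(1,12),(0,2),(1,10),(0,10),(2,2),(0,10),(0,4),(1,6),(2,38),(2,14),(0,6),(2,14),(0,6),(1,117),(1,6),(2,4),(2,2),(18,6),(3,3),(10,18),(2,24),(0,23),(3,40),(22,4),(16,14),(7,10),(12,8),(12,8),(7,2),(1,2),(2,23),(77,2),(2,4),(86,4),(85,14),(66,3),(0,14)])))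
 (.nd 2 (.nd 10 (.lf 2 [(2,129),(0,79),(1,121),(2,58),(2,6),(1,36),(2,54),(1,21),(0,7),(1,15),(0,21),(0,7),(2,4),(0,24),(0,16),(2,16),(0,24),(0,4),(0,14),(0,14),(0,9),(0,9),(0,12),(0,12),(2,303),(1,24),(3,81),(8,31),(3,6),(7,6),(8,6),(5,85),(2,54),(0,6),(3,212),(22,9),(13,4),(2,4),(46,109),(77,7),(12,9),(38,5),(1,9),(2,5),(32,4),(1,4),(16,73),(8,3),(23,22),(60,7),(29,41),(0,68)])
 (.lf 1 [(3,19),(1,18),(1,3),(0,17),(2,3),(1,18),(2,27),(1,11),(0,3),(1,7),(0,11),(0,3),(3,6),(0,14),(2,6),(0,14),(1,7),(0,7),(0,5),(0,5),(0,6),(0,6),(2,118),(1,12),(3,35),(20,3),(8,3),(5,59),(2,27),(0,3),(3,41),(22,5),(4,8),(11,8),(46,24),(8,1),(68,3),(12,5),(38,2),(1,4),(2,3),(60,1),(23,2),(60,4),(22,21),(17,59)]))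
 (.lf 2 [(4,32),(0,16),(1,6),(0,30),(2,6),(1,36),(2,28),(1,12),(2,28),(0,12),(2,28),(0,10),(0,20),(0,12),(2,12),(0,20),(0,8),(0,23),(0,5),(1,17),(0,17),(2,12),(0,206),(6,11),(3,16),(15,6),(14,36),(2,51),(0,9),(3,23),(6,16),(11,16),(7,2),(43,5),(15,18),(8,5),(120,5),(4,5),(32,8),(132,5),(16,7),(3,28)]))))
 (.nd 7 (.nd 49 (.lf 1 [(0,16),(0,12),(0,12),(0,17),(1,30),(2,21),(2,3),(0,6),(3,27),(1,6),(2,6),(0,6),(2,6),(0,10),(0,4),(0,26),(0,32),(4,2),(0,12),(0,6),(1,2),(0,12),(0,4),(1,130),(12,7),(5,3),(6,3),(2,3),(15,39),(0,24),(3,63),(43,6),(1,6),(14,3),(12,6),(12,33),(0,10),(2,10),(5,3),(0,6),(1,9),(9,30),(3,4),(1,4),(1,4),(1,4),(96,2),(1,2),(94,5),(32,1),(45,8),(2,1),(24,15),(1,68)])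
 (.nd 0 (.lf 1 [(0,31),(0,31),(1,31),(1,16),(1,3),(0,23),(2,3),(0,4),(3,27),(2,3),(0,6),(2,6),(2,2),(0,12),(2,12),(0,2),(1,4),(0,5),(0,9),(0,6),(1,5),(0,9),(0,1),(1,132),(8,7),(4,7),(11,8),(2,3),(12,6),(2,41),(0,24),(3,70),(32,4),(4,6),(8,6),(10,5),(2,3),(12,3),(12,38),(3,2),(5,3),(0,6),(1,9),(13,5),(0,1),(0,4),(1,4),(1,7),(226,1),(21,3),(23,7),(27,17),(1,11)])
 (.nd 3 (.lf 2 [(2,53),(0,28),(1,102),(2,55),(7,75),(1,20),(2,12),(0,12),(3,4),(0,24),(2,24),(0,4),(1,8),(1,28),(0,12),(2,28),(0,12),(1,290),(7,14),(4,54),(5,6),(6,19),(2,6),(12,66),(2,99),(0,57),(3,186),(2,8),(29,8),(4,12),(8,12),(13,16),(12,16),(12,96),(3,4),(5,6),(0,12),(0,3),(0,21),(13,8),(3,8),(195,47),(81,27),(24,54),(1,109)])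
 (.lf 1 [(2,6),(0,5),(3,3),(0,15),(0,1),(0,3),(0,2),(0,10),(3,14),(1,6),(2,14),(0,6),(2,14),(0,2),(0,12),(2,12),(0,2),(1,4),(2,4),(0,12),(0,7),(2,10),(0,100),(9,13),(3,24),(17,1),(2,1),(6,6),(2,22),(0,11),(3,6),(6,8),(11,8),(13,4),(4,6),(8,6),(7,6),(1,2),(9,3),(3,1),(2,1),(12,6),(3,2),(4,2),(1,7),(120,1),(203,28)]))))
 (.nd 57 (.nd 22 (.lf 2 [(0,81),(1,15),(0,33),(0,15),(0,33),(2,63),(1,6),(0,72),(4,63),(3,7),(0,12),(3,12),(1,27),(0,27),(2,17),(2,17),(0,12),(0,27),(0,1),(1,12),(0,27),(1,289),(4,11),(13,33),(3,27),(12,14),(2,30),(2,37),(2,105),(0,50),(3,157),(40,4),(0,5),(21,15),(22,68),(0,10),(10,87),(10,1),(0,14),(2,14),(1,4),(0,2),(0,14),(1,8),(236,18),(11,6),(0,2),(22,20),(27,14),(0,22)])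
 (.nd 40 (.nd 9 (.nd 26 (.lf 4 [(0,90),(1,32),(0,64),(0,32),(0,64),(1,3),(0,69),(3,102),(3,34),(2,22),(0,58),(1,56),(2,56),(1,20),(0,24),(0,8),(0,8),(0,24),(2,32),(0,24),(0,56),(2,24),(0,56),(1,466),(18,9),(9,12),(15,90),(0,108),(3,147),(3,34),(7,2),(17,4),(33,32),(22,81),(0,8),(8,12),(0,24),(1,42),(3,32),(288,40),(32,26)])
 (.nd 63 (.lf 1 [(0,48),(2,24),(0,3),(0,24),(2,32),(7,34),(2,6),(0,14),(1,14),(2,40),(1,6),(0,6),(2,6),(2,16),(1,6),(0,8),(0,8),(0,6),(2,142),(4,24),(9,3),(3,17),(3,14),(3,3),(1,45),(0,45),(4,6),(4,27),(4,48),(0,27),(3,73),(3,8),(17,26),(31,2),(15,2),(16,31),(16,34),(114,8),(173,10),(32,6)])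
 (.lf 1 [(0,40),(1,8),(0,16),(0,9),(0,16),(2,20),(7,28),(2,5),(0,13),(0,1),(0,14),(2,33),(1,5),(0,8),(0,3),(0,2),(0,6),(2,2),(0,12),(0,20),(5,128),(4,16),(9,1),(3,5),(3,2),(3,3),(1,31),(0,31),(9,13),(4,41),(0,20),(3,57),(3,7),(17,19),(7,1),(31,6),(1,14),(6,20),(1,6),(13,29),(0,3),(12,1),(2,26),(5,2),(282,4),(32,5)])))
 (.lf 2 [(0,96),(3,34),(0,14),(2,52),(7,68),(2,10),(0,30),(1,14),(0,14),(3,12),(0,16),(0,4),(0,7),(0,19),(2,16),(0,12),(0,28),(2,12),(0,28),(0,1),(0,268),(4,48),(13,22),(3,16),(5,6),(6,16),(8,96),(0,38),(3,126),(3,18),(7,2),(37,7),(13,16),(7,1),(14,58),(0,1),(2,10),(5,6),(0,12),(1,21),(3,2),(5,4),(6,50),(2,14),(272,4),(27,35)]))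
 (.nd 34 (.lf 3 [(0,51),(1,96),(0,18),(1,117),(2,78),(7,240),(1,12),(0,18),(3,18),(0,42),(2,10),(0,18),(0,8),(0,8),(0,18),(2,24),(0,18),(0,42),(2,18),(0,42),(1,402),(3,21),(3,3),(10,33),(3,24),(3,9),(1,54),(0,54),(5,24),(8,144),(0,57),(3,189),(15,24),(47,24),(22,87),(0,8),(11,32),(292,99),(27,26),(6,13),(0,28),(0,4)])
 (.nd 41 (.nd 65 (.lf 4 [(0,224),(2,64),(0,32),(0,64),(1,12),(0,60),(3,60),(8,80),(1,184),(0,16),(2,15),(0,30),(0,15),(0,7),(0,22),(1,2),(0,56),(1,32),(0,26),(0,26),(0,30),(2,424),(4,119),(2,32),(20,12),(15,90),(0,66),(3,72),(6,56),(1,24),(7,128),(44,2),(8,2),(2,6),(12,48),(0,13),(8,12),(0,24),(6,160),(4,6),(9,20),(98,34),(149,20),(52,9)])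
 (.lf 1 [(0,58),(2,13),(0,11),(0,10),(1,3),(0,15),(1,1),(1,16),(8,20),(1,47),(0,5),(0,2),(1,6),(0,8),(0,2),(0,1),(0,7),(2,16),(1,10),(0,4),(1,6),(2,104),(4,34),(2,10),(20,2),(4,2),(10,21),(0,16),(3,14),(6,14),(1,6),(7,33),(24,1),(13,2),(13,6),(16,10),(0,3),(7,4),(0,2),(0,7),(6,43),(4,2),(9,3),(248,6)]))
 (.lf 4 [(0,220),(2,56),(0,40),(0,56),(2,148),(3,40),(2,4),(11,20),(0,31),(0,12),(0,6),(0,24),(2,52),(0,4),(0,36),(0,20),(0,14),(0,30),(0,10),(1,528),(4,120),(2,28),(10,50),(0,38),(8,12),(15,152),(0,112),(3,344),(7,24),(11,24),(17,1),(35,6),(3,40),(0,12),(1,28),(1,12),(3,140),(0,13),(7,6),(0,12),(0,24),(1,42),(9,7),(7,40),(1,28),(98,20),(137,48),(63,62),(0,4)])))))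
 (.nd 4 (.nd 37 (.lf 2 [(0,53),(1,43),(0,5),(0,43),(0,99),(2,36),(3,36),(3,63),(1,19),(0,9),(0,25),(0,3),(0,19),(0,9),(0,9),(0,19),(1,23),(0,22),(2,22),(3,48),(3,12),(0,12),(1,263),(4,5),(13,6),(9,6),(12,11),(2,63),(0,57),(3,132),(45,12),(3,10),(0,20),(7,12),(19,32),(7,69),(0,3),(2,7),(5,6),(0,12),(0,3),(0,21),(4,16),(4,3),(0,7),(105,20),(4,8),(147,12),(22,51),(11,9),(15,18),(13,8)])
 (.lf 2 [(0,65),(1,31),(0,8),(0,48),(0,82),(2,36),(3,48),(3,37),(4,3),(0,22),(0,5),(1,17),(1,48),(0,20),(2,12),(3,46),(2,10),(0,12),(2,256),(4,17),(4,8),(8,6),(9,6),(12,36),(2,51),(0,57),(3,118),(3,37),(3,9),(1,25),(18,20),(8,8),(7,12),(4,18),(7,2),(10,2),(16,62),(0,8),(8,6),(0,12),(0,3),(0,21),(3,8),(0,2),(4,8),(0,20),(8,5),(96,15),(4,15),(170,37),(11,14),(15,6),(13,3)]))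
 (.nd 35 (.lf 2 [(0,48),(1,16),(0,32),(4,53),(3,9),(3,40),(3,20),(0,8),(1,12),(0,12),(2,12),(0,12),(2,12),(3,24),(1,2),(0,24),(1,2),(0,26),(0,282),(16,14),(1,23),(3,17),(5,6),(7,1),(7,91),(0,57),(3,153),(3,8),(47,4),(5,12),(19,6),(1,2),(6,71),(9,6),(0,12),(0,3),(0,21),(13,4),(3,8),(1,8),(40,7),(1,2),(257,46),(14,5)])
 (.nd 6 (.lf 2 [(0,95),(1,1),(0,26),(3,6),(0,30),(2,6),(0,22),(3,26),(1,27),(2,11),(0,27),(0,1),(3,12),(0,12),(2,12),(3,27),(2,25),(1,1),(0,27),(0,250),(4,47),(11,26),(11,6),(15,68),(0,48),(3,112),(9,15),(12,15),(34,13),(28,62),(9,6),(0,12),(1,18),(13,1),(0,1),(0,1),(2,5),(0,7),(40,7),(1,1),(88,11),(168,20),(14,6)])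
 (.lf 1 [(2,22),(0,48),(3,3),(0,15),(1,1),(0,2),(0,14),(2,3),(0,48),(10,24),(0,10),(2,6),(5,6),(0,14),(2,6),(0,106),(6,2),(7,24),(11,2),(14,18),(2,23),(0,19),(3,18),(17,2),(10,10),(8,4),(7,6),(5,14),(5,8),(12,8),(15,12),(0,4),(9,9),(1,1),(9,4),(0,10),(2,7),(0,3),(0,7),(1,8),(0,4),(0,7),(248,3),(0,3),(58,44)])))))))
 (.nd 47 (.nd 50 (.lf 3 [(0,25),(0,48),(0,23),(0,49),(0,23),(0,49),(2,54),(2,9),(0,9),(0,50),(5,39),(0,20),(2,40),(0,18),(1,51),(1,42),(1,42),(0,9),(1,42),(1,42),(0,19),(2,42),(0,16),(1,337),(4,1),(13,9),(7,5),(15,107),(1,72),(0,18),(1,33),(1,83),(3,1),(8,20),(12,22),(1,5),(3,14),(9,9),(18,23),(12,24),(7,1),(4,46),(20,51),(51,6),(4,1),(12,1),(40,1),(1,1),(88,24),(89,5),(4,41),(31,4)])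
 (.nd 60 (.lf 2 [(0,8),(0,40),(0,12),(0,36),(0,17),(0,31),(1,6),(0,30),(1,4),(0,2),(0,34),(0,12),(4,9),(0,19),(0,11),(0,1),(0,9),(0,19),(0,3),(1,8),(2,32),(1,12),(0,28),(2,28),(0,28),(1,18),(0,10),(1,2),(0,227),(42,73),(1,44),(0,36),(1,7),(1,66),(25,7),(4,20),(1,4),(6,16),(30,6),(15,39),(9,1),(0,9),(1,14),(7,5),(30,5),(25,8),(2,1),(9,8),(1,32),(39,1),(1,10),(96,5),(85,13)])
 (.nd 22 (.lf 3 [(0,14),(0,58),(0,14),(0,58),(0,14),(0,58),(1,9),(0,45),(1,9),(0,48),(6,11),(0,31),(0,17),(1,11),(0,31),(0,7),(1,18),(2,42),(1,28),(0,42),(1,11),(0,31),(3,35),(0,22),(1,331),(42,114),(1,87),(0,24),(1,13),(1,79),(12,4),(12,13),(4,24),(8,14),(20,13),(2,4),(8,6),(0,23),(12,49),(8,2),(1,22),(1,7),(47,7),(16,9),(2,1),(9,10),(1,52),(38,2),(90,10),(26,4),(67,19)])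
 (.lf 12 [(1,354),(1,222),(0,66),(0,265),(1,36),(0,180),(3,236),(0,70),(4,95),(0,73),(0,30),(0,52),(0,95),(0,73),(2,72),(2,168),(1,168),(0,168),(1,120),(0,48),(1,72),(1,78),(0,23),(1,1355),(1,23),(5,66),(18,36),(15,577),(1,270),(0,254),(1,1),(1,382),(22,23),(2,1),(4,96),(33,49),(8,6),(12,227),(8,70),(1,73),(1,91),(25,43),(38,34),(2,19),(9,53),(1,264),(36,48),(1,70),(34,61),(55,96),(26,6),(67,26)]))))
 (.nd 25 (.nd 35 (.nd 65 (.lf 2 [(0,12),(0,36),(0,16),(0,32),(1,60),(2,36),(2,42),(0,32),(6,28),(0,12),(2,28),(0,12),(4,20),(0,12),(1,5),(0,24),(1,28),(0,28),(2,28),(0,12),(1,241),(7,4),(2,4),(1,12),(5,6),(7,6),(1,36),(0,36),(12,24),(1,53),(0,43),(1,16),(1,88),(12,16),(12,16),(1,20),(2,8),(11,8),(1,1),(28,16),(12,47),(85,4),(45,16),(2,16),(182,11)])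
 (.lf 2 [(0,16),(0,32),(0,16),(0,32),(0,16),(0,32),(1,6),(0,30),(2,14),(0,32),(0,28),(5,28),(0,12),(2,28),(0,12),(4,12),(0,14),(2,14),(1,12),(0,16),(0,8),(0,4),(0,8),(2,213),(26,6),(1,8),(0,8),(12,37),(1,39),(0,29),(1,16),(1,38),(12,16),(12,16),(7,2),(27,4),(7,8),(2,4),(13,25),(8,8),(10,14),(27,4),(12,4),(24,2),(43,4),(187,11)]))
 (.nd 7 (.nd 56 (.lf 6 [(0,16),(0,148),(1,142),(1,164),(1,18),(0,90),(2,18),(0,138),(0,108),(4,42),(0,42),(0,28),(0,28),(0,36),(0,36),(5,36),(0,84),(2,36),(0,103),(0,107),(0,4),(1,39),(0,43),(2,673),(7,4),(2,2),(15,18),(15,78),(1,84),(0,96),(1,6),(1,182),(33,48),(12,48),(23,3),(2,7),(7,6),(4,109),(8,1),(28,20),(22,22),(16,14),(2,20),(9,22),(38,40),(1,6),(2,31),(86,21),(95,91)])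
 (.lf 3 [(0,10),(0,62),(0,17),(0,58),(0,17),(0,47),(1,9),(0,45),(2,9),(0,46),(0,54),(4,12),(0,30),(0,30),(0,12),(0,2),(0,20),(3,4),(1,18),(0,42),(2,18),(2,18),(0,24),(0,22),(0,16),(2,308),(8,3),(17,9),(15,39),(1,54),(0,36),(1,12),(1,35),(25,2),(4,4),(2,24),(12,24),(6,6),(16,4),(1,2),(8,10),(4,26),(8,2),(10,17),(30,4),(28,8),(0,16),(9,4),(40,20),(89,2),(95,17)]))
 (.lf 6 [(0,40),(1,20),(0,124),(0,73),(0,124),(1,18),(0,90),(2,18),(0,96),(0,108),(5,72),(0,78),(0,24),(1,36),(8,36),(0,36),(0,16),(0,68),(0,52),(1,12),(0,64),(2,643),(14,53),(11,18),(15,234),(1,105),(0,75),(1,44),(1,122),(8,18),(18,234),(3,150),(5,36),(35,28),(7,24),(4,79),(8,4),(13,60),(24,42),(0,6),(23,4),(6,18),(0,42),(20,18),(27,16),(0,12),(0,12),(2,16),(182,61)])))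
 (.nd 35 (.lf 1 [(0,8),(0,16),(0,8),(0,16),(0,8),(0,8),(1,3),(0,16),(4,10),(5,14),(0,6),(2,14),(0,6),(4,9),(0,5),(1,3),(0,11),(1,6),(0,14),(2,6),(0,14),(1,122),(25,1),(2,3),(3,3),(4,16),(4,20),(1,30),(0,25),(1,8),(1,51),(12,8),(12,8),(5,2),(2,1),(7,3),(8,8),(11,8),(22,28),(9,3),(0,1),(1,7),(72,2),(165,8),(0,3),(1,1),(4,8),(91,2)])
 (.nd 43 (.lf 6 [(1,144),(1,144),(1,144),(1,18),(0,205),(1,18),(2,90),(4,48),(0,36),(0,36),(0,48),(0,48),(0,36),(5,39),(0,59),(2,59),(1,36),(0,84),(2,36),(0,84),(1,685),(37,144),(4,87),(1,71),(0,89),(3,417),(21,51),(5,69),(5,19),(17,48),(11,48),(22,121),(12,18),(6,7),(26,3),(1,13),(11,12),(18,48),(5,13),(4,48),(2,3),(73,10),(95,96),(28,19),(24,103)])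
 (.lf 1 [(0,8),(0,17),(0,8),(0,16),(0,8),(0,16),(2,18),(1,3),(2,15),(5,14),(0,10),(2,2),(5,6),(0,8),(2,8),(1,14),(0,6),(2,14),(0,6),(1,110),(5,1),(12,3),(23,21),(1,24),(0,3),(1,8),(1,23),(13,4),(1,4),(6,18),(1,4),(8,2),(26,8),(12,8),(12,13),(19,7),(26,3),(13,2),(16,4),(7,2),(231,16)]))))))
 (.nd 28 (.nd 64 (.nd 35 (.nd 50 (.lf 1 [(1,12),(0,6),(0,4),(0,12),(2,3),(0,18),(3,20),(0,21),(2,4),(1,4),(0,10),(0,6),(2,6),(0,10),(0,4),(1,14),(0,10),(2,10),(0,28),(2,14),(0,8),(2,14),(1,14),(0,128),(15,4),(9,3),(0,6),(3,3),(10,20),(2,24),(0,23),(3,62),(36,4),(1,4),(21,6),(25,34),(111,4),(57,4),(16,4),(5,2),(50,2),(9,14),(47,4),(22,8),(27,10),(2,6),(0,2)])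
 (.lf 2 [(1,36),(0,12),(0,13),(0,35),(3,36),(3,40),(0,42),(2,8),(1,5),(0,23),(0,15),(2,15),(0,23),(0,5),(0,4),(0,12),(3,12),(0,56),(2,28),(0,13),(2,28),(1,28),(0,259),(15,13),(2,6),(7,12),(3,6),(10,3),(2,48),(0,46),(3,123),(12,3),(2,3),(17,4),(5,16),(20,15),(25,65),(111,5),(2,3),(71,3),(5,1),(50,7),(9,28),(47,5),(50,25),(0,12),(2,1)]))
 (.lf 1 [(1,8),(0,6),(0,9),(0,14),(2,3),(0,21),(1,3),(0,3),(0,3),(0,18),(1,3),(0,15),(1,14),(2,6),(0,14),(2,6),(1,6),(0,14),(2,6),(0,14),(2,14),(0,6),(2,14),(1,14),(0,110),(0,26),(3,1),(7,1),(2,11),(28,21),(0,6),(3,38),(9,8),(12,8),(4,8),(11,8),(20,8),(25,16),(280,9),(33,3),(4,16),(3,7),(6,3),(23,6)]))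
 (.nd 10 (.nd 47 (.nd 37 (.lf 1 [(1,15),(0,9),(1,32),(2,3),(0,15),(2,1),(0,5),(0,20),(1,2),(0,15),(1,15),(1,9),(0,5),(1,1),(0,9),(0,5),(0,8),(0,6),(0,14),(2,6),(0,14),(1,5),(1,1),(0,13),(0,5),(1,1),(1,99),(0,9),(16,8),(8,5),(3,2),(10,9),(2,24),(0,10),(3,4),(7,1),(7,3),(23,8),(14,7),(11,7),(6,2),(12,5),(186,9),(16,8)])
 (.lf 2 [(1,54),(1,5),(0,60),(2,6),(0,30),(2,6),(0,6),(0,36),(5,22),(1,3),(0,14),(0,9),(0,11),(0,17),(0,16),(0,12),(0,28),(2,12),(0,28),(1,24),(0,4),(1,16),(0,15),(1,6),(1,205),(2,6),(4,6),(1,12),(7,12),(8,6),(14,53),(2,48),(0,12),(1,5),(1,22),(9,2),(29,16),(17,3),(8,4),(19,17),(73,4),(1,4),(35,11),(2,2),(71,53),(16,1),(1,1),(1,3),(93,11)]))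
 (.lf 2 [(1,48),(2,67),(2,6),(0,30),(3,10),(0,42),(2,34),(1,12),(2,28),(0,12),(2,28),(1,5),(2,25),(1,1),(0,27),(0,18),(2,20),(0,12),(1,8),(1,208),(9,16),(7,19),(8,12),(3,6),(4,2),(8,47),(0,19),(3,27),(6,16),(11,16),(8,23),(5,13),(3,12),(14,2),(13,8),(6,7),(12,20),(73,4),(1,4),(83,33),(7,13),(1,1),(16,7),(16,3),(97,4),(0,3)]))
 (.nd 34 (.nd 43 (.lf 3 [(1,60),(1,72),(3,9),(0,45),(2,9),(1,54),(2,81),(1,24),(0,18),(0,18),(0,24),(0,24),(0,18),(0,42),(2,18),(0,42),(2,18),(0,42),(1,22),(0,12),(0,14),(0,24),(0,4),(1,36),(1,313),(0,12),(12,9),(12,9),(8,9),(6,9),(1,81),(0,9),(3,44),(27,24),(11,24),(26,6),(15,24),(3,31),(33,4),(39,2),(1,16),(3,24),(8,9),(154,6),(56,6),(18,7),(32,9)])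
 (.nd 35 (.lf 4 [(1,88),(1,96),(3,12),(0,60),(2,12),(0,6),(0,72),(2,96),(2,24),(0,56),(2,24),(3,24),(0,56),(2,24),(0,56),(1,29),(0,16),(0,19),(0,32),(0,5),(1,48),(1,423),(0,16),(3,8),(21,12),(8,6),(8,102),(0,18),(3,71),(3,32),(11,32),(11,32),(11,32),(26,8),(19,47),(33,5),(39,3),(1,21),(167,72),(75,11),(32,24)])
 (.lf 1 [(1,19),(0,4),(0,20),(3,3),(0,15),(1,3),(0,3),(1,18),(2,27),(1,6),(0,8),(0,7),(0,5),(5,6),(0,14),(2,6),(0,14),(1,5),(1,3),(0,11),(0,3),(1,9),(1,96),(4,1),(30,3),(6,3),(1,24),(20,1),(1,1),(4,27),(1,13),(2,8),(11,8),(14,2),(11,5),(19,2),(33,3),(41,3),(1,1),(10,4),(25,7),(199,3),(4,2)])))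
 (.nd 61 (.lf 1 [(1,3),(0,6),(0,3),(3,3),(0,15),(1,3),(0,3),(0,3),(0,18),(4,14),(2,6),(0,14),(2,6),(1,6),(0,14),(2,6),(0,14),(2,14),(0,14),(3,22),(1,130),(0,14),(14,17),(25,45),(2,21),(0,3),(1,21),(1,66),(9,8),(11,7),(0,15),(4,8),(11,8),(23,8),(1,10),(5,8),(14,36),(75,8),(204,3),(18,2),(14,3),(7,45),(7,15),(21,34)])
 (.lf 1 [(1,7),(0,6),(0,7),(3,3),(0,15),(1,2),(1,6),(0,21),(4,14),(2,6),(0,14),(2,6),(1,14),(0,6),(2,14),(0,6),(2,14),(0,6),(3,12),(1,128),(0,22),(14,9),(10,1),(14,32),(2,14),(0,9),(1,8),(1,52),(9,8),(12,8),(13,8),(12,8),(16,14),(3,2),(15,29),(73,4),(33,4),(35,5),(136,7),(18,1),(18,3),(0,4),(2,24),(7,11),(21,25)])))))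
 (.nd 7 (.nd 48 (.nd 0 (.nd 51 (.lf 12 [(1,634),(1,134),(0,130),(2,29),(0,187),(2,36),(0,98),(3,130),(1,110),(2,130),(0,110),(2,130),(0,48),(0,120),(1,192),(0,96),(0,72),(2,149),(0,19),(1,91),(0,110),(2,130),(0,1406),(0,38),(6,178),(2,24),(4,158),(2,7),(9,36),(12,48),(2,264),(0,338),(3,478),(6,58),(2,38),(8,58),(3,38),(9,24),(13,24),(10,38),(8,19),(19,271),(9,36),(0,72),(1,108),(60,19),(1,19),(87,101),(24,26),(146,110),(22,168)])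
 (.lf 1 [(1,40),(1,8),(0,16),(2,3),(0,15),(1,1),(0,2),(0,14),(3,2),(1,10),(0,4),(1,6),(0,11),(0,2),(1,4),(1,23),(0,15),(1,5),(3,14),(2,6),(0,14),(2,6),(0,114),(0,4),(6,16),(7,8),(12,2),(12,22),(2,23),(0,24),(3,34),(16,3),(5,8),(3,9),(8,1),(21,8),(12,8),(10,2),(4,20),(0,4),(1,3),(0,7),(5,2),(0,7),(1,10),(64,4),(85,8),(172,5)]))
 (.nd 54 (.lf 2 [(2,8),(0,40),(0,8),(2,2),(0,34),(2,6),(0,17),(3,36),(2,8),(0,12),(0,4),(1,8),(0,12),(0,4),(0,4),(0,24),(0,8),(0,20),(0,20),(0,8),(1,20),(0,4),(1,8),(0,12),(0,4),(2,12),(0,220),(2,44),(15,4),(9,6),(12,12),(2,58),(0,28),(3,48),(46,8),(39,28),(2,16),(6,6),(0,12),(1,3),(13,10),(1,6),(1,10),(1,6),(155,5)])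
 (.lf 2 [(2,19),(0,22),(0,26),(2,3),(0,33),(0,11),(1,6),(0,12),(2,3),(0,30),(2,2),(0,18),(0,10),(1,2),(0,18),(0,10),(0,12),(0,16),(1,28),(0,12),(5,6),(0,28),(0,12),(2,28),(0,202),(2,38),(4,7),(7,16),(2,3),(9,17),(12,4),(2,49),(0,22),(3,13),(3,6),(11,6),(26,16),(6,28),(4,16),(1,6),(9,16),(19,11),(9,6),(0,1),(15,10),(3,10),(304,14)])))
 (.lf 12 [(1,393),(1,140),(0,148),(2,18),(0,198),(2,36),(0,104),(3,188),(1,84),(2,84),(0,84),(2,72),(0,240),(3,80),(0,72),(2,149),(0,19),(1,91),(0,110),(2,130),(0,1355),(2,105),(4,105),(7,85),(2,18),(9,36),(12,100),(2,351),(0,199),(3,363),(22,15),(6,72),(16,8),(10,38),(8,19),(19,209),(0,8),(8,36),(0,43),(1,79),(9,84),(0,80),(2,42),(1,30),(1,42),(42,19),(1,19),(1,12),(12,12),(63,4),(8,28),(24,32),(92,2),(54,43),(0,57)]))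
 (.nd 26 (.nd 64 (.lf 2 [(2,47),(0,1),(0,58),(2,6),(0,30),(3,45),(3,22),(1,27),(0,1),(1,11),(0,27),(0,1),(1,11),(1,12),(2,13),(0,12),(3,28),(0,12),(2,28),(0,12),(0,16),(0,245),(0,15),(16,10),(10,6),(15,54),(0,57),(3,102),(9,15),(12,15),(23,16),(13,16),(25,57),(0,1),(8,6),(0,12),(0,3),(0,21),(6,8),(26,14),(71,15),(83,11),(31,1),(0,7),(71,19),(23,5),(1,9)])
 (.lf 3 [(2,72),(1,96),(2,2),(0,52),(3,58),(3,42),(1,42),(2,18),(0,42),(2,18),(1,18),(2,20),(0,18),(2,20),(0,22),(0,20),(0,18),(2,42),(1,376),(0,24),(16,24),(0,7),(9,9),(15,90),(0,85),(3,163),(9,24),(12,24),(23,42),(16,2),(22,87),(0,2),(8,9),(0,18),(0,4),(0,31),(6,12),(26,21),(26,2),(1,20),(42,27),(83,24),(31,1),(0,20),(70,2),(0,26),(23,22),(1,22)]))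
 (.nd 0 (.nd 62 (.lf 3 [(2,72),(1,150),(3,78),(2,3),(4,96),(1,42),(2,18),(0,42),(2,18),(1,18),(0,10),(2,18),(2,24),(0,18),(0,6),(0,30),(0,60),(0,18),(2,402),(0,24),(16,78),(0,33),(3,24),(5,9),(6,24),(5,30),(2,144),(0,57),(3,189),(9,24),(12,24),(23,42),(14,18),(8,42),(15,87),(8,48),(0,9),(0,18),(0,3),(0,30),(6,12),(0,4),(25,16),(0,12),(70,54),(10,12),(72,78),(32,30),(2,4),(94,51)])
 (.lf 6 [(2,144),(0,23),(0,229),(2,18),(0,90),(2,25),(4,167),(1,84),(2,36),(0,84),(2,36),(1,36),(2,40),(0,36),(2,43),(0,102),(0,41),(0,43),(3,24),(0,799),(0,48),(9,23),(6,85),(10,25),(0,7),(5,3),(8,263),(0,134),(3,434),(9,48),(12,48),(23,84),(6,61),(10,5),(2,7),(1,31),(2,5),(13,235),(0,4),(8,18),(0,33),(1,51),(6,24),(0,18),(25,42),(71,63),(15,48),(67,131),(31,2),(0,40),(71,20),(25,109)]))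
 (.lf 1 [(3,3),(0,36),(2,3),(0,20),(2,11),(4,23),(3,6),(0,8),(0,3),(0,1),(1,5),(1,6),(2,7),(0,6),(2,16),(0,4),(1,6),(0,10),(0,4),(1,2),(0,121),(2,6),(1,24),(12,12),(7,5),(2,11),(0,8),(14,38),(0,17),(3,48),(6,2),(14,3),(24,11),(3,6),(19,4),(10,3),(4,27),(0,1),(8,3),(0,2),(1,5),(6,4),(0,3),(25,7),(71,10),(10,4),(1,4),(75,6),(0,6),(26,5),(97,6),(26,3)]))))))

theorem tr4_ok : chk 600 ws pp tr4 32768 2147483648 = true := by decide +kernel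

end Pool.Agent.LptT.G1
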