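import Pool.Agent.LptT.G1Rows

/-!
# Part 4 of the tree
-/

set_option autoImplicit false
set_option maxRecDepth 1000000

namespace Pool.Agent.LptT.G1

open Cert

/-- A part of the tree. -/
def tr5 : Tr :=
(.nd 5 (.nd 14 (.nd 28 (.nd 34 (.nd 20 (.nd 29 (.lf 12 [(0,75),(0,206),(0,40),(0,259),(0,40),(0,248),(3,51),(1,21),(1,129),(2,491),(2,168),(0,149),(0,19),(0,3),(0,72),(3,72),(0,168),(2,72),(0,168),(1,54),(0,114),(0,74),(0,14),(0,54),(0,114),(2,1414),(11,11),(6,36),(1,250),(0,250),(2,78),(5,15),(5,184),(4,35),(2,523),(0,87),(4,330),(26,96),(11,96),(33,42),(0,3),(6,46),(0,34),(82,31),(1,84),(48,40),(1,56),(1,9),(0,7),(21,235),(29,35),(122,19)])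
 (.lf 3 [(0,15),(0,57),(0,5),(0,67),(0,5),(0,48),(3,22),(3,23),(4,8),(0,34),(0,28),(0,2),(0,16),(0,18),(4,24),(0,18),(0,8),(0,14),(0,24),(0,18),(1,42),(0,18),(2,42),(0,18),(1,345),(18,9),(1,54),(0,54),(2,52),(5,13),(2,4),(3,19),(4,46),(1,94),(0,50),(4,115),(26,6),(32,24),(12,24),(1,5),(5,4),(0,1),(65,14),(15,6),(0,12),(3,4),(2,10),(4,21),(65,41),(102,19)]))
 (.nd 50 (.nd 26 (.nd 35 (.nd 37 (.lf 2 [(0,18),(0,30),(0,18),(0,32),(0,14),(0,26),(2,42),(3,16),(0,42),(2,32),(1,12),(0,12),(0,28),(2,12),(0,28),(2,28),(0,28),(1,16),(0,12),(0,16),(0,16),(0,4),(0,24),(0,16),(2,16),(0,24),(0,4),(0,262),(10,2),(9,6),(5,12),(2,29),(0,35),(10,16),(2,77),(0,51),(19,16),(44,4),(2,4),(12,18),(7,6),(0,62),(74,4),(1,4),(92,16),(84,4),(5,8)])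
 (.lf 2 [(0,18),(0,30),(0,18),(0,32),(0,14),(0,26),(2,42),(3,16),(0,42),(2,32),(2,40),(3,26),(0,26),(2,28),(0,28),(1,16),(0,12),(0,16),(0,16),(0,4),(0,24),(0,16),(2,16),(0,24),(0,4),(0,262),(10,2),(9,6),(5,12),(2,29),(0,35),(10,16),(2,77),(0,51),(6,12),(9,14),(47,4),(2,4),(12,18),(7,6),(0,62),(74,4),(1,4),(35,7),(0,6),(1,1),(53,16),(84,4),(5,8)]))
 (.lf 6 [(0,29),(0,124),(0,11),(0,134),(0,9),(0,97),(0,18),(4,18),(1,108),(2,162),(1,20),(0,64),(0,64),(0,20),(1,44),(3,47),(0,84),(1,32),(0,36),(0,44),(0,40),(1,84),(0,36),(2,84),(0,36),(1,546),(4,9),(5,1),(13,104),(1,18),(9,18),(5,18),(1,144),(5,230),(24,8),(1,37),(32,48),(12,48),(2,13),(4,20),(0,8),(83,10),(0,38),(0,21),(3,8),(1,36),(80,11),(90,38)]))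
 (.lf 3 [(0,24),(0,48),(0,15),(0,48),(1,76),(0,96),(0,9),(0,63),(2,9),(1,54),(2,80),(2,42),(0,18),(2,42),(0,18),(2,28),(0,42),(1,24),(0,18),(0,18),(0,24),(0,5),(0,37),(0,32),(1,14),(0,18),(2,286),(12,4),(10,96),(2,9),(8,4),(6,4),(1,76),(0,9),(16,24),(12,24),(1,14),(41,4),(6,2),(8,100),(9,5),(63,4),(8,14),(5,5),(41,5),(1,23),(0,14),(35,10),(51,9)]))
 (.nd 2 (.nd 7 (.lf 1 [(0,6),(0,18),(0,6),(0,14),(0,11),(0,14),(0,32),(0,3),(0,21),(2,3),(1,18),(0,3),(1,24),(2,14),(0,6),(2,14),(0,6),(1,14),(2,6),(2,20),(2,14),(0,6),(2,14),(0,6),(1,94),(14,1),(8,32),(2,3),(15,3),(1,24),(0,3),(16,8),(12,8),(7,8),(5,14),(8,6),(11,8),(12,8),(11,32),(88,3)])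
 (.lf 1 [(0,20),(1,24),(0,24),(1,24),(0,27),(0,3),(0,21),(1,1),(0,2),(1,18),(2,24),(2,13),(0,7),(2,11),(0,7),(2,6),(3,6),(0,14),(2,7),(0,11),(2,7),(0,9),(1,93),(23,27),(2,3),(17,23),(0,2),(12,1),(3,5),(12,4),(13,8),(11,4),(11,3),(1,1),(7,1),(2,14),(8,25),(9,2),(53,7),(24,4),(4,3),(21,1),(14,1),(56,10),(174,1),(2,9)]))
 (.lf 24 [(0,216),(0,288),(2,144),(0,141),(0,990),(0,72),(0,504),(2,72),(1,432),(2,648),(2,216),(0,180),(2,144),(0,216),(0,72),(0,30),(0,246),(3,144),(0,336),(1,141),(0,195),(0,114),(0,60),(0,141),(0,144),(0,3),(1,2184),(0,72),(5,288),(16,990),(2,72),(9,72),(5,72),(1,576),(13,36),(27,102),(2,192),(45,918),(63,117),(24,144),(4,57),(21,72),(14,81),(1,111),(2,30),(124,291),(102,51),(0,225)]))))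
 (.nd 6 (.nd 9 (.nd 46 (.lf 1 [(0,39),(1,8),(0,16),(0,8),(0,16),(5,3),(0,3),(0,18),(4,6),(2,14),(0,6),(2,14),(0,13),(0,14),(0,1),(1,5),(0,7),(0,8),(0,6),(1,14),(0,6),(2,13),(0,6),(1,99),(4,15),(13,3),(1,2),(0,2),(2,11),(1,3),(14,17),(2,24),(0,6),(4,32),(5,8),(11,8),(17,1),(23,7),(12,7),(180,6),(1,1),(4,3),(136,2),(10,9)])
 (.lf 1 [(0,29),(1,8),(0,16),(0,8),(0,16),(5,3),(0,3),(0,18),(4,6),(2,14),(0,6),(2,14),(2,14),(0,3),(1,6),(0,14),(2,14),(0,6),(2,13),(0,6),(1,99),(4,2),(13,3),(1,2),(0,2),(2,11),(1,3),(17,24),(0,6),(4,32),(5,8),(11,8),(7,8),(8,3),(3,8),(20,7),(12,7),(187,3),(136,2),(9,3),(10,1)]))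
 (.lf 1 [(0,72),(1,22),(1,26),(0,15),(1,3),(0,32),(3,28),(0,21),(4,6),(2,6),(0,7),(0,3),(2,2),(0,12),(0,8),(2,8),(0,34),(1,1),(0,13),(0,7),(2,12),(0,6),(1,147),(9,2),(15,11),(0,6),(3,3),(10,20),(2,24),(0,31),(0,4),(17,1),(21,2),(2,2),(20,5),(12,6),(7,3),(3,53),(9,1),(17,4),(1,4),(3,7),(96,1),(4,1),(32,2),(1,2),(83,22),(26,29),(29,17),(11,12),(2,2),(26,8)]))
 (.nd 9 (.lf 1 [(1,17),(1,27),(0,2),(0,22),(1,3),(0,29),(3,27),(0,21),(6,4),(0,4),(1,14),(0,14),(1,2),(0,12),(0,8),(2,8),(0,33),(0,2),(0,3),(0,11),(0,9),(2,9),(0,6),(1,139),(1,9),(6,3),(16,8),(0,6),(3,3),(10,21),(2,24),(0,30),(0,3),(10,2),(28,2),(2,2),(33,3),(3,8),(2,3),(4,45),(9,3),(5,1),(1,7),(112,3),(4,3),(32,2),(1,2),(17,15),(65,21),(17,53),(57,5),(22,13)])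
 (.lf 1 [(1,25),(2,21),(0,3),(2,35),(3,31),(0,21),(12,2),(0,12),(0,8),(2,8),(0,37),(0,2),(0,11),(0,3),(1,3),(0,11),(0,3),(1,3),(0,146),(1,5),(5,5),(12,3),(4,14),(0,6),(3,3),(10,10),(2,24),(0,34),(0,7),(10,6),(28,2),(2,2),(17,5),(12,5),(13,3),(0,46),(15,3),(2,3),(8,10),(1,7),(0,3),(0,7),(0,6),(0,7),(134,2),(1,2),(17,4),(65,25),(27,6),(21,3),(48,17)]))))
 (.nd 33 (.nd 35 (.lf 60 [(0,1394),(0,46),(0,840),(0,360),(0,1080),(0,360),(2,2580),(7,1292),(3,462),(2,822),(0,826),(0,5),(0,318),(0,512),(0,318),(0,125),(0,323),(0,517),(3,360),(0,840),(2,360),(0,840),(1,9900),(20,180),(4,1320),(2,900),(0,270),(0,450),(6,480),(3,148),(2,3330),(0,2550),(7,102),(41,37),(3,157),(1,480),(11,480),(13,272),(2,189),(3,180),(0,3900),(4,282),(5,630),(2,630),(0,97),(1,180),(0,180),(1,9),(0,5),(2,198),(0,78),(8,5),(300,2100)])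
 (.nd 38 (.nd 34 (.lf 3 [(0,41),(0,39),(0,18),(0,54),(0,18),(0,62),(4,9),(1,52),(3,134),(2,58),(0,2),(0,40),(0,38),(3,5),(2,28),(0,32),(2,28),(0,8),(0,34),(0,30),(0,4),(0,2),(0,28),(2,316),(20,9),(21,62),(1,63),(0,52),(4,63),(3,16),(17,20),(7,10),(1,13),(9,10),(3,14),(26,10),(7,2),(1,9),(0,9),(0,16),(9,6),(1,23),(1,11),(6,13),(7,7),(8,8),(9,13),(43,11),(38,4),(0,8),(3,16)])
 (.lf 3 [(0,148),(1,8),(0,112),(1,72),(4,9),(1,46),(5,18),(2,42),(0,18),(2,42),(0,24),(0,18),(0,8),(0,14),(0,24),(0,18),(2,10),(0,32),(0,22),(1,10),(0,32),(2,310),(4,6),(4,2),(1,38),(8,19),(0,10),(2,14),(16,58),(2,63),(0,46),(4,77),(17,24),(27,6),(26,14),(10,9),(5,14),(6,22),(1,6),(9,10),(0,4),(3,172),(101,10),(0,4),(0,10),(2,4),(92,12),(106,58)]))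
 (.nd 7 (.nd 30 (.lf 24 [(0,265),(0,400),(0,176),(0,488),(1,664),(4,72),(1,324),(3,690),(1,199),(3,144),(2,144),(0,80),(0,256),(0,176),(1,80),(0,256),(2,89),(0,247),(0,158),(1,89),(0,247),(0,26),(1,2436),(12,88),(7,72),(3,67),(17,114),(1,504),(0,324),(4,571),(5,137),(42,112),(23,103),(10,72),(0,36),(4,112),(6,180),(11,80),(5,168),(1,96),(47,72),(1,96),(48,89),(0,14),(0,89),(2,14),(20,32),(70,89),(55,56),(22,121),(30,656)])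
 (.lf 6 [(1,144),(1,144),(0,12),(0,120),(4,18),(1,92),(3,66),(1,75),(3,36),(0,36),(2,84),(2,36),(0,84),(2,36),(0,28),(0,64),(0,44),(1,20),(0,64),(2,620),(13,12),(6,38),(0,20),(2,28),(16,78),(2,126),(0,92),(4,154),(2,9),(29,48),(12,48),(3,8),(22,28),(10,18),(12,45),(1,11),(15,6),(48,36),(2,42),(48,20),(0,8),(0,20),(2,8),(147,24)]))
 (.nd 6 (.lf 6 [(0,288),(2,120),(0,47),(0,120),(4,18),(1,92),(3,156),(3,36),(2,84),(3,61),(0,52),(2,36),(2,28),(0,64),(0,44),(1,20),(0,64),(2,620),(4,144),(15,38),(0,20),(2,28),(17,12),(1,126),(0,92),(4,154),(5,84),(5,48),(12,48),(3,9),(20,8),(22,28),(10,18),(2,16),(9,45),(1,11),(6,16),(2,16),(9,18),(14,8),(81,20),(0,8),(0,20),(2,8),(55,23),(90,18)])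
 (.lf 2 [(2,7),(0,41),(0,7),(0,41),(4,6),(1,36),(3,155),(11,12),(0,9),(3,12),(0,10),(0,21),(0,17),(0,9),(0,5),(0,12),(2,212),(1,9),(18,6),(21,63),(1,42),(0,36),(4,42),(2,28),(9,12),(21,3),(17,3),(30,6),(0,12),(9,6),(1,15),(1,9),(6,14),(8,20),(0,6),(0,14),(0,6),(0,14),(13,5),(0,14),(0,8),(80,1),(0,4),(3,14),(99,3),(0,6),(36,57),(8,6),(0,20),(22,5),(44,44)])))))
 (.nd 64 (.lf 2 [(0,42),(1,72),(0,21),(0,1),(0,74),(2,58),(10,21),(0,15),(2,21),(0,15),(1,16),(0,12),(0,5),(0,9),(0,16),(0,12),(3,28),(0,12),(2,28),(0,12),(0,16),(0,290),(3,6),(4,18),(9,6),(6,16),(2,6),(12,29),(2,99),(0,57),(0,9),(6,3),(8,9),(2,3),(9,9),(20,4),(13,16),(24,96),(4,9),(5,6),(0,12),(0,3),(0,21),(9,7),(0,3),(281,78),(27,54),(2,29),(2,13),(1,5),(1,2),(0,2),(0,2),(0,2)])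
 (.lf 4 [(0,84),(1,108),(0,46),(1,154),(2,120),(2,2),(7,43),(0,24),(2,43),(0,24),(1,32),(0,24),(0,11),(0,19),(0,32),(0,24),(2,34),(0,22),(0,17),(0,29),(0,7),(1,44),(1,554),(3,12),(14,12),(6,36),(2,12),(7,64),(7,259),(0,27),(0,16),(15,19),(12,19),(20,8),(19,5),(6,12),(11,166),(4,19),(5,12),(0,24),(0,5),(0,41),(9,13),(0,5),(8,3),(40,5),(1,22),(112,84),(116,118),(29,61),(3,25),(1,9),(1,6),(0,6),(0,6),(0,4)]))))
 (.nd 27 (.nd 25 (.nd 58 (.lf 12 [(0,335),(1,241),(0,103),(0,7),(0,337),(4,23),(0,36),(0,584),(0,216),(2,256),(3,72),(0,72),(0,13),(0,81),(0,111),(0,43),(0,120),(0,48),(1,93),(0,99),(0,27),(1,86),(0,168),(2,72),(0,168),(2,72),(0,1197),(4,47),(13,36),(6,1115),(0,13),(17,315),(5,1367),(36,21),(4,41),(3,27),(8,674),(1,96),(12,96),(6,69),(2,12),(9,27),(9,15),(4,37),(3,48),(6,34),(2,7),(10,337),(12,56),(70,23),(9,11),(10,56),(167,12),(18,55)])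
 (.lf 4 [(0,99),(1,93),(0,26),(0,34),(0,85),(5,26),(0,117),(0,58),(2,75),(3,24),(0,24),(0,24),(0,24),(0,13),(0,13),(0,40),(0,16),(1,24),(0,34),(0,10),(1,14),(2,5),(1,19),(0,24),(2,416),(4,3),(13,12),(6,133),(0,12),(1,14),(0,14),(14,134),(5,217),(45,18),(7,56),(22,20),(2,4),(6,6),(2,4),(9,8),(4,4),(3,16),(9,15),(11,25),(0,7),(10,23),(91,14),(47,8),(20,9),(80,28),(36,2)]))
 (.nd 40 (.lf 60 [(0,1440),(1,1440),(1,1040),(0,400),(4,188),(2,917),(0,27),(1,600),(2,240),(0,960),(1,360),(0,480),(0,1020),(0,360),(0,27),(0,813),(0,413),(2,733),(0,467),(3,360),(0,360),(0,280),(0,280),(0,420),(0,420),(0,7167),(18,180),(6,2440),(1,8),(9,980),(3,480),(2,420),(5,3700),(2,600),(7,120),(8,540),(15,373),(2,53),(9,320),(41,220),(2,60),(4,163),(3,480),(6,27),(0,140),(8,200),(61,460),(52,200),(18,27),(1,27),(115,1347),(27,8),(3,1172),(5,333)])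
 (.lf 6 [(0,105),(0,36),(0,108),(0,48),(0,84),(0,44),(4,18),(2,92),(2,102),(4,51),(1,36),(0,99),(2,78),(0,39),(2,78),(0,36),(2,8),(0,64),(0,20),(1,44),(0,44),(1,672),(0,3),(9,12),(7,18),(6,156),(15,42),(2,84),(5,282),(12,15),(1,48),(4,15),(15,39),(12,42),(1,28),(3,8),(21,42),(2,24),(6,3),(3,28),(7,14),(9,3),(1,8),(0,8),(38,2),(220,90),(31,94)])))
 (.nd 28 (.lf 2 [(0,27),(0,19),(0,29),(0,19),(0,21),(0,23),(4,6),(0,6),(1,36),(5,15),(0,21),(2,19),(0,18),(2,21),(0,19),(2,21),(0,19),(2,11),(0,18),(2,18),(0,14),(1,194),(0,2),(17,6),(6,16),(15,13),(2,21),(0,27),(4,58),(2,9),(8,3),(2,6),(9,7),(1,7),(8,9),(2,7),(9,9),(1,6),(3,1),(12,2),(4,6),(3,2),(2,2),(10,6),(40,5),(102,4),(166,6),(4,2)])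
 (.nd 59 (.nd 53 (.lf 1 [(0,14),(1,24),(1,24),(4,5),(1,13),(7,6),(0,14),(2,6),(0,14),(1,6),(0,8),(0,8),(0,6),(0,6),(0,8),(4,10),(0,16),(0,8),(0,2),(1,6),(0,98),(18,3),(6,44),(5,2),(4,6),(4,2),(2,2),(0,11),(0,6),(3,65),(2,8),(11,8),(33,2),(1,4),(2,10),(33,2),(1,6),(3,12),(16,2),(130,8),(102,6),(26,1),(29,8),(1,9)])
 (.lf 1 [(0,14),(0,6),(0,18),(0,6),(0,18),(0,6),(4,3),(0,7),(7,6),(0,14),(2,6),(0,14),(1,4),(0,10),(0,7),(2,9),(4,10),(0,4),(0,2),(0,8),(0,6),(1,98),(18,3),(6,24),(15,12),(2,8),(0,11),(4,45),(2,8),(11,8),(18,1),(11,13),(0,1),(1,2),(1,4),(3,2),(31,3),(3,6),(17,4),(1,2),(93,4),(166,1),(29,7),(1,4)]))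
 (.lf 1 [(0,14),(0,6),(0,18),(0,6),(0,18),(0,6),(4,3),(1,3),(6,6),(0,14),(2,6),(0,14),(2,6),(0,8),(0,2),(0,4),(0,10),(6,3),(0,14),(0,14),(1,105),(18,3),(6,24),(9,11),(8,8),(0,11),(4,45),(2,8),(11,8),(33,4),(2,4),(1,2),(4,8),(2,3),(25,1),(1,5),(18,2),(10,8),(251,8),(31,11)])))))
 (.nd 28 (.nd 7 (.nd 41 (.lf 2 [(1,58),(1,28),(0,20),(6,6),(0,6),(0,36),(2,24),(1,5),(0,7),(0,8),(0,21),(0,3),(0,25),(0,9),(1,8),(0,20),(0,12),(2,12),(0,20),(0,8),(0,22),(0,6),(1,14),(0,14),(1,6),(0,22),(0,194),(2,10),(4,10),(7,10),(2,6),(7,6),(14,24),(2,48),(0,12),(4,42),(5,16),(3,1),(14,13),(31,2),(8,2),(52,3),(40,6),(1,2),(93,8),(152,16)])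
 (.lf 3 [(1,84),(2,80),(7,26),(0,63),(4,8),(0,34),(0,10),(1,18),(2,34),(0,12),(0,30),(0,18),(2,18),(0,38),(0,12),(0,30),(0,12),(1,8),(0,28),(0,10),(1,10),(0,308),(2,12),(4,12),(1,8),(7,8),(0,9),(1,17),(0,17),(2,3),(1,18),(3,9),(10,86),(2,72),(0,35),(1,14),(2,66),(11,16),(5,16),(38,10),(12,8),(9,2),(0,4),(78,2),(16,4),(78,12),(83,8),(68,74)]))
 (.nd 9 (.nd 56 (.lf 3 [(3,77),(0,15),(6,3),(0,15),(0,60),(1,3),(0,52),(1,34),(0,3),(1,26),(0,23),(1,5),(0,37),(1,18),(0,42),(2,18),(0,42),(1,42),(0,40),(2,20),(0,18),(0,20),(0,22),(0,314),(0,16),(5,5),(8,4),(4,1),(2,8),(2,15),(3,6),(10,20),(2,72),(0,27),(4,63),(8,5),(8,8),(8,24),(11,24),(17,2),(26,9),(0,22),(74,20),(1,2),(35,5),(2,5),(72,20),(14,18),(149,17),(4,2)])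
 (.lf 1 [(2,8),(0,16),(0,10),(3,7),(2,2),(0,4),(0,19),(2,20),(1,7),(2,13),(0,7),(2,13),(1,6),(0,14),(2,6),(0,14),(3,6),(0,8),(2,6),(0,8),(0,103),(0,1),(14,2),(4,3),(5,4),(3,1),(13,24),(0,7),(4,14),(5,7),(2,1),(8,7),(3,1),(4,8),(11,8),(13,2),(12,2),(17,3),(0,3),(203,2),(149,4)]))
 (.nd 61 (.nd 36 (.lf 1 [(2,28),(1,23),(6,2),(0,4),(0,19),(1,1),(0,18),(1,16),(0,14),(1,2),(0,8),(0,6),(3,6),(0,14),(2,6),(0,14),(3,6),(0,8),(1,14),(0,14),(1,119),(0,10),(2,4),(6,4),(4,3),(4,22),(0,19),(3,7),(0,4),(3,1),(10,6),(2,24),(0,8),(4,28),(21,2),(4,8),(11,8),(14,2),(29,3),(35,6),(1,2),(41,6),(2,4),(9,2),(92,2),(2,4),(15,5),(128,9),(20,21)])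
 (.lf 2 [(2,59),(0,2),(0,42),(6,7),(1,35),(2,52),(3,16),(0,12),(0,11),(0,15),(3,11),(0,27),(0,1),(1,12),(0,27),(0,1),(1,2),(0,14),(0,10),(1,28),(0,24),(1,225),(3,11),(6,13),(4,6),(4,6),(4,21),(0,5),(2,1),(5,4),(6,4),(1,53),(0,7),(4,63),(1,4),(18,1),(3,3),(1,15),(11,14),(11,2),(21,4),(7,1),(2,6),(0,23),(34,12),(27,1),(23,1),(1,1),(2,13),(111,9),(93,2),(34,23),(20,31)]))
 (.lf 3 [(2,87),(1,25),(6,4),(0,14),(0,59),(2,30),(1,20),(0,22),(0,12),(0,10),(0,20),(0,22),(3,18),(0,42),(2,18),(0,42),(2,11),(0,25),(1,18),(2,42),(0,330),(0,2),(2,42),(6,15),(4,62),(4,9),(5,14),(3,5),(10,42),(2,72),(0,23),(4,63),(21,2),(2,4),(1,24),(11,24),(11,7),(7,7),(6,24),(17,9),(0,18),(5,12),(72,10),(2,4),(9,14),(92,14),(3,27),(108,12),(34,38),(20,34)]))))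
 (.nd 7 (.nd 52 (.lf 1 [(1,32),(1,16),(0,8),(6,3),(0,12),(3,14),(1,6),(2,6),(0,10),(0,4),(1,2),(0,11),(0,3),(1,9),(0,16),(0,6),(2,13),(0,1),(1,7),(0,11),(2,9),(0,116),(2,8),(4,8),(7,4),(2,3),(6,20),(2,3),(13,1),(1,30),(0,19),(4,41),(21,4),(14,1),(8,10),(10,5),(8,1),(3,3),(14,19),(1,10),(8,3),(0,5),(1,8),(9,3),(0,2),(2,4),(1,4),(44,1),(1,1),(14,4),(72,1),(24,3),(146,11),(1,2)])
 (.lf 24 [(1,837),(1,394),(0,182),(6,72),(0,264),(3,439),(1,144),(2,178),(0,189),(0,10),(1,134),(0,192),(0,144),(0,144),(0,192),(3,96),(0,288),(0,48),(1,192),(0,192),(1,48),(0,288),(0,2787),(2,261),(4,144),(7,182),(2,72),(6,487),(2,72),(12,62),(2,754),(0,425),(4,991),(5,34),(15,45),(20,48),(13,48),(8,48),(18,459),(10,72),(0,113),(1,185),(10,120),(2,79),(1,79),(1,69),(1,34),(40,48),(1,48),(14,45),(31,41),(32,72),(9,38),(22,89),(146,75),(1,62),(20,38)]))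
 (.nd 26 (.nd 64 (.nd 58 (.lf 2 [(2,43),(1,55),(5,4),(1,63),(3,5),(1,19),(0,9),(1,10),(0,12),(0,2),(0,7),(0,17),(2,13),(0,13),(0,7),(0,7),(1,5),(1,30),(0,11),(0,1),(0,9),(0,19),(0,3),(0,25),(0,228),(0,7),(8,5),(7,7),(0,6),(7,2),(17,30),(0,51),(4,42),(45,11),(5,1),(32,23),(1,8),(9,16),(0,1),(0,21),(6,14),(2,1),(88,7),(6,17),(116,8),(52,2),(1,2),(0,7),(0,2),(3,8),(7,20),(52,2)])
 (.lf 2 [(2,48),(1,64),(7,42),(3,26),(1,26),(0,2),(1,12),(0,24),(2,13),(2,13),(0,13),(0,7),(0,7),(1,6),(0,8),(1,12),(2,28),(0,12),(0,16),(0,248),(0,14),(16,16),(0,6),(6,72),(15,2),(2,57),(0,57),(4,114),(8,12),(12,11),(23,22),(4,8),(2,12),(5,16),(24,54),(1,8),(8,3),(0,15),(0,3),(0,21),(6,14),(2,1),(54,1),(33,1),(6,21),(83,12),(5,2),(26,14),(68,5),(2,15),(25,12),(26,2)]))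
 (.lf 6 [(2,144),(1,165),(6,16),(0,121),(3,57),(1,84),(2,36),(0,84),(2,36),(2,39),(0,39),(0,20),(0,20),(1,16),(1,58),(0,58),(3,133),(1,703),(0,48),(2,42),(13,21),(2,72),(0,54),(6,18),(3,2),(11,153),(0,148),(4,126),(8,48),(12,48),(23,45),(16,22),(1,36),(5,49),(12,18),(0,9),(1,23),(8,18),(0,36),(1,56),(6,42),(2,3),(10,13),(39,13),(1,9),(42,47),(116,31),(61,40),(6,27),(3,7),(24,11),(23,21)]))
 (.nd 8 (.nd 63 (.lf 2 [(2,48),(1,72),(6,21),(4,36),(1,24),(2,12),(0,24),(2,12),(1,12),(0,12),(2,12),(2,28),(2,24),(0,28),(2,12),(0,236),(0,48),(16,24),(2,42),(0,36),(3,12),(2,21),(0,15),(14,75),(0,27),(4,54),(8,12),(12,12),(23,20),(10,4),(11,32),(14,6),(11,6),(0,4),(1,11),(6,8),(26,8),(0,8),(70,20),(12,12),(2,12),(53,6),(15,18),(2,2),(27,16),(123,2),(0,2)])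
 (.lf 3 [(2,72),(1,72),(6,27),(4,18),(1,36),(2,18),(0,36),(2,18),(1,26),(0,22),(2,18),(2,6),(0,36),(0,12),(2,36),(2,318),(0,18),(19,9),(7,27),(0,18),(14,90),(0,27),(4,63),(8,18),(12,18),(9,4),(27,18),(9,60),(0,18),(12,9),(0,18),(10,9),(9,8),(2,8),(23,4),(0,12),(70,13),(116,9)]))
 (.lf 1 [(3,8),(0,48),(6,3),(4,29),(1,6),(0,8),(2,6),(0,8),(3,6),(0,6),(2,6),(3,6),(0,4),(1,2),(0,6),(2,131),(13,1),(3,25),(0,3),(1,25),(0,25),(3,7),(2,3),(8,11),(3,14),(2,45),(0,19),(4,28),(11,2),(12,2),(20,14),(5,2),(16,4),(26,3),(0,6),(1,9),(6,4),(23,5),(0,5),(1,4),(0,4),(70,19),(69,16),(13,7),(5,6),(26,10),(62,9),(58,12),(1,6)]))))))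

theorem tr5_ok : chk 600 ws pp tr5 0 2147516416 = true := by decide +kernel

end Pool.Agent.LptT.G1
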