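import Pool.Agent.LptT.G1Tree0
import Pool.Agent.LptT.G1Tree1
import Pool.Agent.LptT.G1Tree2
import Pool.Agent.LptT.G1Tree3
import Pool.Agent.LptT.G1Tree4

/-!
# The tree
-/

set_option autoImplicit false
set_option maxRecDepth 1000000

namespace Pool.Agent.LptT.G1

open Cert

/-- The tree. -/
def tr : Tr :=
  (.nd 31 (.nd 25 (.nd 0 (.nd 3 tr0 tr1) tr2) tr3) (.nd 15 tr4 tr5))

theorem chk_nd {M : ℕ} {w p : List ℕ} {e : ℕ} {l r : Tr} {a b : ℕ}
    (h1 : chk M w p l (a ||| 2 ^ e) b = true) (h2 : chk M w p r a (b ||| 2 ^ e) = true) :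
    chk M w p (.nd e l r) a b = true := by
  show (_ && _) = true
  rw [h1, h2]
  rfl

theorem tr_ok : chk 600 ws pp tr 0 0 = true :=
  (chk_nd (chk_nd (chk_nd (chk_nd tr0_ok tr1_ok) tr2_ok) tr3_ok) (chk_nd tr4_ok tr5_ok))

end Pool.Agent.LptT.G1
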