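import Pool.Agent.LptT.Defs
import Pool.Agent.LptT.CertDefs

/-!
# From the list form of the pattern lemma to patterns
-/

set_option autoImplicit false

namespace Pool.Agent.LptT

open Cert

/-- The list of edges `es` describes the pattern `P`, up to the factor `c` in the weights. -/
def Describes (P : Pat) (c : ℕ) (es : EL) : Prop :=
  es.length = P.m ∧ ∀ e : Fin P.m, e1 es e.val = (P.a e).1.val ∧
    e2 es e.val = (match P.b e with | none => P.n | some q => q.1.val) ∧ P.w e = c * ew es e.val

open Classical in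
private noncomputable def Glue_x {P : Pat} (x : Finset (Fin P.m)) (i : ℕ) : Bool :=
  decide (∃ h : i < P.m, (⟨i, h⟩ : Fin P.m) ∈ x)

private theorem Glue_x_iff {P : Pat} (x : Finset (Fin P.m)) (e : Fin P.m) :
    Glue_x x e.val = true ↔ e ∈ x := by
  unfold Glue_x
  rw [decide_eq_true_iff]
  exact ⟨fun ⟨_, h⟩ => h, fun h => ⟨e.2, h⟩⟩

private theorem Glue_e2 {P : Pat} {c : ℕ} {es : EL} (hd : Describes P c es) (e : Fin P.m) :
    (P.b e = none ∧ e2 es e.val = P.n) ∨ ∃ q, P.b e = some q ∧ e2 es e.val = q.1.val := by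
  have h := (hd.2 e).2.1
  rcases hb : P.b e with _ | q
  · left
    rw [hb] at h
    exact ⟨rfl, h⟩
  · right
    rw [hb] at h
    exact ⟨q, rfl, h⟩

private theorem Glue_dg {P : Pat} {c : ℕ} {es : EL} (hd : Describes P c es) (x : Finset (Fin P.m))
    (v : ℕ) : dg es (Glue_x x) v =
      ∑ e : Fin P.m, ((if e ∈ x ∧ (P.a e).1.val = v then 1 else 0) +
        (if e ∈ x ∧ e2 es e.val = v then 1 else 0)) := by
  unfold dg
  rw [hd.1, Finset.sum_range]
  refine Finset.sum_congr rfl fun e _ => ?_
  rw [(hd.2 e).1]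
  have h := Glue_x_iff x e
  by_cases he : e ∈ x
  · have h1 : Glue_x x e.val = true := h.2 he
    simp only [h1, he, true_and]
  · have h1 : Glue_x x e.val = false := by
      rw [← Bool.not_eq_true]
      exact fun h2 => he (h.1 h2)
    simp [h1, he]

private theorem Glue_cntA {P : Pat} (x : Finset (Fin P.m)) (v : Fin P.n) :
    ((Finset.univ : Finset (Fin 3)).filter
        (fun t => P.edge (v, t) ∈ x ∧ (P.sl (v, t)).2 = false)).card =
      ((Finset.univ : Finset (Fin P.m)).filter (fun e => e ∈ x ∧ (P.a e).1.val = v.val)).card := by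
  refine Finset.card_bij (fun t _ => (P.sl (v, t)).1) ?_ ?_ ?_
  · intro t ht
    rw [Finset.mem_filter] at ht ⊢
    refine ⟨Finset.mem_univ _, ht.2.1, ?_⟩
    rw [P.a_sl _ ht.2.2]
  · intro t ht t' ht' he
    rw [Finset.mem_filter] at ht ht'
    have h1 := P.a_sl _ ht.2.2
    have h2 := P.a_sl _ ht'.2.2
    rw [he, h2] at h1
    exact (congrArg Prod.snd h1).symm
  · intro e he
    rw [Finset.mem_filter] at he
    have h1 : (v, (P.a e).2) = P.a e := Prod.ext (Fin.ext he.2.2.symm) rfl
    refine ⟨(P.a e).2, ?_, ?_⟩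
    · rw [Finset.mem_filter]
      refine ⟨Finset.mem_univ _, ?_, ?_⟩
      · unfold Pat.edge
        rw [h1, P.sl_a]
        exact he.2.1
      · rw [h1, P.sl_a]
    · rw [h1, P.sl_a]

private theorem Glue_cntB {P : Pat} {c : ℕ} {es : EL} (hd : Describes P c es) (x : Finset (Fin P.m))
    (v : Fin P.n) :
    ((Finset.univ : Finset (Fin 3)).filter
        (fun t => P.edge (v, t) ∈ x ∧ ¬ (P.sl (v, t)).2 = false)).card =
      ((Finset.univ : Finset (Fin P.m)).filter (fun e => e ∈ x ∧ e2 es e.val = v.val)).card := by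
  refine Finset.card_bij (fun t _ => (P.sl (v, t)).1) ?_ ?_ ?_
  · intro t ht
    rw [Finset.mem_filter] at ht ⊢
    refine ⟨Finset.mem_univ _, ht.2.1, ?_⟩
    have h1 := P.b_sl _ (by simpa using ht.2.2)
    rcases Glue_e2 hd (P.sl (v, t)).1 with ⟨h2, -⟩ | ⟨q, h2, h3⟩
    · rw [h2] at h1
      exact absurd h1 (by simp)
    · rw [h3]
      rw [h2] at h1
      rw [Option.some.inj h1]
  · intro t ht t' ht' he
    rw [Finset.mem_filter] at ht ht'
    have h1 := P.b_sl _ (by simpa using ht.2.2)
    have h2 := P.b_sl _ (by simpa using ht'.2.2)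
    rw [he, h2] at h1
    exact (congrArg Prod.snd (Option.some.inj h1)).symm
  · intro e he
    rw [Finset.mem_filter] at he
    rcases Glue_e2 hd e with ⟨-, h3⟩ | ⟨q, h2, h3⟩
    · exfalso
      have h4 := he.2.2
      rw [h3] at h4
      have := v.2
      omega
    · have h4 := he.2.2
      rw [h3] at h4
      have h1 : (v, q.2) = q := Prod.ext (Fin.ext h4.symm) rfl
      have h5 := P.sl_b e q h2
      refine ⟨q.2, ?_, ?_⟩
      · rw [Finset.mem_filter]
        refine ⟨Finset.mem_univ _, ?_, ?_⟩
        · unfold Pat.edge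
          rw [h1, h5]
          exact he.2.1
        · rw [h1, h5]
          simp
      · rw [h1, h5]

private theorem Glue_deg {P : Pat} {c : ℕ} {es : EL} (hd : Describes P c es) (x : Finset (Fin P.m))
    (v : Fin P.n) : dg es (Glue_x x) v.val =
      ((Finset.univ : Finset (Fin 3)).filter (fun t => P.edge (v, t) ∈ x)).card := by
  classical
  rw [Glue_dg hd, Finset.sum_add_distrib, ← Finset.card_filter, ← Finset.card_filter,
    ← Glue_cntA x v, ← Glue_cntB hd x v]
  rw [← Finset.filter_filter, ← Finset.filter_filter]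
  exact Finset.card_filter_add_card_filter_not _

/-- PROOF.  `x' i := decide (∃ h : i < P.m, ⟨i, h⟩ ∈ x)`.  `LCyc P.n es x'`: for `v < n`,
`dg es x' v = ∑ e ∈ x, ([(a e).1 = v] + [b e = some q, q.1 = v])` is the number of slots `(v, t)` with
`edge (v, t) ∈ x`: the slots `p` with `edge p ∈ x` are, for `e ∈ x`, the slot `a e` and, if `b e = some q`, the slot
`q` (`sl_a`, `sl_b`, `a_sl`, `b_sl`); so it is 0 or 2 by `Cyc.deg`.  `dg es x' n = #{e ∈ x | b e = none} = 2`
(`(a e).1 < n`).  `conn`: let `X : ℕ → Bool` with `X n = false`, and `v` with `X v = true`, `dg ≠ 0`; then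
`v < n` and some slot of `v` is used, so `Cyc.conn` for the set `{v | X v = true}` gives a used slot `(v', t)` with
`X v' = true` whose opposite end is infinity or outside of `X`; the edge `i = edge (v', t)` has
`X (e1 i) ≠ X (e2 i)` (cases on `(P.sl (v', t)).2`).  Finally
`∑ e ∈ x, w e = c * ∑ i < m, x'_i * ew i`. -/
theorem glue_ub {P : Pat} {c M : ℕ} {es : EL} (hd : Describes P c es)
    (hL : ∀ x : ℕ → Bool, LCyc P.n es x →
      ∑ i ∈ Finset.range es.length, (if x i = true then ew es i else 0) ≤ M) :
    ∀ x : Finset (Fin P.m), P.Cyc x → ∑ e ∈ x, P.w e ≤ c * M := by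
  classical
  intro x hx
  have hcyc : LCyc P.n es (Glue_x x) := by
    refine ⟨?_, ?_, ?_⟩
    · intro v hv
      have h1 := hx.deg ⟨v, hv⟩
      rw [← Glue_deg hd x ⟨v, hv⟩] at h1
      exact h1
    · rw [Glue_dg hd, Finset.sum_add_distrib, ← Finset.card_filter, ← Finset.card_filter, ← hx.inf]
      have h1 : (Finset.univ : Finset (Fin P.m)).filter (fun e => e ∈ x ∧ (P.a e).1.val = P.n) = ∅ := by
        refine Finset.filter_eq_empty_iff.2 ?_
        intro e _ h
        have := (P.a e).1.2
        omega
      have h2 : (Finset.univ : Finset (Fin P.m)).filter (fun e => e ∈ x ∧ e2 es e.val = P.n) =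
          x.filter (fun e => P.b e = none) := by
        ext e
        rw [Finset.mem_filter, Finset.mem_filter]
        constructor
        · rintro ⟨-, h3, h4⟩
          refine ⟨h3, ?_⟩
          rcases Glue_e2 hd e with ⟨h5, -⟩ | ⟨q, -, h6⟩
          · exact h5
          · have := q.1.2
            omega
        · rintro ⟨h3, h4⟩
          refine ⟨Finset.mem_univ _, h3, ?_⟩
          rcases Glue_e2 hd e with ⟨-, h5⟩ | ⟨q, h5, -⟩
          · exact h5
          · rw [h4] at h5
            exact absurd h5 (by simp)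
      rw [h1, h2, Finset.card_empty, zero_add]
    · intro X hXn hv
      obtain ⟨v, hXv, hdv⟩ := hv
      have hvn : v < P.n := by
        rw [Glue_dg hd] at hdv
        obtain ⟨e, -, he⟩ := Finset.exists_ne_zero_of_sum_ne_zero hdv
        by_contra hcon
        apply he
        have h1 : ¬ (e ∈ x ∧ (P.a e).1.val = v) := by
          rintro ⟨-, h⟩
          have := (P.a e).1.2
          omega
        have h2 : ¬ (e ∈ x ∧ e2 es e.val = v) := by
          rintro ⟨-, h⟩
          rcases Glue_e2 hd e with ⟨-, h5⟩ | ⟨q, -, h5⟩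
          · rw [h5] at h
            rw [← h, hXn] at hXv
            exact absurd hXv (by simp)
          · have := q.1.2
            omega
        rw [if_neg h1, if_neg h2, add_zero]
      have h1 : ∃ u ∈ (Finset.univ : Finset (Fin P.n)).filter (fun u => X u.val = true),
          ∃ t, P.edge (u, t) ∈ x := by
        refine ⟨⟨v, hvn⟩, by rw [Finset.mem_filter]; exact ⟨Finset.mem_univ _, hXv⟩, ?_⟩
        rw [show v = (⟨v, hvn⟩ : Fin P.n).val from rfl, Glue_deg hd] at hdv
        obtain ⟨t, ht⟩ := Finset.card_pos.1 (Nat.pos_of_ne_zero hdv)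
        exact ⟨t, (Finset.mem_filter.1 ht).2⟩
      obtain ⟨u, hu, t, ht, hopp⟩ := hx.conn _ h1
      have hXu := (Finset.mem_filter.1 hu).2
      refine ⟨(P.edge (u, t)).val, by rw [hd.1]; exact (P.edge (u, t)).2,
        (Glue_x_iff x _).2 ht, ?_⟩
      have e1' := (hd.2 (P.edge (u, t))).1
      rw [e1']
      unfold Pat.opp at hopp
      by_cases hs : (P.sl (u, t)).2 = true
      · rw [if_pos hs] at hopp
        have h2 := hopp _ rfl
        have h3 : e2 es (P.edge (u, t)).val = u.val := by
          have h4 := P.b_sl _ hs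
          rcases Glue_e2 hd (P.edge (u, t)) with ⟨h5, -⟩ | ⟨q, h5, h6⟩
          · unfold Pat.edge at h5
            rw [h5] at h4
            exact absurd h4 (by simp)
          · unfold Pat.edge at h5
            rw [h5] at h4
            rw [h6, Option.some.inj h4]
        rw [h3, hXu]
        intro h5
        apply h2
        rw [Finset.mem_filter]
        exact ⟨Finset.mem_univ _, h5⟩
      · rw [if_neg hs] at hopp
        have hs' : (P.sl (u, t)).2 = false := by simpa using hs
        have h3 : (P.a (P.edge (u, t))).1.val = u.val := by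
          unfold Pat.edge
          rw [P.a_sl _ hs']
        rw [h3, hXu]
        rcases Glue_e2 hd (P.edge (u, t)) with ⟨-, h5⟩ | ⟨q, h5, h6⟩
        · rw [h5, hXn]
          simp
        · rw [h6]
          intro h7
          apply hopp q h5
          rw [Finset.mem_filter]
          exact ⟨Finset.mem_univ _, h7.symm⟩
  have h := hL _ hcyc
  calc ∑ e ∈ x, P.w e = ∑ e ∈ x, c * ew es e.val :=
        Finset.sum_congr rfl fun e _ => (hd.2 e).2.2
    _ = c * ∑ e ∈ x, ew es e.val := by rw [Finset.mul_sum]
    _ = c * ∑ i ∈ Finset.range es.length, (if Glue_x x i = true then ew es i else 0) := by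
        congr 1
        rw [hd.1, Finset.sum_range, ← Finset.sum_filter]
        refine Finset.sum_congr ?_ fun _ _ => rfl
        ext e
        rw [Finset.mem_filter, Glue_x_iff]
        exact ⟨fun h => ⟨Finset.mem_univ _, h⟩, fun h => h.2⟩
    _ ≤ c * M := Nat.mul_le_mul_left c h

end Pool.Agent.LptT
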