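import Pool.Agent.LptT.FragB

/-!
# From sets of vertices to sets of edges of the pattern
-/

set_option autoImplicit false

namespace Pool.Agent.LptT

open Classical in
private noncomputable def Kill_phi {P : Pat} (S : Finset P.VG) : P.VG → Fin P.m
  | .inl p => if P.fx S p.1 = {p.2} then P.edge (p.1, kslot p.2) else
      if ∀ y ∈ P.fx S p.1, p.2 ≤ y then P.edge (p.1, 0) else P.edge (p.1, 1)
  | .inr c => c.1

open Classical in
private theorem Kill_phi_inl {P : Pat} (S : Finset P.VG) (v : Fin P.n) (x : Fin 9) :
    Kill_phi S (Sum.inl (v, x)) = if P.fx S v = {x} then P.edge (v, kslot x) else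
      if ∀ y ∈ P.fx S v, x ≤ y then P.edge (v, 0) else P.edge (v, 1) := rfl

private theorem Kill_third : ∀ i j : Fin 3, ∃ t : Fin 3, t ≠ i ∧ t ≠ j := by decide

/-- PROOF.  `K` is the image of `S` under the map `φ` with `φ (inr c) = c.1`, and for `inl (v, x) ∈ S`:
if `x` is the only element of `fx S v` then `edge (v, kslot x)`; otherwise `edge (v, 0)` if `x` is the minimum
of `fx S v` and `edge (v, 1)` if not.  So `K.card ≤ S.card`.  Let `i ≠ j`, `edge (v, i), edge (v, j) ∉ K`.
If `fx S v = ∅`: let `t` be the third slot, `h = term t` (`kslot_term`).  If `fx S v = {x}`: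
`edge (v, kslot x) ∈ K`, so `h = x`.  If `fx S v` has at least two elements then `edge (v, 0)` and
`edge (v, 1)` are in `K`, so `i = 2 = j`: contradiction. -/
theorem exists_kill {P : Pat} (S : Finset P.VG) :
    ∃ K : Finset (Fin P.m), K.card ≤ S.card ∧ (∀ c : P.CV, Sum.inr c ∈ S → c.1 ∈ K) ∧
      ∀ (v : Fin P.n) (i j : Fin 3), i ≠ j → P.edge (v, i) ∉ K → P.edge (v, j) ∉ K →
        ∃ h : Fin 9, kslot h ≠ i ∧ kslot h ≠ j ∧ ∀ x, Sum.inl (v, x) ∈ S → x = h := by
  classical
  have hmem : ∀ z ∈ S, Kill_phi S z ∈ S.image (Kill_phi S) := fun z hz => Finset.mem_image_of_mem _ hz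
  refine ⟨S.image (Kill_phi S), Finset.card_image_le, fun c hc => hmem _ hc, ?_⟩
  intro v i j hij hi hj
  rcases Finset.eq_empty_or_nonempty (P.fx S v) with h0 | h0
  · obtain ⟨t, ht1, ht2⟩ := Kill_third i j
    refine ⟨term t, by rw [kslot_term]; exact ht1, by rw [kslot_term]; exact ht2, ?_⟩
    intro x hx
    have h1 := (P.mem_fx S v x).2 hx
    rw [h0] at h1
    exact absurd h1 (Finset.notMem_empty x)
  · obtain ⟨x, hx, hmin⟩ := Finset.exists_min_image (P.fx S v) id h0
    have hxS := (P.mem_fx S v x).1 hx
    by_cases hone : P.fx S v = {x}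
    · have h1 : P.edge (v, kslot x) ∈ S.image (Kill_phi S) := by
        have h2 := hmem _ hxS
        have h3 : Kill_phi S (Sum.inl (v, x)) = P.edge (v, kslot x) := by
          rw [Kill_phi_inl, if_pos hone]
        rwa [h3] at h2
      refine ⟨x, ?_, ?_, ?_⟩
      · rintro rfl
        exact hi h1
      · rintro rfl
        exact hj h1
      · intro y hy
        have h2 := (P.mem_fx S v y).2 hy
        rw [hone, Finset.mem_singleton] at h2
        exact h2
    · obtain ⟨y, hy, hyx⟩ : ∃ y ∈ P.fx S v, y ≠ x := by
        by_contra hcon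
        push Not at hcon
        exact hone (Finset.eq_singleton_iff_unique_mem.2 ⟨hx, hcon⟩)
      have hyS := (P.mem_fx S v y).1 hy
      have h0' : P.edge (v, 0) ∈ S.image (Kill_phi S) := by
        have h2 := hmem _ hxS
        have h3 : Kill_phi S (Sum.inl (v, x)) = P.edge (v, 0) := by
          rw [Kill_phi_inl, if_neg hone, if_pos (show ∀ y ∈ P.fx S v, x ≤ y from hmin)]
        rwa [h3] at h2
      have h1' : P.edge (v, 1) ∈ S.image (Kill_phi S) := by
        have h2 := hmem _ hyS
        have h3 : Kill_phi S (Sum.inl (v, y)) = P.edge (v, 1) := by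
          have e1 : ¬ (P.fx S v = {y}) := by
            intro h4
            have h5 : x ∈ ({y} : Finset (Fin 9)) := by
              rw [← h4]
              exact hx
            exact hyx (Finset.mem_singleton.1 h5).symm
          have e2 : ¬ (∀ z ∈ P.fx S v, y ≤ z) := by
            intro h4
            have h5 : y ≤ x := h4 x hx
            have h6 : x ≤ y := hmin y hy
            exact hyx (le_antisymm h5 h6)
          rw [Kill_phi_inl, if_neg e1, if_neg e2]
        rwa [h3] at h2
      exfalso
      have hi0 : i ≠ 0 := by rintro rfl; exact hi h0'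
      have hi1 : i ≠ 1 := by rintro rfl; exact hi h1'
      have hj0 : j ≠ 0 := by rintro rfl; exact hj h0'
      have hj1 : j ≠ 1 := by rintro rfl; exact hj h1'
      have hi2 : i = 2 := by
        clear hj0 hj1 hi hj hij
        revert hi0 hi1
        revert i
        decide
      have hj2 : j = 2 := by
        clear hi0 hi1 hi hj hij hi2
        revert hj0 hj1
        revert j
        decide
      exact hij (hi2.trans hj2.symm)

end Pool.Agent.LptT
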