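import Pool.Agent.LptT.Upper
import Pool.Agent.LptT.ExpandB
import Pool.Agent.LptT.Kill
import Pool.Agent.LptT.Connected

/-!
# The reduction theorem
-/

set_option autoImplicit false

namespace Pool.Agent.LptT

/-- **Reduction.**  From a good pattern we get a connected graph in which every set of at most `k` vertices
is missed by a longest path.

PROOF.  The graph is `P.gr`; `gr_connected`.  Let `S` have at most `k` elements, `K` from `exists_kill`,
`l` from `hP.ex K`.  For `s ∈ l`, `exists_kill` with `v = s.1`, `i = s.2.1`, `j = s.2.2` (`turn`) gives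
`hit s` (choice).  `exists_list` gives a list of vertices `L` with `M + 2 * T` members, nonempty because
`T > 0` or `wt > 0` (`hw`), and `exists_path_of_list` a path with support `L`.  It avoids `S`: a vertex `inr c ∈ L` has
`c.1 ∉ K`, so `inr c ∉ S`; a vertex `inl p ∈ L` has a step `s ∈ l` with `s.1 = p.1` and `p.2 ≠ hit s`, and
`inl p ∈ S` would give `p.2 = hit s`.  It is a longest path by `walk_le`. -/
theorem reduction {P : Pat} {k M : ℕ} (hP : P.Good k M) :
    P.gr.Connected ∧ ∀ S : Finset P.VG, S.card ≤ k →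
      ∃ (u v : P.VG) (p : P.gr.Walk u v), p.IsPath ∧
        (∀ (a b : P.VG) (q : P.gr.Walk a b), q.IsPath → q.length ≤ p.length) ∧
          ∀ x ∈ S, x ∉ p.support := by
  classical
  refine ⟨gr_connected hP.conn, ?_⟩
  intro S hS
  obtain ⟨K, hK, hKc, hKf⟩ := exists_kill S
  obtain ⟨l, hl, hlK, hw⟩ := hP.ex K (le_trans hK hS)
  have hhit : ∀ s : Fin P.n × Fin 3 × Fin 3, ∃ h : Fin 9, s ∈ l →
      (kslot h ≠ s.2.1 ∧ kslot h ≠ s.2.2 ∧ ∀ x, Sum.inl (s.1, x) ∈ S → x = h) := by
    intro s
    by_cases hs : s ∈ l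
    · obtain ⟨h, hh⟩ := hKf s.1 s.2.1 s.2.2 (hl.turn s hs) (hlK s hs).1 (hlK s hs).2
      exact ⟨h, fun _ => hh⟩
    · exact ⟨0, fun h => absurd h hs⟩
  choose hit hhit using hhit
  obtain ⟨L, hLc, hLn, hLl, hLp, hLr⟩ := exists_list l hl hit
    (fun s hs => ⟨(hhit s hs).1, (hhit s hs).2.1⟩)
  have hne : L ≠ [] := by
    intro h0
    rw [h0, List.length_nil] at hLl
    obtain ⟨s, hs⟩ := List.exists_mem_of_ne_nil l hl.ne
    have hT : P.T = 0 := by omega
    have hn : 0 < P.n := lt_of_le_of_lt (Nat.zero_le _) s.1.2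
    unfold Pat.T at hT
    omega
  obtain ⟨u, v, p, hp, hps, hpl⟩ := exists_path_of_list P.gr L hne hLc hLn
  refine ⟨u, v, p, hp, ?_, ?_⟩
  · intro a b q hq
    have h1 := walk_le hP.ub q hq
    omega
  · intro x hx hxp
    rw [hps] at hxp
    rcases x with x | c
    · obtain ⟨s, hs, hs1, hs2⟩ := hLp x hxp
      apply hs2
      apply (hhit s hs).2.2
      rw [hs1]
      exact hx
    · obtain ⟨s, hs, hs1⟩ := hLr c hxp
      have h2 := hKc c hx
      rcases hs1 with h | h
      · rw [h] at h2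
        exact (hlK s hs).1 h2
      · rw [h] at h2
        exact (hlK s hs).2 h2

end Pool.Agent.LptT
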