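import Pool.Agent.LptT.G1Cov
import Pool.Agent.LptT.G1Tree
import Pool.Agent.LptT.CertMain
import Pool.Agent.LptT.Glue
import Pool.Agent.LptT.Main

/-!
# The pattern with 42 cubic vertices is good for triples
-/

set_option autoImplicit false

namespace Pool.Agent.LptT.G1

open Cert

theorem describes : Describes pat 3 es := by
  unfold Describes
  exact ⟨by decide +kernel, by decide +kernel⟩

theorem pattern_bound : ∀ x : ℕ → Bool, LCyc pat.n es x →
    ∑ i ∈ Finset.range es.length, (if x i = true then ew es i else 0) ≤ 600 := by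
  refine cert_sound 42 es rs tr 600 ws ws_eq es_ok rs_ok ?_
  rw [pp_eq]
  exact tr_ok

theorem good : pat.Good 3 1800 where
  ub := glue_ub (c := 3) (M := 600) describes pattern_bound
  ex := cover_three
  conn := pat_conn

theorem lpt_four : ∃ (V : Type) (_ : Fintype V) (G : SimpleGraph V), G.Connected ∧
    ∀ S : Finset V, S.card ≤ 3 →
      ∃ (u v : V) (p : G.Walk u v), p.IsPath ∧
        (∀ (a b : V) (q : G.Walk a b), q.IsPath → q.length ≤ p.length) ∧
          ∀ x ∈ S, x ∉ p.support :=
  ⟨pat.VG, inferInstance, pat.gr, (reduction good).1, (reduction good).2⟩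

end Pool.Agent.LptT.G1
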