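import Pool.Agent.LptT.Defs

/-!
# The pattern with 42 cubic vertices
-/

set_option autoImplicit false

namespace Pool.Agent.LptT.G1

/-- First ends (packed, base 256): `3 v + t`. -/
def tA : ℕ := 420354285442744279863926894441116883620459586123118617576709021455681543322822696162225778011830102299905937629579356243408446900354269733151381537848646108160
/-- Second ends; 255 is infinity. -/
def tB : ℕ := 430718783460808472377772363961684040875164220748969832381674123465978234095644117551373692024965860466478423463948413518402348352554211940322418182820612081155
/-- Edge at a slot: `2 e` for the first end, `2 e + 1` for the second end. -/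
def tS : ℕ := 1409079518081705272294119522522704749085237552467278382330905515291249738557995702119376035755436310909064096022835762586456332965459156015526949157521783385194940953789172552828772779444743326818095946629846001414101556261872207060667753026105857733914401360306018344865484507729181766976212474564184832
/-- Weights. -/
def tW : ℕ := 48134347583022970798356768349005112700640843719372122039499002514525913033936265758718174389226138076206080857453243513086987019020011824560923041577290962968
/-- Distance from the vertex 0. -/
def tR : ℕ := 1100058485478904456565447727578420627478773037448266790794852551782759894686722276207823418537672960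

/-- Digit of a packed table. -/
def dig (t i : ℕ) : ℕ := (t >>> (8 * i)) % 256

/-- Slot with a given code. -/
def slot (c : ℕ) : Fin 42 × Fin 3 := (Fin.ofNat 42 (c / 3), Fin.ofNat 3 (c % 3))

/-- First end. -/
def pa (e : Fin 66) : Fin 42 × Fin 3 := slot (dig tA e.val)

/-- Second end. -/
def pb (e : Fin 66) : Option (Fin 42 × Fin 3) :=
  if dig tB e.val = 255 then none else some (slot (dig tB e.val))

/-- Edge at a slot. -/
def ps (p : Fin 42 × Fin 3) : Fin 66 × Bool :=
  (Fin.ofNat 66 (dig tS (3 * p.1.val + p.2.val) / 2), dig tS (3 * p.1.val + p.2.val) % 2 == 1)

/-- The weights of the pattern, times three. -/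
def pw (e : Fin 66) : ℕ := 3 * dig tW e.val

/-- The pattern. -/
def pat : Pat where
  n := 42
  m := 66
  a := pa
  b := pb
  sl := ps
  w := pw
  sl_a := by decide +kernel
  sl_b := by decide +kernel
  a_sl := by decide +kernel
  b_sl := by decide +kernel
  hw := by decide +kernel

theorem pat_conn : ∃ (r : Fin pat.n) (rk : Fin pat.n → ℕ), ∀ v, v = r ∨
    ∃ t q, pat.opp (v, t) = some q ∧ rk q.1 < rk v := by
  have h : ∀ v : Fin 42, v = (0 : Fin 42) ∨ ∃ t : Fin 3, (match pat.opp (v, t) with
      | none => false
      | some q => decide (dig tR q.1.val < dig tR v.val)) = true := by decide +kernel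
  refine ⟨(0 : Fin 42), fun v => dig tR v.val, fun v => ?_⟩
  rcases h v with h | ⟨t, ht⟩
  · exact Or.inl h
  · right
    refine ⟨t, ?_⟩
    cases hq : pat.opp (v, t) with
    | none => rw [hq] at ht; exact absurd ht Bool.false_ne_true
    | some q => rw [hq] at ht; exact ⟨q, rfl, of_decide_eq_true ht⟩

end Pool.Agent.LptT.G1
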