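import Pool.Agent.LptT.G1Rows

/-!
# Part 0 of the tree
-/

set_option autoImplicit false
set_option maxRecDepth 1000000

namespace Pool.Agent.LptT.G1

open Cert

/-- A part of the tree. -/
def tr0 : Tr :=
(.nd 26 (.nd 34 (.nd 21 (.nd 48 (.nd 19 (.nd 64 (.nd 16 (.nd 33 (.lf 4 [(0,96),(0,114),(1,114),(0,96),(2,12),(0,23),(2,12),(0,378),(0,72),(0,122),(3,18),(0,24),(0,6),(1,18),(0,24),(3,56),(0,24),(0,24),(2,24),(0,18),(0,23),(1,1),(0,24),(0,32),(0,17),(1,24),(0,472),(8,18),(33,26),(2,204),(25,39),(0,33),(39,8),(28,17),(16,83),(26,7),(10,90),(7,96),(19,6)])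
 (.nd 15 (.lf 4 [(0,91),(0,130),(1,130),(0,94),(0,2),(1,72),(3,12),(1,75),(0,138),(2,84),(1,56),(0,29),(0,5),(1,24),(3,56),(0,24),(0,26),(0,2),(1,27),(0,29),(1,66),(0,14),(2,66),(0,34),(0,22),(0,446),(1,3),(6,34),(11,60),(19,3),(3,163),(0,15),(2,42),(22,5),(30,10),(7,42),(1,10),(45,99),(37,64),(7,10),(9,11),(2,26),(2,5),(3,6),(2,5),(2,2)])
 (.nd 37 (.nd 56 (.nd 41 (.lf 1 [(0,16),(0,40),(1,40),(0,34),(1,5),(1,21),(0,55),(1,3),(0,20),(0,18),(0,76),(3,24),(2,16),(0,8),(0,6),(2,8),(0,6),(1,12),(0,8),(2,12),(2,8),(0,6),(0,6),(0,8),(1,14),(0,115),(8,16),(5,2),(1,8),(3,2),(23,48),(3,52),(6,10),(2,2),(13,2),(10,2),(8,6),(3,2),(4,2),(39,8),(16,42),(37,34),(7,24),(19,29),(3,13)])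
 (.lf 1 [(0,24),(0,48),(1,48),(0,24),(1,3),(1,18),(0,31),(1,5),(0,10),(0,18),(0,81),(3,17),(1,23),(3,1),(0,6),(0,6),(0,8),(1,14),(0,14),(2,14),(2,14),(0,3),(1,14),(0,6),(0,8),(0,121),(8,24),(35,54),(3,57),(6,3),(5,9),(4,3),(4,2),(29,8),(7,3),(21,9),(9,8),(16,32),(37,35),(7,30),(15,8),(3,17),(2,5),(0,6),(1,8),(0,2)]))
 (.lf 1 [(0,18),(0,38),(1,38),(0,18),(0,6),(0,3),(1,21),(0,19),(1,5),(0,4),(0,18),(0,60),(3,12),(0,2),(0,10),(0,4),(0,4),(0,8),(2,6),(0,8),(1,14),(0,12),(2,14),(5,20),(0,12),(0,2),(0,119),(8,14),(35,52),(3,36),(18,2),(3,2),(20,2),(9,6),(2,20),(4,14),(1,6),(45,26),(37,24),(7,28),(15,6),(3,11),(2,8),(0,9),(1,6),(0,2)]))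
 (.lf 2 [(0,55),(0,88),(1,87),(0,41),(1,6),(1,30),(0,27),(1,1),(1,47),(0,136),(4,36),(2,16),(0,12),(2,12),(0,16),(1,28),(0,28),(2,28),(2,13),(0,12),(0,13),(0,15),(0,9),(0,29),(0,234),(5,1),(2,39),(6,7),(16,5),(11,99),(0,1),(2,88),(3,8),(6,4),(12,4),(28,1),(39,13),(2,1),(13,57),(37,51),(7,52),(9,12),(2,12),(2,16),(3,17),(3,6),(1,16),(2,11)]))))
 (.nd 8 (.nd 22 (.lf 1 [(0,30),(0,38),(1,38),(0,16),(3,16),(0,24),(0,27),(0,21),(0,72),(1,48),(2,6),(1,14),(0,6),(2,14),(0,6),(2,7),(0,13),(0,1),(0,1),(0,13),(0,13),(1,4),(0,10),(0,2),(1,4),(0,10),(0,2),(0,12),(0,94),(8,14),(6,6),(5,3),(3,1),(19,27),(2,24),(13,8),(12,8),(1,7),(32,4),(47,9),(26,1),(10,24),(23,7),(9,8)])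
 (.nd 44 (.lf 2 [(0,29),(0,78),(1,73),(0,67),(3,10),(3,114),(0,86),(0,96),(2,32),(1,28),(0,22),(2,28),(0,12),(1,12),(0,16),(1,28),(0,12),(2,28),(0,16),(0,12),(2,16),(0,12),(1,31),(0,208),(5,5),(2,25),(7,19),(3,20),(0,26),(12,44),(9,10),(0,64),(2,48),(13,6),(11,24),(17,16),(14,4),(10,4),(39,83),(37,17),(20,10),(6,3),(2,10),(6,1)])
 (.lf 1 [(0,16),(0,37),(1,34),(0,32),(3,5),(3,58),(0,43),(0,48),(2,16),(1,6),(0,5),(1,2),(3,6),(0,8),(1,14),(0,6),(2,14),(0,6),(0,8),(2,6),(0,8),(1,14),(0,104),(5,3),(2,10),(7,8),(3,10),(0,13),(12,22),(9,5),(0,32),(2,24),(9,1),(12,4),(3,18),(16,8),(17,2),(47,40),(37,10)])))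
 (.lf 1 [(0,22),(0,34),(1,14),(0,26),(1,4),(1,15),(0,16),(0,19),(1,48),(0,37),(0,40),(2,6),(1,6),(0,14),(2,6),(0,14),(1,6),(0,8),(1,14),(0,6),(2,14),(1,3),(0,11),(1,1),(0,12),(0,6),(0,8),(0,86),(7,10),(8,2),(2,4),(1,3),(12,16),(10,19),(2,16),(4,8),(11,8),(26,8),(8,5),(39,3),(1,2),(0,1),(13,34),(2,1),(34,8)])))
 (.nd 2 (.nd 58 (.nd 6 (.lf 2 [(0,60),(0,60),(1,63),(0,60),(2,2),(0,36),(0,70),(1,6),(0,136),(0,36),(0,98),(2,6),(0,1),(0,27),(0,12),(1,1),(0,27),(0,11),(1,16),(0,12),(1,16),(0,16),(1,4),(0,16),(0,24),(0,4),(1,40),(2,12),(1,192),(7,12),(9,12),(0,4),(26,58),(2,50),(13,15),(12,15),(7,4),(8,4),(3,8),(11,12),(7,28),(41,64),(37,34),(17,1),(9,38),(2,1),(0,2)])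
 (.lf 1 [(1,25),(1,48),(0,18),(0,6),(2,8),(0,19),(1,3),(0,66),(0,18),(0,45),(2,13),(1,6),(0,14),(2,6),(0,14),(1,6),(0,8),(1,14),(0,6),(2,14),(0,2),(0,16),(0,8),(0,6),(2,8),(1,107),(5,1),(12,3),(1,10),(0,10),(22,8),(0,32),(7,8),(11,8),(26,8),(7,4),(12,2),(44,26),(37,21),(12,21),(14,11)]))
 (.lf 1 [(0,24),(0,34),(1,33),(0,24),(3,18),(0,31),(1,3),(0,68),(0,18),(0,51),(2,3),(1,14),(0,7),(2,14),(0,5),(1,6),(0,6),(1,14),(0,7),(2,14),(0,16),(1,5),(1,1),(1,20),(1,97),(7,10),(10,3),(26,30),(2,26),(13,7),(12,8),(16,7),(10,2),(4,1),(2,6),(9,6),(10,1),(25,32),(37,17),(1,1),(10,1),(0,8),(1,7),(4,1),(2,1),(3,17)]))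
 (.lf 2 [(0,28),(0,80),(2,44),(0,4),(0,6),(0,6),(0,30),(0,30),(1,6),(0,96),(0,36),(0,84),(2,12),(1,12),(0,28),(0,1),(1,12),(0,25),(1,6),(0,2),(0,6),(0,22),(0,16),(1,6),(0,22),(0,4),(1,10),(0,14),(0,2),(1,36),(1,182),(8,32),(14,6),(21,48),(2,36),(4,16),(9,1),(1,15),(50,2),(4,8),(10,1),(25,54),(2,12),(8,12),(27,10),(11,2),(9,10),(3,18),(3,6)])))
 (.nd 16 (.lf 3 [(0,66),(0,118),(1,118),(0,82),(2,9),(4,136),(0,115),(0,136),(3,10),(0,32),(0,22),(1,10),(0,32),(2,18),(2,42),(0,24),(2,42),(2,18),(1,14),(0,8),(0,18),(0,24),(0,394),(8,46),(7,8),(0,2),(10,112),(0,21),(0,82),(3,52),(9,60),(0,133),(2,6),(22,8),(3,14),(16,18),(11,16),(0,34),(35,14),(16,106),(2,10),(8,4),(27,6),(5,88),(1,24),(2,58),(4,10),(2,4),(1,6),(7,14)])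
 (.nd 57 (.lf 1 [(0,18),(0,26),(1,26),(0,18),(0,6),(2,15),(3,36),(0,29),(0,41),(2,6),(1,12),(0,7),(2,12),(0,6),(1,6),(0,8),(1,14),(0,6),(2,14),(0,8),(0,6),(0,14),(2,8),(0,14),(1,108),(8,2),(12,3),(6,14),(1,11),(3,8),(9,13),(0,28),(16,5),(12,6),(16,8),(20,6),(28,2),(15,26),(12,2),(35,3),(1,9),(4,1),(12,1),(9,14)])
 (.lf 6 [(0,129),(0,207),(1,199),(0,159),(3,90),(3,248),(0,225),(0,382),(2,36),(0,11),(0,73),(0,47),(2,62),(0,36),(1,36),(2,84),(0,36),(2,84),(1,65),(1,11),(0,44),(0,25),(0,33),(0,51),(0,701),(7,4),(0,59),(7,15),(4,18),(6,137),(0,1),(0,118),(3,99),(9,89),(0,210),(16,15),(12,26),(16,48),(8,19),(5,8),(23,11),(24,24),(1,183),(48,1),(1,103),(0,33),(1,8),(1,11),(2,11),(19,137)]))))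
 (.nd 54 (.nd 23 (.lf 1 [(0,23),(0,36),(1,32),(0,23),(0,1),(3,3),(1,3),(0,55),(0,18),(0,55),(2,21),(0,2),(0,12),(0,5),(1,1),(0,13),(0,4),(3,6),(2,14),(1,18),(0,1),(0,6),(0,6),(0,1),(1,5),(0,10),(0,5),(0,115),(5,4),(2,8),(9,3),(1,18),(0,18),(22,7),(0,41),(2,13),(13,6),(12,7),(4,14),(5,8),(8,4),(74,3),(38,18),(0,1),(6,1),(5,35),(0,24),(2,1)])
 (.lf 2 [(0,48),(0,58),(1,58),(0,45),(3,26),(0,10),(1,2),(0,138),(0,40),(0,112),(2,16),(1,16),(0,15),(2,16),(0,12),(3,12),(2,28),(0,12),(0,16),(0,3),(0,7),(0,12),(0,8),(1,4),(0,16),(0,12),(0,204),(8,10),(4,3),(4,6),(1,10),(0,10),(8,4),(14,70),(2,54),(13,1),(12,4),(4,28),(5,16),(83,1),(25,26),(12,10),(0,3),(6,3),(5,46),(3,3)]))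
 (.nd 58 (.nd 59 (.nd 41 (.nd 50 (.lf 1 [(0,10),(0,34),(1,34),(0,38),(3,11),(1,3),(1,68),(0,21),(0,58),(2,10),(0,6),(0,8),(0,8),(0,8),(1,14),(0,6),(1,14),(1,10),(1,24),(3,4),(0,10),(0,2),(0,14),(2,8),(0,6),(0,104),(8,10),(7,14),(1,3),(1,7),(0,7),(23,37),(2,34),(9,2),(16,8),(10,4),(4,10),(7,26),(13,2),(29,8),(52,10),(18,10),(2,42),(19,6),(0,12),(2,14)])
 (.lf 1 [(0,10),(0,34),(1,34),(0,38),(3,11),(0,3),(1,3),(0,68),(0,18),(0,58),(2,10),(0,6),(0,8),(0,8),(0,6),(1,16),(0,4),(9,4),(0,10),(0,2),(0,14),(2,8),(0,6),(0,104),(8,10),(7,14),(1,3),(1,7),(0,7),(23,37),(2,34),(17,2),(8,10),(2,11),(1,25),(6,6),(11,19),(13,2),(29,8),(39,6),(0,7),(11,10),(18,8),(5,4),(2,3),(14,5),(2,14)]))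
 (.lf 1 [(0,20),(0,32),(1,32),(0,28),(3,5),(0,1),(1,3),(0,78),(0,18),(0,64),(2,16),(1,14),(0,6),(1,8),(2,1),(4,6),(4,14),(0,6),(0,12),(0,2),(1,4),(0,10),(0,110),(8,8),(7,4),(1,3),(1,13),(0,13),(4,2),(18,43),(2,40),(13,8),(9,2),(1,5),(1,2),(1,10),(1,26),(6,6),(11,8),(16,4),(26,2),(39,6),(0,4),(0,4),(10,14),(24,4),(2,1),(2,8),(11,2)]))
 (.lf 1 [(0,24),(0,26),(1,26),(0,24),(0,3),(2,15),(0,3),(1,3),(0,60),(0,18),(0,48),(2,6),(1,11),(0,9),(2,11),(0,9),(3,4),(1,2),(3,12),(0,2),(3,14),(0,14),(1,100),(8,2),(8,3),(0,3),(1,3),(0,3),(23,33),(2,21),(4,3),(8,5),(2,3),(9,5),(2,2),(1,16),(27,6),(0,8),(73,5),(0,6),(0,7),(10,6),(10,2),(1,7),(14,3),(15,8)]))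
 (.nd 61 (.lf 2 [(0,48),(0,48),(1,45),(0,48),(3,35),(0,6),(1,6),(0,100),(0,36),(0,83),(2,7),(1,17),(0,23),(2,17),(0,23),(3,12),(5,9),(1,12),(2,28),(0,28),(0,1),(0,195),(9,3),(8,6),(1,1),(0,1),(23,51),(2,27),(4,11),(8,5),(2,11),(9,5),(4,28),(19,3),(3,22),(6,16),(9,1),(61,8),(0,14),(0,14),(10,7),(12,18),(0,16),(13,6),(20,10)])
 (.lf 1 [(0,16),(0,24),(1,24),(0,32),(3,15),(2,4),(0,47),(0,15),(0,42),(2,7),(1,14),(0,6),(2,14),(0,6),(5,6),(3,6),(3,5),(1,1),(0,13),(0,101),(16,7),(1,3),(1,3),(0,3),(4,3),(17,6),(0,27),(2,11),(13,8),(12,8),(2,6),(1,20),(6,2),(11,14),(4,8),(3,1),(1,16),(5,7),(66,8),(0,4),(11,4),(12,6),(33,1)])))))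
 (.nd 57 (.nd 36 (.lf 3 [(0,54),(0,74),(1,70),(0,54),(0,18),(1,9),(0,54),(2,90),(0,252),(1,135),(2,9),(0,27),(0,43),(0,10),(1,8),(0,24),(0,28),(0,12),(2,20),(0,2),(1,18),(0,26),(0,8),(0,20),(0,18),(0,42),(2,18),(0,42),(1,300),(7,2),(18,9),(13,27),(4,99),(2,63),(13,6),(14,2),(35,24),(42,10),(1,8),(24,10),(0,12),(0,4),(9,63),(2,2),(18,1),(1,8),(8,9),(17,18),(1,13),(2,5)])
 (.lf 1 [(0,24),(0,26),(1,22),(0,21),(0,3),(1,3),(0,18),(2,30),(0,84),(1,45),(2,3),(2,9),(0,6),(1,1),(0,9),(0,5),(1,2),(0,6),(2,8),(0,8),(1,8),(0,6),(0,14),(2,6),(0,14),(1,100),(7,2),(9,3),(8,3),(13,9),(4,33),(2,21),(3,3),(8,1),(3,3),(47,8),(42,3),(1,2),(24,4),(0,3),(0,3),(9,21),(2,2),(19,1),(0,1),(5,1),(2,3),(17,6)]))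
 (.nd 46 (.nd 2 (.lf 6 [(0,179),(0,113),(0,36),(0,254),(0,98),(2,9),(0,108),(2,206),(0,512),(1,288),(2,18),(1,84),(0,36),(2,84),(0,36),(1,8),(0,8),(0,28),(0,28),(0,42),(0,36),(3,80),(2,40),(0,36),(0,40),(0,44),(0,591),(2,27),(2,5),(9,8),(2,9),(7,18),(13,80),(4,189),(2,144),(13,48),(12,48),(13,6),(17,4),(48,48),(26,14),(11,170),(2,28),(11,40),(1,4),(15,9),(17,18)])
 (.lf 2 [(0,36),(0,100),(2,52),(1,10),(0,6),(0,26),(2,36),(0,144),(1,80),(2,16),(1,12),(0,28),(2,12),(0,28),(2,12),(0,28),(2,28),(0,37),(4,8),(0,10),(0,4),(0,12),(0,16),(0,200),(8,52),(7,4),(6,10),(2,6),(18,66),(2,32),(4,16),(11,16),(11,16),(16,9),(6,32),(3,4),(6,2),(43,40),(4,8),(33,8),(2,16),(20,16),(8,6),(17,22)]))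
 (.lf 4 [(0,102),(0,102),(0,9),(0,102),(0,71),(2,8),(0,68),(2,134),(0,366),(1,176),(2,28),(0,16),(0,40),(0,24),(2,24),(0,40),(0,16),(2,4),(1,23),(0,27),(0,4),(2,50),(2,24),(0,24),(0,26),(0,26),(0,408),(8,15),(6,6),(5,4),(2,12),(1,12),(13,50),(4,140),(2,80),(29,20),(79,12),(24,23),(1,12),(9,94),(3,3),(3,4),(6,26),(11,3),(2,5),(2,20),(17,28),(1,16)]))))
 (.nd 38 (.nd 64 (.nd 60 (.lf 3 [(0,95),(0,23),(0,49),(0,23),(0,49),(6,63),(0,173),(4,69),(0,17),(1,1),(0,41),(0,41),(0,1),(0,1),(0,41),(0,1),(0,41),(0,19),(2,40),(0,18),(2,9),(0,49),(0,1),(0,17),(0,25),(0,1),(0,41),(0,345),(15,23),(2,9),(1,54),(0,54),(4,9),(1,54),(0,54),(13,23),(0,17),(0,127),(0,101),(10,115),(28,21),(12,22),(1,31),(7,8),(17,24),(9,1),(14,24),(6,1),(0,1),(2,46),(92,6)])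
 (.lf 12 [(0,304),(0,133),(0,155),(0,133),(0,272),(3,127),(2,125),(0,701),(0,127),(3,200),(2,72),(0,96),(0,96),(0,72),(0,29),(0,37),(0,13),(0,123),(0,109),(2,109),(0,72),(1,43),(0,35),(1,37),(1,160),(0,80),(0,88),(0,1253),(15,16),(2,36),(1,89),(0,89),(4,36),(1,89),(0,89),(13,51),(1,449),(0,413),(10,72),(16,16),(24,37),(6,29),(6,8),(13,96),(9,29),(2,8),(0,45),(2,80),(7,53),(6,29),(0,21),(2,24),(5,59),(86,75)]))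
 (.lf 120 [(0,3013),(0,560),(0,2320),(0,560),(0,2747),(3,1720),(2,800),(0,6560),(0,1720),(3,867),(2,720),(0,960),(0,960),(0,720),(0,507),(0,747),(0,227),(0,1453),(0,1227),(1,53),(0,1280),(2,40),(0,280),(0,720),(0,613),(2,2533),(1,12080),(15,133),(2,360),(1,440),(0,440),(4,360),(1,440),(0,440),(13,733),(1,4040),(0,3680),(10,987),(41,667),(15,107),(5,853),(5,960),(9,173),(0,333),(0,53),(12,747),(6,227),(0,507),(0,893),(1,373),(5,213),(0,680),(0,67),(38,173),(45,67)]))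
 (.lf 3 [(0,72),(0,48),(0,24),(0,48),(0,72),(3,15),(2,54),(0,198),(0,15),(3,72),(4,18),(0,24),(0,6),(2,42),(0,18),(2,42),(0,18),(1,10),(0,16),(0,8),(0,2),(0,10),(0,16),(0,24),(0,18),(0,330),(18,9),(1,39),(0,39),(4,9),(1,39),(0,39),(13,24),(1,129),(0,120),(7,18),(1,60),(5,18),(23,24),(12,24),(54,6),(6,8),(3,12),(3,18),(0,8),(83,6),(1,24)])))
 (.nd 38 (.nd 1 (.nd 46 (.nd 5 (.nd 16 (.lf 1 [(0,133),(0,87),(1,68),(0,51),(0,17),(1,3),(0,18),(2,21),(4,27),(0,3),(1,23),(1,14),(0,6),(2,14),(1,14),(0,6),(2,14),(0,10),(1,6),(0,8),(0,5),(0,3),(0,8),(0,6),(2,144),(26,18),(1,33),(0,33),(0,15),(4,3),(8,51),(0,27),(6,2),(1,8),(13,8),(17,8),(7,4),(4,8),(20,2),(35,8),(7,44),(27,44),(1,29),(9,50),(56,3),(4,3),(1,6),(0,2)])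
 (.nd 43 (.lf 2 [(0,162),(0,154),(1,96),(0,62),(0,31),(2,30),(2,9),(1,33),(0,61),(1,16),(0,12),(1,40),(1,28),(0,28),(0,3),(0,34),(2,12),(0,28),(2,28),(0,28),(1,16),(0,12),(0,5),(0,9),(0,16),(0,12),(2,191),(6,4),(14,6),(22,48),(0,6),(8,12),(14,3),(4,6),(2,16),(42,28),(8,16),(26,29),(7,25),(27,44),(1,21),(3,16),(20,16),(4,3),(37,29),(3,7),(0,9),(2,3),(1,29),(0,3)])
 (.lf 1 [(0,118),(0,76),(1,42),(0,34),(0,8),(2,15),(2,3),(1,18),(0,18),(1,33),(0,6),(1,14),(0,6),(0,6),(3,25),(1,6),(0,14),(2,14),(0,14),(1,6),(0,8),(0,4),(0,2),(0,2),(0,4),(1,2),(0,97),(21,3),(4,3),(8,9),(8,30),(25,11),(6,8),(74,34),(3,2),(11,8),(23,18),(1,26),(3,8),(20,8),(42,27),(3,4),(5,24)])))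
 (.nd 40 (.nd 2 (.nd 16 (.lf 1 [(1,67),(0,25),(0,19),(0,43),(2,3),(0,18),(2,9),(1,12),(0,42),(2,3),(1,24),(0,16),(1,6),(0,8),(3,6),(0,14),(2,14),(0,14),(2,6),(0,3),(1,6),(0,6),(2,103),(17,25),(10,3),(0,6),(14,27),(0,6),(1,18),(4,10),(8,2),(13,2),(1,8),(28,3),(49,26),(5,7),(17,4),(0,7),(0,1),(11,11),(3,8),(5,9),(14,8),(4,3),(61,3)])
 (.lf 2 [(1,130),(0,50),(0,28),(0,88),(3,30),(1,6),(0,6),(1,36),(0,102),(2,12),(1,66),(0,45),(2,28),(0,12),(2,12),(0,28),(2,28),(0,28),(2,8),(0,12),(0,4),(0,5),(0,13),(2,188),(0,26),(16,45),(3,6),(13,6),(8,48),(2,54),(4,33),(8,17),(13,16),(1,16),(41,6),(24,5),(11,70),(5,17),(17,10),(0,1),(0,5),(15,16),(20,16),(52,6),(8,6),(7,1),(0,5)]))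
 (.lf 1 [(1,48),(2,24),(2,2),(0,3),(2,14),(1,7),(0,34),(2,14),(0,2),(0,16),(0,8),(0,6),(0,14),(2,6),(1,6),(0,14),(2,14),(0,14),(1,14),(2,6),(0,14),(2,6),(0,108),(6,8),(11,1),(1,13),(0,13),(4,3),(1,11),(0,11),(14,31),(0,10),(1,10),(4,4),(19,8),(4,8),(29,8),(12,8),(35,18),(41,8),(20,8)]))
 (.nd 42 (.lf 60 [(1,2880),(1,1680),(0,1440),(2,24),(0,324),(2,840),(1,420),(0,2040),(2,888),(0,120),(0,960),(1,1320),(1,360),(0,840),(2,360),(0,840),(2,840),(0,840),(1,696),(2,408),(0,744),(2,360),(0,6480),(6,240),(11,108),(1,684),(0,732),(4,180),(1,660),(0,660),(14,1860),(0,600),(1,600),(4,240),(5,480),(6,480),(11,480),(26,48),(2,336),(12,384),(10,1320),(9,24),(2,24),(11,1080),(5,24),(19,24),(15,480),(4,48),(15,480)])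
 (.lf 1 [(1,52),(0,4),(0,20),(0,32),(3,15),(2,6),(1,15),(0,38),(2,6),(1,20),(1,26),(5,6),(0,14),(2,12),(0,14),(1,10),(2,6),(0,10),(2,6),(0,100),(17,8),(0,3),(1,3),(0,3),(4,3),(1,3),(0,3),(14,27),(0,6),(1,14),(4,6),(5,12),(7,20),(2,6),(0,14),(6,8),(11,2),(14,2),(0,2),(1,4),(12,4),(35,26),(5,2),(17,2),(0,2),(0,2),(15,6),(20,6),(7,14)]))))
 (.nd 4 (.nd 53 (.lf 1 [(0,17),(0,72),(1,28),(0,66),(0,7),(2,18),(2,3),(1,18),(0,38),(2,3),(1,20),(0,10),(0,4),(1,7),(0,6),(4,8),(0,14),(1,20),(1,12),(0,2),(1,6),(0,12),(0,2),(1,4),(0,97),(6,6),(11,3),(7,3),(17,26),(0,5),(1,14),(4,4),(22,1),(2,49),(2,32),(1,8),(1,2),(12,6),(8,4),(12,6),(10,4),(62,17),(32,1),(38,2),(1,2),(21,1),(1,35)])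
 (.nd 9 (.lf 2 [(0,48),(0,104),(1,64),(0,80),(3,36),(2,6),(1,36),(0,70),(2,6),(0,3),(0,34),(1,28),(0,12),(1,3),(0,28),(5,12),(2,28),(2,12),(0,28),(2,12),(0,194),(6,16),(11,6),(7,6),(17,51),(0,9),(1,22),(6,9),(13,16),(1,3),(7,16),(2,12),(2,4),(22,16),(12,16),(62,16),(0,8),(0,14),(8,30),(30,8)])
 (.nd 43 (.nd 23 (.lf 4 [(1,154),(0,95),(1,106),(0,97),(2,84),(0,12),(1,24),(1,60),(0,104),(3,37),(0,32),(1,56),(0,56),(1,16),(6,24),(3,24),(0,4),(1,24),(0,26),(2,428),(7,1),(9,1),(0,32),(1,8),(0,8),(0,20),(21,116),(0,32),(1,8),(4,13),(21,24),(3,48),(2,24),(2,24),(11,56),(18,2),(29,4),(16,28),(17,16),(0,26),(1,40),(0,16),(9,26),(29,64),(2,32),(48,12)])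
 (.lf 2 [(0,25),(0,147),(0,22),(1,137),(0,23),(1,6),(0,51),(2,12),(1,30),(0,78),(2,6),(0,12),(0,42),(1,28),(0,28),(1,8),(4,6),(1,6),(2,13),(0,13),(2,12),(2,12),(0,188),(25,15),(3,6),(14,42),(0,6),(1,30),(26,12),(3,24),(2,6),(2,12),(77,8),(17,1),(0,13),(1,17),(0,11),(0,14),(8,51),(30,18),(1,16),(38,1),(15,6),(7,26),(3,6)]))
 (.lf 2 [(0,10),(0,174),(0,14),(1,166),(0,38),(2,36),(2,6),(1,36),(0,114),(2,6),(1,78),(0,28),(2,12),(10,3),(0,21),(0,15),(1,11),(0,19),(2,194),(18,6),(7,6),(8,18),(8,60),(2,66),(4,16),(12,16),(6,28),(5,30),(2,18),(2,12),(13,12),(4,2),(11,7),(64,3),(1,2),(0,20),(0,14),(0,20),(8,48),(30,30),(40,6),(1,14),(21,34),(0,6)]))))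
 (.nd 5 (.lf 1 [(0,156),(0,83),(0,6),(0,75),(4,36),(2,21),(4,59),(0,3),(1,6),(0,14),(2,14),(0,17),(5,13),(1,1),(0,13),(1,6),(0,6),(2,6),(2,123),(12,36),(5,3),(6,18),(0,7),(1,22),(0,22),(0,4),(4,35),(7,9),(0,56),(8,8),(16,3),(7,16),(0,19),(3,7),(45,8),(22,8),(11,43),(27,57),(28,4),(0,1),(39,26),(32,3),(1,28)])
 (.lf 1 [(1,42),(0,28),(5,19),(2,3),(1,18),(0,28),(2,3),(0,5),(0,10),(0,2),(0,12),(0,5),(0,1),(0,3),(0,11),(4,7),(2,19),(1,6),(0,6),(2,6),(2,97),(10,4),(1,9),(4,28),(0,3),(6,1),(0,3),(17,26),(0,5),(1,4),(4,1),(15,6),(1,1),(7,23),(2,9),(1,14),(11,12),(23,6),(11,1),(30,10),(17,4),(0,4),(0,4),(2,3),(32,6),(3,3),(72,3)]))))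
 (.nd 8 (.nd 63 (.nd 53 (.lf 4 [(0,220),(2,266),(0,96),(3,72),(2,58),(1,26),(0,24),(1,118),(0,12),(1,56),(0,24),(0,32),(0,9),(0,47),(0,38),(1,56),(2,24),(0,56),(1,32),(0,38),(0,56),(2,56),(0,56),(2,24),(0,434),(3,32),(4,234),(9,12),(7,12),(1,46),(0,46),(5,22),(8,136),(0,30),(37,32),(13,14),(31,55),(23,23),(10,72),(93,124),(3,46),(4,32),(2,32),(31,64)])
 (.nd 47 (.lf 4 [(0,132),(2,108),(0,78),(0,18),(2,66),(2,14),(1,70),(0,24),(1,74),(0,12),(1,56),(0,24),(0,32),(0,9),(0,47),(0,38),(1,56),(1,56),(0,12),(1,24),(2,56),(2,56),(0,56),(2,47),(0,390),(3,32),(4,12),(9,12),(7,12),(1,2),(0,2),(14,103),(0,19),(39,12),(3,32),(6,56),(24,23),(7,55),(23,23),(10,28),(93,54),(3,2),(4,32),(2,32)])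
 (.lf 2 [(0,112),(2,160),(0,48),(3,36),(2,21),(1,21),(2,79),(0,6),(1,2),(0,28),(2,28),(0,28),(2,28),(1,6),(1,6),(1,28),(0,28),(2,29),(0,29),(2,12),(0,209),(8,146),(9,6),(7,6),(1,15),(0,15),(5,31),(7,16),(0,74),(0,1),(7,16),(16,16),(4,16),(30,1),(5,1),(16,16),(34,53),(93,64),(5,15),(2,17),(2,17),(31,34),(1,11),(1,11)])))
 (.nd 48 (.lf 4 [(0,220),(2,252),(0,94),(0,2),(2,72),(2,42),(1,42),(2,134),(0,12),(1,56),(0,24),(0,32),(0,1),(0,55),(0,54),(1,24),(0,32),(1,56),(0,24),(2,56),(0,22),(0,34),(0,12),(2,24),(2,418),(8,156),(9,12),(7,12),(1,30),(0,30),(5,70),(7,8),(0,136),(0,14),(46,32),(27,56),(8,63),(23,31),(10,72),(93,126),(3,30),(3,10),(33,32)])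
 (.nd 55 (.lf 2 [(0,118),(2,156),(0,49),(3,36),(2,41),(1,1),(0,28),(1,55),(0,6),(1,28),(0,12),(0,16),(0,9),(0,20),(0,11),(1,12),(1,20),(3,40),(0,32),(0,20),(0,8),(1,12),(4,229),(8,139),(8,1),(0,6),(7,6),(1,35),(0,35),(5,7),(8,72),(0,23),(34,16),(6,12),(1,8),(30,40),(1,12),(6,23),(23,7),(10,40),(93,69),(3,35),(3,8),(35,31),(1,10),(1,10)])
 (.lf 4 [(0,159),(2,148),(0,91),(0,5),(2,72),(2,27),(1,57),(0,24),(1,87),(0,12),(1,56),(0,24),(0,32),(0,9),(0,47),(0,38),(1,43),(3,19),(0,43),(2,24),(2,24),(1,6),(1,18),(0,403),(3,19),(4,52),(9,12),(7,12),(1,15),(0,15),(14,106),(0,29),(40,19),(1,5),(6,29),(24,38),(8,55),(15,6),(7,23),(10,41),(93,67),(3,15),(37,7),(3,19)]))))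
 (.nd 21 (.nd 6 (.nd 15 (.lf 2 [(0,59),(3,48),(2,6),(2,6),(2,42),(0,23),(1,12),(0,42),(0,24),(2,28),(0,12),(2,28),(0,28),(1,5),(0,25),(0,12),(4,6),(1,6),(0,12),(0,6),(1,6),(0,188),(3,16),(3,64),(2,16),(33,48),(0,6),(22,16),(15,3),(0,5),(51,8),(21,3),(0,14),(137,11),(9,12)])
 (.lf 3 [(0,105),(3,72),(3,63),(1,9),(2,63),(0,34),(1,18),(1,19),(2,42),(0,18),(2,42),(0,42),(1,7),(0,37),(0,18),(5,18),(0,20),(3,20),(0,291),(3,24),(3,113),(2,41),(6,17),(0,9),(25,72),(0,9),(22,24),(15,5),(0,7),(18,1),(11,2),(20,12),(21,5),(0,21),(1,11),(17,20),(0,1),(0,20),(83,1),(20,9),(10,16),(9,1),(0,17)]))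
 (.lf 2 [(4,2),(0,46),(2,36),(2,6),(1,24),(0,14),(1,34),(0,6),(1,10),(0,9),(0,22),(0,22),(0,6),(0,6),(0,22),(0,28),(2,12),(0,28),(2,12),(1,8),(1,4),(0,12),(0,8),(1,4),(0,194),(3,16),(3,58),(2,10),(7,6),(7,6),(17,51),(0,9),(12,3),(24,16),(12,16),(32,16),(22,16),(9,12),(17,10),(0,12),(0,4),(115,2)]))
 (.lf 2 [(5,48),(0,2),(0,6),(0,34),(2,20),(2,12),(1,36),(0,8),(0,12),(2,28),(0,22),(2,28),(0,12),(2,12),(0,12),(2,12),(1,10),(1,2),(0,12),(0,10),(1,2),(0,202),(7,84),(2,36),(9,2),(5,6),(17,44),(0,2),(11,4),(10,6),(60,10),(22,10),(9,13),(17,9),(0,13),(0,3),(93,14),(5,8),(27,20)]))))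
 (.nd 10 (.nd 35 (.nd 34 (.nd 7 (.nd 54 (.lf 4 [(0,64),(0,96),(1,82),(0,128),(3,38),(2,39),(1,45),(2,137),(0,12),(2,31),(2,49),(0,31),(1,24),(0,32),(2,24),(0,32),(1,56),(0,24),(2,50),(0,24),(2,50),(0,415),(16,32),(9,12),(1,27),(0,27),(5,41),(7,8),(0,136),(0,11),(7,7),(8,25),(2,7),(9,25),(10,8),(17,26),(11,26),(86,6),(61,33)])
 (.nd 50 (.lf 1 [(0,24),(0,32),(1,16),(0,24),(3,3),(2,18),(1,3),(2,48),(0,8),(2,14),(2,6),(0,14),(2,14),(0,14),(1,4),(1,10),(1,14),(2,6),(0,14),(2,6),(0,112),(7,8),(10,3),(1,5),(0,5),(4,3),(1,15),(0,15),(5,24),(6,3),(0,11),(0,45),(8,8),(11,8),(25,6),(15,8),(12,8),(144,10),(40,8)])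
 (.lf 1 [(0,24),(0,32),(1,16),(0,24),(3,3),(2,21),(4,34),(0,18),(2,14),(2,6),(0,14),(1,14),(0,3),(1,6),(2,20),(1,14),(2,6),(0,14),(2,6),(0,122),(7,8),(10,3),(1,15),(0,15),(4,3),(1,18),(0,18),(5,3),(8,43),(0,12),(7,8),(11,8),(13,3),(3,8),(5,14),(7,6),(9,8),(12,8),(144,10),(59,7)])))
 (.nd 54 (.lf 2 [(0,90),(1,22),(0,50),(0,161),(3,33),(2,42),(4,107),(0,9),(2,28),(2,12),(0,28),(3,13),(0,12),(0,13),(0,15),(1,29),(0,9),(0,16),(0,10),(0,3),(0,5),(0,12),(2,235),(17,42),(0,6),(1,3),(0,3),(4,6),(1,36),(0,36),(5,54),(7,21),(0,101),(8,16),(11,16),(11,1),(16,1),(67,14),(19,5),(9,24),(5,13),(0,1),(65,38),(0,7),(0,3),(52,47),(4,5)])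
 (.lf 1 [(0,42),(1,1),(0,38),(0,96),(3,9),(2,21),(4,74),(0,12),(0,13),(1,1),(1,2),(0,12),(0,14),(3,7),(0,6),(2,20),(1,5),(0,9),(0,8),(0,5),(0,2),(0,6),(2,138),(17,18),(0,3),(1,9),(0,9),(4,3),(1,18),(0,18),(5,27),(7,18),(0,71),(8,1),(8,13),(1,4),(12,1),(13,1),(5,6),(47,3),(46,15),(6,1),(19,7),(2,7),(27,4),(0,2),(13,32),(0,1),(0,2),(3,7),(48,38),(4,23)])))
 (.nd 57 (.lf 2 [(0,80),(0,48),(1,67),(0,99),(3,16),(2,26),(1,16),(0,56),(2,26),(5,25),(0,27),(0,1),(0,1),(1,7),(0,21),(0,14),(1,7),(0,21),(0,24),(0,4),(0,20),(0,8),(1,12),(2,253),(17,32),(0,6),(1,20),(0,20),(4,6),(1,20),(0,20),(14,61),(0,19),(1,8),(6,12),(1,40),(5,28),(17,9),(72,6),(0,7),(0,1),(6,12),(29,2),(5,7),(20,2),(2,7),(6,2),(37,6),(0,2),(47,39),(9,17)])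
 (.lf 2 [(0,89),(0,41),(0,7),(0,52),(0,99),(6,42),(2,41),(2,42),(5,25),(0,27),(0,1),(2,7),(0,21),(0,15),(1,7),(0,21),(1,24),(1,6),(0,20),(0,8),(2,270),(17,41),(0,6),(1,36),(0,36),(4,6),(1,36),(0,36),(14,69),(0,27),(8,12),(1,40),(5,28),(17,9),(19,14),(6,6),(12,8),(32,6),(0,7),(0,1),(24,9),(11,10),(5,7),(20,3),(2,7),(6,3),(36,8),(4,10),(44,40),(9,1),(2,2)])))
 (.nd 43 (.nd 56 (.lf 60 [(0,2542),(0,818),(1,3845),(0,4325),(3,900),(2,180),(1,1080),(0,344),(1,1598),(0,360),(0,1023),(1,360),(2,360),(2,824),(0,16),(1,376),(0,791),(2,409),(0,982),(0,884),(1,98),(0,480),(0,360),(2,5820),(6,622),(10,1102),(3,180),(4,180),(8,158),(8,1609),(0,191),(10,338),(26,431),(8,16),(3,398),(23,600),(44,240),(1,240),(1,420),(22,1784),(11,180),(11,2065),(49,371),(1,120),(0,11),(0,240),(33,16),(1,16),(6,521),(20,502)])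
 (.lf 1 [(0,32),(0,36),(1,72),(0,68),(2,3),(0,18),(1,3),(0,3),(1,3),(0,14),(1,10),(0,3),(0,28),(3,6),(0,6),(2,6),(2,14),(0,6),(2,14),(1,7),(1,14),(0,11),(2,3),(0,94),(8,12),(8,8),(26,23),(0,2),(34,8),(11,8),(9,6),(0,15),(13,3),(2,5),(24,3),(21,1),(1,3),(22,36),(7,3),(13,7),(1,38),(0,4),(50,3),(44,14)]))
 (.lf 2 [(0,80),(0,48),(1,116),(0,148),(3,49),(2,6),(1,26),(0,28),(1,40),(0,6),(8,12),(2,28),(0,12),(2,28),(0,12),(0,12),(0,8),(0,8),(0,16),(0,12),(2,194),(17,32),(0,6),(6,13),(0,6),(17,51),(0,9),(10,28),(15,28),(7,16),(11,16),(27,28),(71,68),(21,14),(0,6),(50,6),(0,12),(1,2),(44,58),(15,6),(0,14),(0,6),(1,20)])))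
 (.nd 18 (.nd 28 (.nd 5 (.nd 59 (.lf 1 [(0,9),(0,15),(0,9),(0,15),(1,69),(2,18),(2,3),(1,19),(0,1),(1,23),(0,3),(2,5),(1,1),(0,13),(0,5),(2,6),(0,14),(2,6),(0,14),(2,17),(0,36),(0,32),(4,97),(12,45),(5,3),(7,3),(17,26),(0,5),(8,3),(1,17),(5,7),(12,7),(1,8),(11,8),(12,3),(3,10),(10,6),(27,10),(67,1),(0,1),(2,1),(48,43),(0,3),(0,7)])
 (.nd 16 (.lf 1 [(0,10),(0,23),(1,24),(1,8),(1,3),(0,18),(2,23),(1,2),(0,4),(1,20),(0,3),(4,6),(0,6),(3,6),(0,14),(2,6),(0,14),(1,6),(0,8),(2,8),(0,6),(2,117),(4,1),(23,17),(0,20),(14,34),(0,13),(10,14),(20,8),(11,8),(21,2),(8,2),(73,4),(9,23),(8,4),(0,7),(2,7),(6,3),(43,2),(13,3)])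
 (.nd 34 (.lf 1 [(0,18),(0,20),(0,4),(0,20),(1,12),(2,15),(0,3),(1,6),(1,15),(2,27),(0,6),(2,9),(2,11),(0,9),(2,9),(0,11),(2,9),(0,11),(1,2),(0,12),(2,10),(0,6),(2,94),(21,3),(13,3),(7,3),(0,24),(8,3),(8,5),(2,3),(9,5),(1,5),(8,3),(2,5),(9,3),(11,6),(0,2),(7,2),(73,9),(29,3),(43,6),(3,3),(5,3)])
 (.lf 1 [(0,36),(0,30),(1,30),(1,14),(2,15),(0,3),(1,6),(1,31),(0,22),(2,6),(5,6),(0,13),(3,14),(0,3),(1,6),(0,14),(2,14),(2,10),(0,4),(2,98),(8,6),(12,3),(22,23),(0,2),(8,21),(1,35),(17,6),(2,8),(7,3),(3,8),(18,2),(2,8),(8,4),(1,2),(30,3),(1,4),(57,16),(0,7),(2,4),(6,3),(43,6),(3,3),(0,3),(63,4)]))))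
 (.nd 9 (.nd 14 (.nd 12 (.lf 3 [(1,48),(1,96),(2,27),(1,63),(1,9),(0,9),(1,54),(0,24),(1,44),(1,17),(1,14),(1,4),(0,16),(0,27),(0,15),(2,42),(0,9),(1,18),(0,42),(1,42),(2,18),(0,42),(2,18),(0,282),(6,24),(37,68),(0,5),(6,1),(3,26),(20,24),(7,9),(3,24),(17,24),(12,24),(35,6),(47,18),(45,1),(0,11),(26,9)])
 (.lf 1 [(1,16),(1,32),(4,21),(2,9),(1,12),(0,8),(1,14),(1,6),(3,6),(0,6),(4,14),(0,3),(1,6),(0,14),(1,14),(2,6),(0,14),(2,6),(0,100),(6,8),(13,6),(1,3),(5,3),(0,6),(14,27),(0,6),(10,8),(20,8),(7,3),(3,8),(17,8),(12,8),(35,2),(67,3)]))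
 (.lf 3 [(1,48),(1,96),(5,9),(1,18),(1,45),(0,24),(1,44),(0,27),(0,17),(1,14),(1,4),(0,16),(0,27),(0,15),(2,42),(0,9),(1,18),(0,42),(1,42),(2,18),(0,42),(2,18),(0,300),(6,24),(11,9),(25,68),(0,5),(6,1),(3,26),(20,24),(7,9),(3,24),(17,24),(12,24),(35,6),(67,9),(25,1),(0,11),(26,9),(3,18)]))
 (.lf 1 [(1,71),(6,18),(2,3),(1,75),(0,57),(2,3),(0,53),(3,8),(0,1),(3,6),(0,14),(2,6),(0,14),(1,14),(2,6),(0,14),(2,6),(0,120),(0,47),(6,8),(10,3),(7,3),(8,9),(8,30),(2,33),(7,39),(10,2),(7,8),(2,8),(11,8),(17,8),(12,8),(92,57),(0,7),(0,2),(1,11),(33,3),(6,39),(77,23)])))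
 (.nd 30 (.lf 24 [(0,30),(0,810),(1,810),(1,546),(2,432),(2,438),(2,1720),(2,850),(0,480),(3,144),(0,150),(0,21),(0,15),(0,112),(0,224),(0,224),(0,112),(0,32),(0,144),(2,60),(0,426),(0,210),(2,204),(2,2694),(8,234),(9,72),(7,72),(1,366),(0,366),(14,795),(0,291),(9,144),(6,6),(39,150),(8,6),(11,60),(13,80),(2,32),(4,66),(14,136),(53,165),(2,150),(33,21),(4,778),(8,366),(0,66),(3,72),(0,138),(20,56)])
 (.lf 1 [(0,58),(0,73),(0,6),(0,17),(1,21),(2,18),(2,3),(4,23),(0,3),(2,6),(2,14),(0,6),(10,14),(0,13),(2,10),(2,97),(7,1),(10,3),(7,3),(17,25),(0,5),(6,3),(3,17),(5,8),(12,8),(2,18),(2,18),(11,6),(17,1),(3,2),(7,1),(21,4),(10,25),(26,7),(0,10),(0,7),(52,3),(27,1),(1,4),(1,3),(0,3),(19,6),(0,3),(5,55),(15,3)])))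
 (.nd 5 (.lf 1 [(0,124),(0,112),(1,112),(1,70),(5,3),(1,10),(2,25),(0,3),(2,2),(1,4),(1,3),(0,7),(0,7),(0,7),(0,6),(0,6),(12,97),(8,88),(3,46),(5,3),(7,3),(8,1),(7,1),(0,26),(0,4),(8,5),(1,19),(45,18),(2,18),(2,12),(2,12),(2,6),(2,6),(42,4),(1,7),(17,25),(0,19),(0,13),(11,113),(56,1),(40,3)])
 (.nd 44 (.lf 2 [(1,85),(1,48),(7,42),(4,59),(0,42),(0,25),(0,5),(2,12),(0,16),(1,28),(1,23),(0,17),(2,23),(0,17),(1,12),(2,28),(0,12),(2,28),(0,241),(15,16),(2,6),(1,36),(0,36),(4,6),(1,36),(0,36),(14,80),(0,27),(6,14),(3,52),(5,4),(14,5),(8,11),(2,5),(9,11),(4,16),(11,16),(77,27),(42,11),(20,37),(66,11),(9,41)])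
 (.lf 1 [(1,58),(1,24),(7,18),(1,3),(2,38),(0,24),(0,26),(5,32),(2,14),(0,6),(2,14),(0,6),(1,6),(2,14),(0,6),(2,14),(0,112),(0,18),(14,8),(2,3),(1,15),(0,15),(4,3),(1,15),(0,15),(5,14),(7,8),(0,40),(0,5),(10,32),(7,6),(8,18),(12,8),(12,8),(4,8),(11,8),(77,2),(53,7),(1,3),(0,10),(4,6),(1,34),(76,44)])))))))

theorem tr0_ok : chk 600 ws pp tr0 2181038089 0 = true := by decide +kernel

end Pool.Agent.LptT.G1
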