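import Pool.Agent.LptT.Defs

/-!
# Neighbours in the graph of a pattern
-/

set_option autoImplicit false

namespace Pool.Agent.LptT

namespace Pat

variable (P : Pat)

theorem adj_ll (p q : Fin P.n × Fin 9) :
    P.gr.Adj (.inl p) (.inl q) ↔ p.1 = q.1 ∧ fadj p.2 q.2 = true := Iff.rfl

theorem adj_lr (p : Fin P.n × Fin 9) (c : P.CV) :
    P.gr.Adj (.inl p) (.inr c) ↔ ∃ t, p.2 = term t ∧ c = P.cend (p.1, t) := Iff.rfl

theorem adj_rl (p : Fin P.n × Fin 9) (c : P.CV) :
    P.gr.Adj (.inr c) (.inl p) ↔ ∃ t, p.2 = term t ∧ c = P.cend (p.1, t) := Iff.rfl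

theorem adj_rr (c d : P.CV) :
    P.gr.Adj (.inr c) (.inr d) ↔ c.1 = d.1 ∧ (c.2.val + 1 = d.2.val ∨ d.2.val + 1 = c.2.val) := Iff.rfl

/-- The chain vertex at a slot lies on the chain of the edge of the slot. -/
theorem cend_edge (p : Fin P.n × Fin 3) : (P.cend p).1 = P.edge p := by
  unfold cend edge
  split <;> rfl

/-- The slot `p` is determined by its chain vertex and the side: if `cend p = c` then `p = a e` and the index of
`c` is `0`, or `b e = some p` and the index of `c` is `len e - 1` (`e` the edge of the chain).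
PROOF: unfold `cend`, cases on `(P.sl p).2`, use `a_sl` and `b_sl`. -/
theorem cend_cases (p : Fin P.n × Fin 3) (c : P.CV) (h : c = P.cend p) :
    (P.a c.1 = p ∧ c.2.val = 0) ∨ (P.b c.1 = some p ∧ c.2.val + 1 = P.len c.1) := by
  subst h
  by_cases h2 : (P.sl p).2 = true
  · right
    unfold cend
    rw [if_pos h2]
    refine ⟨P.b_sl p h2, ?_⟩
    have := P.len_pos (P.sl p).1
    show P.len (P.sl p).1 - 1 + 1 = P.len (P.sl p).1
    omega
  · left
    unfold cend
    rw [if_neg h2]
    refine ⟨P.a_sl p (by simpa using h2), rfl⟩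

/-- The chain vertex of the first slot of an edge. -/
theorem cend_a (e : Fin P.m) : P.cend (P.a e) = ⟨e, ⟨0, P.len_pos e⟩⟩ := by
  have h1 : (P.sl (P.a e)).1 = e := by rw [P.sl_a]
  have h2 : ¬ (P.sl (P.a e)).2 = true := by rw [P.sl_a]; simp
  unfold cend
  rw [if_neg h2]
  exact congrArg (fun e => (⟨e, ⟨0, P.len_pos e⟩⟩ : P.CV)) h1

/-- The chain vertex of the second slot of an edge. -/
theorem cend_b (e : Fin P.m) (p : Fin P.n × Fin 3) (h : P.b e = some p) :
    (P.cend p).1 = e ∧ (P.cend p).2.val + 1 = P.len (P.cend p).1 := by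
  have h0 := P.sl_b e p h
  have h1 : (P.cend p).1 = e := by rw [P.cend_edge, edge, h0]
  refine ⟨h1, ?_⟩
  have h2 : (P.sl p).2 = true := by rw [h0]
  unfold cend
  rw [if_pos h2]
  have := P.len_pos (P.sl p).1
  show P.len (P.sl p).1 - 1 + 1 = P.len (P.sl p).1
  omega

private def lo (c : P.CV) : Set P.VG :=
  {y | (∃ d : P.CV, y = .inr d ∧ d.1 = c.1 ∧ d.2.val + 1 = c.2.val) ∨
    (c.2.val = 0 ∧ y = .inl ((P.a c.1).1, term (P.a c.1).2))}

private def up (c : P.CV) : Set P.VG :=
  {y | (∃ d : P.CV, y = .inr d ∧ d.1 = c.1 ∧ c.2.val + 1 = d.2.val) ∨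
    (c.2.val + 1 = P.len c.1 ∧ ∃ q, P.b c.1 = some q ∧ y = .inl (q.1, term q.2))}

private theorem cv_ext (c d : P.CV) (h : c.1 = d.1) (h' : c.2.val = d.2.val) : c = d := by
  obtain ⟨e, i⟩ := c
  obtain ⟨e', i'⟩ := d
  simp only at h
  subst h
  simp only at h'
  congr 1
  exact Fin.ext h'

private theorem len_eq (c d : P.CV) (h : d.1 = c.1) : d.2.val < P.len c.1 := by
  obtain ⟨e, i⟩ := c
  obtain ⟨e', i'⟩ := d
  simp only at h
  subst h
  exact i'.isLt

private theorem lo_le (c : P.CV) : (lo P c).ncard ≤ 1 := by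
  rw [Set.ncard_le_one (Set.toFinite _)]
  rintro x hx y hy
  rcases hx with ⟨d, rfl, h1, h2⟩ | ⟨h1, rfl⟩ <;> rcases hy with ⟨d', rfl, h3, h4⟩ | ⟨h3, rfl⟩
  · rw [cv_ext P d d' (h1.trans h3.symm) (by omega)]
  · omega
  · omega
  · rfl

private theorem up_le (c : P.CV) : (up P c).ncard ≤ 1 := by
  rw [Set.ncard_le_one (Set.toFinite _)]
  rintro x hx y hy
  rcases hx with ⟨d, rfl, h1, h2⟩ | ⟨h1, q, h2, rfl⟩ <;> rcases hy with ⟨d', rfl, h3, h4⟩ | ⟨h3, q', h4, rfl⟩
  · rw [cv_ext P d d' (h1.trans h3.symm) (by omega)]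
  · have := len_eq P c d h1
    omega
  · have := len_eq P c d' h3
    omega
  · rw [h2] at h4
    simp only [Option.some.injEq] at h4
    subst h4
    rfl

private theorem nb_sub (c : P.CV) : {y | P.gr.Adj (.inr c) y} ⊆ lo P c ∪ up P c := by
  rintro (p | d) hy
  · have hy' := (P.adj_rl p c).1 hy
    obtain ⟨t, h1, h2⟩ := hy'
    rcases P.cend_cases (p.1, t) c h2 with ⟨h3, h4⟩ | ⟨h3, h4⟩
    · left
      right
      refine ⟨h4, ?_⟩
      rw [h3]
      simp only [← h1]
    · right
      right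
      refine ⟨h4, (p.1, t), h3, ?_⟩
      simp only [← h1]
  · have hy' := (P.adj_rr c d).1 hy
    rcases hy'.2 with h | h
    · right
      left
      exact ⟨d, rfl, hy'.1.symm, h⟩
    · left
      left
      exact ⟨d, rfl, hy'.1.symm, h⟩

/-- `cend` is injective up to the two sides: if two different slots have the same chain vertex, the chain
has exactly one vertex. Every vertex of a chain has at most two neighbours.

PROOF.  Let `c = ⟨e, i⟩`.  Its neighbours are contained in the union of two sets with at most one element: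
the lower neighbours: `inr ⟨e, i - 1⟩` if `i > 0`, or `inl ((a e).1, term (a e).2)` if `i = 0`; and the
upper neighbours: `inr ⟨e, i + 1⟩` if `i + 1 < len e`, or, if `i + 1 = len e` and `b e = some q`,
`inl (q.1, term q.2)`.  Use `cend_cases` for the neighbours of the form `inl`. -/
theorem nb_two (c : P.CV) : {y | P.gr.Adj (.inr c) y}.ncard ≤ 2 := by
  refine (Set.ncard_le_ncard (nb_sub P c) (Set.toFinite _)).trans ?_
  refine (Set.ncard_union_le _ _).trans ?_
  have := lo_le P c
  have := up_le P c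
  omega

/-- The last vertex of the chain of an exit has at most one neighbour (same proof, there is no upper
neighbour). -/
theorem nb_one (c : P.CV) (hb : P.b c.1 = none) (hc : c.2.val + 1 = P.len c.1) :
    {y | P.gr.Adj (.inr c) y}.ncard ≤ 1 := by
  have h1 : {y | P.gr.Adj (.inr c) y} ⊆ lo P c := by
    intro y hy
    rcases nb_sub P c hy with h | h
    · exact h
    · exfalso
      rcases h with ⟨d, rfl, h1, h2⟩ | ⟨h1, q, h2, rfl⟩
      · have := len_eq P c d h1
        omega
      · rw [hb] at h2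
        exact absurd h2 (by simp)
  exact (Set.ncard_le_ncard h1 (Set.toFinite _)).trans (lo_le P c)

end Pat

end Pool.Agent.LptT
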