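import Pool.Agent.LptT.Walk
import Pool.Agent.LptT.FragUse
import Pool.Agent.LptT.Conn
import Pool.Agent.LptT.CountB

/-!
# The upper bound for paths in the graph of a pattern
-/

set_option autoImplicit false

namespace Pool.Agent.LptT

/-- PROOF.  `pathLike_of_isPath` gives `S`, `U`.  If `u = inr c1`, `v = inr c2` with `b c1.1 = none`,
`b c2.1 = none`, `c1.1 ≠ c2.1`: `Cyc (ux S)` by `frag_use` (degrees), `exits_used` (two exits), `ux_conn`
(connectivity), and `count_case1` gives the bound.  Otherwise at most one exit is met: if `e ≠ f` were two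
exits in `ux S`, then by `chain_full` (contrapositive) each of the two chains contains `u` or `v`, so one
contains `u` and the other `v`, which is the first case.  So `count_case2` applies. -/
theorem walk_le {P : Pat} {M : ℕ} (hub : ∀ x : Finset (Fin P.m), P.Cyc x → ∑ e ∈ x, P.w e ≤ M)
    {u v : P.VG} (p : P.gr.Walk u v) (hp : p.IsPath) : p.length + 1 ≤ M + 2 * P.T := by
  obtain ⟨S, U, h, hS⟩ := pathLike_of_isPath P.gr p hp
  rw [← hS]
  clear hS
  by_cases hcase : ∃ c1 c2 : P.CV, u = Sum.inr c1 ∧ v = Sum.inr c2 ∧ P.b c1.1 = none ∧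
      P.b c2.1 = none ∧ c1.1 ≠ c2.1
  · obtain ⟨c1, c2, rfl, rfl, h1, h2, hne⟩ := hcase
    have hf := frag_use h h1 h2 hne
    have hi : ((P.ux S).filter (fun e => P.b e = none)).card = 2 := by
      rw [exits_used h h1 h2 hne, Finset.card_pair hne]
    have hcyc : P.Cyc (P.ux S) := by
      refine ⟨fun v => ?_, hi, fun X hX => ux_conn h h1 X hX⟩
      rcases hf v with h3 | h3
      · exact Or.inl h3.2
      · exact Or.inr h3.2
    exact (count_case1 S hi hf).trans (Nat.add_le_add_right (hub _ hcyc) _)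
  · have key : ∀ e ∈ (P.ux S).filter (fun e => P.b e = none),
        (∃ c' : P.CV, u = Sum.inr c' ∧ c'.1 = e) ∨ (∃ c' : P.CV, v = Sum.inr c' ∧ c'.1 = e) := by
      intro e he
      rw [Finset.mem_filter, P.mem_ux] at he
      obtain ⟨⟨c, rfl, hc⟩, hb⟩ := he
      by_contra hno
      rw [not_or] at hno
      exact (chain_full h c hc (fun c' h1 h2 => hno.1 ⟨c', h1, h2⟩)
        (fun c' h1 h2 => hno.2 ⟨c', h1, h2⟩)).1 hb
    have hi : ((P.ux S).filter (fun e => P.b e = none)).card ≤ 1 := by
      by_contra hlt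
      rw [not_le, Finset.one_lt_card] at hlt
      obtain ⟨e, he, f, hf, hef⟩ := hlt
      have hbe := (Finset.mem_filter.1 he).2
      have hbf := (Finset.mem_filter.1 hf).2
      rcases key e he with ⟨c1, h1, h2⟩ | ⟨c1, h1, h2⟩ <;>
        rcases key f hf with ⟨c2, h3, h4⟩ | ⟨c2, h3, h4⟩
      · rw [h1] at h3
        have h5 : c1 = c2 := Sum.inr_injective h3
        rw [h5] at h2
        exact hef (h2.symm.trans h4)
      · exact hcase ⟨c1, c2, h1, h3, by rw [h2]; exact hbe, by rw [h4]; exact hbf, by
          rw [h2, h4]; exact hef⟩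
      · exact hcase ⟨c2, c1, h3, h1, by rw [h4]; exact hbf, by rw [h2]; exact hbe, by
          rw [h2, h4]; exact hef.symm⟩
      · rw [h1] at h3
        have h5 : c1 = c2 := Sum.inr_injective h3
        rw [h5] at h2
        exact hef (h2.symm.trans h4)
    have h3 := count_case2 S hi
    omega

end Pool.Agent.LptT
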