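import Pool.Agent.LptT.Defs

/-!
# Paths as abstract structures, and paths from lists
-/

set_option autoImplicit false

namespace Pool.Agent.LptT

/-- The vertices and edges of a path form a `PathLike` structure.

PROOF.  `S = p.support.toFinset`, `U x y = p.toSubgraph.Adj x y` (or `s(x, y) ∈ p.edges`).  `symm`, `adj`,
`mem`, `memu`, `memv`: clear.  `S.card = p.length + 1`: the support of a path has no duplicates,
`SimpleGraph.Walk.length_support`.  `two`: Mathlib has
`SimpleGraph.Walk.IsPath.ncard_neighborSet_toSubgraph_internal_eq_two` (file
`Mathlib/Combinatorics/SimpleGraph/Connectivity/Subgraph.lean`): an internal vertex is `p.getVert i` with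
`0 < i < p.length`.  `closed`: let `X` be nonempty, contained in the support and closed; let `i` be an index
with `p.getVert i ∈ X`.  Since `U (p.getVert j) (p.getVert (j+1))` for `j < p.length`, closedness (in both
directions) gives `p.getVert j ∈ X` for all `j ≤ p.length` (induction upwards and downwards from `i`), so
`X = S`. -/
theorem pathLike_of_isPath {V : Type} [Fintype V] (G : SimpleGraph V) {u v : V} (p : G.Walk u v)
    (hp : p.IsPath) :
    ∃ (S : Finset V) (U : V → V → Prop), PathLike G u v S U ∧ S.card = p.length + 1 := by
  classical
  have hex : ∀ x, x ∈ p.support.toFinset → ∃ i, i ≤ p.length ∧ p.getVert i = x := by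
    intro x hx
    rw [List.mem_toFinset, SimpleGraph.Walk.mem_support_iff_exists_getVert] at hx
    obtain ⟨i, h1, h2⟩ := hx
    exact ⟨i, h2, h1⟩
  have hmem : ∀ x y, p.toSubgraph.Adj x y → x ∈ p.support.toFinset := by
    intro x y h
    rw [List.mem_toFinset, ← SimpleGraph.Walk.mem_verts_toSubgraph]
    exact p.toSubgraph.edge_vert h
  refine ⟨p.support.toFinset, fun x y => p.toSubgraph.Adj x y, ?_, ?_⟩
  · refine ⟨fun x y h => h.symm, fun x y h => h.adj_sub, hmem, ?_, ?_, ?_, ?_⟩
    · rw [List.mem_toFinset]
      exact p.start_mem_support
    · rw [List.mem_toFinset]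
      exact p.end_mem_support
    · intro x hx hxu hxv
      obtain ⟨i, hi, rfl⟩ := hex x hx
      have h1 : i ≠ 0 := by
        rintro rfl
        exact hxu (p.getVert_zero)
      have h2 : i ≠ p.length := by
        rintro rfl
        exact hxv (p.getVert_length)
      exact hp.ncard_neighborSet_toSubgraph_internal_eq_two h1 (by omega)
    · intro X hX hXS hcl
      obtain ⟨x, hx⟩ := hX
      obtain ⟨i, hi, rfl⟩ := hex x (hXS hx)
      have hup : ∀ j, i ≤ j → j ≤ p.length → p.getVert j ∈ X := by
        intro j hij
        induction j, hij using Nat.le_induction with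
        | base => exact fun _ => hx
        | succ j hij ih =>
          intro hj
          exact hcl _ (ih (by omega)) _ (p.toSubgraph_adj_getVert (by omega))
      have hdown : ∀ k, k ≤ i → p.getVert (i - k) ∈ X := by
        intro k
        induction k with
        | zero => exact fun _ => hx
        | succ k ih =>
          intro hk
          have h1 := ih (by omega)
          have h2 : p.toSubgraph.Adj (p.getVert (i - (k + 1))) (p.getVert (i - (k + 1) + 1)) :=
            p.toSubgraph_adj_getVert (by omega)
          have h3 : i - (k + 1) + 1 = i - k := by omega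
          rw [h3] at h2
          exact hcl _ h1 _ h2.symm
      refine Finset.Subset.antisymm hXS fun y hy => ?_
      obtain ⟨j, hj, rfl⟩ := hex y hy
      rcases le_total i j with h | h
      · exact hup j h hj
      · have h1 := hdown (i - j) (by omega)
        have h2 : i - (i - j) = j := by omega
        rwa [h2] at h1
  · rw [List.toFinset_card_of_nodup hp.support_nodup, SimpleGraph.Walk.length_support]

/-- A nonempty list without duplicates whose consecutive members are adjacent is the support of a path.
PROOF: `SimpleGraph.Walk.ofSupport`, `support_ofSupport`, `isPath_def`, `length_support`. -/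
theorem exists_path_of_list {V : Type} (G : SimpleGraph V) (l : List V) (hne : l ≠ [])
    (hc : l.IsChain G.Adj) (hn : l.Nodup) :
    ∃ (u v : V) (p : G.Walk u v), p.IsPath ∧ p.support = l ∧ p.length + 1 = l.length := by
  have h1 : (SimpleGraph.Walk.ofSupport l hne hc).support = l :=
    SimpleGraph.Walk.support_ofSupport hne hc
  refine ⟨_, _, SimpleGraph.Walk.ofSupport l hne hc, ?_, h1, ?_⟩
  · rw [SimpleGraph.Walk.isPath_def, h1]
    exact hn
  · rw [← SimpleGraph.Walk.length_support, h1]

end Pool.Agent.LptT
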